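import Pool.Agent.Work.MP_841263_al.Interface

/-! # Alignment, block ALN: the objects `S l` get the same phase (helper4) -/

set_option autoImplicit false

open CategoryTheory CategoryTheory.Limits CategoryTheory.Pretriangulated
open scoped ZeroObject Topology
open Filter

set_option backward.isDefEq.respectTransparency false
set_option backward.defeqAttrib.useBackward true
set_option linter.unusedSectionVars false

namespace Pool.Align

open Pool.Stab Pool.Tube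

universe v u

section Charge

variable {C : Type u} [Category.{v} C] [Preadditive C] [HasZeroObject C] [HasShift C ℤ]
  [∀ n : ℤ, (shiftFunctor C n).Additive] [Pretriangulated C]

lemma ALN_im_pos (σ : StabCond C) {t : ℝ} {X : C} (hX : σ.sl.In (Set.Ioo t (t + 1)) X)
    (h0 : ¬ IsZero X) : 0 < σ.im t (cls X) := by
  obtain ⟨l, hl, hI⟩ := hX
  cases hl with
  | zero h => exact absurd h h0
  | @step X' _ A φ l hX' hφ hA hA0 f g k hT =>
    rw [cls_mk hT, map_add]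
    have h1 := σ.im_nonneg_of_HN hX' (t := t) (fun ψ hψ =>
      ⟨(hI ψ (by simp [hψ])).1, (hI ψ (by simp [hψ])).2.le⟩)
    have h2 := hI φ (by simp)
    have h3 := σ.im_pos_of_P hA hA0 h2.1 h2.2
    linarith

lemma ALN_re_P_nonpos (σ : StabCond C) {t φ : ℝ} {X : C} (hX : σ.sl.P φ X)
    (h1 : t + 1 / 2 ≤ φ) (h2 : φ < t + 1) : σ.re t (cls X) ≤ 0 := by
  by_cases h0 : IsZero X
  · rw [cls_of_isZero h0, map_zero]
  obtain ⟨hp, hre, -⟩ := σ.polar t hX h0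
  rw [hre]
  refine mul_nonpos_of_nonneg_of_nonpos hp.le ?_
  refine Real.cos_nonpos_of_pi_div_two_le_of_le ?_ ?_
  · nlinarith [Real.pi_pos]
  · nlinarith [Real.pi_pos]

lemma ALN_re_P_neg (σ : StabCond C) {t φ : ℝ} {X : C} (hX : σ.sl.P φ X) (h0 : ¬ IsZero X)
    (h1 : t + 1 / 2 < φ) (h2 : φ < t + 1) : σ.re t (cls X) < 0 := by
  obtain ⟨hp, hre, -⟩ := σ.polar t hX h0
  rw [hre]
  refine mul_neg_of_pos_of_neg hp ?_
  refine Real.cos_neg_of_pi_div_two_lt_of_lt ?_ ?_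
  · nlinarith [Real.pi_pos]
  · nlinarith [Real.pi_pos]

lemma ALN_re_P_nonneg (σ : StabCond C) {t φ : ℝ} {X : C} (hX : σ.sl.P φ X)
    (h1 : t < φ) (h2 : φ ≤ t + 1 / 2) : 0 ≤ σ.re t (cls X) := by
  by_cases h0 : IsZero X
  · rw [cls_of_isZero h0, map_zero]
  obtain ⟨hp, hre, -⟩ := σ.polar t hX h0
  rw [hre]
  refine mul_nonneg hp.le ?_
  refine Real.cos_nonneg_of_neg_pi_div_two_le_of_le ?_ ?_
  · nlinarith [Real.pi_pos]
  · nlinarith [Real.pi_pos]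

lemma ALN_re_P_pos (σ : StabCond C) {t φ : ℝ} {X : C} (hX : σ.sl.P φ X) (h0 : ¬ IsZero X)
    (h1 : t < φ) (h2 : φ < t + 1 / 2) : 0 < σ.re t (cls X) := by
  obtain ⟨hp, hre, -⟩ := σ.polar t hX h0
  rw [hre]
  refine mul_pos hp ?_
  refine Real.cos_pos_of_mem_Ioo ⟨?_, ?_⟩
  · nlinarith [Real.pi_pos]
  · nlinarith [Real.pi_pos]

lemma ALN_half (σ : StabCond C) {t φ : ℝ} {X : C} (hX : σ.sl.P φ X) (h0 : ¬ IsZero X)
    (h1 : t < φ) (h2 : φ < t + 1) (hre : σ.re t (cls X) = 0) : φ = t + 1 / 2 := by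
  rcases lt_trichotomy φ (t + 1 / 2) with h | h | h
  · have := ALN_re_P_pos σ hX h0 h1 h
    linarith
  · exact h
  · have := ALN_re_P_neg σ hX h0 h h2
    linarith

lemma ALN_HN_neg (σ : StabCond C) {t : ℝ} {X : C} {l : List ℝ} (hX : HN σ.sl.P X l)
    (hl : ∀ φ ∈ l, t + 1 / 2 < φ ∧ φ < t + 1) :
    σ.re t (cls X) ≤ 0 ∧ (l ≠ [] → σ.re t (cls X) < 0) := by
  induction hX with
  | zero h =>
    rw [cls_of_isZero h, map_zero]
    exact ⟨le_rfl, fun h => absurd rfl h⟩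
  | @step X Y A φ l hX hφ hA hA0 f g k hT ih =>
    rw [cls_mk hT, map_add]
    have h1 := (ih (fun ψ hψ => hl ψ (by simp [hψ]))).1
    have h2 := hl φ (by simp)
    have h3 := ALN_re_P_neg σ hA hA0 h2.1 h2.2
    exact ⟨by linarith, fun _ => by linarith⟩

lemma ALN_HN_pos (σ : StabCond C) {t : ℝ} {X : C} {l : List ℝ} (hX : HN σ.sl.P X l)
    (hl : ∀ φ ∈ l, t < φ ∧ φ < t + 1 / 2) :
    0 ≤ σ.re t (cls X) ∧ (l ≠ [] → 0 < σ.re t (cls X)) := by
  induction hX with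
  | zero h =>
    rw [cls_of_isZero h, map_zero]
    exact ⟨le_rfl, fun h => absurd rfl h⟩
  | @step X Y A φ l hX hφ hA hA0 f g k hT ih =>
    rw [cls_mk hT, map_add]
    have h1 := (ih (fun ψ hψ => hl ψ (by simp [hψ]))).1
    have h2 := hl φ (by simp)
    have h3 := ALN_re_P_pos σ hA hA0 h2.1 h2.2
    exact ⟨by linarith, fun _ => by linarith⟩

/-- Both ends of the HN filtration of an object with `re = 0` which is not semistable. -/
lemma ALN_ends [IsTriangulated C] (σ : StabCond C) {t : ℝ} {X : C}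
    (hX : σ.sl.In (Set.Ioo t (t + 1)) X) (h0 : ¬ IsZero X) (hre : σ.re t (cls X) = 0)
    (hnot : ¬ σ.sl.P (t + 1 / 2) X) :
    ∃ (ψ ψ' : ℝ) (N Q P R : C) (f : N ⟶ X) (g : X ⟶ Q) (k : Q ⟶ N⟦(1 : ℤ)⟧)
      (a : P ⟶ X) (b : X ⟶ R) (c : R ⟶ P⟦(1 : ℤ)⟧),
      Triangle.mk f g k ∈ distTriang C ∧ Triangle.mk a b c ∈ distTriang C ∧
      t < ψ ∧ ψ < t + 1 / 2 ∧ t + 1 / 2 < ψ' ∧ ψ' < t + 1 ∧
      σ.sl.P ψ Q ∧ σ.sl.P ψ' P ∧ σ.sl.In (Set.Ioo ψ (t + 1)) N ∧ σ.sl.In (Set.Ioo t ψ') R ∧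
      ¬ IsZero N ∧ ¬ IsZero Q ∧ ¬ IsZero P ∧ ¬ IsZero R := by
  classical
  obtain ⟨L, hL, hI⟩ := hX
  have hL' := hL
  cases hL with
  | zero h => exact absurd h h0
  | @step N _ Q ψ l hN hψ hQ hQ0 f g k hT =>
    have hψI := hI ψ (by simp)
    by_cases hl : l = []
    · exfalso
      subst hl
      have hN0 : IsZero N := by
        cases hN with
        | zero h => exact h
      have := iso_of_isZero₁ hT hN0
      have hP : σ.sl.P ψ X := σ.sl.iso_mem _ (asIso g).symm hQ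
      have h1 := ALN_half σ hP h0 hψI.1 hψI.2 hre
      rw [h1] at hP
      exact hnot hP
    have hN0 : ¬ IsZero N := fun h => hl (hN.eq_nil h)
    have hsum := hre
    rw [cls_mk hT, map_add] at hsum
    have hψ2 : ψ < t + 1 / 2 := by
      by_contra hcon
      have h1 := ALN_re_P_nonpos σ hQ (not_lt.1 hcon) hψI.2
      have h2 := (ALN_HN_neg σ (t := t) hN (fun χ hχ =>
        ⟨lt_of_le_of_lt (not_lt.1 hcon) (hψ χ hχ), (hI χ (by simp [hχ])).2⟩)).2 hl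
      linarith
    -- the largest phase
    obtain ⟨ψ', hψ'L, hmax⟩ := Set.exists_max_image {x : ℝ | x ∈ ψ :: l} id
      (List.finite_toSet _) ⟨ψ, by simp⟩
    have hψ'I := hI ψ' hψ'L
    obtain ⟨P, R, a, b, c, hT', hP, hR⟩ := hL'.trunc (Set.Ici ψ') (isUpperSet_Ici _)
    have hP1 : ∀ χ ∈ (ψ :: l).filter (· ∈ Set.Ici ψ'), χ = ψ' := by
      intro χ hχ
      obtain ⟨h1, h2⟩ := List.mem_filter.1 hχ
      have h3 : ψ' ≤ χ := by simpa using h2
      exact le_antisymm (hmax χ h1) h3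
    have hR1 : ∀ χ ∈ (ψ :: l).filter (· ∉ Set.Ici ψ'), χ ∈ ψ :: l ∧ χ < ψ' := by
      intro χ hχ
      obtain ⟨h1, h2⟩ := List.mem_filter.1 hχ
      exact ⟨h1, by simpa using h2⟩
    have hlt : ψ < ψ' := by
      obtain ⟨χ, hχ⟩ := List.exists_mem_of_ne_nil l hl
      exact lt_of_lt_of_le (hψ χ hχ) (hmax χ (by simp [hχ]))
    have hPP : σ.sl.P ψ' P := Slicing.In.P_of_singleton ⟨_, hP, fun χ hχ => hP1 χ hχ⟩
    have hPne : (ψ :: l).filter (· ∈ Set.Ici ψ') ≠ [] := by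
      refine List.ne_nil_of_mem (a := ψ') (List.mem_filter.2 ⟨hψ'L, ?_⟩)
      simp
    have hRne : (ψ :: l).filter (· ∉ Set.Ici ψ') ≠ [] := by
      refine List.ne_nil_of_mem (a := ψ) (List.mem_filter.2 ⟨by simp, ?_⟩)
      simpa using hlt
    have hP0 : ¬ IsZero P := fun h => hPne (hP.eq_nil h)
    have hR0 : ¬ IsZero R := fun h => hRne (hR.eq_nil h)
    have hsum' := hre
    rw [cls_mk hT', map_add] at hsum'
    have hψ'2 : t + 1 / 2 < ψ' := by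
      by_contra hcon
      have h1 := ALN_re_P_nonneg σ hPP hψ'I.1 (not_lt.1 hcon)
      have h2 := (ALN_HN_pos σ (t := t) hR (fun χ hχ =>
        ⟨(hI χ (hR1 χ hχ).1).1, lt_of_lt_of_le (hR1 χ hχ).2 (not_lt.1 hcon)⟩)).2 hRne
      linarith
    exact ⟨ψ, ψ', N, Q, P, R, f, g, k, a, b, c, hT, hT', hψI.1, hψ2, hψ'2, hψ'I.2, hQ, hPP,
      ⟨l, hN, fun χ hχ => ⟨hψ χ hχ, (hI χ (by simp [hχ])).2⟩⟩,
      ⟨_, hR, fun χ hχ => ⟨(hI χ (hR1 χ hχ).1).1, (hR1 χ hχ).2⟩⟩, hN0, hQ0, hP0, hR0⟩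

/-- `X → Q` is an epimorphism of the heart. -/
lemma ALN_epi (σ : StabCond C) {t : ℝ} {N X Q W : C} {f : N ⟶ X} {g : X ⟶ Q}
    {k : Q ⟶ N⟦(1 : ℤ)⟧} (hT : Triangle.mk f g k ∈ distTriang C) (hN : σ.sl.Heart t N)
    (hW : σ.sl.Heart t W) (u : Q ⟶ W) (hu : g ≫ u = 0) : u = 0 := by
  obtain ⟨w, hw⟩ := Triangle.yoneda_exact₃ _ hT u hu
  have hw' : u = k ≫ w := hw
  have h0 : w = 0 := σ.hom_shift_zero hN hW w
  rw [hw', h0, comp_zero]

/-- `P → X` is a monomorphism of the heart. -/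
lemma ALN_mono (σ : StabCond C) {t : ℝ} {P X R W : C} {a : P ⟶ X} {b : X ⟶ R}
    {c : R ⟶ P⟦(1 : ℤ)⟧} (hT : Triangle.mk a b c ∈ distTriang C) (hR : σ.sl.Heart t R)
    (hW : σ.sl.Heart t W) (u : W ⟶ P) (hu : u ≫ a = 0) : u = 0 := by
  obtain ⟨a', c', hT'⟩ := exists_invrot hT
  obtain ⟨w, hw⟩ := Triangle.coyoneda_exact₂ _ hT' u hu
  have hw' : u = w ≫ a' := hw
  have h0 : w = 0 := by
    refine Slicing.In.hom_zero hW hR.shift_neg_one ?_ w
    rintro φ ⟨h1, -⟩ _ ⟨ψ, ⟨-, h4⟩, rfl⟩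
    show ψ - 1 < φ
    linarith
  rw [hw', h0, zero_comp]

end Charge

variable {C : Type u} [Category.{v} C] [Preadditive C] [HasZeroObject C] [HasShift C ℤ]
  [∀ n : ℤ, (shiftFunctor C n).Additive] [Pretriangulated C] [IsTriangulated C] [Linear ℂ C]
  [∀ n : ℤ, (shiftFunctor C n).Linear ℂ]

/-- `χ(X, Y) ≤ 0` for orthogonal objects of the heart. -/
lemma ALN_chi (h : EllipticSetting C) (σ : StabCond C) {t : ℝ} {X Y : C}
    (hX : σ.sl.Heart t X) (hY : σ.sl.Heart t Y) (h1 : ∀ f : X ⟶ Y, f = 0)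
    (h2 : ∀ f : Y ⟶ X, f = 0) : eulerForm h.k3 (cls X) (cls Y) ≤ 0 := by
  rw [eulerForm_cls, Slicing.Heart.eulerChar h.k3 hX hY, finrank_of_forall_zero h1,
    finrank_of_forall_zero h2]
  have : (0 : ℤ) ≤ (Module.finrank ℂ (X ⟶ Y⟦(1 : ℤ)⟧) : ℤ) := Int.natCast_nonneg _
  push_cast
  linarith

/-- The endomorphisms of an object with one-dimensional `End` are scalars. -/
lemma ALN_scalar {X : C} (hX : Module.finrank ℂ (X ⟶ X) = 1) (h0 : ¬ IsZero X) (u : X ⟶ X) :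
    ∃ c : ℂ, u = c • 𝟙 X := by
  have h1 : (𝟙 X : X ⟶ X) ≠ 0 := fun h => h0 ((IsZero.iff_id_eq_zero X).2 h)
  obtain ⟨c, hc⟩ := (finrank_eq_one_iff_of_nonzero' (𝟙 X) h1).1 hX u
  exact ⟨c, hc.symm⟩

/-- The last part: `S o` is semistable. -/
lemma ALN_last (hDOM : Stmt_DOM.{u}) (hSPL : Stmt_SPL C) {h : EllipticSetting C} {ε : K0 C}
    {n : ℕ} {β : Fin n → K0 C} {m : Fin n → ℕ} {o : Fin n} {S : Fin n → C}
    (hC : Coll h ε β m o S) (σ : StabCond C) {t : ℝ}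
    (hin : σ.sl.In (Set.Ioo t (t + 1)) (S o)) (h0 : ¬ IsZero (S o))
    (hre : σ.re t (cls (S o)) = 0) (hP : ∀ l, l ≠ o → σ.sl.P (t + 1 / 2) (S l)) :
    σ.sl.P (t + 1 / 2) (S o) := by
  by_contra hnot
  obtain ⟨ψ, ψ', N, Q, P, R, f, g, k, a, b, c, hT, hT', h1, h2, h3, h4, hQP, hPP, hN, hR, hN0,
    hQ0, hP0, hR0⟩ := ALN_ends σ hin h0 hre hnot
  have hSoH : σ.sl.Heart t (S o) := hin.mono (fun x hx => ⟨hx.1, hx.2.le⟩)
  have hNH : σ.sl.Heart t N := hN.mono (fun x hx => ⟨h1.trans hx.1, hx.2.le⟩)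
  have hRH : σ.sl.Heart t R := hR.mono (fun x hx => ⟨hx.1, (hx.2.trans h4).le⟩)
  have hQH : σ.sl.Heart t Q := Slicing.heart_of_P hQP h1 (by linarith)
  have hPH : σ.sl.Heart t P := Slicing.heart_of_P hPP (by linarith) h4.le
  have hSH : ∀ l, l ≠ o → σ.sl.Heart t (S l) := fun l hl =>
    Slicing.heart_of_P (hP l hl) (by linarith) (by linarith)
  have hend : Module.finrank ℂ (S o ⟶ S o) = 1 := (hC.sph o).1
  -- orthogonality
  have hQS : ∀ l, l ≠ o → ∀ u : Q ⟶ S l, u = 0 := fun l hl u =>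
    ALN_epi σ hT hNH (hSH l hl) u (hC.orth o l (Ne.symm hl) _)
  have hSQ : ∀ l, l ≠ o → ∀ u : S l ⟶ Q, u = 0 := fun l hl u =>
    σ.sl.hom_zero h2 (hP l hl) hQP u
  have hSP : ∀ l, l ≠ o → ∀ u : S l ⟶ P, u = 0 := fun l hl u =>
    ALN_mono σ hT' hRH (hSH l hl) u (hC.orth l o hl _)
  have hPS : ∀ l, l ≠ o → ∀ u : P ⟶ S l, u = 0 := fun l hl u =>
    σ.sl.hom_zero h3 hPP (hP l hl) u
  have hPQ : ∀ u : P ⟶ Q, u = 0 := fun u => σ.sl.hom_zero (by linarith) hPP hQP u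
  have hQP' : ∀ u : Q ⟶ P, u = 0 := by
    intro u
    obtain ⟨d, hd⟩ := ALN_scalar hend h0 (g ≫ u ≫ a)
    have hd0 : d = 0 := by
      by_contra hd0
      have hf : f = 0 := by
        have e1 : f ≫ g = 0 := comp_distTriang_mor_zero₁₂ _ hT
        have e2 : f ≫ g ≫ u ≫ a = 0 := by
          rw [← Category.assoc, e1, zero_comp]
        rw [hd, Linear.comp_smul, Category.comp_id] at e2
        exact (smul_eq_zero.1 e2).resolve_left hd0
      exact hN0 (isZero₁_of_mor₁ hT hf (fun r => σ.hom_shift_zero hNH hQH r))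
    rw [hd0, zero_smul] at hd
    have e3 : u ≫ a = 0 := ALN_epi σ hT hNH hSoH (u ≫ a) hd
    exact ALN_mono σ hT' hRH hQH u e3
  have := h.finite
  have := h.free
  obtain ⟨im, hlat, hroots⟩ := hC.lat
  have key := hDOM (K0 C) (eulerForm h.k3) im ε hlat n β m o hroots hC.lab hC.one (cls P)
    (cls Q)
    (fun l hl => by rw [← hC.cls_eq l]; exact ALN_chi h σ hPH (hSH l hl) (hPS l hl) (hSP l hl))
    (fun l hl => by rw [← hC.cls_eq l]; exact ALN_chi h σ hQH (hSH l hl) (hQS l hl) (hSQ l hl))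
    (ALN_chi h σ hPH hQH hPQ hQP')
  rcases key with hr | hr
  · refine hSPL h σ t P (S o) R a b c hT' hPH hSoH hRH hend hP0 hR0 ?_ (Or.inl hr)
    intro u
    refine Slicing.In.hom_zero (Slicing.in_of_P hPP (Set.mem_singleton _)) hR ?_ u
    rintro φ hφ χ hχ
    rw [Set.mem_singleton_iff.1 hφ]
    exact hχ.2
  · refine hSPL h σ t N (S o) Q f g k hT hNH hSoH hQH hend hN0 hQ0 ?_ (Or.inr hr)
    intro u
    refine Slicing.In.hom_zero hN (Slicing.in_of_P hQP (Set.mem_singleton _)) ?_ u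
    rintro φ hφ χ hχ
    rw [Set.mem_singleton_iff.1 hχ]
    exact hφ.1

theorem p_ALN {C : Type u} [Category.{v} C] [Preadditive C] [HasZeroObject C] [HasShift C ℤ]
    [∀ n : ℤ, (shiftFunctor C n).Additive] [Pretriangulated C] [IsTriangulated C] [Linear ℂ C]
    [∀ n : ℤ, (shiftFunctor C n).Linear ℂ] :
    Stmt_HOM.{u} → Stmt_HRT C → Stmt_DOM.{u} → Stmt_SPL C → Stmt_ALN C := by
  intro hHOM hHRT hDOM hSPL h ε n β m o S hC σ t δ n' α hF hTF hβ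
  have := h.finite
  have := h.free
  have hSpos : ∀ l, 0 < σ.im t (β l) := by
    intro l
    rw [← hC.cls_eq l]
    exact ALN_im_pos σ (hTF l).in (hTF l).2.1
  -- `δ = a ε + b ∑ m l β l`, `a ≠ 0`
  obtain ⟨a, b, hab⟩ := hC.lab.gen δ hF.rad
  have ha : a ≠ 0 := by
    intro ha
    rw [ha, zero_smul, zero_add] at hab
    have h1 := hF.im0
    rw [hab, map_zsmul, map_sum] at h1
    have h2 : 0 < ∑ l, σ.im t ((m l : ℤ) • β l) := by
      refine Finset.sum_pos (fun l _ => ?_) ⟨o, Finset.mem_univ _⟩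
      rw [map_zsmul, zsmul_eq_mul]
      have h3 : (0 : ℝ) < ((m l : ℤ) : ℝ) := by
        have := hC.lab.one_le l
        exact_mod_cast (by omega : (0 : ℤ) < (m l : ℤ))
      exact mul_pos h3 (hSpos l)
    rw [zsmul_eq_mul] at h1
    have h4 : (b : ℝ) = 0 := (mul_eq_zero.1 h1).resolve_right h2.ne'
    have h5 : b = 0 := by exact_mod_cast h4
    rw [h5, zero_smul] at hab
    exact hF.ne hab
  have ha' : (a : ℝ) ≠ 0 := by exact_mod_cast ha
  obtain ⟨im, hlat, hroots⟩ := hC.lat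
  obtain ⟨ρ, hρε, hρβ⟩ := hHOM (K0 C) (eulerForm h.k3) im ε n β hroots ℝ (-1 / (a : ℝ))
    (fun _ => 0)
  have hρδ : ρ δ = -1 := by
    rw [hab, map_add, map_zsmul, map_zsmul, map_sum, hρε]
    have h1 : ∑ l, ρ ((m l : ℤ) • β l) = 0 :=
      Finset.sum_eq_zero fun l _ => by rw [map_zsmul, hρβ l, smul_zero]
    rw [h1, smul_zero, add_zero, zsmul_eq_mul]
    field_simp
  -- the charge
  obtain ⟨W, hW⟩ : ∃ W : K0 C →+ ℂ, ∀ x, W x =
      ((ρ x : ℂ) + (σ.im t x : ℂ) * Complex.I) * Complex.exp (Real.pi * t * Complex.I) :=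
    ⟨AddMonoidHom.mk' (fun x => ((ρ x : ℂ) + (σ.im t x : ℂ) * Complex.I) *
      Complex.exp (Real.pi * t * Complex.I)) (fun x y => by
        rw [map_add, map_add]; push_cast; ring), fun x => rfl⟩
  have hrot : ∀ x, W x * Complex.exp (-(Real.pi * t * Complex.I)) =
      (ρ x : ℂ) + (σ.im t x : ℂ) * Complex.I := by
    intro x
    rw [hW, mul_assoc, ← Complex.exp_add, add_neg_cancel, Complex.exp_zero, mul_one]
  have hcell : InCell t δ α W := by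
    refine ⟨⟨1, one_pos, ?_⟩, fun i => ?_⟩
    · rw [hW, hρδ, hF.im0]
      push_cast
      ring
    · rw [hrot]
      have := hF.pos i
      simpa using this
  obtain ⟨σ', hZ, hJ, hF', hIsS⟩ := c_CEL C h σ t δ n' α hF W hcell
  have hTF' : ∀ l, σ'.TF t (S l) := fun l =>
    (hHRT h σ σ' t δ n' α hF hF' (fun i k X hX => hIsS i k X hX) (S l)).2.2.1 (hTF l)
  have hre : ∀ l, σ'.re t (cls (S l)) = 0 := by
    intro l
    rw [σ'.re_apply, hZ, hrot, hC.cls_eq l, hρβ l]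
    simp
  have hP : ∀ l, l ≠ o → σ'.sl.P (t + 1 / 2) (S l) := by
    intro l hl
    obtain ⟨i, k, hik⟩ := hβ l hl
    obtain ⟨-, φ, h1, h2, h3⟩ := c_SPH C h σ' t δ n' α hF' i k (S l)
      ⟨hTF' l, by rw [hC.cls_eq l, hik]⟩
    have h4 := ALN_half σ' h3.1 (hTF' l).2.1 h1 h2 (hre l)
    rw [← h4]
    exact h3.1
  refine ⟨σ', hJ, fun l => ?_⟩
  by_cases hl : l = o
  · subst hl
    exact ALN_last hDOM hSPL hC σ' (hTF' _).in (hTF' _).2.1 (hre _) hP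
  · exact hP l hl

end Pool.Align
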