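import Pool.Agent.Work.MP_841263_al.Top

set_option autoImplicit false
set_option linter.unusedSectionVars false

/-! # MP_841263, alignment, block AMP: the amplitude reduction, assembly -/

open CategoryTheory CategoryTheory.Limits CategoryTheory.Pretriangulated
open scoped ZeroObject Topology
open Filter

namespace Pool.Align

open Pool.Stab Pool.Tube

universe v u

variable {C : Type u} [Category.{v} C] [Preadditive C] [HasZeroObject C] [HasShift C ℤ]
  [∀ n : ℤ, (shiftFunctor C n).Additive] [Pretriangulated C] [IsTriangulated C] [Linear ℂ C]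
  [∀ n : ℤ, (shiftFunctor C n).Linear ℂ]

theorem AMP_list (L : List ℝ) : ∃ B : ℝ, 0 ≤ B ∧ ∀ φ ∈ L, |φ| ≤ B := by
  induction L with
  | nil => exact ⟨0, le_rfl, by simp⟩
  | cons a L ih =>
    obtain ⟨B, hB, h⟩ := ih
    refine ⟨|a| + B, by positivity, ?_⟩
    intro φ hφ
    rcases List.mem_cons.1 hφ with rfl | h1
    · linarith
    · have := h φ h1
      have := abs_nonneg a
      linarith

theorem AMP_aux (hCLO : Stmt_CLO C) (hHLF : Stmt_HLF C) (h : EllipticSetting C) {n : ℕ}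
    {S : Fin n → C} (hS : Semi S) : ∀ (N : ℕ) (σ : StabCond C) (φ : ℝ),
    (∀ l, σ.sl.In (Set.Ioc φ (φ + (N + 1))) (S l)) →
    ∃ (σ' : StabCond C) (φ' : ℝ), Joined σ σ' ∧ ∀ l, σ'.sl.Heart φ' (S l) := by
  intro N
  induction N with
  | zero =>
    intro σ φ hσ
    refine ⟨σ, φ, Joined.refl σ, fun l => (hσ l).mono ?_⟩
    intro x hx
    refine ⟨hx.1, ?_⟩
    have := hx.2
    push_cast at this
    linarith
  | succ N ih =>
    intro σ φ hσ
    obtain ⟨σ₁, ψ, h1, hr, h2⟩ := hCLO h n S hS σ φ (N + 1) (by omega) (fun l => (hσ l).mono (by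
      intro x hx
      refine ⟨hx.1, ?_⟩
      have := hx.2
      push_cast at this ⊢
      linarith))
    obtain ⟨σ₂, φ₂, h3, h4⟩ := hHLF h n S hS σ₁ ψ (N + 1) (by omega) hr h2
    obtain ⟨σ₃, φ₃, h5, h6⟩ := ih σ₂ φ₂ (fun l => (h4 l).mono (by
      intro x hx
      refine ⟨hx.1, ?_⟩
      have := hx.2
      push_cast at this
      linarith))
    exact ⟨σ₃, φ₃, (h1.trans h3).trans h5, h6⟩

theorem p_AMP : Stmt_CLO C → Stmt_HLF C → Stmt_AMP C := by
  intro hCLO hHLF h n S hS σ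
  have hb : ∀ l, ∃ B : ℝ, 0 ≤ B ∧ σ.sl.In {φ | |φ| ≤ B} (S l) := by
    intro l
    obtain ⟨L, hL⟩ := σ.sl.exists_HN (S l)
    obtain ⟨B, hB, h1⟩ := AMP_list L
    exact ⟨B, hB, L, hL, h1⟩
  choose B hB0 hB using hb
  obtain ⟨N, hN⟩ := exists_nat_ge (2 * (∑ l, B l + 1))
  refine AMP_aux hCLO hHLF h hS N σ (-(∑ l, B l + 1)) (fun l => (hB l).mono ?_)
  intro x hx
  have h1 : |x| ≤ B l := hx
  have h2 : B l ≤ ∑ l, B l :=
    Finset.single_le_sum (f := fun l => B l) (fun i _ => hB0 i) (Finset.mem_univ l)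
  have h3 := abs_le.1 h1
  refine ⟨by linarith [h3.1], by linarith [h3.2]⟩

end Pool.Align
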