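import Pool.Agent.Work.MP_841263_al.Interface

/-!
BDS (MP_841263_ag, alignment): no morphisms from `IsS j k` objects for large `k`, to them for small `k`.
-/

open CategoryTheory CategoryTheory.Limits CategoryTheory.Pretriangulated
open scoped ZeroObject Topology
open Filter

set_option backward.isDefEq.respectTransparency false
set_option linter.unusedSectionVars false

namespace Pool.Align

open Pool.Stab Pool.Tube

universe v u

lemma BDS_upper (t : ℝ) (l : List ℝ) (hl : ∀ ψ ∈ l, ψ ∈ Set.Ioo t (t + 1)) :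
    ∃ b ∈ Set.Ioo t (t + 1), ∀ ψ ∈ l, ψ ≤ b := by
  induction l with
  | nil => exact ⟨t + 1 / 2, ⟨by linarith, by linarith⟩, by simp⟩
  | cons a l ih =>
    obtain ⟨b, hb, h⟩ := ih (fun ψ hψ => hl ψ (by simp [hψ]))
    have ha := hl a (by simp)
    refine ⟨max a b, ⟨lt_max_of_lt_left ha.1, max_lt ha.2 hb.2⟩, ?_⟩
    intro ψ hψ
    rcases List.mem_cons.1 hψ with rfl | h1
    · exact le_max_left _ _
    · exact (h ψ h1).trans (le_max_right _ _)

lemma BDS_lower (t : ℝ) (l : List ℝ) (hl : ∀ ψ ∈ l, ψ ∈ Set.Ioo t (t + 1)) :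
    ∃ b ∈ Set.Ioo t (t + 1), ∀ ψ ∈ l, b ≤ ψ := by
  induction l with
  | nil => exact ⟨t + 1 / 2, ⟨by linarith, by linarith⟩, by simp⟩
  | cons a l ih =>
    obtain ⟨b, hb, h⟩ := ih (fun ψ hψ => hl ψ (by simp [hψ]))
    have ha := hl a (by simp)
    refine ⟨min a b, ⟨lt_min ha.1 hb.1, min_lt_of_left_lt ha.2⟩, ?_⟩
    intro ψ hψ
    rcases List.mem_cons.1 hψ with rfl | h1
    · exact min_le_left _ _
    · exact (min_le_right _ _).trans (h ψ h1)

lemma BDS_cot {t x y : ℝ} (h1 : x ≤ y) (h2 : y ≤ x + 1) :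
    Real.cos (Real.pi * (y - t)) * Real.sin (Real.pi * (x - t)) ≤
      Real.cos (Real.pi * (x - t)) * Real.sin (Real.pi * (y - t)) := by
  have h3 : 0 ≤ Real.sin (Real.pi * (y - t) - Real.pi * (x - t)) := by
    apply Real.sin_nonneg_of_nonneg_of_le_pi
    · nlinarith [Real.pi_pos]
    · nlinarith [Real.pi_pos]
  rw [Real.sin_sub] at h3
  linarith

lemma BDS_sin {t x : ℝ} (hx : x ∈ Set.Ioo t (t + 1)) : 0 < Real.sin (Real.pi * (x - t)) := by
  apply Real.sin_pos_of_pos_of_lt_pi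
  · exact mul_pos Real.pi_pos (by linarith [hx.1])
  · nlinarith [Real.pi_pos, hx.2]

theorem p_BDS {C : Type u} [Category.{v} C] [Preadditive C] [HasZeroObject C]
    [HasShift C ℤ] [∀ n : ℤ, (shiftFunctor C n).Additive] [Pretriangulated C] [IsTriangulated C]
    [Linear ℂ C] [∀ n : ℤ, (shiftFunctor C n).Linear ℂ] : Stmt_BDS C := by
  intro h σ t δ n α hF j X hX
  obtain ⟨l, hl, hI⟩ := hX.in
  have key : ∀ (k : ℤ) (Y : C), IsS σ t δ α j k Y → ∃ φ m : ℝ, φ ∈ Set.Ioo t (t + 1) ∧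
      σ.sl.P φ Y ∧ 0 < m ∧ σ.re t (α j) + k * σ.re t δ = m * Real.cos (Real.pi * (φ - t)) ∧
      σ.im t (α j) = m * Real.sin (Real.pi * (φ - t)) := by
    intro k Y hY
    obtain ⟨-, φ, h1, h2, h3⟩ := c_SPH C h σ t δ n α hF j k Y hY
    obtain ⟨h4, h5, h6⟩ := σ.polar t h3.1 h3.2.1
    refine ⟨φ, _, ⟨h1, h2⟩, h3.1, h4, ?_, ?_⟩
    · rw [← h5, hY.2, map_add, map_zsmul, zsmul_eq_mul]
    · rw [← h6, hY.2, map_add, map_zsmul, hF.im0, smul_zero, add_zero]
  constructor
  · obtain ⟨b, hb, hb2⟩ := BDS_upper t l hI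
    have hs := BDS_sin hb
    have hc : 0 < -σ.re t δ * Real.sin (Real.pi * (b - t)) :=
      mul_pos (neg_pos.2 hF.re0) hs
    obtain ⟨k₀, hk₀⟩ := exists_int_gt ((σ.re t (α j) * Real.sin (Real.pi * (b - t)) -
      σ.im t (α j) * Real.cos (Real.pi * (b - t))) / (-σ.re t δ * Real.sin (Real.pi * (b - t))))
    rw [div_lt_iff₀ hc] at hk₀
    refine ⟨k₀, ?_⟩
    intro k hk Y hY f
    obtain ⟨φ, m, hφ, hP, hm, hre, him⟩ := key k Y hY
    have hbφ : b < φ := by
      by_contra hcon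
      push Not at hcon
      have h1 := mul_le_mul_of_nonneg_left (BDS_cot (t := t) hcon (by linarith [hb.2, hφ.1])) hm.le
      have h2 : σ.im t (α j) * Real.cos (Real.pi * (b - t)) ≤
          (σ.re t (α j) + k * σ.re t δ) * Real.sin (Real.pi * (b - t)) := by
        rw [hre, him]
        linarith
      have h3 : (k₀ : ℝ) ≤ k := by exact_mod_cast hk
      have h4 := mul_le_mul_of_nonneg_right h3 hc.le
      linarith
    refine Slicing.hom_zero' (Slicing.hn_single hP hY.1.2.1) hl ?_ f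
    intro x hx ψ hψ
    rw [List.mem_singleton.1 hx]
    exact lt_of_le_of_lt (hb2 ψ hψ) hbφ
  · obtain ⟨b, hb, hb2⟩ := BDS_lower t l hI
    have hs := BDS_sin hb
    have hc : 0 < -σ.re t δ * Real.sin (Real.pi * (b - t)) :=
      mul_pos (neg_pos.2 hF.re0) hs
    obtain ⟨k₀, hk₀⟩ := exists_int_lt ((σ.re t (α j) * Real.sin (Real.pi * (b - t)) -
      σ.im t (α j) * Real.cos (Real.pi * (b - t))) / (-σ.re t δ * Real.sin (Real.pi * (b - t))))
    rw [lt_div_iff₀ hc] at hk₀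
    refine ⟨k₀, ?_⟩
    intro k hk Y hY f
    obtain ⟨φ, m, hφ, hP, hm, hre, him⟩ := key k Y hY
    have hbφ : φ < b := by
      by_contra hcon
      push Not at hcon
      have h1 := mul_le_mul_of_nonneg_left (BDS_cot (t := t) hcon (by linarith [hb.1, hφ.2])) hm.le
      have h2 : (σ.re t (α j) + k * σ.re t δ) * Real.sin (Real.pi * (b - t)) ≤
          σ.im t (α j) * Real.cos (Real.pi * (b - t)) := by
        rw [hre, him]
        linarith
      have h3 : (k : ℝ) ≤ k₀ := by exact_mod_cast hk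
      have h4 := mul_le_mul_of_nonneg_right h3 hc.le
      linarith
    refine Slicing.hom_zero' hl (Slicing.hn_single hP hY.1.2.1) ?_ f
    intro ψ hψ x hx
    rw [List.mem_singleton.1 hx]
    exact lt_of_lt_of_le hbφ (hb2 ψ hψ)

end Pool.Align
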