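import Pool.Agent.Work.MP_841263_al.Top

/-!
# Block CLO: from amplitude `N + 1` (half open) to amplitude `N` (closed)
-/

open CategoryTheory CategoryTheory.Limits CategoryTheory.Pretriangulated
open scoped ZeroObject Topology
open Filter

set_option backward.isDefEq.respectTransparency false
set_option backward.defeqAttrib.useBackward true
set_option linter.unusedSectionVars false

namespace Pool.Align

open Pool.Stab Pool.Tube

universe v u

section Aux

variable {C : Type u} [Category.{v} C] [Preadditive C] [HasZeroObject C] [HasShift C ℤ]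
  [∀ n : ℤ, (shiftFunctor C n).Additive] [Pretriangulated C]

/-- Finite direct sums. -/
lemma CLO_list (l : List C) : ∃ Y : C, Gen (fun Z => Z ∈ l) Y ∧
    ∀ X ∈ l, ∃ (i : X ⟶ Y) (p : Y ⟶ X), i ≫ p = 𝟙 X := by
  induction l with
  | nil => exact ⟨0, Gen.zero (isZero_zero C), by simp⟩
  | cons X l ih =>
    obtain ⟨Y, hY, h⟩ := ih
    refine ⟨X ⊞ Y, ?_, ?_⟩
    · exact Gen.ext (binaryBiproductTriangle_distinguished X Y) (Gen.of (by simp))
        (Gen.mono (fun Z hZ => List.mem_cons_of_mem _ hZ) hY)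
    · intro Z hZ
      rcases List.mem_cons.1 hZ with rfl | hZ
      · exact ⟨biprod.inl, biprod.fst, by simp⟩
      · obtain ⟨i, p, hip⟩ := h Z hZ
        exact ⟨i ≫ biprod.inr, biprod.snd ≫ p, by simp [hip]⟩

lemma CLO_sum {n : ℕ} (M : Fin n → C) : ∃ Y : C, Gen (fun Z => ∃ l, M l = Z) Y ∧
    ∀ l, ∃ (i : M l ⟶ Y) (p : Y ⟶ M l), i ≫ p = 𝟙 (M l) := by
  obtain ⟨Y, hY, h⟩ := CLO_list (List.ofFn M)
  refine ⟨Y, Gen.mono (fun Z hZ => ?_) hY, fun l => h (M l) ?_⟩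
  · exact (List.mem_ofFn' _ _).1 hZ
  · exact (List.mem_ofFn' _ _).2 ⟨l, rfl⟩

variable [IsTriangulated C] {S S' : Slicing C}

lemma CLO_heart {G : C → Prop} {t : ℝ} (hG : ∀ Z, G Z → S.Heart t Z) {Y : C} (hY : Gen G Y) :
    S.Heart t Y := by
  induction hY with
  | zero h => exact Slicing.heart_of_isZero h
  | of h => exact hG _ h
  | ext hT _ _ h1 h2 => exact Slicing.Heart.ext hT h1 h2

/-- Direct summands, upper sets. -/
lemma CLO_upper {U : Set ℝ} (hU : IsUpperSet U) {X Y : C} {i : X ⟶ Y} {p : Y ⟶ X}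
    (hip : i ≫ p = 𝟙 X) (hY : S.In U Y) : S.In U X := by
  obtain ⟨X', X'', f, g, k, hT, h1, h2⟩ := S.exists_trunc X hU
  have hg : g = 0 := by
    have h3 : p ≫ g = 0 := hY.hom_zero h2 (IsUpperSet.sep hU) _
    rw [← Category.id_comp g, ← hip, Category.assoc, h3, comp_zero]
  have hz : IsZero X'' := isZero₃_of_mor₂ hT hg
    (fun r => (h1.shift_upper hU).hom_zero h2 (IsUpperSet.sep hU) r)
  have := iso_of_isZero₃ hT hz
  exact h1.iso (asIso f)

/-- Direct summands, lower sets. -/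
lemma CLO_lower {U : Set ℝ} (hU : IsUpperSet U) {X Y : C} {i : X ⟶ Y} {p : Y ⟶ X}
    (hip : i ≫ p = 𝟙 X) (hY : S.In Uᶜ Y) : S.In Uᶜ X := by
  obtain ⟨X', X'', f, g, k, hT, h1, h2⟩ := S.exists_trunc X hU
  have hf : f = 0 := by
    have h3 : f ≫ i = 0 := h1.hom_zero hY (IsUpperSet.sep hU) _
    rw [← Category.comp_id f, ← hip, ← Category.assoc, h3, zero_comp]
  have hz : IsZero X' := isZero₁_of_mor₁ hT hf
    (fun r => (h1.shift_upper hU).hom_zero h2 (IsUpperSet.sep hU) r)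
  have := iso_of_isZero₁ hT hz
  exact h2.iso (asIso g).symm

/-- Truncation, with all the phases. -/
lemma CLO_trunc {I : Set ℝ} {X : C} (h : S.In I X) {U : Set ℝ} (hU : IsUpperSet U) :
    ∃ (X' X'' : C) (f : X' ⟶ X) (g : X ⟶ X'') (k : X'' ⟶ X'⟦(1 : ℤ)⟧),
      Triangle.mk f g k ∈ distTriang C ∧ S.In (I ∩ U) X' ∧ S.In (I ∩ Uᶜ) X'' := by
  classical
  obtain ⟨l, hl, hI⟩ := h
  obtain ⟨X', X'', f, g, k, hT, h1, h2⟩ := hl.trunc U hU
  exact ⟨X', X'', f, g, k, hT,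
    ⟨_, h1, fun φ hφ => ⟨hI φ (List.mem_filter.1 hφ).1,
      by simpa using (List.mem_filter.1 hφ).2⟩⟩,
    ⟨_, h2, fun φ hφ => ⟨hI φ (List.mem_filter.1 hφ).1,
      by simpa using (List.mem_filter.1 hφ).2⟩⟩⟩

/-- Semistable objects of the other slicing. -/
lemma CLO_P {t : ℝ} (hH : ∀ X, S.Heart t X → S'.Heart t X) {φ : ℝ} {A : C} (hA : S.P φ A) :
    ∃ k : ℤ, t + k < φ ∧ φ ≤ t + k + 1 ∧ S'.In (Set.Ioc (t + k) (t + k + 1)) A := by
  refine ⟨⌈φ - t⌉ - 1, ?_, ?_, ?_⟩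
  · have := Int.ceil_lt_add_one (φ - t)
    push_cast
    linarith
  · have := Int.le_ceil (φ - t)
    push_cast
    linarith
  · set k : ℤ := ⌈φ - t⌉ - 1 with hk
    have k1 : t + k < φ := by
      have := Int.ceil_lt_add_one (φ - t)
      rw [hk]
      push_cast
      linarith
    have k2 : φ ≤ t + k + 1 := by
      have := Int.le_ceil (φ - t)
      rw [hk]
      push_cast
      linarith
    have h1 : S.In {φ} A := Slicing.in_of_P hA rfl
    have h2 : S.Heart t (A⟦-k⟧) := by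
      refine (h1.shift (-k)).mono ?_
      rintro _ ⟨x, hx, rfl⟩
      have hx' : x = φ := hx
      subst hx'
      constructor
      · push_cast
        linarith
      · push_cast
        linarith
    have h3 := hH _ h2
    have e : (A⟦-k⟧)⟦k⟧ ≅ A := (shiftFunctorCompIsoId C (-k) k (by simp)).app A
    refine ((Slicing.In.shift h3 k).iso e).mono ?_
    rintro _ ⟨x, ⟨hx1, hx2⟩, rfl⟩
    constructor
    · show t + (k : ℝ) < x + k
      linarith
    · show x + (k : ℝ) ≤ t + k + 1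
      linarith

lemma CLO_up {t : ℝ} (hH : ∀ X, S.Heart t X → S'.Heart t X) (m : ℤ) {X : C}
    (h : S.In (Set.Ioi (t + m)) X) : S'.In (Set.Ioi (t + m)) X := by
  obtain ⟨l, hl, hI⟩ := h
  induction hl with
  | zero hX => exact Slicing.in_of_isZero _ hX
  | @step X Y A φ l hX hφ hA hA0 f g k hT ih =>
    have h1 := ih (fun ψ hψ => hI ψ (by simp [hψ]))
    have h2 : t + m < φ := hI φ (by simp)
    obtain ⟨j, j1, j2, hj⟩ := CLO_P hH hA
    have h3 : m ≤ j := by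
      have : (m : ℝ) < j + 1 := by linarith
      have : m < j + 1 := by exact_mod_cast this
      omega
    have h4 : (m : ℝ) ≤ j := by exact_mod_cast h3
    refine Slicing.In.ext_upper (isUpperSet_Ioi _) hT h1 (hj.mono ?_)
    rintro x ⟨hx1, hx2⟩
    show t + (m : ℝ) < x
    linarith

lemma CLO_low {t : ℝ} (hH : ∀ X, S.Heart t X → S'.Heart t X) (m : ℤ) {X : C}
    (h : S.In (Set.Ioi (t + m))ᶜ X) : S'.In (Set.Ioi (t + m))ᶜ X := by
  obtain ⟨l, hl, hI⟩ := h
  induction hl with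
  | zero hX => exact Slicing.in_of_isZero _ hX
  | @step X Y A φ l hX hφ hA hA0 f g k hT ih =>
    have h1 := ih (fun ψ hψ => hI ψ (by simp [hψ]))
    have h2 : φ ≤ t + m := not_lt.1 (hI φ (by simp))
    obtain ⟨j, j1, j2, hj⟩ := CLO_P hH hA
    have h3 : j + 1 ≤ m := by
      have : (j : ℝ) < m := by linarith
      have : j < m := by exact_mod_cast this
      omega
    have h4 : (j : ℝ) + 1 ≤ m := by exact_mod_cast h3
    refine Slicing.In.ext_lower (isUpperSet_Ioi _) hT h1 (hj.mono ?_)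
    rintro x ⟨hx1, hx2⟩
    show ¬ (t + (m : ℝ) < x)
    rw [not_lt]
    linarith

end Aux

/-- CLO: from the amplitude `N + 1` to the closed amplitude `N`. -/
theorem p_CLO {C : Type u} [Category.{v} C] [Preadditive C] [HasZeroObject C] [HasShift C ℤ]
    [∀ n : ℤ, (shiftFunctor C n).Additive] [Pretriangulated C] [IsTriangulated C] [Linear ℂ C]
    [∀ n : ℤ, (shiftFunctor C n).Linear ℂ] : Stmt_TUP C → Stmt_SEP C → Stmt_CLO C := by
  intro hTUP hSEP h n S hS σ φ N hN hIn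
  obtain ⟨σ₁, t, δ, hJ1, hT, hIn1⟩ := hTUP h σ φ N n S hIn
  have := h.finite
  have := h.free
  have hL := c_LHY C h σ₁ t δ hT
  obtain ⟨n', α, hα⟩ := c_BAS (K0 C) (eulerForm h.k3) (σ₁.im t) δ hL
  have hF : Frame h σ₁ t δ α := { toTubeHyp := hT, toSimpleRoots := hα }
  have hNR : (1 : ℝ) ≤ N := by exact_mod_cast hN
  -- the truncations
  choose A R a b c hT1 hA hR using
    fun l => CLO_trunc (hIn1 l) (isUpperSet_Ioi (t + N))
  choose R' M a' b' c' hT2 hR' hM using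
    fun l => CLO_trunc (hIn1 l) (isUpperSet_Ioi (t + 1))
  have hMH : ∀ l, σ₁.sl.Heart t (M l) := by
    intro l
    refine (hM l).mono ?_
    rintro x ⟨⟨h1, h2⟩, h3⟩
    exact ⟨h1, not_lt.1 h3⟩
  have hLI : ∀ l, σ₁.sl.In (Set.Ioo t (t + 1)) ((A l)⟦(-(N : ℤ))⟧) := by
    intro l
    refine ((hA l).shift (-(N : ℤ))).mono ?_
    rintro _ ⟨x, ⟨⟨h1, h2⟩, h3⟩, rfl⟩
    have h4 : t + N < x := h3
    constructor
    · push_cast
      linarith
    · push_cast
      linarith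
  have hLH : ∀ l, σ₁.sl.Heart t ((A l)⟦(-(N : ℤ))⟧) := fun l =>
    (hLI l).mono (fun x hx => ⟨hx.1, hx.2.le⟩)
  -- no morphisms
  have hom : ∀ l l' (f : M l ⟶ (A l')⟦(-(N : ℤ))⟧), f = 0 := by
    intro l l' f
    have hg : b' l ≫ f = 0 := by
      have hTs := Triangle.shift_distinguished _ (hT1 l') (-(N : ℤ))
      obtain ⟨u, w, hinv⟩ := exists_invrot hTs
      obtain ⟨v, hv⟩ := Triangle.coyoneda_exact₂ _ hinv (b' l ≫ f)
        (hS.neg l l' (-(N : ℤ)) (by omega) _)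
      have hv0 : v = 0 := by
        refine Slicing.In.hom_zero (hIn1 l) ((hR l').shift (-(N : ℤ))).shift_neg_one ?_ v
        rintro x ⟨hx1, hx2⟩ _ ⟨_, ⟨y, ⟨hy1, hy2⟩, rfl⟩, rfl⟩
        have hy3 : y ≤ t + N := not_lt.1 hy2
        show y + ((-(N : ℤ) : ℤ) : ℝ) - 1 < x
        push_cast
        linarith
      rw [hv, hv0]
      exact zero_comp
    obtain ⟨w, hw⟩ := Triangle.yoneda_exact₃ _ (hT2 l) f hg
    have hw0 : w = 0 := by
      refine Slicing.In.hom_zero (hR' l).shift_one (hLI l') ?_ w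
      rintro _ ⟨x, ⟨hx1, hx2⟩, rfl⟩ y ⟨hy1, hy2⟩
      have hx3 : t + 1 < x := hx2
      show y < x + 1
      linarith
    rw [hw, hw0]
    exact comp_zero
  have homP : ∀ T, σ₁.sl.P (t + 1) T → ∀ l (f : T ⟶ (A l)⟦(-(N : ℤ))⟧), f = 0 := by
    intro T hTP l f
    refine Slicing.In.hom_zero (Slicing.in_of_P hTP (Set.mem_singleton _)) (hLI l) ?_ f
    rintro x hx y ⟨hy1, hy2⟩
    have hx' : x = t + 1 := hx
    rw [hx']
    exact hy2
  -- the direct sums
  obtain ⟨MM, hMM, hMr⟩ := CLO_sum M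
  obtain ⟨LL, hLL, hLr⟩ := CLO_sum (fun l => (A l)⟦(-(N : ℤ))⟧)
  have hMMH : σ₁.sl.Heart t MM := by
    refine CLO_heart ?_ hMM
    rintro Z ⟨l, rfl⟩
    exact hMH l
  have hLLH : σ₁.sl.Heart t LL := by
    refine CLO_heart ?_ hLL
    rintro Z ⟨l, rfl⟩
    exact hLH l
  obtain ⟨σ₂, hJ2, hH, hr, hM2, hL2⟩ := hSEP h σ₁ t δ n' α hF MM LL hMMH hLLH
    (by
      intro f
      refine Gen.hom_zero ?_ hMM hLL f
      rintro X Y ⟨l, rfl⟩ ⟨l', rfl⟩ g
      exact hom l l' g)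
    (by
      intro T hTP f
      refine Gen.hom_zero (G := fun Z => Z = T) ?_ (Gen.of rfl) hLL f
      rintro X Y rfl ⟨l, rfl⟩ g
      exact homP _ hTP l g)
  refine ⟨σ₂, t + 1 / 2, hJ1.trans hJ2, hr, fun l => ?_⟩
  -- the phases for `σ₂`
  have up : σ₂.sl.In (Set.Ici (t + 1 / 2)) (S l) := by
    refine Slicing.In.ext_upper (isUpperSet_Ici _) (hT2 l) ?_ ?_
    · have h1 : σ₁.sl.In (Set.Ioi (t + ((1 : ℤ) : ℝ))) (R' l) := by
        refine (hR' l).mono ?_
        rintro x ⟨hx1, hx2⟩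
        have hx3 : t + 1 < x := hx2
        show t + ((1 : ℤ) : ℝ) < x
        push_cast
        exact hx3
      refine (CLO_up hH 1 h1).mono ?_
      intro x hx
      have hx' : t + ((1 : ℤ) : ℝ) < x := hx
      push_cast at hx'
      show t + 1 / 2 ≤ x
      linarith
    · obtain ⟨i, p, hip⟩ := hMr l
      exact CLO_upper (isUpperSet_Ici _) hip (hM2.mono (fun x hx => hx.1))
  have low : σ₂.sl.In (Set.Ioi (t + N + 1 / 2))ᶜ (S l) := by
    refine Slicing.In.ext_lower (isUpperSet_Ioi _) (hT1 l) ?_ ?_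
    · obtain ⟨i, p, hip⟩ := hLr l
      have h1 : σ₂.sl.In (Set.Ioi (t + 1 / 2))ᶜ ((A l)⟦(-(N : ℤ))⟧) :=
        CLO_lower (isUpperSet_Ioi _) hip (hL2.mono (fun x hx => not_lt.2 hx.2))
      have e : ((A l)⟦(-(N : ℤ))⟧)⟦(N : ℤ)⟧ ≅ A l :=
        (shiftFunctorCompIsoId C (-(N : ℤ)) N (by simp)).app (A l)
      refine ((h1.shift (N : ℤ)).iso e).mono ?_
      rintro _ ⟨x, hx, rfl⟩
      have hx' : x ≤ t + 1 / 2 := not_lt.1 hx
      show ¬ (t + N + 1 / 2 < x + ((N : ℤ) : ℝ))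
      rw [not_lt]
      push_cast
      linarith
    · have h1 : σ₁.sl.In (Set.Ioi (t + ((N : ℤ) : ℝ)))ᶜ (R l) := by
        refine (hR l).mono ?_
        rintro x ⟨hx1, hx2⟩
        have hx3 : x ≤ t + N := not_lt.1 hx2
        show ¬ (t + ((N : ℤ) : ℝ) < x)
        rw [not_lt]
        push_cast
        exact hx3
      refine (CLO_low hH N h1).mono ?_
      intro x hx
      have hx' : x ≤ t + ((N : ℤ) : ℝ) := not_lt.1 hx
      push_cast at hx'
      show ¬ (t + N + 1 / 2 < x)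
      rw [not_lt]
      linarith
  refine (Slicing.In.inter (isUpperSet_Ici _) (isUpperSet_Ioi _) up low).mono ?_
  rintro x ⟨hx1, hx2⟩
  have hx3 : x ≤ t + N + 1 / 2 := not_lt.1 hx2
  refine ⟨hx1, ?_⟩
  linarith

end Pool.Align
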