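import Pool.Agent.Work.MP_841263_al.Interface

/-! Block COR (helper54). -/

open CategoryTheory CategoryTheory.Limits CategoryTheory.Pretriangulated
open scoped ZeroObject Topology
open Filter

namespace Pool.Align

open Pool.Stab Pool.Tube

universe v u

/-- Countably many nonzero polynomials have a common non-root in every interval. -/
theorem COR_generic {ι : Type*} [Countable ι] (P : ι → Polynomial ℝ) (s0 : ℝ) (h0 : 0 < s0) :
    ∃ s : ℝ, 0 < s ∧ s < s0 ∧ ∀ i, P i ≠ 0 → (P i).eval s ≠ 0 := by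
  classical
  have hc : (⋃ i, {s : ℝ | P i ≠ 0 ∧ (P i).eval s = 0}).Countable := by
    apply Set.countable_iUnion
    intro i
    by_cases hP : P i = 0
    · have : {s : ℝ | P i ≠ 0 ∧ (P i).eval s = 0} = ∅ := by
        ext s
        simp [hP]
      rw [this]
      exact Set.countable_empty
    · apply Set.Finite.countable
      apply ((P i).roots.toFinset.finite_toSet).subset
      intro s hs
      rw [Finset.mem_coe, Multiset.mem_toFinset, Polynomial.mem_roots hP]
      exact hs.2
  have hI : ¬ (Set.Ioo 0 s0).Countable := by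
    rw [Cardinal.Real.Ioo_countable_iff]
    exact not_le.mpr h0
  by_contra hcon
  push Not at hcon
  apply hI
  apply hc.mono
  intro s hs
  obtain ⟨i, hi, hz⟩ := hcon s hs.1 hs.2
  exact Set.mem_iUnion.mpr ⟨i, hi, hz⟩

/-- the polynomial of a linear form on the curve -/
noncomputable def COR_pol {n : ℕ} (o : Fin n) (f : Fin n → ℝ) : Polynomial ℝ :=
  ∑ l, Polynomial.C (f l) *
    (Polynomial.C (if l = o then (1 : ℝ) else 0) + Polynomial.X ^ ((l : ℕ) + 1))

theorem COR_eval {n : ℕ} (o : Fin n) (f : Fin n → ℝ) (s : ℝ) :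
    (COR_pol o f).eval s = ∑ l, f l * ((if l = o then (1 : ℝ) else 0) + s ^ ((l : ℕ) + 1)) := by
  unfold COR_pol
  rw [Polynomial.eval_finsetSum]
  refine Finset.sum_congr rfl fun l _ => ?_
  rw [Polynomial.eval_mul, Polynomial.eval_C, Polynomial.eval_add, Polynomial.eval_C,
    Polynomial.eval_pow, Polynomial.eval_X]

theorem COR_ne {n : ℕ} (o : Fin n) (f : Fin n → ℝ) (j : Fin n) (hj : f j ≠ 0) :
    COR_pol o f ≠ 0 := by
  intro h
  apply hj
  have h1 : (COR_pol o f).coeff ((j : ℕ) + 1) = f j := by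
    unfold COR_pol
    rw [Polynomial.finsetSum_coeff]
    rw [Finset.sum_eq_single j]
    · rw [Polynomial.coeff_C_mul, Polynomial.coeff_add, Polynomial.coeff_C_succ,
        Polynomial.coeff_X_pow]
      simp
    · intro l _ hl
      rw [Polynomial.coeff_C_mul, Polynomial.coeff_add, Polynomial.coeff_C_succ,
        Polynomial.coeff_X_pow]
      have : ¬ ((j : ℕ) + 1 = (l : ℕ) + 1) := by
        intro h'
        apply hl
        exact Fin.ext (by omega)
      rw [if_neg this]
      simp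
    · intro h'
      exact absurd (Finset.mem_univ j) h'
  rw [h, Polynomial.coeff_zero] at h1
  exact h1.symm

theorem COR_sum {K : Type u} [AddCommGroup K] (y : K →+ ℝ) {n : ℕ} (β : Fin n → K)
    (c : Fin n → ℤ) : y (∑ l, c l • β l) = ∑ l, (c l : ℝ) * y (β l) := by
  rw [map_sum]
  refine Finset.sum_congr rfl fun l _ => ?_
  rw [map_zsmul, zsmul_eq_mul]

/-- Block COR. -/
theorem p_COR : Stmt_HOM.{u} → Stmt_CRN.{u} → Stmt_COR.{u} := by
  classical
  intro hHOM hCRN K _ _ _ B im ε hL n β m o hS hlab ho im' δ hL' hpos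
  obtain ⟨κ, hκ, hcrn⟩ := hCRN K B im ε hL n β m o hS hlab ho
  obtain ⟨a, b, hab⟩ := hlab.gen δ hL'.rad
  obtain ⟨δ', hδ'⟩ : ∃ δ' : K, δ' = ∑ l, (m l : ℤ) • β l := ⟨_, rfl⟩
  rw [← hδ'] at hab
  have him'pos : 0 < im' δ' := by
    rw [hδ', COR_sum im' β (fun l => (m l : ℤ))]
    refine Finset.sum_pos (fun l _ => mul_pos ?_ (hpos l)) ⟨o, Finset.mem_univ _⟩
    have := hlab.one_le l
    have h2 : (0 : ℤ) < (m l : ℤ) := by exact_mod_cast this
    exact_mod_cast h2
  have ha : a ≠ 0 := by
    intro h0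
    rw [h0, zero_zsmul, zero_add] at hab
    have h1 := hL'.im0
    rw [hab, map_zsmul, zsmul_eq_mul] at h1
    have hb : b = 0 := by
      rcases mul_eq_zero.mp h1 with h | h
      · exact_mod_cast h
      · exact absurd h him'pos.ne'
    rw [hb, zero_zsmul] at hab
    exact hL'.ne hab
  have haR : (a : ℝ) ≠ 0 := by exact_mod_cast ha
  have haP : 0 < |(a : ℝ)| := abs_pos.mpr haR
  have hs0 : 0 < min 1 (κ / |(a : ℝ)|) := lt_min one_pos (div_pos hκ haP)
  obtain ⟨s, hs, hs1, hgen⟩ := COR_generic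
    (fun i : ℤ × (Fin n → ℤ) => COR_pol o
      (fun l => (i.2 l : ℝ) - (i.1 : ℝ) * b * m l / a)) _ hs0
  have hs1' : s < 1 := lt_of_lt_of_le hs1 (min_le_left _ _)
  have hsκ : s < κ / |(a : ℝ)| := lt_of_lt_of_le hs1 (min_le_right _ _)
  obtain ⟨r, hr⟩ : ∃ r : Fin n → ℝ, r = fun l => (if l = o then (1 : ℝ) else 0) +
    s ^ ((l : ℕ) + 1) := ⟨_, rfl⟩
  have hrpos : ∀ l, 0 < r l := by
    intro l
    rw [hr]
    have h1 : 0 < s ^ ((l : ℕ) + 1) := pow_pos hs _
    have h2 : (0 : ℝ) ≤ (if l = o then (1 : ℝ) else 0) := by split_ifs <;> norm_num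
    show 0 < (if l = o then (1 : ℝ) else 0) + s ^ ((l : ℕ) + 1)
    linarith
  obtain ⟨Y, hY⟩ : ∃ Y : ℝ, Y = ∑ l, (m l : ℝ) * r l := ⟨_, rfl⟩
  have hY1 : 1 ≤ Y := by
    have h1 : (m o : ℝ) * r o ≤ Y := by
      rw [hY]
      exact Finset.single_le_sum (f := fun l => (m l : ℝ) * r l)
        (fun l _ => mul_nonneg (Nat.cast_nonneg _) (hrpos l).le) (Finset.mem_univ o)
    have h2 : 1 ≤ r o := by
      rw [hr]
      have h1 : 0 < s ^ ((o : ℕ) + 1) := pow_pos hs _
      show 1 ≤ (if o = o then (1 : ℝ) else 0) + s ^ ((o : ℕ) + 1)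
      rw [if_pos rfl]
      linarith
    rw [ho, Nat.cast_one, one_mul] at h1
    linarith
  obtain ⟨y, hyε, hyβ⟩ := hHOM K B im ε n β hS ℝ (-(b : ℝ) * Y / a) r
  have hyδ' : y δ' = Y := by
    rw [hδ', COR_sum y β (fun l => (m l : ℤ)), hY]
    refine Finset.sum_congr rfl fun l _ => ?_
    rw [hyβ l]
    push_cast
    ring
  have hyδ : y δ = 0 := by
    rw [hab, map_add, map_zsmul, map_zsmul, zsmul_eq_mul, zsmul_eq_mul, hyε, hyδ']
    field_simp
    ring
  have hYpos : 0 < Y := by linarith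
  refine ⟨y, hyδ, ?_, ?_, fun l => by rw [hyβ l]; exact hrpos l, ?_⟩
  · -- roots
    intro x hx
    obtain ⟨k, c, hxc⟩ := hS.span x
    have h1 : y x = (COR_pol o (fun l => (c l : ℝ) - (k : ℝ) * b * m l / a)).eval s := by
      rw [COR_eval, hxc, map_add, map_zsmul, zsmul_eq_mul, hyε, COR_sum y β c]
      have h2 : ∀ l, y (β l) = (if l = o then (1 : ℝ) else 0) + s ^ ((l : ℕ) + 1) := by
        intro l
        rw [hyβ l, hr]
      have h3 : Y = ∑ l, (m l : ℝ) * y (β l) := by
        rw [hY]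
        refine Finset.sum_congr rfl fun l _ => ?_
        rw [hyβ l]
      rw [h3]
      simp only [← h2]
      have h4 : (k : ℝ) * (-(b : ℝ) * (∑ l, (m l : ℝ) * y (β l)) / a) =
          ∑ l, (-((k : ℝ) * b * m l / a) * y (β l)) := by
        rw [Finset.mul_sum, Finset.sum_div, Finset.mul_sum]
        refine Finset.sum_congr rfl fun l _ => ?_
        ring
      rw [h4, ← Finset.sum_add_distrib]
      refine Finset.sum_congr rfl fun l _ => ?_
      ring
    rw [h1]
    refine hgen (k, c) ?_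
    by_contra hP
    have h5 : ∀ l, (c l : ℝ) - (k : ℝ) * b * m l / a = 0 := by
      intro l
      by_contra hl
      exact COR_ne o (fun l => (c l : ℝ) - (k : ℝ) * b * m l / a) l hl hP
    have h6 : ∀ l, a * c l = k * b * m l := by
      intro l
      have h7 := h5 l
      have h8 : (a : ℝ) * c l = k * b * m l := by
        field_simp at h7
        linarith
      exact_mod_cast h8
    have h9 : a • x = k • δ := by
      rw [hxc, hab, smul_add, smul_add, smul_smul, smul_smul, smul_smul, Finset.smul_sum, hδ',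
        Finset.smul_sum, mul_comm a k]
      congr 1
      refine Finset.sum_congr rfl fun l _ => ?_
      rw [smul_smul, smul_smul, h6 l]
    have h10 : B (a • x) (a • x) = a ^ 2 * 2 := by
      rw [map_zsmul, map_zsmul, AddMonoidHom.coe_smul, Pi.smul_apply, smul_eq_mul, smul_eq_mul,
        hx]
      ring
    have h11 : B (k • δ) (k • δ) = 0 := (radical B).smul_mem k hL'.rad (k • δ)
    rw [h9, h11] at h10
    have h12 : a ^ 2 = 0 := by omega
    exact ha (pow_eq_zero_iff (two_ne_zero) |>.mp h12)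
  · -- radical
    intro x hx hxpos
    obtain ⟨p, q, hpq⟩ := hlab.gen x hx
    rw [← hδ'] at hpq
    have e1 : (a : ℝ) * im' ε = -(b : ℝ) * im' δ' := by
      have h1 := hL'.im0
      rw [hab, map_add, map_zsmul, map_zsmul, zsmul_eq_mul, zsmul_eq_mul] at h1
      linarith
    have e2 : im' x = (p : ℝ) * im' ε + q * im' δ' := by
      rw [hpq, map_add, map_zsmul, map_zsmul, zsmul_eq_mul, zsmul_eq_mul]
    have e3 : y x = (p : ℝ) * (-(b : ℝ) * Y / a) + q * Y := by
      rw [hpq, map_add, map_zsmul, map_zsmul, zsmul_eq_mul, zsmul_eq_mul, hyε, hyδ']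
    have e4 : im' ε = -(b : ℝ) * im' δ' / a := by
      rw [eq_div_iff haR]
      linarith
    have e5 : y x * im' δ' = Y * im' x := by
      rw [e3, e2, e4]
      ring
    have e6 : 0 < y x * im' δ' := by
      rw [e5]
      exact mul_pos hYpos hxpos
    exact (pos_iff_pos_of_mul_pos e6).mpr him'pos
  · -- simple
    refine hcrn y (Y / |(a : ℝ)|) (div_pos hYpos haP) ?_ ?_
    · intro x hx
      obtain ⟨p, q, hpq⟩ := hlab.gen x hx
      rw [← hδ'] at hpq
      have e3 : y x = (p : ℝ) * (-(b : ℝ) * Y / a) + q * Y := by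
        rw [hpq, map_add, map_zsmul, map_zsmul, zsmul_eq_mul, zsmul_eq_mul, hyε, hyδ']
      rcases lt_or_gt_of_ne haR with h | h
      · refine ⟨p * b - q * a, ?_⟩
        rw [e3, abs_of_neg h]
        push_cast
        field_simp
        ring
      · refine ⟨q * a - p * b, ?_⟩
        rw [e3, abs_of_pos h]
        push_cast
        field_simp
        ring
    · intro l hl
      rw [hyβ l]
      refine ⟨hrpos l, ?_⟩
      have h1 : r l = s ^ ((l : ℕ) + 1) := by
        rw [hr]
        show (if l = o then (1 : ℝ) else 0) + s ^ ((l : ℕ) + 1) = _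
        rw [if_neg hl, zero_add]
      have h2 : s ^ ((l : ℕ) + 1) ≤ s := by
        calc s ^ ((l : ℕ) + 1) ≤ s ^ 1 := pow_le_pow_of_le_one hs.le hs1'.le (by omega)
          _ = s := pow_one s
      have h3 : κ / |(a : ℝ)| ≤ κ * (Y / |(a : ℝ)|) := by
        rw [← mul_div_assoc]
        apply div_le_div_of_nonneg_right _ haP.le
        nlinarith
      rw [h1]
      linarith

end Pool.Align
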