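import Pool.Agent.Work.MP_841263_al.Interface

/-!
# Block CRN: the corner of the alcove
-/

open CategoryTheory CategoryTheory.Limits CategoryTheory.Pretriangulated
open scoped ZeroObject Topology
open Filter

namespace Pool.Align

open Pool.Stab Pool.Tube

universe v u

section CRN

variable {K : Type u} [AddCommGroup K] {B : K →+ K →+ ℤ} {im : K →+ ℝ} {ε : K} {n : ℕ}
  {β : Fin n → K} {m : Fin n → ℕ} {o : Fin n}

/-- Coordinates with respect to the radical and `β l`, `l ≠ o`. -/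
theorem CRN_coord (hε : ε ∈ radical B) (R : SimpleRoots B im ε β) (L : Labels B ε β m)
    (ho : m o = 1) (x : K) :
    ∃ r ∈ radical B, ∃ c : Fin n → ℤ, c o = 0 ∧ x = r + ∑ l, c l • β l := by
  obtain ⟨k, c, rfl⟩ := R.span x
  refine ⟨k • ε + c o • ∑ l, (m l : ℤ) • β l, ?_, fun l => c l - c o * m l, by simp [ho], ?_⟩
  · exact add_mem ((radical B).smul_mem k hε) ((radical B).smul_mem (c o) L.rad)
  · rw [add_assoc, Finset.smul_sum, ← Finset.sum_add_distrib]
    congr 1
    refine Finset.sum_congr rfl fun l _ => ?_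
    rw [smul_smul, ← add_smul]
    congr 1
    ring

/-- The `β l`, `l ≠ o`, are independent modulo the radical. -/
theorem CRN_uniq (R : SimpleRoots B im ε β) (L : Labels B ε β m) (ho : m o = 1)
    (c : Fin n → ℤ) (hc : c o = 0) (h : ∑ l, c l • β l ∈ radical B) : ∀ l, c l = 0 := by
  obtain ⟨a, b, hab⟩ := L.gen _ h
  have h1 : (-a) • ε + ∑ l, (c l - b * m l) • β l = 0 := by
    simp only [sub_smul, Finset.sum_sub_distrib, mul_smul, ← Finset.smul_sum]
    rw [hab, neg_smul]
    abel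
  obtain ⟨-, h2⟩ := R.indep _ _ h1
  have hb : b = 0 := by
    have h3 := h2 o
    rw [hc, ho] at h3
    push_cast at h3
    linarith
  intro l
  have h3 := h2 l
  rw [hb] at h3
  linarith

/-- Bounded coordinates for the classes of norm at most two. -/
theorem CRN_bound [Module.Finite ℤ K] (psd : IsPSD B) (hε : ε ∈ radical B)
    (R : SimpleRoots B im ε β) (L : Labels B ε β m) (ho : m o = 1) :
    ∃ M : ℕ, ∀ x, B x x ≤ 2 → ∃ r ∈ radical B, ∃ c : Fin n → ℤ, c o = 0 ∧
      (∀ l, |c l| ≤ M) ∧ x = r + ∑ l, c l • β l := by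
  obtain ⟨F, hF⟩ := psd.finite_mod_radical 2
  choose r hr c hc hx using CRN_coord hε R L ho
  refine ⟨(∑ f ∈ F, ∑ l, |c f l|).toNat, fun x h => ?_⟩
  obtain ⟨f, hf, hxf⟩ := hF x h
  refine ⟨x - f + r f, add_mem hxf (hr f), c f, hc f, fun l => ?_, ?_⟩
  · have h1 : |c f l| ≤ ∑ l, |c f l| :=
      Finset.single_le_sum (f := fun l => |c f l|) (fun _ _ => abs_nonneg _) (Finset.mem_univ l)
    have h2 : ∑ l, |c f l| ≤ ∑ f ∈ F, ∑ l, |c f l| :=
      Finset.single_le_sum (f := fun f => ∑ l, |c f l|)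
        (fun g _ => Finset.sum_nonneg fun _ _ => abs_nonneg _) hf
    rw [Int.toNat_of_nonneg (le_trans (le_trans (abs_nonneg _) h1) h2)]
    exact h1.trans h2
  · have h3 : x = x - f + f := by abel
    rw [add_assoc, ← hx f]
    exact h3

/-- Sign coherence. -/
theorem CRN_sign (H : LatHyp B im ε) (R : SimpleRoots B im ε β) (c : Fin n → ℤ)
    (h : B (∑ l, c l • β l) (∑ l, c l • β l) ≤ 2) : (∀ l, 0 ≤ c l) ∨ (∀ l, c l ≤ 0) := by
  obtain ⟨x, hxdef⟩ : ∃ x, x = ∑ l, c l • β l := ⟨_, rfl⟩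
  rw [← hxdef] at h
  rcases lt_trichotomy (im x) 0 with h1 | h1 | h1
  · right
    obtain ⟨k, d, hd⟩ := R.nonneg (-x) (by simpa using h) (by rw [map_neg]; linarith)
    have h2 : k • ε + ∑ l, ((d l : ℤ) + c l) • β l = 0 := by
      simp only [add_smul, Finset.sum_add_distrib]
      rw [← hxdef, ← add_assoc, ← hd]
      abel
    intro l
    have h3 := (R.indep _ _ h2).2 l
    omega
  · left
    intro l
    obtain ⟨q, hq⟩ := H.even x
    have h3 := H.psd.nonneg x
    have h2 : B x x = 0 ∨ B x x = 2 := by omega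
    rcases h2 with h2 | h2
    · obtain ⟨k, hk⟩ := H.imrad x (H.psd.mem_radical_of_self h2) h1
      have h4 : (-k) • ε + ∑ l, c l • β l = 0 := by
        rw [← hxdef, hk]
        simp
      exact ((R.indep _ _ h4).2 l).ge
    · exact absurd h1 (H.imroot x h2)
  · left
    obtain ⟨k, d, hd⟩ := R.nonneg x h h1
    have h2 : k • ε + ∑ l, ((d l : ℤ) - c l) • β l = 0 := by
      simp only [sub_smul, Finset.sum_sub_distrib]
      rw [← hxdef, ← add_sub_assoc, ← hd]
      abel
    intro l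
    have h3 := (R.indep _ _ h2).2 l
    omega

/-- A class of norm at most two with small positive value has nonnegative coordinates. -/
theorem CRN_pos (H : LatHyp B im ε) (R : SimpleRoots B im ε β) {M : ℕ} {κ g : ℝ} (y : K →+ ℝ)
    (hg : 0 < g) (hκ0 : 0 < κ) (hκ : κ * (n * M + 1) * 2 = 1)
    (hyr : ∀ r ∈ radical B, ∃ k : ℤ, y r = k * g)
    (hy : ∀ l, l ≠ o → 0 < y (β l) ∧ y (β l) < κ * g) {x : K} (hx : B x x ≤ 2)
    (hx0 : 0 < y x) (hx1 : y x < κ * g) {r : K} (hr : r ∈ radical B) {c : Fin n → ℤ}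
    (hc : c o = 0) (hcM : ∀ l, |c l| ≤ M) (hxc : x = r + ∑ l, c l • β l) :
    (∀ l, 0 ≤ c l) ∧ ∃ l, c l ≠ 0 := by
  have hκg : 0 < κ * g := mul_pos hκ0 hg
  have hS : y x = y r + ∑ l, (c l : ℝ) * y (β l) := by
    rw [hxc, map_add, map_sum]
    congr 1
    refine Finset.sum_congr rfl fun l _ => ?_
    rw [map_zsmul, zsmul_eq_mul]
  have hterm : ∀ l, |(c l : ℝ) * y (β l)| ≤ M * (κ * g) := by
    intro l
    by_cases hl : l = o
    · rw [hl, hc]
      simp only [Int.cast_zero, zero_mul, abs_zero]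
      positivity
    · rw [abs_mul]
      have h1 : |(c l : ℝ)| ≤ M := by
        have := hcM l
        exact_mod_cast this
      have h2 : |y (β l)| ≤ κ * g := by
        rw [abs_of_pos (hy l hl).1]
        exact (hy l hl).2.le
      exact mul_le_mul h1 h2 (abs_nonneg _) (Nat.cast_nonneg M)
  have hsum : |∑ l, (c l : ℝ) * y (β l)| ≤ n * (M * (κ * g)) := by
    refine (Finset.abs_sum_le_sum_abs _ _).trans ?_
    refine (Finset.sum_le_sum fun l _ => hterm l).trans ?_
    simp
  have hyr0 : y r = 0 := by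
    obtain ⟨k, hk⟩ := hyr r hr
    have h1 : |y r| < g := by
      have h2 : y r = y x - ∑ l, (c l : ℝ) * y (β l) := by linarith
      have h3 := abs_le.1 hsum
      have h4 : κ * g * (n * M + 1) * 2 = g := by
        have : κ * g * (n * M + 1) * 2 = (κ * (n * M + 1) * 2) * g := by ring
        rw [this, hκ, one_mul]
      rw [h2, abs_lt]
      constructor <;> nlinarith [h3.1, h3.2]
    rw [hk, abs_mul, abs_of_pos hg] at h1
    have h5 : |(k : ℝ)| < 1 := by
      by_contra hcon
      push Not at hcon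
      nlinarith
    have h6 : |k| < 1 := by exact_mod_cast h5
    have h7 : k = 0 := Int.abs_lt_one_iff.1 h6
    rw [hk, h7]
    simp
  rw [hyr0, zero_add] at hS
  have hB : B (∑ l, c l • β l) (∑ l, c l • β l) ≤ 2 := by
    have h1 : B x x = B (∑ l, c l • β l) (∑ l, c l • β l) := by
      have h2 : ∀ z, B r z = 0 := hr
      have h3 : ∀ z, B z r = 0 := fun z => by rw [H.psd.symm]; exact hr z
      rw [hxc, map_add, h3, zero_add, map_add, AddMonoidHom.add_apply, h2, zero_add]
    rw [← h1]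
    exact hx
  rcases CRN_sign H R c hB with h | h
  · refine ⟨h, ?_⟩
    by_contra hcon
    push Not at hcon
    rw [hS, Finset.sum_eq_zero] at hx0
    · exact lt_irrefl _ hx0
    · intro l _
      rw [hcon l]
      simp
  · exfalso
    have h1 : ∑ l, (c l : ℝ) * y (β l) ≤ 0 := by
      refine Finset.sum_nonpos fun l _ => ?_
      by_cases hl : l = o
      · rw [hl, hc]
        simp
      · have h2 : (c l : ℝ) ≤ 0 := by exact_mod_cast h l
        exact mul_nonpos_of_nonpos_of_nonneg h2 (hy l hl).1.le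
    linarith

end CRN

theorem p_CRN : Stmt_CRN.{u} := by
  intro K _ _ _ B im ε H n β m o R L ho
  obtain ⟨M, hM⟩ := CRN_bound H.psd H.rad R L ho
  have hpos : (0 : ℝ) < n * M + 1 := by positivity
  refine ⟨1 / (2 * (n * M + 1)), by positivity, ?_⟩
  intro y g hg hyr hy l₀ hl₀
  have hκ0 : (0 : ℝ) < 1 / (2 * (n * M + 1)) := by positivity
  have hκ : (1 : ℝ) / (2 * (n * M + 1)) * (n * M + 1) * 2 = 1 := by
    field_simp
  refine ⟨R.norm l₀, (hy l₀ hl₀).1, ?_⟩
  intro x z hx hz hx0 hz0 hxz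
  have hsum : y (β l₀) = y x + y z := by rw [hxz, map_add]
  have hlt := (hy l₀ hl₀).2
  obtain ⟨r, hr, c, hc, hcM, hxc⟩ := hM x hx
  obtain ⟨s, hs, d, hd, hdM, hzd⟩ := hM z hz
  obtain ⟨hc0, i, hi⟩ := CRN_pos H R y hg hκ0 hκ hyr hy hx hx0 (by linarith) hr hc hcM hxc
  obtain ⟨hd0, j, hj⟩ := CRN_pos H R y hg hκ0 hκ hyr hy hz hz0 (by linarith) hs hd hdM hzd
  have hmem : ∑ l, (c l + d l - (if l = l₀ then 1 else 0)) • β l ∈ radical B := by
    have h1 : ∑ l, (c l + d l - (if l = l₀ then 1 else 0)) • β l = -(r + s) := by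
      simp only [sub_smul, add_smul, Finset.sum_sub_distrib, Finset.sum_add_distrib, ite_smul,
        one_smul, zero_smul, Finset.sum_ite_eq', Finset.mem_univ, if_true]
      rw [hxz, hxc, hzd]
      abel
    rw [h1]
    exact neg_mem (add_mem hr hs)
  have hall := CRN_uniq R L ho _ (by simp [hc, hd, Ne.symm hl₀]) hmem
  have hci := hc0 i
  have hdj := hd0 j
  have h1 := hall i
  have h2 := hall j
  have hdi := hd0 i
  have hcj := hc0 j
  have hii : i = l₀ := by
    by_contra hne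
    rw [if_neg hne] at h1
    omega
  have hjj : j = l₀ := by
    by_contra hne
    rw [if_neg hne] at h2
    omega
  rw [if_pos hii] at h1
  rw [hjj] at hj hdj
  rw [hii] at hi hci h1 hdi
  omega

end Pool.Align
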