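import Pool.Agent.Work.MP_841263_al.Interface

/-!
# Block CRP: the charges of a wall crossing
-/

open CategoryTheory CategoryTheory.Limits CategoryTheory.Pretriangulated
open scoped ZeroObject Topology
open Filter

namespace Pool.Align

open Pool.Stab Pool.Tube

universe v u

section Lattice

variable {K : Type u} [AddCommGroup K] {B : K →+ K →+ ℤ} {im : K →+ ℝ} {δ : K} {n : ℕ}
  {α : Fin n → K}

/-- Sign coherence. -/
theorem CRP_sc (L : LatHyp B im δ) (R : SimpleRoots B im δ α) (x : K) (hx : B x x ≤ 2) :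
    ∃ (k : ℤ) (c : Fin n → ℕ), x = k • δ + ∑ i, (c i : ℤ) • α i ∨
      x = -(k • δ + ∑ i, (c i : ℤ) • α i) := by
  rcases lt_trichotomy (im x) 0 with h | h | h
  · have h1 : B (-x) (-x) ≤ 2 := by simpa using hx
    obtain ⟨k, c, hc⟩ := R.nonneg (-x) h1 (by rw [map_neg]; linarith)
    exact ⟨k, c, Or.inr (by rw [← hc, neg_neg])⟩
  · have h1 := L.psd.nonneg x
    obtain ⟨m, hm⟩ := L.even x
    have h2 : B x x = 0 ∨ B x x = 2 := by omega
    rcases h2 with h2 | h2
    · obtain ⟨k, hk⟩ := L.imrad x (L.psd.mem_radical_of_self h2) h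
      exact ⟨k, fun _ => 0, Or.inl (by rw [hk]; simp)⟩
    · exact absurd h (L.imroot x h2)
  · obtain ⟨k, c, hc⟩ := R.nonneg x hx h
    exact ⟨k, c, Or.inl hc⟩

/-- Coordinates are unique. -/
theorem CRP_uniq (R : SimpleRoots B im δ α) {k k' : ℤ} {c c' : Fin n → ℤ}
    (h : k • δ + ∑ i, c i • α i = k' • δ + ∑ i, c' i • α i) : ∀ i, c i = c' i := by
  have h1 : (k - k') • δ + ∑ i, (c i - c' i) • α i = 0 := by
    have h2 : ∑ i, (c i - c' i) • α i = ∑ i, c i • α i - ∑ i, c' i • α i := by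
      rw [← Finset.sum_sub_distrib]
      exact Finset.sum_congr rfl fun i _ => sub_smul _ _ _
    rw [h2, sub_smul]
    have h3 : k • δ - k' • δ + (∑ i, c i • α i - ∑ i, c' i • α i) =
        (k • δ + ∑ i, c i • α i) - (k' • δ + ∑ i, c' i • α i) := by abel
    rw [h3, h, sub_self]
  intro i
  have := (R.indep _ _ h1).2 i
  omega

theorem CRP_B (hδ : δ ∈ radical B) (k : ℤ) (c : Fin n → ℤ) (y : K) :
    B (k • δ + ∑ i, c i • α i) y = ∑ i, c i * B (α i) y := by
  rw [map_add, AddMonoidHom.add_apply, map_zsmul, AddMonoidHom.coe_smul, Pi.smul_apply,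
    mem_radical.1 hδ y, smul_zero, zero_add, map_sum, AddMonoidHom.finsetSum_apply]
  refine Finset.sum_congr rfl fun i _ => ?_
  rw [map_zsmul, AddMonoidHom.coe_smul, Pi.smul_apply, smul_eq_mul]

theorem CRP_split (j : Fin n) (f : Fin n → ℤ) :
    ∑ i, f i = f j + ∑ i ∈ Finset.univ.erase j, f i :=
  (Finset.add_sum_erase Finset.univ f (Finset.mem_univ j)).symm

theorem CRP_key (L : LatHyp B im δ) (R : SimpleRoots B im δ α) (j : Fin n) (k : ℤ)
    (c : Fin n → ℕ) (hB : B (k • δ + ∑ i, (c i : ℤ) • α i) (k • δ + ∑ i, (c i : ℤ) • α i) ≤ 2)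
    (hex : ∃ i, i ≠ j ∧ c i ≠ 0) :
    (c j : ℤ) ≤ ∑ i ∈ Finset.univ.erase j, (c i : ℤ) := by
  obtain ⟨i0, hij, hi0⟩ := hex
  set x : K := k • δ + ∑ i, (c i : ℤ) • α i with hx
  set b : ℤ := B x (α j) with hb
  set y : K := x - b • α j with hy
  have hjj := R.norm j
  have hsym := L.psd.symm
  have hyy : B y y ≤ 2 := by
    have h1 : B y y = B x x - b * B x (α j) - b * B (α j) x + b * b * B (α j) (α j) := by
      rw [hy]
      simp only [map_sub, AddMonoidHom.sub_apply, map_zsmul, AddMonoidHom.coe_smul, Pi.smul_apply,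
        smul_eq_mul]
      ring
    rw [h1, hsym (α j) x, ← hb, hjj]
    nlinarith
  have hyc : y = k • δ + ∑ i, ((c i : ℤ) - if i = j then b else 0) • α i := by
    have h1 : ∑ i, ((c i : ℤ) - if i = j then b else 0) • α i =
        ∑ i, (c i : ℤ) • α i - b • α j := by
      have h2 : ∀ i, ((c i : ℤ) - if i = j then b else 0) • α i =
          (c i : ℤ) • α i - (if i = j then b • α i else 0) := by
        intro i
        rw [sub_smul]
        split_ifs <;> simp
      rw [Finset.sum_congr rfl fun i _ => h2 i, Finset.sum_sub_distrib]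
      congr 1
      simp
    rw [h1, hy, hx]
    abel
  have hbv : b = ∑ i, (c i : ℤ) * B (α i) (α j) := by
    rw [hb, hx, CRP_B L.rad]
  have hpos : b ≤ c j := by
    obtain ⟨k', c', hc⟩ := CRP_sc L R y hyy
    rcases hc with hc | hc
    · have h1 := CRP_uniq R (hyc.symm.trans hc)
      have h2 := h1 j
      simp only [if_true] at h2
      omega
    · have hc2 : y = (-k') • δ + ∑ i, (-(c' i : ℤ)) • α i := by
        rw [hc, neg_add, neg_smul]
        congr 1
        rw [← Finset.sum_neg_distrib]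
        exact Finset.sum_congr rfl fun i _ => (neg_smul _ _).symm
      have h1 := CRP_uniq R (hyc.symm.trans hc2)
      have h2 := h1 i0
      simp only [hij, if_false] at h2
      omega
  have h3 : b = (c j : ℤ) * 2 + ∑ i ∈ Finset.univ.erase j, (c i : ℤ) * B (α i) (α j) := by
    rw [hbv, CRP_split j, hjj]
  have h4 : -(∑ i ∈ Finset.univ.erase j, (c i : ℤ)) ≤
      ∑ i ∈ Finset.univ.erase j, (c i : ℤ) * B (α i) (α j) := by
    rw [← Finset.sum_neg_distrib]
    refine Finset.sum_le_sum fun i hi => ?_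
    have h5 := R.off i j (Finset.ne_of_mem_erase hi)
    rcases h5 with h5 | h5 <;> rw [h5] <;> omega
  omega

/-- The values of a functional which is 2 on the `α i`, `i ≠ j`. -/
theorem CRP_val {I : K →+ ℝ} (j : Fin n) (hδ : I δ = 0) (hI : ∀ i, i ≠ j → I (α i) = 2)
    (hj : -1 ≤ I (α j)) (k : ℤ) (c : Fin n → ℕ)
    (hc : (c j : ℤ) ≤ ∑ i ∈ Finset.univ.erase j, (c i : ℤ)) (hex : ∃ i, i ≠ j ∧ c i ≠ 0) :
    0 < I (k • δ + ∑ i, (c i : ℤ) • α i) := by
  have h1 : I (k • δ + ∑ i, (c i : ℤ) • α i) = ∑ i, (c i : ℝ) * I (α i) := by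
    rw [map_add, map_zsmul, hδ, smul_zero, zero_add, map_sum]
    refine Finset.sum_congr rfl fun i _ => ?_
    rw [map_zsmul, zsmul_eq_mul]
    push_cast
    rfl
  have h2 : ∑ i, (c i : ℝ) * I (α i) = (c j : ℝ) * I (α j) +
      ∑ i ∈ Finset.univ.erase j, (c i : ℝ) * 2 := by
    rw [← Finset.add_sum_erase Finset.univ (fun i => (c i : ℝ) * I (α i)) (Finset.mem_univ j)]
    congr 1
    exact Finset.sum_congr rfl fun i hi => by rw [hI i (Finset.ne_of_mem_erase hi)]
  have h3 : (c j : ℝ) ≤ ∑ i ∈ Finset.univ.erase j, (c i : ℝ) := by exact_mod_cast hc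
  have h4 : (0 : ℝ) < ∑ i ∈ Finset.univ.erase j, (c i : ℝ) := by
    obtain ⟨i, hi, hci⟩ := hex
    refine Finset.sum_pos' (fun _ _ => by positivity) ⟨i, Finset.mem_erase.2 ⟨hi, Finset.mem_univ i⟩, ?_⟩
    have : 0 < c i := Nat.pos_of_ne_zero hci
    exact_mod_cast this
  have h5 : ∑ i ∈ Finset.univ.erase j, (c i : ℝ) * 2 =
      (∑ i ∈ Finset.univ.erase j, (c i : ℝ)) * 2 := by rw [Finset.sum_mul]
  have h6 : -(c j : ℝ) ≤ (c j : ℝ) * I (α j) := by
    have : (0 : ℝ) ≤ c j := by positivity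
    nlinarith
  rw [h1, h2, h5]
  linarith

/-- The classes of norm at most two on the walls of such a functional. -/
theorem CRP_tri (L : LatHyp B im δ) (R : SimpleRoots B im δ α) {I : K →+ ℝ} (j : Fin n)
    (hδ : I δ = 0) (hI : ∀ i, i ≠ j → I (α i) = 2) (hj : -1 ≤ I (α j)) (x : K)
    (hx : B x x ≤ 2) :
    I x ≠ 0 ∨ ∃ k : ℤ, x = k • δ ∨ x = α j + k • δ ∨ x = -(α j + k • δ) := by
  obtain ⟨k, c, hc⟩ := CRP_sc L R x hx
  have hN : B (k • δ + ∑ i, (c i : ℤ) • α i) (k • δ + ∑ i, (c i : ℤ) • α i) ≤ 2 := by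
    rcases hc with hc | hc
    · rw [← hc]; exact hx
    · have : k • δ + ∑ i, (c i : ℤ) • α i = -x := by rw [hc, neg_neg]
      rw [this]
      simpa using hx
  by_cases hex : ∃ i, i ≠ j ∧ c i ≠ 0
  · left
    have h1 := CRP_val (α := α) j hδ hI hj k c (CRP_key L R j k c hN hex) hex
    rcases hc with hc | hc
    · rw [hc]; exact h1.ne'
    · rw [hc, map_neg]
      exact (neg_ne_zero.2 h1.ne')
  · push Not at hex
    right
    have h1 : ∑ i, (c i : ℤ) • α i = (c j : ℤ) • α j := by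
      refine Finset.sum_eq_single j (fun i _ hi => ?_) (fun h => absurd (Finset.mem_univ j) h)
      rw [hex i hi]
      simp
    rw [h1] at hc hN
    have h2 : B (k • δ + (c j : ℤ) • α j) (k • δ + (c j : ℤ) • α j) = (c j : ℤ) * (c j : ℤ) * 2 := by
      have hr := mem_radical.1 L.rad
      have hr' : ∀ y, B y δ = 0 := fun y => by rw [L.psd.symm]; exact hr y
      simp only [map_add, AddMonoidHom.add_apply, map_zsmul, AddMonoidHom.coe_smul, Pi.smul_apply,
        smul_eq_mul, hr, hr', R.norm j, mul_zero, zero_add, add_zero]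
      ring
    rw [h2] at hN
    have h3 : c j = 0 ∨ c j = 1 := by
      have : (c j : ℤ) ≤ 1 := by nlinarith [Int.natCast_nonneg (c j)]
      omega
    rcases h3 with h3 | h3
    · rcases hc with hc | hc
      · exact ⟨k, Or.inl (by rw [hc, h3]; simp)⟩
      · exact ⟨-k, Or.inl (by rw [hc, h3]; simp)⟩
    · rcases hc with hc | hc
      · exact ⟨k, Or.inr (Or.inl (by rw [hc, h3]; simp [add_comm]))⟩
      · exact ⟨k, Or.inr (Or.inr (by rw [hc, h3]; simp [add_comm]))⟩

end Lattice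

theorem p_CRP {C : Type u} [Category.{v} C] [Preadditive C] [HasZeroObject C] [HasShift C ℤ]
    [∀ n : ℤ, (shiftFunctor C n).Additive] [Pretriangulated C] [IsTriangulated C] [Linear ℂ C]
    [∀ n : ℤ, (shiftFunctor C n).Linear ℂ] (hHOM : Stmt_HOM.{u}) (hREF : Stmt_REF.{u}) :
    Stmt_CRP C := by
  intro h σ t δ n α F j m
  have := h.finite
  have := h.free
  have L := c_LHY C h σ t δ F.toTubeHyp
  have R := F.toSimpleRoots
  set e : ℂ := Complex.exp (Real.pi * t * Complex.I) with he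
  obtain ⟨W0, h0δ, h0⟩ := hHOM (K0 C) (eulerForm h.k3) (σ.im t) δ n α R ℂ (-e)
    (fun i => if i = j then ((((m : ℝ) - 1 / 2 : ℝ) : ℂ) + Complex.I) * e else 2 * Complex.I * e)
  obtain ⟨W1, h1δ, h1⟩ := hHOM (K0 C) (eulerForm h.k3) (σ.im t) δ n α R ℂ 0
    (fun i => if i = j then -(2 * Complex.I) * e else 0)
  obtain ⟨W, hW⟩ : ∃ W : ℝ → (K0 C →+ ℂ), ∀ s x, W s x = W0 x + (s : ℂ) * W1 x :=
    ⟨fun s => W0 + (AddMonoidHom.mulLeft (s : ℂ)).comp W1, fun s x => rfl⟩
  have hδ : ∀ s, W s δ = -e := fun s => by rw [hW, h0δ, h1δ, mul_zero, add_zero]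
  have hj : ∀ s : ℝ, W s (α j) =
      ((((m : ℝ) - 1 / 2 : ℝ) : ℂ) + ((1 - 2 * s : ℝ) : ℂ) * Complex.I) * e := by
    intro s
    have a0 : W0 (α j) = ((((m : ℝ) - 1 / 2 : ℝ) : ℂ) + Complex.I) * e := by
      rw [h0]; simp
    have a1 : W1 (α j) = -(2 * Complex.I) * e := by
      rw [h1]; simp
    rw [hW, a0, a1]
    push_cast
    ring
  have hi : ∀ (s : ℝ) i, i ≠ j → W s (α i) = 2 * Complex.I * e := by
    intro s i hij
    have a0 : W0 (α i) = 2 * Complex.I * e := by
      rw [h0]; simp [hij]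
    have a1 : W1 (α i) = 0 := by
      rw [h1]; simp [hij]
    rw [hW, a0, a1, mul_zero, add_zero]
  have hee : e * Complex.exp (-(Real.pi * t * Complex.I)) = 1 := by
    rw [he, ← Complex.exp_add, add_neg_cancel, Complex.exp_zero]
  have hIδ : ∀ s, rotIm (W s) t δ = 0 := by
    intro s
    rw [rotIm_apply, hδ, neg_mul, hee]
    simp
  have hIj : ∀ s : ℝ, rotIm (W s) t (α j) = 1 - 2 * s := by
    intro s
    rw [rotIm_apply, hj, mul_assoc, hee, mul_one, Complex.add_im, Complex.ofReal_im,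
      Complex.im_ofReal_mul, Complex.I_im, mul_one, zero_add]
  have hIi : ∀ (s : ℝ) i, i ≠ j → rotIm (W s) t (α i) = 2 := by
    intro s i hij
    rw [rotIm_apply, hi s i hij, mul_assoc, hee, mul_one]
    simp
  have htri : ∀ s ∈ Set.Icc (0 : ℝ) 1, ∀ x, eulerForm h.k3 x x ≤ 2 → rotIm (W s) t x ≠ 0 ∨
      ∃ k : ℤ, x = k • δ ∨ x = α j + k • δ ∨ x = -(α j + k • δ) := by
    intro s hs x hx
    exact CRP_tri L R j (hIδ s) (hIi s) (by rw [hIj]; linarith [hs.2]) x hx
  have hr := mem_radical.1 L.rad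
  have hr' : ∀ y, eulerForm h.k3 y δ = 0 := fun y => by rw [L.psd.symm]; exact hr y
  have hnδ : ∀ k : ℤ, eulerForm h.k3 (k • δ) (k • δ) = 0 := by
    intro k
    simp only [map_zsmul, AddMonoidHom.coe_smul, Pi.smul_apply, hr, smul_zero]
  have hnj : ∀ k : ℤ, eulerForm h.k3 (α j + k • δ) (α j + k • δ) = 2 := by
    intro k
    simp only [map_add, AddMonoidHom.add_apply, map_zsmul, AddMonoidHom.coe_smul, Pi.smul_apply,
      hr, hr', R.norm j, smul_zero, add_zero]
  have hnneg : ∀ x, eulerForm h.k3 (-x) (-x) = eulerForm h.k3 x x := fun x => by simp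
  have hne : ∀ (s : ℝ) (k : ℤ), W s (α j + k • δ) ≠ 0 := by
    intro s k h0
    rw [map_add, map_zsmul, hj, hδ, zsmul_eq_mul] at h0
    have h1 : ((((m : ℝ) - 1 / 2 - k : ℝ) : ℂ) + ((1 - 2 * s : ℝ) : ℂ) * Complex.I) * e = 0 := by
      rw [← h0]
      push_cast
      ring
    have h2 : (((m : ℝ) - 1 / 2 - k : ℝ) : ℂ) + ((1 - 2 * s : ℝ) : ℂ) * Complex.I = 0 := by
      rcases mul_eq_zero.1 h1 with h | h
      · exact h
      · exact absurd h (Complex.exp_ne_zero _)
    have h3 := congrArg Complex.re h2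
    rw [Complex.add_re, Complex.ofReal_re, Complex.re_ofReal_mul, Complex.I_re, mul_zero, add_zero,
      Complex.zero_re] at h3
    have h4 : ((2 * m - 1 - 2 * k : ℤ) : ℝ) = 0 := by
      push_cast
      linarith
    have h5 : (2 * m - 1 - 2 * k : ℤ) = 0 := by exact_mod_cast h4
    omega
  have hroot : ∀ s ∈ Set.Icc (0 : ℝ) 1, ∀ x, eulerForm h.k3 x x = 2 → W s x ≠ 0 := by
    intro s hs x hx h0
    have hI0 : rotIm (W s) t x = 0 := by rw [rotIm_apply, h0, zero_mul, Complex.zero_im]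
    rcases htri s hs x hx.le with h1 | ⟨k, h1 | h1 | h1⟩
    · exact h1 hI0
    · rw [h1, hnδ] at hx
      omega
    · exact hne s k (by rw [← h1]; exact h0)
    · have h2 : W s (-x) = 0 := by rw [map_neg, h0, neg_zero]
      exact hne s k (by rw [← neg_neg (α j + k • δ), ← h1]; exact h2)
  have hrad : ∀ s ∈ Set.Icc (0 : ℝ) 1, ∀ r ∈ radical (eulerForm h.k3), rotIm (W s) t r = 0 →
      ∃ k : ℤ, r = k • δ := by
    intro s hs r hr0 hI0
    have hrr : eulerForm h.k3 r r = 0 := mem_radical.1 hr0 r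
    rcases htri s hs r (by rw [hrr]; norm_num) with h1 | ⟨k, h1 | h1 | h1⟩
    · exact absurd hI0 h1
    · exact ⟨k, h1⟩
    · rw [h1, hnj] at hrr
      omega
    · rw [h1, hnneg, hnj] at hrr
      omega
  have hrefl : ∀ s ∈ Set.Ioc (1 / 2 : ℝ) 1, ∀ i,
      0 < rotIm (W s) t (refl (eulerForm h.k3) α j i) := by
    intro s hs i
    have hs1 := hs.1
    have hs2 := hs.2
    unfold refl
    rw [map_sub, map_zsmul, hIj, zsmul_eq_mul]
    by_cases hij : i = j
    · rw [hij, hIj, R.norm j]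
      push_cast
      linarith
    · rw [hIi s i hij]
      rcases R.off i j hij with h5 | h5 <;> rw [h5] <;> push_cast <;> linarith
  refine ⟨W, ?_, ?_, hδ, hj, ?_, ?_, ?_, ?_⟩
  · intro x
    simp only [hW]
    exact continuous_const.add (Complex.continuous_ofReal.mul continuous_const)
  · -- `Xreg`
    intro s hs
    refine ⟨hroot s hs, ?_⟩
    intro r hr s' hs' hrs
    rw [orient_iff]
    intro ho
    rw [LinearIndependent.pair_iff] at hrs
    have hind : ∀ n m : ℤ, n • r = m • s' → n = 0 ∧ m = 0 := by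
      intro a b hab
      have h1 := hrs a (-b) (by rw [neg_smul, hab]; abel)
      exact ⟨h1.1, by simpa using h1.2⟩
    obtain ⟨N, a, b, hN0, hN1⟩ :=
      exists_dep_of_finrank_two (radical (eulerForm h.k3)) h.rank F.rad hr hs' hind
    have hW1 := congrArg (W s) hN1
    rw [map_zsmul, map_add, map_zsmul, map_zsmul, zsmul_eq_mul, zsmul_eq_mul, zsmul_eq_mul]
      at hW1
    have hN0' : (N : ℝ) ≠ 0 := by exact_mod_cast hN0
    have ho' : ((starRingEnd ℂ) (W s s') * W s r).im = 0 := by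
      have : ((starRingEnd ℂ) (W s s') * W s r).im = -((starRingEnd ℂ) (W s r) * W s s').im := by
        simp only [Complex.mul_im, Complex.conj_re, Complex.conj_im]
        ring
      rw [this, ho, neg_zero]
    have hself : ∀ z : ℂ, ((starRingEnd ℂ) z * z).im = 0 := by
      intro z
      simp only [Complex.mul_im, Complex.conj_re, Complex.conj_im]
      ring
    have key : ∀ w : ℂ, ((starRingEnd ℂ) w * W s r).im = 0 →
        ((starRingEnd ℂ) w * W s s').im = 0 → ((starRingEnd ℂ) w * W s δ).im = 0 := by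
      intro w h1 h2
      have e : ((N : ℝ) : ℂ) * ((starRingEnd ℂ) w * W s δ) =
          ((a : ℝ) : ℂ) * ((starRingEnd ℂ) w * W s r) +
            ((b : ℝ) : ℂ) * ((starRingEnd ℂ) w * W s s') := by
        push_cast
        linear_combination (starRingEnd ℂ) w * hW1
      have e' := congrArg Complex.im e
      rw [Complex.im_ofReal_mul, Complex.add_im, Complex.im_ofReal_mul, Complex.im_ofReal_mul,
        h1, h2, mul_zero, mul_zero, add_zero, mul_eq_zero] at e'
      exact e'.resolve_left hN0'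
    have hδ1 : W s δ = -((1 : ℝ) : ℂ) * Complex.exp (Real.pi * t * Complex.I) := by
      rw [hδ, he]
      push_cast
      ring
    have hr0 : rotIm (W s) t r = 0 := XRG_det one_ne_zero hδ1 (key _ (hself _) ho)
    have hs0 : rotIm (W s) t s' = 0 := XRG_det one_ne_zero hδ1 (key _ ho' (hself _))
    obtain ⟨k, hk⟩ := hrad s hs r hr hr0
    obtain ⟨l, hl⟩ := hrad s hs s' hs' hs0
    have h1 : l • r = k • s' := by rw [hk, hl, smul_smul, smul_smul, mul_comm]
    obtain ⟨-, h3⟩ := hind l k h1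
    rw [h3, zero_smul] at hk
    have h4 := hind 1 0 (by rw [hk, smul_zero, zero_smul])
    exact one_ne_zero h4.1
  · -- `left`
    intro s hs
    refine ⟨⟨1, one_pos, by rw [hδ, he]; push_cast; ring⟩, fun i => ?_⟩
    rw [← rotIm_apply]
    by_cases hij : i = j
    · rw [hij, hIj]
      have := hs.2
      linarith
    · rw [hIi s i hij]
      norm_num
  · -- `right`
    intro s hs
    refine ⟨⟨1, one_pos, by rw [hδ, he]; push_cast; ring⟩, fun i => ?_⟩
    rw [← rotIm_apply]
    exact hrefl s hs i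
  · -- `frame`
    intro s hs τ hτ
    have him : τ.im t = rotIm (W s) t := by
      ext x
      rw [StabCond.im_apply, rotIm_apply, hτ]
    have hs' : s ∈ Set.Icc (0 : ℝ) 1 := ⟨by linarith [hs.1], hs.2⟩
    obtain ⟨hSR, -⟩ := hREF (K0 C) (eulerForm h.k3) (σ.im t) δ L n α R j (τ.im t)
      (by rw [him]; exact hIδ s) (by rw [him]; exact hrefl s hs)
    refine
      { toTubeHyp := ⟨F.rad, F.ne, F.prim, ?_, ?_, ?_⟩
        toSimpleRoots := hSR }
    · rw [him]; exact hIδ s
    · rw [StabCond.re_apply, hτ, hδ, neg_mul, hee]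
      simp
    · rw [him]
      intro x hx
      have h2 : (1 : ℝ) - 2 * s ≠ 0 := by
        have := hs.1
        intro h3
        linarith
      rcases htri s hs' x hx.le with h1 | ⟨k, h1 | h1 | h1⟩
      · exact h1
      · rw [h1, hnδ] at hx
        omega
      · rw [h1, map_add, map_zsmul, hIj, hIδ, smul_zero, add_zero]
        exact h2
      · rw [h1, map_neg, map_add, map_zsmul, hIj, hIδ, smul_zero, add_zero]
        exact neg_ne_zero.2 h2
  · -- `wall`
    intro x hx h0
    rcases htri (1 / 2) ⟨by norm_num, by norm_num⟩ x hx with h1 | h1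
    · rw [rotIm_apply] at h1
      exact absurd h0 h1
    · exact h1

end Pool.Align
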