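import Pool.Agent.Work.MP_841263_al.Interface

/-! # Alignment, block CRS (helper35): crossing one wall -/

set_option autoImplicit false

open CategoryTheory CategoryTheory.Limits CategoryTheory.Pretriangulated
open scoped ZeroObject Topology
open Filter

namespace Pool.Align

open Pool.Stab Pool.Tube

universe v u

section

variable {C : Type u} [Category.{v} C] [Preadditive C] [HasZeroObject C] [HasShift C ℤ]
  [∀ n : ℤ, (shiftFunctor C n).Additive] [Pretriangulated C] [IsTriangulated C] [Linear ℂ C]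
  [∀ n : ℤ, (shiftFunctor C n).Linear ℂ]

omit [IsTriangulated C] [Linear ℂ C] [∀ n : ℤ, (shiftFunctor C n).Linear ℂ] in
theorem CRS_iso {σ : StabCond C} {t : ℝ} {δ : K0 C} {n : ℕ} {α : Fin n → K0 C} {i : Fin n}
    {k : ℤ} {X Y : C} (e : X ≅ Y) (hX : IsS σ t δ α i k X) : IsS σ t δ α i k Y := by
  refine ⟨⟨hX.1.1.iso e, fun hz => hX.1.2.1 (hz.of_iso e), ?_⟩, by rw [← cls_iso e]; exact hX.2⟩
  intro T hT f
  have h1 := hX.1.2.2 T hT (f ≫ e.inv)
  rw [← Category.comp_id f, ← e.inv_hom_id, ← Category.assoc, h1, zero_comp]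

/-- A point of the path is joined to its start. -/
theorem CRS_joined {X : Type*} [TopologicalSpace X] (Γ : C(unitInterval, X)) (s : unitInterval) :
    Joined (Γ 0) (Γ s) := by
  refine ⟨⟨⟨fun r => Γ (r * s), ?_⟩, ?_, ?_⟩⟩
  · exact Γ.continuous.comp (continuous_id.mul continuous_const)
  · simp
  · simp

/-- An open condition at `1/2` holds at some later time. -/
theorem CRS_later {P : unitInterval → Prop} (w : unitInterval) (hw : (w : ℝ) = 1 / 2)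
    (h : ∀ᶠ s in 𝓝 w, P s) : ∃ s : unitInterval, (s : ℝ) ∈ Set.Ioc (1 / 2 : ℝ) 1 ∧ P s := by
  let f : ℝ → unitInterval := Set.projIcc 0 1 zero_le_one
  have hf : Continuous f := continuous_projIcc
  have hfw : f (1 / 2) = w := by
    apply Subtype.ext
    rw [hw]
    change ((Set.projIcc (0 : ℝ) 1 zero_le_one (1 / 2) : unitInterval) : ℝ) = 1 / 2
    rw [Set.projIcc_of_mem zero_le_one (show (1 / 2 : ℝ) ∈ Set.Icc (0 : ℝ) 1 by
      constructor <;> norm_num)]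
  have h1 : ∀ᶠ r in 𝓝 (1 / 2 : ℝ), P (f r) := by
    have h2 := hf.continuousAt (x := (1 / 2 : ℝ))
    unfold ContinuousAt at h2
    rw [hfw] at h2
    exact h2.eventually h
  have h3 : ∀ᶠ r in 𝓝 (1 / 2 : ℝ), r < 1 := gt_mem_nhds (by norm_num)
  have h4 : ∀ᶠ r in 𝓝[>] (1 / 2 : ℝ), (P (f r) ∧ r < 1) ∧ 1 / 2 < r :=
    ((h1.and h3).filter_mono nhdsWithin_le_nhds).and self_mem_nhdsWithin
  obtain ⟨r, ⟨hr1, hr2⟩, hr3⟩ := h4.exists
  have hr : ((f r : unitInterval) : ℝ) = r := by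
    change ((Set.projIcc (0 : ℝ) 1 zero_le_one r : unitInterval) : ℝ) = r
    rw [Set.projIcc_of_mem zero_le_one (show r ∈ Set.Icc (0 : ℝ) 1 by
      constructor <;> linarith)]
  exact ⟨f r, by rw [hr]; exact ⟨hr3, hr2.le⟩, hr1⟩

theorem p_CRS : Stmt_LFT C → Stmt_OPE C → Stmt_SAM C → Stmt_HRT C → Stmt_GAT C → Stmt_CRP C →
    Stmt_WAL C → Stmt_CRS C := by
  intro hLFT hOPE _ hHRT hGAT hCRP hWAL h σ t δ n α hF N S hS j hne
  obtain ⟨m, hm1, hm2⟩ := hGAT h σ t δ n α hF N S hS j hne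
  obtain ⟨W, hW⟩ := hCRP h σ t δ n α hF j m
  have h0 : InCell t δ α (W 0) := hW.left 0 ⟨le_rfl, by norm_num⟩
  obtain ⟨σ₁, hZ1, hJ1, hF1, hI1⟩ := c_CEL C h σ t δ n α hF (W 0) h0
  -- the `IsS` objects of `σ₁` are those of `σ`
  have hI2 : ∀ (i : Fin n) (k : ℤ) (X : C), IsS σ₁ t δ α i k X → IsS σ t δ α i k X := by
    intro i k X hX
    obtain ⟨Y, hY, -⟩ := c_EXI C h σ t δ n α hF i k
    obtain ⟨e⟩ := c_UNI C h σ₁ t δ n α hF1 i k Y X (hI1 i k Y hY) hX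
    exact CRS_iso e hY
  have hH := hHRT h σ σ₁ t δ n α hF hF1 hI1
  have hTF1 : ∀ l, σ₁.TF t (S l) := fun l => (hH (S l)).2.2.1 (hS.tf l)
  -- the path through the wall
  obtain ⟨Γ, hΓ0, hΓ⟩ := hLFT h σ₁ W hW.cont hW.reg hZ1.symm
  have hF0 : Frame h (Γ 0) t δ α := by rw [hΓ0]; exact hF1
  let w : unitInterval := ⟨1 / 2, by constructor <;> norm_num⟩
  have hw : (w : ℝ) = 1 / 2 := rfl
  have hin : ∀ l, (Γ w).sl.In (Set.Ioo t (t + 1)) (S l) := by
    intro l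
    refine hWAL h t δ n α j m W hW Γ hΓ hF0 w hw (S l) (by rw [hΓ0]; exact hTF1 l) ?_ ?_
    · intro k hk Y hY f
      rw [hΓ0] at hY
      exact hm1 l k hk Y (hI2 j k Y hY) f
    · intro k hk Y hY f
      rw [hΓ0] at hY
      exact hm2 l k hk Y (hI2 j k Y hY) f
  have hev : ∀ᶠ s in 𝓝 w, ∀ l, (Γ s).sl.In (Set.Ioo t (t + 1)) (S l) :=
    eventually_all.2 (fun l => hOPE h Γ w (S l) t (t + 1) (hin l))
  obtain ⟨s, hs, hsin⟩ := CRS_later w hw hev
  refine ⟨Γ s, hJ1.trans (hΓ0 ▸ CRS_joined Γ s), hW.frame s hs (Γ s) (hΓ s), ?_⟩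
  exact ⟨fun l => StabCond.tf_of_in _ (hsin l) (hS.tf l).2.1, hS.brick, hS.orth⟩

end

end Pool.Align
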