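import Mathlib
import Pool.Agent.Work.MP_841263_tu.Final
import Pool.Agent.Work.MP_841263_o.Mukai

/-!
# Alignment of the simple objects of a special vertex: statements of the blocks (helper44)

MP_841263_ag, path connectedness of `Stab`. `τ` is a stability condition with spherical objects `S l` of one phase whose
classes `β l` are the simple roots of the affine root system `K / ℤ ε` (`Coll`, `Aligned`). If another stability condition
`σ` has all `S l` in ONE heart `P((φ, φ + 1])` then `σ` and `τ` (same orientation) are joined by a path (`Stmt_FIA`).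

RULES: one file `Pool/Agent/Work/MP_841263_al/B_<ID>.lean` per block, `import Pool.Agent.Work.MP_841263_al.Interface`, the
`open`, `namespace Pool.Align` and `universe` lines of this file, theorem `p_<ID> : Stmt_X → Stmt_Y → Stmt_<ID>` with
exactly the statements of the column `uses` as hypotheses, in this order (statements of this file; all `c_<ID>` of
`MP_841263_tu/All.lean`, `All2.lean` are PROVED theorems and may be used freely: `c_LHY C`, `c_PTP C`, `c_HCL C`, `c_ATM C`,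
`c_MOR C`, `c_UNI C`, `c_EXI C`, `c_SPH C`, `c_CRO C`, `c_TWO C`, `c_EUL C`, `c_EUD C`, `c_PNT C`, `c_PEN C`, `c_ONE C`, `c_ADJ C`,
`c_ORT C`, `c_PTL C`, `c_UQ1 C`, `c_UQ2 C`, `c_UQ3 C`, `c_XRG C`, `c_OPN C`, `c_CEL C`, `c_RNK C`, `c_BAS`, ... read
`MP_841263_tu/Interface.lean`). Auxiliary lemmas with the name of the block in front (`REF_aux`). No straight double quotes.
Statements about categories are `Stmt_X C`. Write `set_option backward.isDefEq.respectTransparency false` etc. as in the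
files of `MP_841263_tu` if needed. Models: `MP_841263_tu/B_*.lean`.
-/

open CategoryTheory CategoryTheory.Limits CategoryTheory.Pretriangulated
open scoped ZeroObject Topology
open Filter

namespace Pool.Align

open Pool.Stab Pool.Tube

universe v u

section Lattice

/-- The simple roots of the chamber on the other side of the wall `j`. -/
def refl {K : Type u} [AddCommGroup K] (B : K →+ K →+ ℤ) {n : ℕ} (α : Fin n → K) (j i : Fin n) : K :=
  α i - B (α i) (α j) • α j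

/-- The labels of the affine diagram: the radical is generated by `ε` and `∑ m l β l`. -/
structure Labels {K : Type u} [AddCommGroup K] (B : K →+ K →+ ℤ) (ε : K) {n : ℕ} (β : Fin n → K)
    (m : Fin n → ℕ) : Prop where
  one_le : ∀ l, 1 ≤ m l
  rad : ∑ l, (m l : ℤ) • β l ∈ radical B
  gen : ∀ r ∈ radical B, ∃ a b : ℤ, r = a • ε + b • ∑ l, (m l : ℤ) • β l

/-- The classes (modulo `δ`) of the roots which are positive for `α` and negative for `y`. -/
def Neg {K : Type u} [AddCommGroup K] (B : K →+ K →+ ℤ) (y : K →+ ℝ) {n : ℕ} (α : Fin n → K) :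
    Set (Fin n → ℕ) :=
  {c | B (∑ i, (c i : ℤ) • α i) (∑ i, (c i : ℤ) • α i) = 2 ∧ y (∑ i, (c i : ℤ) • α i) < 0}

/-- HOM (30 lines). `span` and `indep`: `δ, α i` is a basis of `K`. -/
def Stmt_HOM : Prop := ∀ (K : Type u) [AddCommGroup K] (B : K →+ K →+ ℤ) (im : K →+ ℝ) (δ : K)
  (n : ℕ) (α : Fin n → K), SimpleRoots B im δ α → ∀ (A : Type) [AddCommGroup A] (a : A)
  (b : Fin n → A), ∃ W : K →+ A, W δ = a ∧ ∀ i, W (α i) = b i

/-- SRY (30 lines), sign principle, see `XRG_pos` in `tu/B_XRG.lean`. For `B x x ≤ 2`: `0 < im x` gives `0 < y x` (`nonneg`), `im x < 0`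
gives `y x < 0`, `im x = 0` gives `x = k • δ` (`imroot`, even, psd, `imrad`) and `y x = 0`. -/
def Stmt_SRY : Prop := ∀ (K : Type u) [AddCommGroup K] [Module.Finite ℤ K] [Module.Free ℤ K]
  (B : K →+ K →+ ℤ) (im : K →+ ℝ) (δ : K), LatHyp B im δ → ∀ (n : ℕ) (α : Fin n → K),
  SimpleRoots B im δ α → ∀ y : K →+ ℝ, y δ = 0 → (∀ i, 0 < y (α i)) →
  SimpleRoots B y δ α ∧ LatHyp B y δ

/-- REF (120 lines). `s x = x - B x (α j) • α j` is an involution and an isometry, `s (α i) = refl B α j i`, `s δ = δ`. The coordinates of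
`x` with respect to `refl` are those of `s x` with respect to `α`; `s x` and `x` have the same coordinates at `i ≠ j`. Sign
coherence for `α`: if `B x x ≤ 2` the coordinates of `x` are all `≥ 0` or all `≤ 0` (`nonneg` for `x` or `- x`; if `im x = 0` then
`x = k • δ`, see SRY). `nonneg` for `refl`: let `0 < im' x`. If a coordinate of `x` at some `i ≠ j` is not 0, it is also one of
`s x`, so the coordinates of `s x` are all `≥ 0` or all `≤ 0`, the second would give `im' x ≤ 0`. Otherwise `x = k • δ + c • α j`,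
`2 c² ≤ 2`, `c = -1` (`im' (refl B α j j) = - im' (α j)`, positive). `norm`, `off` : `B (s x) (s y) = B x y`. Radical: `s r = r`, so
`r` has the same coordinates for `α` and `refl`. -/
def Stmt_REF : Prop := ∀ (K : Type u) [AddCommGroup K] [Module.Finite ℤ K] [Module.Free ℤ K]
  (B : K →+ K →+ ℤ) (im : K →+ ℝ) (δ : K), LatHyp B im δ → ∀ (n : ℕ) (α : Fin n → K),
  SimpleRoots B im δ α → ∀ (j : Fin n) (im' : K →+ ℝ), im' δ = 0 →
  (∀ i, 0 < im' (refl B α j i)) →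
  SimpleRoots B im' δ (refl B α j) ∧ ∀ r ∈ radical B, 0 < im r → 0 < im' r

/-- LBL (120 lines). The radical has rank 2 and contains `ε`; an element `r` of it that is not a multiple of `ε` has `im r ≠ 0`
(`imrad`), so (up to sign) `0 < im r` and nonnegative coordinates. Take `r = k • ε + ∑ m l β l` with `0 < im r` and
`∑ m l` minimal. Every radical `r'` has (rank 2) `N r' = a ε + b r`, its coordinates are proportional to `m`; division with
remainder and minimality give `gen`. `one_le`: the set `I = {l | m l = 0}`; for `i ∈ I`: `0 = ∑_l m l B (β l) (β i)`, all terms `≤ 0`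
(`off`), so `β i` is orthogonal to the `β l`, `l ∉ I`; `irred` for the subgroups generated by `ε` and `β i`, `i ∈ I`, resp.
`i ∉ I`; `I` is not everything. -/
def Stmt_LBL : Prop := ∀ (K : Type u) [AddCommGroup K] [Module.Finite ℤ K] [Module.Free ℤ K]
  (B : K →+ K →+ ℤ) (im : K →+ ℝ) (ε : K), LatHyp B im ε → ∀ (n : ℕ) (β : Fin n → K),
  SimpleRoots B im ε β → ∃ m : Fin n → ℕ, Labels B ε β m

/-- SPE (200 lines), existence of a special vertex. The radical is saturated, so `K = radical ⊕ L` (`K / radical` is torsion free,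
so free), and `radical = ℤ δ ⊕ ℤ r₀` (`δ` is primitive), `0 < im r₀`. Let `a : K →+ ℤ` be the coordinate of `r₀`. Take
`z : L →+ ℝ` injective (e.g. values `1, π, π², …`: any ℚ-linearly independent reals) and `y x = a x + c z (x_L)` with
`c > 0` so small that `c |z (x_L)| < 1` for all `x` with `B x x ≤ 2` (there are finitely many `x_L`: `IsPSD.finite_mod_radical`).
`y δ = 0`, `y ≠ 0` on roots (`x_L ≠ 0` for a root: if `a x = 0` then `y x = c z (x_L) ≠ 0`, if not `|c z| < 1 ≤ |a x|`), on the radical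
`y = a`. For `B x x ≤ 2`, `0 < y x` implies `0 ≤ a x`. So for simple roots `α` of `y`: `0 ≤ a (α l)`, and for the labels
`∑ m l a (α l) = ± 1` (`∑ m l α l` and `δ` generate the radical), so some `m o = 1`. -/
def Stmt_SPE : Prop := ∀ (K : Type u) [AddCommGroup K] [Module.Finite ℤ K] [Module.Free ℤ K]
  (B : K →+ K →+ ℤ) (im : K →+ ℝ) (δ : K), LatHyp B im δ →
  ∃ y : K →+ ℝ, LatHyp B y δ ∧ (∀ r ∈ radical B, 0 < im r → 0 < y r) ∧
    ∀ (n : ℕ) (α : Fin n → K) (m : Fin n → ℕ), SimpleRoots B y δ α → Labels B δ α m →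
      ∃ o, m o = 1

/-- CRN (150 lines), the corner of the alcove. As `m o = 1`, every `x` is `∑_(l ≠ o) c l β l + r`, `r` in the radical, with unique
`c` (`β l`, `l ≠ o`, are independent modulo the radical: `indep`, the radical is generated by `ε` and `∑ m l β l`). For
`B x x ≤ 2` there are finitely many `c` (`finite_mod_radical`), `|c l| ≤ M`. `κ = 1/(2 (n M + 1))`. Let `β l = x + z` with
`B x x, B z z ≤ 2`, `0 < y x, y z`; both are `< κ g`; `|∑ c l y (β l)| ≤ n M κ g < g/2`, so `|y r| < g`, `y r = 0`,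
`y x = ∑ c l y (β l)`. `x' = ∑_(l ≠ o) c l β l` has the same norm and (sign coherence for `β`: `nonneg` for `x'` or `- x'`, or
`im x' = 0` and `x'` a multiple of `ε`, so `c = 0`, `y x = 0`) all `c l ≥ 0` (as `y x > 0`) and `c ≠ 0`. The same for `z`
with `d`. `c + d` is the unit vector `l`: contradiction. -/
def Stmt_CRN : Prop := ∀ (K : Type u) [AddCommGroup K] [Module.Finite ℤ K] [Module.Free ℤ K]
  (B : K →+ K →+ ℤ) (im : K →+ ℝ) (ε : K), LatHyp B im ε →
  ∀ (n : ℕ) (β : Fin n → K) (m : Fin n → ℕ) (o : Fin n), SimpleRoots B im ε β → Labels B ε β m →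
  m o = 1 → ∃ κ : ℝ, 0 < κ ∧ ∀ (y : K →+ ℝ) (g : ℝ), 0 < g →
    (∀ r ∈ radical B, ∃ k : ℤ, y r = k * g) → (∀ l, l ≠ o → 0 < y (β l) ∧ y (β l) < κ * g) →
    ∀ l, l ≠ o → IsSimpleRoot B y (β l)

/-- SIM (50 lines). `β = k • δ + ∑ c i α i`, `c i ∈ ℕ` (`nonneg`). `2 = B β β = ∑ c i B β (α i)`, so `0 < c i` and `1 ≤ B β (α i)` for some `i`;
`x = β - α i` has norm `4 - 2 B β (α i) ≤ 2`. If `0 < y x`, `β = x + α i` contradicts simplicity; `y x` is `≥ 0` as
`x = k • δ + ∑ (c - e_i) α`; if it is 0 then `c = e_i`. -/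
def Stmt_SIM : Prop := ∀ (K : Type u) [AddCommGroup K] (B : K →+ K →+ ℤ) (y : K →+ ℝ) (δ : K),
  IsPSD B → δ ∈ radical B → y δ = 0 → ∀ (n : ℕ) (α : Fin n → K), SimpleRoots B y δ α →
  ∀ β, IsSimpleRoot B y β → ∃ (i : Fin n) (k : ℤ), β = α i + k • δ

/-- COR (200 lines; uses HOM CRN). `δ' = ∑ m l β l`, `im' δ' > 0`. `δ = a • ε + b • δ'` (`gen`), `a ≠ 0` (otherwise `0 = im' δ = b im' δ'` and
`δ = 0`). For positive numbers `r l` let `y` be the functional with `y (β l) = r l` and `y ε = - b y(δ')/a` (HOM), so `y δ = 0`.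
Take `r o = 1`, `r l < κ g`, `l ≠ o`, where `g = y δ'/|a|`: `y (p ε + q δ') = (q - p b/a) y δ' ∈ ℤ y δ'/a` (as `y δ' ≥ 1` it is
enough that `r l < κ/|a|`). Genericity: for a root `x = k ε + ∑ c l β l` the linear form `r ↦ y x = ∑ (c l - k b m l/a) r l` is not
zero (otherwise `a x` is in the radical); countably many linear forms which are not zero do not cover an open set of
`Fin n → ℝ` (scaling `r` by a positive constant does not matter), e.g. by a curve `r l = r0 l + s^(l+1)`: every form has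
finitely many zeros `s`. `y` is positive on the radical where `im'` is: both vanish on `δ` and are positive on `δ'` and
the radical has rank 2. CRN. -/
def Stmt_COR : Prop := ∀ (K : Type u) [AddCommGroup K] [Module.Finite ℤ K] [Module.Free ℤ K]
  (B : K →+ K →+ ℤ) (im : K →+ ℝ) (ε : K), LatHyp B im ε →
  ∀ (n : ℕ) (β : Fin n → K) (m : Fin n → ℕ) (o : Fin n), SimpleRoots B im ε β → Labels B ε β m →
  m o = 1 → ∀ (im' : K →+ ℝ) (δ : K), LatHyp B im' δ → (∀ l, 0 < im' (β l)) →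
  ∃ y : K →+ ℝ, y δ = 0 ∧ (∀ x, B x x = 2 → y x ≠ 0) ∧ (∀ r ∈ radical B, 0 < im' r → 0 < y r) ∧
    (∀ l, 0 < y (β l)) ∧ ∀ l, l ≠ o → IsSimpleRoot B y (β l)

/-- DOM (150 lines). `β l`, `l ≠ o`, generate `K` modulo the radical. Write `- p = ∑_(l ≠ o) x l β l + r`. `v₋ = ∑ x l⁻ β l` (negative parts),
`v₊` = positive part: `0 ≤ B (-p) v₋ = B v₊ v₋ - B v₋ v₋ ≤ - B v₋ v₋` (`off`), so `v₋` is in the radical, `v₋ = 0` (independence),
all `x l ≥ 0`. If `x l = 0` for some `l ≠ o` then `0 ≤ B (-p) (β l) = ∑_(k ≠ l) x k B (β k) (β l) ≤ 0`; so `I = {l ≠ o | x l = 0}` is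
orthogonal to the other `β k`, `k ≠ o`; `irred` (subgroups generated by the radical and `I`, resp. the complement): `I` is
empty, or `p` is in the radical. If all `x l > 0`: `0 ≤ ∑ x l B (β l) (-q) = B (-p) (-q) = B p q ≤ 0`, so all
`B (β l) q = 0`, `q` in the radical. -/
def Stmt_DOM : Prop := ∀ (K : Type u) [AddCommGroup K] [Module.Finite ℤ K] [Module.Free ℤ K]
  (B : K →+ K →+ ℤ) (im : K →+ ℝ) (ε : K), LatHyp B im ε →
  ∀ (n : ℕ) (β : Fin n → K) (m : Fin n → ℕ) (o : Fin n), SimpleRoots B im ε β → Labels B ε β m →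
  m o = 1 → ∀ p q : K, (∀ l, l ≠ o → B p (β l) ≤ 0) → (∀ l, l ≠ o → B q (β l) ≤ 0) →
    B p q ≤ 0 → p ∈ radical B ∨ q ∈ radical B

/-- NFI (80 lines; uses LBL). `r = ∑ m l α l` (LBL): `0 < im r`, `0 < y r`. Roots modulo the radical are finite in number; for a class
`x₀ + k • δ + q • r` the conditions `0 < im`, `y < 0` leave finitely many `q`; `δ` does not change `c`. -/
def Stmt_NFI : Prop := ∀ (K : Type u) [AddCommGroup K] [Module.Finite ℤ K] [Module.Free ℤ K]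
  (B : K →+ K →+ ℤ) (im : K →+ ℝ) (δ : K), LatHyp B im δ → ∀ (n : ℕ) (α : Fin n → K),
  SimpleRoots B im δ α → ∀ y : K →+ ℝ, y δ = 0 → (∀ r ∈ radical B, 0 < im r → 0 < y r) →
  (Neg B y α).Finite

/-- NDE (80 lines). Let `c ∈ Neg` for `refl`, `x = ∑ c i refl i`. If `c i > 0` for some `i ≠ j`, the coordinates of `x` for `α`
(the same at `i ≠ j`) are `≥ 0` (sign coherence, see REF): an injective map into `Neg B y α ∖ {e_j}`. If not,
`x = c j • (- α j)`, `c j = 1`, `y x = - y (α j) > 0`, impossible. `e_j ∈ Neg B y α`. -/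
def Stmt_NDE : Prop := ∀ (K : Type u) [AddCommGroup K] [Module.Finite ℤ K] [Module.Free ℤ K]
  (B : K →+ K →+ ℤ) (im : K →+ ℝ) (δ : K), LatHyp B im δ → ∀ (n : ℕ) (α : Fin n → K),
  SimpleRoots B im δ α → ∀ y : K →+ ℝ, y δ = 0 → (Neg B y α).Finite → ∀ j, y (α j) < 0 →
  (Neg B y (refl B α j)).Finite ∧ (Neg B y (refl B α j)).ncard < (Neg B y α).ncard

end Lattice

section Category

variable (C : Type u) [Category.{v} C] [Preadditive C] [HasZeroObject C] [HasShift C ℤ]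
  [∀ n : ℤ, (shiftFunctor C n).Additive] [Pretriangulated C] [IsTriangulated C] [Linear ℂ C]
  [∀ n : ℤ, (shiftFunctor C n).Linear ℂ]

/-! ### Paths -/

/-- LFT (30 lines): lifting of paths, copy from the proof of `p_CEL` (`tu/B_CEL.lean`). -/
def Stmt_LFT : Prop := ∀ (h : EllipticSetting C) (σ : StabCond C) (W : ℝ → (K0 C →+ ℂ)),
  (∀ x, Continuous (fun s => W s x)) →
  (∀ s ∈ Set.Icc (0 : ℝ) 1, W s ∈ Xreg (eulerForm h.k3)) → W 0 = σ.Z →
  ∃ Γ : C(unitInterval, StabCond C), Γ 0 = σ ∧ ∀ s : unitInterval, (Γ s).Z = W s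

/-- NEA (30 lines): `covData.ball_mem` (see `p_CEL`), `near_of_phaseDist`, `phaseDist_comm`. -/
def Stmt_NEA : Prop := ∀ (_ : EllipticSetting C) (Γ : C(unitInterval, StabCond C))
  (s₀ : unitInterval) (η : ℝ), 0 < η →
  ∀ᶠ s in 𝓝 s₀, StabCond.Near η (Γ s) (Γ s₀) ∧ StabCond.Near η (Γ s₀) (Γ s)

/-- LIM (50 lines; uses NEA). For every `η`: some `s` near `s₀` with `X ∈ P_s[a - η, b + η]`, so `X ∈ P_{s₀}[a - 2η, b + 2η]` (`Near`,
see `Near.up`, `Near.low`); an HN filtration of `X` for `Γ s₀` has finitely many phases. -/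
def Stmt_LIM : Prop := ∀ (_ : EllipticSetting C) (Γ : C(unitInterval, StabCond C))
  (s₀ : unitInterval) (X : C) (a b : ℝ),
  (∀ η : ℝ, 0 < η → ∃ᶠ s in 𝓝 s₀, (Γ s).sl.In (Set.Icc (a - η) (b + η)) X) →
  (Γ s₀).sl.In (Set.Icc a b) X

/-- OPE (30 lines; uses NEA). An HN filtration has finitely many phases. -/
def Stmt_OPE : Prop := ∀ (_ : EllipticSetting C) (Γ : C(unitInterval, StabCond C))
  (s₀ : unitInterval) (X : C) (a b : ℝ), (Γ s₀).sl.In (Set.Ioo a b) X →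
  ∀ᶠ s in 𝓝 s₀, (Γ s).sl.In (Set.Ioo a b) X

/-- SAM (60 lines): as the last part of the proof of `p_CEL`, on the connected set `J`. -/
def Stmt_SAM : Prop := ∀ (h : EllipticSetting C) (Γ : C(unitInterval, StabCond C)) (t : ℝ)
  (δ : K0 C) (n : ℕ) (α : Fin n → K0 C) (J : Set unitInterval), J.OrdConnected →
  (∀ s ∈ J, Frame h (Γ s) t δ α) → ∀ s ∈ J, ∀ s' ∈ J, ∀ (i : Fin n) (k : ℤ) (X : C),
    IsS (Γ s) t δ α i k X → IsS (Γ s') t δ α i k X

/-- HRT (60 lines). Hearts: `c_UQ2 C` in both directions (EXI gives objects; by UNI the `IsS` objects of `σ` and `τ` are the same). `P (t + 1)`: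
`X ∈ P_σ(t+1)` has class `m δ` (PTP), so `im_τ = 0` and `P_of_im`. `TF` is defined by the heart and `P (t + 1)`. -/
def Stmt_HRT : Prop := ∀ (h : EllipticSetting C) (σ τ : StabCond C) (t : ℝ) (δ : K0 C) (n : ℕ)
  (α : Fin n → K0 C), Frame h σ t δ α → Frame h τ t δ α →
  (∀ (i : Fin n) (k : ℤ) (X : C), IsS σ t δ α i k X → IsS τ t δ α i k X) →
  ∀ X, (σ.sl.Heart t X ↔ τ.sl.Heart t X) ∧ (σ.sl.P (t + 1) X ↔ τ.sl.P (t + 1) X) ∧
    (σ.TF t X ↔ τ.TF t X)

/-! ### Wall crossing -/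

/-- MON (40 lines). `exists_KIQ`: `K → Y → I`, `I → X → Q`; `I ≠ 0`; `Y` is atomic (ATM): `K = 0` or `I ∈ P(t+1)`, the latter gives
`j = 0` as `X` is torsion free. -/
def Stmt_MON : Prop := ∀ (h : EllipticSetting C) (σ : StabCond C) (t : ℝ) (δ : K0 C) (n : ℕ)
  (α : Fin n → K0 C), Frame h σ t δ α → ∀ (j : Fin n) (k : ℤ) (Y X : C), IsS σ t δ α j k Y →
    σ.TF t X → ∀ f : Y ⟶ X, f ≠ 0 → ∃ (Q : C) (g : X ⟶ Q) (w : Q ⟶ Y⟦(1 : ℤ)⟧),
      Triangle.mk f g w ∈ distTriang C ∧ σ.sl.Heart t Q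

/-- BDS (80 lines). `X` has phases in `[a, b]` with `t < a`, `b < t + 1` (`TF.in`, finitely many phases). `Y` is stable of phase `φ` (SPH) with
`re (cls Y) = re (α j) + k re δ`, `im (cls Y) = im (α j)` fixed: `φ → t + 1` for `k → ∞` (`re δ < 0`), `φ → t` for `k → -∞`. -/
def Stmt_BDS : Prop := ∀ (h : EllipticSetting C) (σ : StabCond C) (t : ℝ) (δ : K0 C) (n : ℕ)
  (α : Fin n → K0 C), Frame h σ t δ α → ∀ (j : Fin n) (X : C), σ.TF t X →
    (∃ k₀ : ℤ, ∀ k, k₀ ≤ k → ∀ Y, IsS σ t δ α j k Y → ∀ f : Y ⟶ X, f = 0) ∧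
    ∃ k₁ : ℤ, ∀ k, k ≤ k₁ → ∀ Y, IsS σ t δ α j k Y → ∀ f : X ⟶ Y, f = 0

/-- Torsion free, pairwise orthogonal bricks. -/
structure Fam {C : Type u} [Category.{v} C] [Preadditive C] [HasZeroObject C] [HasShift C ℤ]
    [∀ n : ℤ, (shiftFunctor C n).Additive] [Pretriangulated C] [Linear ℂ C]
    (σ : StabCond C) (t : ℝ) {N : ℕ} (S : Fin N → C) : Prop where
  tf : ∀ l, σ.TF t (S l)
  brick : ∀ l, Module.finrank ℂ (S l ⟶ S l) = 1
  orth : ∀ l l', l ≠ l' → ∀ f : S l ⟶ S l', f = 0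

/-- GAT (150 lines; uses MON BDS), the gate. Claim: if `f : S l ⟶ Y'`, `g : Y ⟶ S l'` are nonzero with `IsS j k' Y'`, `IsS j k Y` then `k < k'`. If
`k' ≤ k`, there is a nonzero `t : Y' ⟶ Y` (TWO, MOR, compose; for `k' = k` an isomorphism by UNI), `t` and `g` have cones in the
heart (MON), so `f ≫ t ≫ g ≠ 0` (a nonzero `f` composed with a map `Y → X` with cone `Q` in the heart: `f ≫ t = 0` would
factor `f` through `Q[-1]`, and `Hom(S l, Q[-1]) = 0`). So `l = l'` and the composite is a nonzero scalar: `f` is split mono, `Y'`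
is a brick (SPH) so `f` is an isomorphism, `cls (S l) = α j + k' δ`, excluded. Now let `m - 1` be the largest `k` with a
nonzero map from an `IsS j k` object to some `S l` (bounded above by BDS), or, if there is none, `m` below all `k` with nonzero
maps `S l ⟶ Y` (BDS). (`IsS j k` objects exist for all `k` and are unique up to isomorphism: EXI, UNI.) -/
def Stmt_GAT : Prop := ∀ (h : EllipticSetting C) (σ : StabCond C) (t : ℝ) (δ : K0 C) (n : ℕ)
  (α : Fin n → K0 C), Frame h σ t δ α → ∀ (N : ℕ) (S : Fin N → C), Fam σ t S → ∀ j : Fin n,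
    (∀ l (k : ℤ), cls (S l) ≠ α j + k • δ) →
    ∃ m : ℤ, (∀ l (k : ℤ), m ≤ k → ∀ Y, IsS σ t δ α j k Y → ∀ f : Y ⟶ S l, f = 0) ∧
      ∀ l (k : ℤ), k < m → ∀ Y, IsS σ t δ α j k Y → ∀ f : S l ⟶ Y, f = 0

/-- The charges of a wall crossing: the wall is at `s = 1/2`. -/
structure CrossPath {C : Type u} [Category.{v} C] [Preadditive C] [HasZeroObject C]
    [HasShift C ℤ] [∀ n : ℤ, (shiftFunctor C n).Additive] [Pretriangulated C] [IsTriangulated C]
    [Linear ℂ C] [∀ n : ℤ, (shiftFunctor C n).Linear ℂ]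
    (h : EllipticSetting C) (t : ℝ) (δ : K0 C) {n : ℕ} (α : Fin n → K0 C) (j : Fin n) (m : ℤ)
    (W : ℝ → (K0 C →+ ℂ)) : Prop where
  cont : ∀ x, Continuous (fun s => W s x)
  reg : ∀ s ∈ Set.Icc (0 : ℝ) 1, W s ∈ Xreg (eulerForm h.k3)
  delta : ∀ s, W s δ = - Complex.exp (Real.pi * t * Complex.I)
  root : ∀ s, W s (α j) = ((((m : ℝ) - 1 / 2 : ℝ) : ℂ) + ((1 - 2 * s : ℝ) : ℂ) * Complex.I) *
    Complex.exp (Real.pi * t * Complex.I)
  left : ∀ s ∈ Set.Ico (0 : ℝ) (1 / 2), InCell t δ α (W s)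
  right : ∀ s ∈ Set.Ioc (1 / 2 : ℝ) 1, InCell t δ (refl (eulerForm h.k3) α j) (W s)
  frame : ∀ s ∈ Set.Ioc (1 / 2 : ℝ) 1, ∀ τ : StabCond C, τ.Z = W s →
    Frame h τ t δ (refl (eulerForm h.k3) α j)
  wall : ∀ x, eulerForm h.k3 x x ≤ 2 →
    (W (1 / 2) x * Complex.exp (-(Real.pi * t * Complex.I))).im = 0 →
    ∃ k : ℤ, x = k • δ ∨ x = α j + k • δ ∨ x = -(α j + k • δ)

/-- CRP (200 lines; uses HOM REF). `W s δ = - e`, `W s (α j) = (m - 1/2 + (1 - 2 s) i) e`, `W s (α i) = 2 i e` for `i ≠ j`, `e = exp (π t i)` (HOM, `A = ℂ`; linear in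
`s`). `im W s (refl i) = 2 + (0 or (1 - 2 s)) > 0` for `i ≠ j`, `im W s (refl j) = 2 s - 1`. For `x` with `B x x ≤ 2`, `x = k δ + ∑ c i α i` with
`c ≥ 0` and some `c i > 0`, `i ≠ j`: the coordinate at `j` of the reflected class is `- c j + ∑_(i adjacent to j) c i ≥ 0`
(sign coherence), so `c j ≤ ∑_(i ≠ j) c i` and `im W s x ≥ 2 ∑_(i ≠ j) c i - ∑_(i ≠ j) c i > 0`. If all `c i = 0`, `i ≠ j`: `x = k δ + c • α j`,
`|c| ≤ 1`, `re W s (α j + k δ) = m - 1/2 - k ≠ 0`. `Xreg`: not zero on roots; radical: as in XRG (`im W s r = 0` only for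
multiples of `δ`: the radical element `r` has norm 0, `c ≥ 0` or `≤ 0`). `frame`: `TubeHyp` and REF (`im' = im W s`). -/
def Stmt_CRP : Prop := ∀ (h : EllipticSetting C) (σ : StabCond C) (t : ℝ) (δ : K0 C) (n : ℕ)
  (α : Fin n → K0 C), Frame h σ t δ α → ∀ (j : Fin n) (m : ℤ), ∃ W, CrossPath h t δ α j m W

/-- DIC (200 lines; uses LIM SAM HRT). `A = P_{Γ s}(t, t+1]` is the same for all `s < 1/2` (`c_XRG` gives `Frame h (Γ s) t δ α`; SAM, HRT), also `P(t+1)` and `TF`. `E` is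
stable in `P_w(t+1)`; its class `x` has norm `≤ 2` (`StabCond.Stable.cls_le`) and `im_w x = 0` (`wall`). For `s < 1/2` near `1/2`:
`E ∈ P_s(t + 1 - η, t + 1 + η)`; truncate at `t + 1` (`exists_trunc` with `Ioi (t+1)`): `E₊ → E → V` with `V ∈ P_s(t + 1 - η, t + 1]`, so `V ∈ A`, and `U = E₊[-1] ∈
P_s(t, t + η)`, `U ∈ A`. `U`, `V` do not depend on `s` (up to isomorphism: `Hom(E₊, V) = 0`; or: fix one `s`, then for later `s'` the
truncation for `s'` has the same properties `U' , V' ∈ A` and truncations are unique). So `U ∈ P_s(t, t + η')` for all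
`s` close to `1/2`, LIM: `U[1] ∈ P_w(t+1)`, `V ∈ P_w(t+1)`; `E` is simple: `U = 0` or `V = 0`. Case `U = 0`: `E ≅ V ∈ A`, `im_s x ≥ 0`; `x = k δ`: `im_0 = 0`,
`P_of_im`; `x = α j + k δ`: `re_w x < 0` (`re_neg_of_P`) gives `m ≤ k`; `E` is torsion free: the torsion part `T → E → F` in `A`
(`exists_torsion`): `T ∈ P_s(t+1)` for all `s < 1/2`, so `T ∈ P_w(t+1)` and `F ∈ P_w(t+1)` (`F` is a quotient of `E` in `A`, phases of `F` for
`s` are `≥` the minimal phase of `E`), simple: `T = 0` (`F = 0` would give `x = k δ`). `x = - (α j + k δ)`: impossible (`im_0 x < 0`).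
Case `V = 0`: `E ≅ U[1]`, `cls U = - x`; `x = k δ`, `re_w x < 0`: `k > 0`, but `U ∈ A` with `im_0 = 0` is in `P_0(t+1)`, so `cls U = p δ`,
`p > 0` (PTP): contradiction. So `cls U = α j + k δ` with `re_w > 0`: `k < m`; torsion free as `U` has phases in `(t, t + η)`. -/
def Stmt_DIC : Prop := ∀ (h : EllipticSetting C) (t : ℝ) (δ : K0 C) (n : ℕ) (α : Fin n → K0 C)
  (j : Fin n) (m : ℤ) (W : ℝ → (K0 C →+ ℂ)), CrossPath h t δ α j m W →
  ∀ Γ : C(unitInterval, StabCond C), (∀ s : unitInterval, (Γ s).Z = W s) →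
    Frame h (Γ 0) t δ α → ∀ w : unitInterval, (w : ℝ) = 1 / 2 →
    ∀ E, (Γ w).Stable (t + 1) E →
      ((Γ 0).sl.Heart t E ∧
        ((Γ 0).sl.P (t + 1) E ∨ ∃ k : ℤ, m ≤ k ∧ IsS (Γ 0) t δ α j k E)) ∨
      ∃ U, Nonempty (E ≅ U⟦(1 : ℤ)⟧) ∧ ∃ k : ℤ, k < m ∧ IsS (Γ 0) t δ α j k U

/-- WAL (150 lines; uses LIM SAM HRT DIC). `X ∈ P_s(t, t+1]` for all `s < 1/2` (HRT, `c_XRG`), so `X ∈ P_w[t, t+1]` (LIM). If there is a factor of phase `t`: truncation,
`X → B`, `B ∈ P_w(t)` nonzero, with a stable quotient (`exists_stable` type lemma, or `gen_stable` and induction): `X ⟶ E[-1]` nonzero, `E`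
stable in `P_w(t+1)`. DIC: `E ∈ A`: `Hom(X, E[-1]) = 0`; `E ≅ U[1]`: `Hom(X, U) = 0` by hypothesis. If there is a factor of phase
`t + 1`: `E ⟶ X` nonzero, `E` stable: `E ∈ A ∩ P_0(t+1)`: `X` is torsion free; `IsS j k E`, `m ≤ k`: hypothesis; `E ≅ U[1]`:
`Hom(U[1], X) = 0`. -/
def Stmt_WAL : Prop := ∀ (h : EllipticSetting C) (t : ℝ) (δ : K0 C) (n : ℕ) (α : Fin n → K0 C)
  (j : Fin n) (m : ℤ) (W : ℝ → (K0 C →+ ℂ)), CrossPath h t δ α j m W →
  ∀ Γ : C(unitInterval, StabCond C), (∀ s : unitInterval, (Γ s).Z = W s) →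
    Frame h (Γ 0) t δ α → ∀ w : unitInterval, (w : ℝ) = 1 / 2 →
    ∀ X, (Γ 0).TF t X →
      (∀ k : ℤ, m ≤ k → ∀ Y, IsS (Γ 0) t δ α j k Y → ∀ f : Y ⟶ X, f = 0) →
      (∀ k : ℤ, k < m → ∀ Y, IsS (Γ 0) t δ α j k Y → ∀ f : X ⟶ Y, f = 0) →
      (Γ w).sl.In (Set.Ioo t (t + 1)) X

/-- CRS (100 lines; uses LFT OPE SAM HRT GAT CRP WAL). GAT gives `m`, CRP gives `W`; `c_CEL` joins `σ` to `σ₁` with charge `W 0` (the objects `S l` stay torsion free: HRT;
the `IsS` objects are the same), LFT from `σ₁`, WAL at `1/2`, OPE: `S l ∈ P_s(t, t+1)` for `s > 1/2` near `1/2`, torsion free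
(`tf_of_in`), `Frame` for all `s > 1/2`, SAM and HRT on `Ioc (1/2) 1`. -/
def Stmt_CRS : Prop := ∀ (h : EllipticSetting C) (σ : StabCond C) (t : ℝ) (δ : K0 C) (n : ℕ)
  (α : Fin n → K0 C), Frame h σ t δ α → ∀ (N : ℕ) (S : Fin N → C), Fam σ t S → ∀ j : Fin n,
    (∀ l (k : ℤ), cls (S l) ≠ α j + k • δ) →
    ∃ σ', Joined σ σ' ∧ Frame h σ' t δ (refl (eulerForm h.k3) α j) ∧ Fam σ' t S

/-- WLK (80 lines; uses REF NFI NDE CRS). Induction on `(Neg B y α).ncard`. If `y (α i) > 0` for all `i` we are done. Otherwise `y (α j) < 0` (roots), and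
`cls (S l) ≠ α j + k • δ` as `y (cls (S l)) > 0`; CRS; the condition on the radical: REF with `im' = σ'.im t`. -/
def Stmt_WLK : Prop := ∀ (h : EllipticSetting C) (N : ℕ) (S : Fin N → C) (t : ℝ) (δ : K0 C)
  (n : ℕ) (y : K0 C →+ ℝ), y δ = 0 → (∀ x, eulerForm h.k3 x x = 2 → y x ≠ 0) →
  (∀ l, 0 < y (cls (S l))) → ∀ (σ : StabCond C) (α : Fin n → K0 C), Frame h σ t δ α →
    (∀ r ∈ radical (eulerForm h.k3), 0 < σ.im t r → 0 < y r) → Fam σ t S →
    ∃ (σ' : StabCond C) (α' : Fin n → K0 C), Joined σ σ' ∧ Frame h σ' t δ α' ∧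
      (∀ i, 0 < y (α' i)) ∧ Fam σ' t S

/-! ### Alignment -/

/-- The objects `S l`: spherical, pairwise orthogonal in degree 0, their classes `β l` are the simple roots of `K / ℤ ε`, and
the label `m o` is 1. -/
structure Coll {C : Type u} [Category.{v} C] [Preadditive C] [HasZeroObject C]
    [HasShift C ℤ] [∀ n : ℤ, (shiftFunctor C n).Additive] [Pretriangulated C] [IsTriangulated C]
    [Linear ℂ C] [∀ n : ℤ, (shiftFunctor C n).Linear ℂ]
    (h : EllipticSetting C) (ε : K0 C) {n : ℕ} (β : Fin n → K0 C) (m : Fin n → ℕ) (o : Fin n)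
    (S : Fin n → C) : Prop where
  lat : ∃ im : K0 C →+ ℝ, LatHyp (eulerForm h.k3) im ε ∧ SimpleRoots (eulerForm h.k3) im ε β
  lab : Labels (eulerForm h.k3) ε β m
  one : m o = 1
  cls_eq : ∀ l, cls (S l) = β l
  sph : ∀ l, Spherical (S l)
  orth : ∀ l l', l ≠ l' → ∀ f : S l ⟶ S l', f = 0

/-- All `S l` have the phase `t + 1/2`, and `ε` is on the side of larger phases. -/
structure Aligned {C : Type u} [Category.{v} C] [Preadditive C] [HasZeroObject C]
    [HasShift C ℤ] [∀ n : ℤ, (shiftFunctor C n).Additive] [Pretriangulated C]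
    (t : ℝ) (ε : K0 C) {n : ℕ} (S : Fin n → C) (τ : StabCond C) : Prop where
  P : ∀ l, τ.sl.P (t + 1 / 2) (S l)
  re : τ.re t ε < 0

/-- PER (150 lines; uses LFT OPE). The phases of the (nonzero) `S l` are in `[φ + 2η, φ + 1]` for some `η > 0`. The classes `r` of the radical
with `Z r` of phase in `(φ + 1 + η/2, φ + 1 + η)` exist (`Z` is injective on `radical ⊗ ℝ`, so `Z (radical)` is a lattice in `ℂ`, see
`Xreg`); take a primitive one, `δ`, and `t` with `t + 1` = phase of `Z δ`: `t ∈ (φ + η/2, φ + η)`, so `S l ∈ P(t, t+1)`. If a root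
is on the line of `Z δ`, change the charge by `s • u`, `u : K →+ ℂ` zero on the radical, small `s`, with LFT, OPE and a generic
`u` (countably many roots, each root is not in the radical). `TF`: `tf_of_in`. -/
def Stmt_PER : Prop := ∀ (h : EllipticSetting C) (σ : StabCond C) (φ : ℝ) (N : ℕ) (S : Fin N → C),
  (∀ l, σ.sl.Heart φ (S l)) → (∀ l, ¬ IsZero (S l)) →
  ∃ (σ' : StabCond C) (t : ℝ) (δ : K0 C), Joined σ σ' ∧ TubeHyp h σ' t δ ∧ ∀ l, σ'.TF t (S l)

/-- SPL (60 lines). `Hom(Q, N) = 0`: the composite `X → Q → N → X` is a scalar `c`; `c ≠ 0` makes `N → X` split epi with `Hom(N, Q) = 0`, so `X → Q` is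
zero and `Q` is a direct summand of `N[1]`, zero (both in the heart); `c = 0`: `Q → N → X` is zero as `N[1]`... (`X → Q` is an
epimorphism of the heart, `N → X` a monomorphism). `χ(Q, N) = 0`, `hom(Q, N[2]) = hom(N, Q) = 0`, so `Hom(Q, N[1]) = 0` (`Heart.eulerChar`):
`w = 0`, the triangle splits, `X ≅ N ⊞ Q`, two independent idempotents: contradiction. -/
def Stmt_SPL : Prop := ∀ (h : EllipticSetting C) (σ : StabCond C) (t : ℝ) (N X Q : C)
  (f : N ⟶ X) (g : X ⟶ Q) (w : Q ⟶ N⟦(1 : ℤ)⟧), Triangle.mk f g w ∈ distTriang C →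
  σ.sl.Heart t N → σ.sl.Heart t X → σ.sl.Heart t Q → Module.finrank ℂ (X ⟶ X) = 1 →
  ¬ IsZero N → ¬ IsZero Q → (∀ a : N ⟶ Q, a = 0) →
  (cls N ∈ radical (eulerForm h.k3) ∨ cls Q ∈ radical (eulerForm h.k3)) → False

/-- ALN (200 lines; uses HOM HRT DOM SPL). `δ = a ε + b ∑ m l β l`, `a ≠ 0` (as `im > 0` on `∑ m l β l`); `ρ : K →+ ℝ` with `ρ (β l) = 0`, `ρ ε = - 1/a` (HOM), so `ρ δ = -1`.
`W = (ρ + i im_σ) e^(iπt)` is in the cell of `σ` (`im_σ = σ.im t`); `c_CEL`: `σ'` with charge `W`, joined to `σ`, the `S l` are torsion free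
(HRT), so `S l ∈ P(t, t+1)`. For `l ≠ o`: `S l` is `IsS i k`, stable (SPH), `re = 0`, so phase `t + 1/2`. `S o`: suppose it is not
in `P(t + 1/2)`. HN filtration: last quotient `S o → Q`, `Q ∈ P(ψ)`, first step `P → S o`, `P ∈ P(ψ')`; `re (cls (S o)) = 0` gives
`ψ < t + 1/2 < ψ'`. For `l ≠ o`: `Hom(Q, S l) = 0` (`S o → Q` is epi in the heart, `Hom(S o, S l) = 0`), `Hom(S l, Q) = 0` (phases), so
`χ(S l, Q) ≤ 0`; `Hom(S l, P) = 0` (`P → S o` mono), `Hom(P, S l) = 0` (phases). `Hom(Q, P) = 0` (`S o → Q → P → S o` is a scalar,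
not invertible), `Hom(P, Q) = 0`, so `χ(P, Q) ≤ 0`. DOM: `cls P` or `cls Q` in the radical. SPL for `P → S o → S o/P` or
`N → S o → Q` (the phases of `N` are `> ψ`, those of `S o/P` are `< ψ'`). -/
def Stmt_ALN : Prop := ∀ (h : EllipticSetting C) (ε : K0 C) (n : ℕ) (β : Fin n → K0 C)
  (m : Fin n → ℕ) (o : Fin n) (S : Fin n → C), Coll h ε β m o S →
  ∀ (σ : StabCond C) (t : ℝ) (δ : K0 C) (n' : ℕ) (α : Fin n' → K0 C), Frame h σ t δ α →
    (∀ l, σ.TF t (S l)) → (∀ l, l ≠ o → ∃ (i : Fin n') (k : ℤ), β l = α i + k • δ) →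
    ∃ σ', Joined σ σ' ∧ ∀ l, σ'.sl.P (t + 1 / 2) (S l)

/-! ### Uniqueness -/

/-- PTH (150 lines; uses LFT LIM OPE). On `β l` the charge `W s` is `i y_l(s) e`, `y_l(s) > 0`, `e = exp (π T(s) i)`, on `ε`
`re (W s ε e⁻¹) = - ρ(s) < 0`. `Xreg`: a root `x = k ε + ∑ c l β l` has `re = - k ρ(s)`; if `k = 0` then `c` is sign coherent, not 0, and
`im = ∑ c l y_l(s) ≠ 0`; the radical is generated by `ε` and `∑ m l β l`. Lift `Γ` (LFT). The set of `s` with
`S l ∈ P_s(T(s) + 1/2)` for all `l` is closed (LIM) and contains 0. Open: near such an `s₀`, `S l ∈ P_s(T(s) + 1/2 - η, T(s) + 1/2 + η)` (OPE,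
`T` continuous); the HN factors `A` have positive `im` with sum `y_l(s)`, so `‖Z_s(A)‖ ≤ 2 y_l(s)`, `|re A| ≤ 2 y_l(s) sin (π η) < ρ(s)` for
small `η`, and `re A` is an integer multiple of `ρ(s)`: `re A = 0`, the phase is `T(s) + 1/2`. (Used for segments, `T` constant, and
for rotations `W s = exp (π t s i) τ.Z`, `T s = t s`.) -/
def Stmt_PTH : Prop := ∀ (h : EllipticSetting C) (ε : K0 C) (n : ℕ) (β : Fin n → K0 C)
  (m : Fin n → ℕ) (o : Fin n) (S : Fin n → C), Coll h ε β m o S →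
  ∀ (σ : StabCond C) (T : ℝ → ℝ) (W : ℝ → (K0 C →+ ℂ)), Continuous T →
    (∀ x, Continuous (fun s => W s x)) → Aligned (T 0) ε S σ → W 0 = σ.Z →
    (∀ s ∈ Set.Icc (0 : ℝ) 1, (∀ l, ∃ y : ℝ, 0 < y ∧
      W s (β l) = y * Complex.I * Complex.exp (Real.pi * T s * Complex.I)) ∧
      (W s ε * Complex.exp (-(Real.pi * T s * Complex.I))).re < 0) →
    ∃ σ', Joined σ σ' ∧ σ'.Z = W 1 ∧ Aligned (T 1) ε S σ'

/-- FRA (60 lines; uses SRY). `TubeHyp`: `rad, ne, prim` from `LatHyp`; `im (β l) > 0` and `re (β l) = 0` (`polar`); a root `x = k ε + ∑ c l β l` has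
`im = ∑ c l im (β l) ≠ 0` (sign coherence, `c ≠ 0`). `SimpleRoots`: SRY. `S l`: `tf_of_in`. -/
def Stmt_FRA : Prop := ∀ (h : EllipticSetting C) (ε : K0 C) (n : ℕ) (β : Fin n → K0 C)
  (m : Fin n → ℕ) (o : Fin n) (S : Fin n → C), Coll h ε β m o S →
  ∀ (τ : StabCond C) (t : ℝ), Aligned t ε S τ → τ.im t ε = 0 →
    Frame h τ t ε β ∧ (∀ l, IsS τ t ε β l 0 (S l)) ∧ ∀ l, τ.re t (β l) = 0

/-- SMT (120 lines). Objects of phase `b = t + 1/2`. (a) A stable `U ∈ P(b)` not isomorphic to any `S l`: the `S l` are stable in `P(b)` (their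
classes are indecomposable: every stable object of `P(b)` has class `x = k ε + ∑ c l β l` of norm `≤ 2` with `re x = 0`, so `k = 0`, and
`im x > 0`, so `c ≥ 0`, `c ≠ 0`); Schur: `Hom(S l, U) = 0 = Hom(U, S l)`, `χ(S l, U) ≤ 0` for all `l`, so `χ(U, U) = ∑ c l χ(β l, U) ≤ 0`:
`cls U` is in the radical, `χ(S l, U) = 0`, `Orth (S l) U`, `Orth U (S l)`. (b) `A ∈ P(b)` with `Hom(S l, A) = 0` for all `l`: induction on
`im (cls A)` (or on `gen_stable`): a stable sub `U → A → A'` in `P(b)`; `U` is not an `S l`, so as in (a); `Hom(S l, A') = 0` as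
`Hom(S l, U[1]) = 0`. The dual case: stable quotients. -/
def Stmt_SMT : Prop := ∀ (h : EllipticSetting C) (ε : K0 C) (n : ℕ) (β : Fin n → K0 C)
  (m : Fin n → ℕ) (o : Fin n) (S : Fin n → C), Coll h ε β m o S →
  ∀ (τ : StabCond C) (t : ℝ), Aligned t ε S τ → ∀ A : C, τ.sl.P (t + 1 / 2) A →
    ((∀ l (f : S l ⟶ A), f = 0) ∨ (∀ l (f : A ⟶ S l), f = 0)) →
    cls A ∈ radical (eulerForm h.k3)

/-- The second tube, in the direction of `- ∑ m l β l`, near an aligned `τ`. -/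
structure SecondTube {C : Type u} [Category.{v} C] [Preadditive C] [HasZeroObject C]
    [HasShift C ℤ] [∀ n : ℤ, (shiftFunctor C n).Additive] [Pretriangulated C] [IsTriangulated C]
    [Linear ℂ C] [∀ n : ℤ, (shiftFunctor C n).Linear ℂ]
    (h : EllipticSetting C) (t : ℝ) {n : ℕ} (β : Fin n → K0 C) (m : Fin n → ℕ) (o : Fin n)
    (S : Fin n → C) (Γ : C(unitInterval, StabCond C)) {n' : ℕ} (γ : Fin n' → K0 C) : Prop where
  frame : ∀ s, 0 < s → Frame h (Γ s) (t + 1 / 2) (-∑ l, (m l : ℤ) • β l) γ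
  simple : ∀ l, l ≠ o → ∃ (i : Fin n') (k : ℤ), β l = γ i + k • (-∑ l, (m l : ℤ) • β l)
  tf : ∀ s, 0 < s → ∀ l, l ≠ o → (Γ s).TF (t + 1 / 2) (S l)

/-- KPA (200 lines; uses HOM CRN SIM LFT SAM SRY FRA). `ρ = - re_τ ε > 0`, `y_l = im_τ (β l)`. `V s (β l) = (i y_l - s η) e` for `l ≠ o`, `V s (β o) = (i y_o + s η ∑_(l ≠ o) m l) e`,
`V s ε = τ.Z ε = - ρ e` (HOM, `e = e^(iπt)`, `V 0 = τ.Z`), so `V s (∑ m l β l) = i (∑ m l y_l) e` for all `s`. All `V s` are in the cell `(t, ε, β)` (`c_XRG`: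
`Xreg` and `Frame h (Γ s) t ε β`), lift `Γ` (LFT); by SAM the `S l` are `IsS (Γ s) t ε β l 0`, stable; the phase is `> t + 1/2` for
`l ≠ o`, `s > 0`: `S l ∈ P_s(t + 1/2, t + 1)`, `tf`. Put `y_s x = im_(t + 1/2) = - re_t (V s x)`: `y_s (k ε + ∑ c l β l) = k ρ + s η ∑_(l ≠ o) (c l - c o m l)`. For `x` of norm
`≤ 2`: `x - c o ∑ m l β l` has the same norm, `|c l - c o m l| ≤ M` (finitely many classes modulo the radical); `η` so small that
`n M η < ρ/2`: the sign of `y_s x` is the sign of `k`, or, if `k = 0`, that of the sign coherent vector `(c l - c o m l)_(l ≠ o)`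
(it is 0 only for multiples of `∑ m l β l`); it does not depend on `s > 0`. So `TubeHyp h (Γ s) (t + 1/2) (- ∑ m l β l)`, `γ` from
`c_BAS` at `s = 1`, and `SimpleRoots` for all `s > 0` (SRY). `simple`: CRN with `y_s`, `g = ρ`, `s η < κ ρ`, and SIM. -/
def Stmt_KPA : Prop := ∀ (h : EllipticSetting C) (ε : K0 C) (n : ℕ) (β : Fin n → K0 C)
  (m : Fin n → ℕ) (o : Fin n) (S : Fin n → C), Coll h ε β m o S →
  ∀ (τ : StabCond C) (t : ℝ), Aligned t ε S τ → τ.im t ε = 0 →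
    ∃ (Γ : C(unitInterval, StabCond C)) (n' : ℕ) (γ : Fin n' → K0 C), Γ 0 = τ ∧
      SecondTube h t β m o S Γ γ

/-- KPT (200 lines; uses LIM SAM SMT FRA). `b = t + 1/2`, tube `(b, - ∑ m l β l, γ)` of `Γ s`, `s > 0`. Take `l ≠ o` (`n ≥ 3`, `c_RNK`, `rank4`), `S l` is `IsS i k` for all
`s > 0`. Let `f : S l ⟶ Y` be nonzero, `Y` in `IsS i (k+1)` (the same for all `s > 0`, SAM), `Q` its cone: stable of phase `b + 1`
for all `s > 0` (PNT) and `Hom(S l, Q) ≠ 0` (ONE; or: `Hom(S l, Y) ` has dimension 2, `Hom(S l, S l)` 1). LIM: `Q ∈ P_τ(b + 1)`,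
`Q' = Q[-1] ∈ P_τ(b)` is an iterated extension of stable objects of `P_τ(b)` (`gen_stable`); each is isomorphic to some `S l'` or
orthogonal to all `S l'` in all degrees ((a) of SMT; repeat the argument). `exists_biprod_of_gen`: `Q' ≅ X₁ ⊞ X₂`; `End Q = ℂ`
(stable), so `X₁ = 0` or `X₂ = 0`; `X₁ = 0` would give `Orth (S l) Q`. -/
def Stmt_KPT : Prop := ∀ (h : EllipticSetting C) (ε : K0 C) (n : ℕ) (β : Fin n → K0 C)
  (m : Fin n → ℕ) (o : Fin n) (S : Fin n → C), Coll h ε β m o S →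
  ∀ (τ : StabCond C) (t : ℝ), Aligned t ε S τ → τ.im t ε = 0 →
    ∀ (Γ : C(unitInterval, StabCond C)) (n' : ℕ) (γ : Fin n' → K0 C), Γ 0 = τ →
      SecondTube h t β m o S Γ γ →
      ∃ Q : C, (∀ s, 0 < s → (Γ s).Stable (t + 1 / 2 + 1) Q) ∧
        Gen (fun Y => ∃ l, Nonempty (Y ≅ (S l)⟦(1 : ℤ)⟧)) Q

/-- LIN (120 lines; uses BDS). For all `k` there is a triangle `X → X' → Q` with `IsS i k X`, `IsS i (k+1) X'` (ONE: `Hom(X', Q) ≠ 0`; PEN, EXI, UNI). `Orth Q A`: so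
`Hom(X', A[p]) ≅ Hom(X, A[p])` for all `p, k`. `Hom(X, A) = 0` for large `k` (BDS), so for all `k`; `Hom(X, A[2])` has the
dimension of `Hom(A, X)`, zero for small `k` (BDS), so for all `k`; other `p ≠ 1`: both in the heart. `χ(X, A) = 0` as
`cls A` is in the radical: `Hom(X, A[1]) = 0`. -/
def Stmt_LIN : Prop := ∀ (h : EllipticSetting C) (σ : StabCond C) (t : ℝ) (δ : K0 C) (n : ℕ)
  (α : Fin n → K0 C), Frame h σ t δ α → ∀ A, σ.TF t A → cls A ∈ radical (eulerForm h.k3) →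
    ∀ (i : Fin n) (Q : C), σ.Stable (t + 1) Q →
      (∃ (k : ℤ) (X : C) (g : X ⟶ Q), IsS σ t δ α i k X ∧ g ≠ 0) → Orth Q A →
      ∀ (k : ℤ) (X : C), IsS σ t δ α i k X → Orth X A

/-- SPR (120 lines; uses LIN). `Q` is on some line (PTL). Let `I` be the set of the lines `i` with `Orth X A` for all `IsS i k` objects: not empty (LIN). If `i ∈ I`
and `χ(α i, α j) = -1`: a common point `Q'` (ADJ), it is the cone of a map between `IsS i` objects (PEN), so `Orth Q' A`, and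
LIN: `j ∈ I`. The diagram is connected (`irred` for the subgroups generated by `δ` and `α i`, `i ∈ I`, resp. `i ∉ I`): `I` is
everything, `c_ORT`. -/
def Stmt_SPR : Prop := ∀ (h : EllipticSetting C) (σ : StabCond C) (t : ℝ) (δ : K0 C) (n : ℕ)
  (α : Fin n → K0 C), Frame h σ t δ α → ∀ A, σ.TF t A → cls A ∈ radical (eulerForm h.k3) →
    ∀ Q : C, σ.Stable (t + 1) Q → Orth Q A → False

/-- KFO (60 lines; uses OPE KPA KPT SPR). If `A` is not zero: `χ(β l, A) = 0` for all `l`, `β l` and `ε` generate `K`: `cls A` is in the radical. KPA, KPT: `Orth Q A`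
(`Q` is an iterated extension of the `(S l)[1]`). For small `s > 0` (OPE) `A ∈ P_s(b, b + 1)`, torsion free for the second
tube. SPR. -/
def Stmt_KFO : Prop := ∀ (h : EllipticSetting C) (ε : K0 C) (n : ℕ) (β : Fin n → K0 C)
  (m : Fin n → ℕ) (o : Fin n) (S : Fin n → C), Coll h ε β m o S →
  ∀ (τ : StabCond C) (t : ℝ), Aligned t ε S τ → τ.im t ε = 0 → ∀ A : C,
    τ.sl.In (Set.Ioo (t + 1 / 2) (t + 3 / 2)) A → (∀ l, Orth (S l) A) → IsZero A

/-- TOB (200 lines; uses SMT KFO). `b = t + 1/2`. For `A ∈ P_τ(b, b + 1)`: `Hom(S l, A[p]) = 0` for `p ≠ 0, 1` (`p = 2`: `Hom(A, S l) = 0`, Serre) and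
`∑ m l χ(S l, A) = 0`. (K): so if all `Hom(S l, A) = 0`, or all `Hom(S l, A[1]) = 0`, then `Orth (S l) A` for all `l`, `A = 0`
(KFO). TOP: let `A → E → E'` be the first HN step, `A ∈ P(ψ)` nonzero, `E'` with phases `< ψ`, and suppose `b + 1 ≤ ψ`. If
`b + N < ψ < b + N + 1`, `N ≥ 1`: (K) for `A[-N]` gives a nonzero `S l ⟶ A[-N]`, and `Hom(S l, A[-N]) → Hom(S l, E[-N])` is injective
(`Hom(S l, E'[-N-1]) = 0` by phases), but `Hom(S l, E[-N]) = 0`. If `ψ = b + N`: `A` is rigid (`mukai`), so `χ(A, A) > 0` and `cls A` is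
not in the radical, SMT gives a nonzero `S l ⟶ A[-N]`, the same contradiction. BOTTOM: `E' → E → B`, `B ∈ P(ψ)` nonzero, `E'`
with phases `> ψ`; suppose `ψ ≤ b`. If `b - N < ψ < b - N + 1`, `N ≥ 1`: `Hom(S l, E[N+1]) → Hom(S l, B[N+1]) → Hom(S l, E'[N+2])`, the
first is 0, the last has the dimension of `Hom(E', (S l)[-N])`, 0 by phases: all `Hom(S l, B[N][1]) = 0`, (K): `B = 0`. If
`ψ = b - N`, `N ≥ 0`: `Hom(S l, B[N+2]) = 0` in the same way (`Hom(E', (S l)[-N-1]) = 0`), so `Hom(B[N], S l) = 0` for all `l`, SMT: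
`cls B` in the radical, but `B` is rigid (`mukai`). -/
def Stmt_TOB : Prop := ∀ (h : EllipticSetting C) (ε : K0 C) (n : ℕ) (β : Fin n → K0 C)
  (m : Fin n → ℕ) (o : Fin n) (S : Fin n → C), Coll h ε β m o S →
  ∀ (τ : StabCond C) (t : ℝ), Aligned t ε S τ → τ.im t ε = 0 → ∀ E : C, Rigid E →
    (∀ l (p : ℤ), p ≠ 0 → p ≠ 1 → ∀ f : S l ⟶ E⟦p⟧, f = 0) →
    τ.sl.In (Set.Ioo (t + 1 / 2) (t + 3 / 2)) E

/-- UNQ (150 lines; uses FRA TOB). `Frame h σ t ε β`, `Frame h τ t ε β`, `S l` is `IsS l 0` for both (FRA). Let `E` be the `IsS σ t ε β l 1` object of EXI: spherical,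
`E ∈ P_σ(φ)`, `re (cls E) = re (β l) + re ε < 0`, so `t + 1/2 < φ < t + 1`; phases and Serre give the hypothesis of TOB for `τ`:
`E ∈ P_τ(t + 1/2, t + 3/2)`. Each HN factor has `re < 0`, an integer multiple of `- re ε` (`K` is generated by `ε`, `β l`,
`re (β l) = 0`), and the sum is `re ε`: there is only one factor, `E ∈ P_τ(ψ)`, and `ψ = φ` (`phase_unique`, `polar`, the same charge, `|ψ - φ| < 2`). So
`E` is `IsS τ t ε β l 1` (`tf_of_in`). `c_UQ1`, `c_UQ2` in both directions, `c_UQ3`. -/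
def Stmt_UNQ : Prop := ∀ (h : EllipticSetting C) (ε : K0 C) (n : ℕ) (β : Fin n → K0 C)
  (m : Fin n → ℕ) (o : Fin n) (S : Fin n → C), Coll h ε β m o S →
  ∀ (σ τ : StabCond C) (t : ℝ), Aligned t ε S σ → Aligned t ε S τ → τ.im t ε = 0 →
    σ.Z = τ.Z → σ = τ

/-- SPX (150 lines; uses SPE LBL HOM). Take `σ₁` joined to `τ₀` and `δ` with `TubeHyp` (a primitive radical class, charge changed generically by
`exists_joined`, or as in PER), `LatHyp` (`c_LHY`), SPE: `y`; simple roots `β` of `y` (`c_BAS`), labels (LBL), `m o = 1`. `ε = δ` or `- δ`.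
`W x = ρ x + i y x` with `ρ ε = -1`, `ρ (β l) = 0` (HOM) is in `Xreg`, and has the orientation of `τ₀` for the right sign of `ε`
(`(ε, ∑ m l β l)` are independent in the radical; `W ε = -1`, `W (∑ m l β l) = i y(∑)`). `exists_joined`: `τ` with charge `W`; `TubeHyp h τ 0 ε`, `Frame`,
`S l` from EXI (`IsS l 0`): spherical, phase in `(0, 1)`, `re = 0`: phase `1/2`; orthogonal: CRO. -/
def Stmt_SPX : Prop := ∀ (h : EllipticSetting C) (τ₀ : StabCond C),
  ∃ (τ : StabCond C) (ε : K0 C) (n : ℕ) (β : Fin n → K0 C) (m : Fin n → ℕ) (o : Fin n)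
    (S : Fin n → C), Joined τ₀ τ ∧ Coll h ε β m o S ∧ Aligned 0 ε S τ ∧ τ.im 0 ε = 0

/-- FIA (150 lines; uses REF SRY SIM COR LBL PER WLK ALN PTH UNQ HOM). The criterion. PER: `σ₁`, `t`, `δ`; `c_LHY`, `c_BAS`: `Frame h σ₁ t δ α`; `Fam` (spherical, `orth`). COR with `im' = σ₁.im t`
(`TF`: `0 < im`, `gap_tf` or `tf_of_in`): `y`. WLK: `σ₂, α'` with `y (α' i) > 0`. SRY: `SimpleRoots B y δ α'`; SIM: `β l = α' i + k δ` for `l ≠ o`. ALN:
`σ₃` with `S l ∈ P(t + 1/2)`. `re_t (σ₃.Z ε) ≠ 0` (`Xreg` and `re_t = 0` on `∑ m l β l`); its sign is the orientation, the same as for `τ` (the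
orientation is constant on path components: `continuous_orient`, `orient_ne`; or in `c/Crit.lean`), so it is negative: `Aligned t ε S σ₃`.
PTH for `σ₃` (segment from `σ₃.Z` to `e^(iπt) τ.Z`, `T = t`): `σ₄` with `σ₄.Z = e^(iπt) τ.Z`. PTH for `τ` (`W s = e^(iπts) τ.Z`, `T s = t s`): `τ'` joined
to `τ` with charge `e^(iπt) τ.Z` and `Aligned t ε S τ'`, `τ'.im t ε = 0`. UNQ: `σ₄ = τ'`. -/
def Stmt_FIA : Prop := ∀ (h : EllipticSetting C) (ε : K0 C) (n : ℕ) (β : Fin n → K0 C)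
  (m : Fin n → ℕ) (o : Fin n) (S : Fin n → C), Coll h ε β m o S →
  ∀ (τ : StabCond C), Aligned 0 ε S τ → τ.im 0 ε = 0 →
  ∀ (σ : StabCond C) (φ : ℝ), (∀ l, σ.sl.Heart φ (S l)) →
    0 < orientOf σ.Z ε (∑ l, (m l : ℤ) • β l) * orientOf τ.Z ε (∑ l, (m l : ℤ) • β l) →
    Joined σ τ

end Category

end Pool.Align
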