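import Mathlib
import Pool.Agent.Work.MP_841263_al.Interface

/-! # Block DIC: the stable objects of phase `t + 1` on the wall (helper68) -/

open CategoryTheory CategoryTheory.Limits CategoryTheory.Pretriangulated
open scoped ZeroObject Topology
open Filter

set_option backward.isDefEq.respectTransparency false
set_option backward.defeqAttrib.useBackward true
set_option linter.unusedSectionVars false

namespace Pool.Align

open Pool.Stab Pool.Tube

universe v u

section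

variable {C : Type u} [Category.{v} C] [Preadditive C] [HasZeroObject C] [HasShift C ℤ]
  [∀ n : ℤ, (shiftFunctor C n).Additive] [Pretriangulated C] [IsTriangulated C] [Linear ℂ C]
  [∀ n : ℤ, (shiftFunctor C n).Linear ℂ]

/-- Stability conditions on a path are near to each other. -/
lemma DIC_near (h : EllipticSetting C) (Γ : C(unitInterval, StabCond C)) (s₀ : unitInterval)
    (η : ℝ) (hη : 0 < η) : ∀ᶠ s in 𝓝 s₀, StabCond.Near η (Γ s) (Γ s₀) := by
  have h1 : (0 : ENNReal) < ENNReal.ofReal η := ENNReal.ofReal_pos.2 hη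
  have h2 := h.covData.ball_mem (Γ s₀) h1
  have h3 := Γ.continuous.continuousAt h2
  exact mem_of_superset h3 (fun s hs => StabCond.near_of_phaseDist hη.le (le_of_lt hs))

/-- The lower bound for the last term of a triangle. -/
lemma DIC_upper {S : Slicing C} {a : ℝ} {X Y Z : C} {f : X ⟶ Y} {g : Y ⟶ Z}
    {k : Z ⟶ X⟦(1 : ℤ)⟧} (hT : Triangle.mk f g k ∈ distTriang C) (hY : S.In (Set.Ici a) Y)
    (hX : S.In (Set.Ici a) X) : S.In (Set.Ici a) Z :=
  Slicing.In.ext_upper (isUpperSet_Ici _) (rot_mk hT) hY (hX.shift_upper (isUpperSet_Ici _))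

/-- The upper bound for the first term of a triangle. -/
lemma DIC_lower {S : Slicing C} {b : ℝ} {X Y Z : C} {f : X ⟶ Y} {g : Y ⟶ Z}
    {k : Z ⟶ X⟦(1 : ℤ)⟧} (hT : Triangle.mk f g k ∈ distTriang C) (hY : S.In (Set.Ioi b)ᶜ Y)
    (hZ : S.In (Set.Ioi b)ᶜ Z) : S.In (Set.Ioi b)ᶜ X := by
  obtain ⟨a, c, hT'⟩ := exists_invrot hT
  exact Slicing.In.ext_lower (isUpperSet_Ioi _) hT' (hZ.shift_lower (isUpperSet_Ioi _)) hY

/-- Phases between two bounds. -/
lemma DIC_Icc {S : Slicing C} {a b : ℝ} {X : C} (h1 : S.In (Set.Ici a) X)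
    (h2 : S.In (Set.Ioi b)ᶜ X) : S.In (Set.Icc a b) X :=
  (Slicing.In.inter (isUpperSet_Ici a) (isUpperSet_Ioi b) h1 h2).mono
    (fun _ hx => ⟨hx.1, not_lt.1 hx.2⟩)

/-- The charges at the wall. -/
lemma DIC_re {h : EllipticSetting C} {t : ℝ} {δ : K0 C} {n : ℕ} {α : Fin n → K0 C} {j : Fin n}
    {m : ℤ} {W : ℝ → (K0 C →+ ℂ)} (hW : CrossPath h t δ α j m W) (σ : StabCond C)
    (hσ : σ.Z = W (1 / 2)) : σ.re t δ = -1 ∧ σ.re t (α j) = (m : ℝ) - 1 / 2 := by
  have he : Complex.exp (Real.pi * t * Complex.I) * Complex.exp (-(Real.pi * t * Complex.I)) = 1 := by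
    rw [← Complex.exp_add, add_neg_cancel, Complex.exp_zero]
  constructor
  · rw [σ.re_apply, hσ, hW.delta, neg_mul, he]
    simp
  · rw [σ.re_apply, hσ, hW.root, mul_assoc, he]
    simp

/-- The value of the charge at `δ` along the path. -/
lemma DIC_re0 {h : EllipticSetting C} {t : ℝ} {δ : K0 C} {n : ℕ} {α : Fin n → K0 C} {j : Fin n}
    {m : ℤ} {W : ℝ → (K0 C →+ ℂ)} (hW : CrossPath h t δ α j m W) (σ : StabCond C) (s : ℝ)
    (hσ : σ.Z = W s) : σ.re t δ = -1 := by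
  have he : Complex.exp (Real.pi * t * Complex.I) * Complex.exp (-(Real.pi * t * Complex.I)) = 1 := by
    rw [← Complex.exp_add, add_neg_cancel, Complex.exp_zero]
  rw [σ.re_apply, hσ, hW.delta, neg_mul, he]
  simp

theorem p_DIC : Stmt_LIM C → Stmt_SAM C → Stmt_HRT C → Stmt_DIC C := by
  intro hLIM hSAM hHRT h t δ n α j m W hW Γ hΓ F0 w hw E hE
  have hfin := h.finite
  have hfree := h.free
  -- the frames on the left of the wall
  have hw0 : (0 : unitInterval) < w := by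
    rw [← Subtype.coe_lt_coe, hw]
    norm_num
  have hF : ∀ s : unitInterval, s ∈ Set.Iio w → Frame h (Γ s) t δ α := by
    intro s hs
    have hs1 : (s : ℝ) < 1 / 2 := by
      rw [← hw]
      exact_mod_cast hs
    exact (c_XRG C h (Γ 0) t δ n α F0 (W s) (hW.left s ⟨s.2.1, hs1⟩)).2 (Γ s) (hΓ s)
  have hsame : ∀ s ∈ Set.Iio w, ∀ X,
      ((Γ 0).sl.Heart t X ↔ (Γ s).sl.Heart t X) ∧
      ((Γ 0).sl.P (t + 1) X ↔ (Γ s).sl.P (t + 1) X) ∧ ((Γ 0).TF t X ↔ (Γ s).TF t X) := by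
    intro s hs
    exact hHRT h (Γ 0) (Γ s) t δ n α F0 (hF s hs) (fun i k X hX =>
      hSAM h Γ t δ n α (Set.Iio w) Set.ordConnected_Iio (fun s' hs' => hF s' hs') 0 hw0 s hs
        i k X hX)
  -- frequently on the left
  have hne : (𝓝[<] w).NeBot := nhdsLT_neBot_of_exists_lt ⟨0, hw0⟩
  have hfreq : ∀ p : unitInterval → Prop, (∀ᶠ s in 𝓝 w, p s) →
      ∃ᶠ s in 𝓝 w, s ∈ Set.Iio w ∧ p s := by
    intro p hp
    exact (frequently_lt_nhds w).and_eventually hp
  -- phases of E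
  have hEs : ∀ η : ℝ, 0 < η → ∀ᶠ s in 𝓝 w, (Γ s).sl.In (Set.Icc (t + 1 - η) (t + 1 + η)) E := by
    intro η hη
    filter_upwards [DIC_near h Γ w η hη] with s hs
    exact hs (t + 1) E hE.1
  -- the limit
  have hlim : ∀ X, (∀ η : ℝ, 0 < η → ∃ᶠ s in 𝓝 w,
      (Γ s).sl.In (Set.Icc (t + 1 - η) (t + 1 + η)) X) → (Γ w).sl.P (t + 1) X := by
    intro X hX
    have h1 := hLIM h Γ w X (t + 1) (t + 1) hX
    rw [Set.Icc_self] at h1
    exact Slicing.In.P_of_singleton h1
  -- the class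
  have hcls := hE.cls_le h.k3
  have him := (Γ w).im_of_P hE.1
  have hre := (Γ w).re_neg_of_P hE.1 hE.2.1
  have hZw : (Γ w).Z = W (1 / 2) := by rw [hΓ w, hw]
  obtain ⟨hreδ, hreα⟩ := DIC_re hW (Γ w) hZw
  have hre0 : (Γ 0).re t δ = -1 := DIC_re0 hW (Γ 0) _ (hΓ 0)
  have hposj := F0.pos j
  have hδ0 := F0.im0
  obtain ⟨k, hk⟩ := hW.wall (cls E) hcls.2 (by
    rw [← hZw]
    exact him)
  -- a stability condition on the left near the wall
  obtain ⟨s₁, hs₁, hEs₁⟩ := (hfreq _ (hEs (1 / 2) (by norm_num))).exists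
  obtain ⟨Ep, V, f, g, c, hT, hEp, hV⟩ := (Γ s₁).sl.exists_trunc E (isUpperSet_Ioi (t + 1))
  have hEup : (Γ s₁).sl.In (Set.Ici (t + 1 / 2)) E := hEs₁.mono (fun x hx => by
    have := hx.1
    show t + 1 / 2 ≤ x
    linarith)
  have hElow : (Γ s₁).sl.In (Set.Ioi (t + 3 / 2))ᶜ E := hEs₁.mono (fun x hx => by
    have := hx.2
    show ¬ (t + 3 / 2 < x)
    linarith)
  have hV1 : (Γ s₁).sl.In (Set.Ici (t + 1 / 2)) V := DIC_upper hT hEup
    (hEp.mono (fun x hx => by
      have : t + 1 < x := hx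
      show t + 1 / 2 ≤ x
      linarith))
  have hVA1 : (Γ s₁).sl.Heart t V := (DIC_Icc hV1 hV).mono (fun x hx => by
    have := hx.1
    exact ⟨by linarith, hx.2⟩)
  have hEp1 : (Γ s₁).sl.In (Set.Ioi (t + 3 / 2))ᶜ Ep := DIC_lower hT hElow
    (hV.mono (fun x hx => by
      have : x ≤ t + 1 := not_lt.1 hx
      show ¬ (t + 3 / 2 < x)
      linarith))
  have hEp2 : (Γ s₁).sl.In (Set.Ioc (t + 1) (t + 3 / 2)) Ep :=
    (Slicing.In.inter (isUpperSet_Ioi (t + 1)) (isUpperSet_Ioi (t + 3 / 2)) hEp hEp1).mono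
      (fun x hx => ⟨hx.1, not_lt.1 hx.2⟩)
  have hU2 : (Γ s₁).sl.In (Set.Ioc t (t + 1 / 2)) (Ep⟦(-1 : ℤ)⟧) :=
    (hEp2.shift_neg_one).mono (by
      rintro _ ⟨x, hx, rfl⟩
      have h1 := hx.1
      have h2 := hx.2
      exact ⟨by show t < x - 1; linarith, by show x - 1 ≤ t + 1 / 2; linarith⟩)
  have hUA1 : (Γ s₁).sl.Heart t (Ep⟦(-1 : ℤ)⟧) := hU2.mono (fun x hx => ⟨hx.1, by
    have := hx.2
    linarith⟩)
  have hVA : ∀ s ∈ Set.Iio w, (Γ s).sl.Heart t V := fun s hs =>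
    (hsame s hs V).1.1 ((hsame s₁ hs₁ V).1.2 hVA1)
  have hUA : ∀ s ∈ Set.Iio w, (Γ s).sl.Heart t (Ep⟦(-1 : ℤ)⟧) := fun s hs =>
    (hsame s hs _).1.1 ((hsame s₁ hs₁ _).1.2 hUA1)
  let eE : (Ep⟦(-1 : ℤ)⟧)⟦(1 : ℤ)⟧ ≅ Ep := (shiftFunctorCompIsoId C (-1 : ℤ) 1 (by simp)).app Ep
  have hEpA : ∀ s ∈ Set.Iio w, (Γ s).sl.In (Set.Ioi (t + 1)) Ep := fun s hs =>
    (((hUA s hs).shift_one).iso eE).mono (by
      rintro _ ⟨x, hx, rfl⟩
      have := hx.1
      show t + 1 < x + 1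
      linarith)
  -- both terms are in P_w(t+1)
  have hEpP : (Γ w).sl.P (t + 1) Ep := by
    refine hlim Ep (fun η hη => ?_)
    refine (hfreq _ (hEs η hη)).mono ?_
    rintro s ⟨hs, hEη⟩
    have h1 : (Γ s).sl.In (Set.Ioi (t + 1 + η))ᶜ Ep := DIC_lower hT
      (hEη.mono (fun x hx => not_lt.2 hx.2))
      ((hVA s hs).lower.mono (fun x hx => by
        have : x ≤ t + 1 := not_lt.1 hx
        show ¬ (t + 1 + η < x)
        linarith))
    refine DIC_Icc ((hEpA s hs).mono (fun x hx => ?_)) h1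
    have : t + 1 < x := hx
    show t + 1 - η ≤ x
    linarith
  have hVP : (Γ w).sl.P (t + 1) V := by
    refine hlim V (fun η hη => ?_)
    refine (hfreq _ (hEs η hη)).mono ?_
    rintro s ⟨hs, hEη⟩
    have h1 : (Γ s).sl.In (Set.Ici (t + 1 - η)) V := DIC_upper hT
      (hEη.mono (fun x hx => hx.1)) ((hEpA s hs).mono (fun x hx => by
        have : t + 1 < x := hx
        show t + 1 - η ≤ x
        linarith))
    refine DIC_Icc h1 ((hVA s hs).lower.mono (fun x hx => ?_))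
    have : x ≤ t + 1 := not_lt.1 hx
    show ¬ (t + 1 + η < x)
    linarith
  rcases hE.2.2 Ep V f g c hT hEpP hVP with hz | hz
  · -- E is in the heart
    left
    have := iso_of_isZero₁ hT hz
    have hEA : ∀ s ∈ Set.Iio w, (Γ s).sl.Heart t E := fun s hs => (hVA s hs).iso (asIso g).symm
    have hEA0 := hEA 0 hw0
    refine ⟨hEA0, ?_⟩
    rcases hk with hk | hk | hk
    · left
      refine (Γ 0).P_of_im hEA0 ?_
      rw [hk, map_zsmul, hδ0, smul_zero]
    · right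
      rw [hk, map_add, map_zsmul, hreδ, hreα] at hre
      have hmk : m ≤ k := by
        have h1 : ((m : ℝ)) < k + 1 := by
          simp only [zsmul_eq_mul] at hre
          linarith
        have h2 : m < k + 1 := by exact_mod_cast h1
        omega
      refine ⟨k, hmk, ?_, hk⟩
      obtain ⟨T, Q, a, b, d, hT', hTP, hQ⟩ := hEA0.exists_torsion
      have hQA : ∀ s ∈ Set.Iio w, (Γ s).sl.Heart t Q := fun s hs =>
        (hsame s hs Q).1.1 (hQ.mono (fun x hx => ⟨hx.1, hx.2.le⟩))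
      have hTs : ∀ s ∈ Set.Iio w, (Γ s).sl.P (t + 1) T := fun s hs => (hsame s hs T).2.1.1 hTP
      have hTw : (Γ w).sl.P (t + 1) T := by
        refine hlim T (fun η hη => ?_)
        refine (hfreq _ (hEs η hη)).mono ?_
        rintro s ⟨hs, -⟩
        exact Slicing.in_of_P (hTs s hs) ⟨by linarith, by linarith⟩
      have hQw : (Γ w).sl.P (t + 1) Q := by
        refine hlim Q (fun η hη => ?_)
        refine (hfreq _ (hEs η hη)).mono ?_
        rintro s ⟨hs, hEη⟩
        have h1 : (Γ s).sl.In (Set.Ici (t + 1 - η)) Q := DIC_upper hT'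
          (hEη.mono (fun x hx => hx.1))
          (Slicing.in_of_P (hTs s hs) (by show t + 1 - η ≤ t + 1; linarith))
        refine DIC_Icc h1 ((hQA s hs).lower.mono (fun x hx => ?_))
        have : x ≤ t + 1 := not_lt.1 hx
        show ¬ (t + 1 + η < x)
        linarith
      rcases hE.2.2 T Q a b d hT' hTw hQw with hz' | hz'
      · have := iso_of_isZero₁ hT' hz'
        exact (Γ 0).tf_of_in (hQ.iso (asIso b).symm) hE.2.1
      · exfalso
        have h1 := cls_mk hT'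
        rw [cls_of_isZero hz', add_zero] at h1
        have h2 := (Γ 0).im_of_P hTP
        rw [← h1, hk, map_add, map_zsmul, hδ0, smul_zero, add_zero] at h2
        linarith
    · exfalso
      have h1 := (Γ 0).im_nonneg hEA0
      rw [hk, map_neg, map_add, map_zsmul, hδ0, smul_zero, add_zero] at h1
      linarith
  · -- E is the shift of an object of the heart
    right
    have := iso_of_isZero₃ hT hz
    have hUA0 := hUA 0 hw0
    have hclsU : cls (Ep⟦(-1 : ℤ)⟧) = - cls E := by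
      have h1 := cls_shift_one (Ep⟦(-1 : ℤ)⟧)
      rw [cls_iso eE, cls_iso (asIso f)] at h1
      rw [h1, neg_neg]
    have hU0 : ¬ IsZero (Ep⟦(-1 : ℤ)⟧) := fun hz' =>
      hE.2.1 (((isZero_shift_iff _ _).1 hz').of_iso (asIso f).symm)
    refine ⟨Ep⟦(-1 : ℤ)⟧, ⟨(asIso f).symm ≪≫ eE.symm⟩, k, ?_⟩
    rcases hk with hk | hk | hk
    · exfalso
      rw [hk, map_zsmul, hreδ] at hre
      have hP : (Γ 0).sl.P (t + 1) (Ep⟦(-1 : ℤ)⟧) := by
        refine (Γ 0).P_of_im hUA0 ?_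
        rw [hclsU, hk, map_neg, map_zsmul, hδ0, smul_zero, neg_zero]
      have h1 := (Γ 0).re_neg_of_P hP hU0
      rw [hclsU, hk, map_neg, map_zsmul, hre0] at h1
      linarith
    · exfalso
      have h1 := (Γ 0).im_nonneg hUA0
      rw [hclsU, hk, map_neg, map_add, map_zsmul, hδ0, smul_zero, add_zero] at h1
      linarith
    · rw [hk, map_neg, map_add, map_zsmul, hreδ, hreα] at hre
      have hkm : k < m := by
        have h1 : ((k : ℝ)) < m := by
          simp only [zsmul_eq_mul] at hre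
          linarith
        exact_mod_cast h1
      refine ⟨hkm, ?_, ?_⟩
      · refine (hsame s₁ hs₁ _).2.2.2 ((Γ s₁).tf_of_in (hU2.mono (fun x hx => ⟨hx.1, ?_⟩)) hU0)
        have := hx.2
        linarith
      · rw [hclsU, hk, neg_neg]

end

end Pool.Align
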