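import Pool.Agent.Work.MP_841263_al.Interface

/-!
DOM (MP_841263_ag, alignment): two antidominant classes with nonpositive product.
-/

open CategoryTheory CategoryTheory.Limits CategoryTheory.Pretriangulated
open scoped ZeroObject Topology
open Filter

namespace Pool.Align

open Pool.Stab Pool.Tube

universe v u

lemma DOM_left {K : Type u} [AddCommGroup K] (B : K →+ K →+ ℤ) {n : ℕ} (β : Fin n → K)
    (a : Fin n → ℤ) (y : K) : B (∑ l, a l • β l) y = ∑ l, a l * B (β l) y := by
  rw [map_sum, AddMonoidHom.finsetSum_apply]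
  apply Finset.sum_congr rfl
  intro l _
  rw [map_zsmul, AddMonoidHom.coe_smul, Pi.smul_apply, smul_eq_mul]

lemma DOM_right {K : Type u} [AddCommGroup K] (B : K →+ K →+ ℤ) {n : ℕ} (β : Fin n → K)
    (a : Fin n → ℤ) (y : K) : B y (∑ l, a l • β l) = ∑ l, a l * B y (β l) := by
  rw [map_sum]
  apply Finset.sum_congr rfl
  intro l _
  rw [map_zsmul, smul_eq_mul]

theorem p_DOM : Stmt_DOM.{u} := by
  classical
  intro K _ _ _ B im ε hL n β m o hS hm ho p q hp hq hpq
  have hB := hL.psd
  have hsymm := hB.symm
  have hoff : ∀ i j, i ≠ j → B (β i) (β j) ≤ 0 := by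
    intro i j hij
    rcases hS.off i j hij with h | h <;> omega
  obtain ⟨k, c, hc⟩ := hS.span (-p)
  obtain ⟨x, hx⟩ : ∃ x : Fin n → ℤ, x = fun l => c l - c o * m l := ⟨_, rfl⟩
  have hxo : x o = 0 := by
    rw [hx]
    simp only
    rw [ho]
    push_cast
    ring
  have hdec : -p = (k • ε + c o • ∑ l, (m l : ℤ) • β l) + ∑ l, x l • β l := by
    rw [hc, hx, Finset.smul_sum, add_assoc, ← Finset.sum_add_distrib]
    congr 1
    apply Finset.sum_congr rfl
    intro l _
    rw [smul_smul, ← add_smul]
    congr 1
    ring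
  have hr : k • ε + c o • ∑ l, (m l : ℤ) • β l ∈ radical B :=
    Submodule.add_mem _ (Submodule.smul_mem _ _ hL.rad) (Submodule.smul_mem _ _ hm.rad)
  have hBp : ∀ y, B (-p) y = ∑ l, x l * B (β l) y := by
    intro y
    rw [hdec, map_add, AddMonoidHom.add_apply, hr y, zero_add, DOM_left]
  have hBpl : ∀ l, l ≠ o → 0 ≤ B (-p) (β l) := by
    intro l hl
    rw [map_neg, AddMonoidHom.neg_apply]
    have := hp l hl
    omega
  -- the negative part
  have hneg : ∀ l, 0 ≤ x l := by
    obtain ⟨xn, hxn⟩ : ∃ xn : Fin n → ℤ, xn = fun l => max (-x l) 0 := ⟨_, rfl⟩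
    obtain ⟨xp, hxp⟩ : ∃ xp : Fin n → ℤ, xp = fun l => max (x l) 0 := ⟨_, rfl⟩
    have hn0 : ∀ l, 0 ≤ xn l := fun l => by rw [hxn]; exact le_max_right _ _
    have hp0 : ∀ l, 0 ≤ xp l := fun l => by rw [hxp]; exact le_max_right _ _
    have hxpn : ∀ l, x l = xp l - xn l := by
      intro l
      rw [hxn, hxp]
      simp only
      rcases le_total (x l) 0 with h | h
      · rw [max_eq_right h, max_eq_left (by omega)]; ring
      · rw [max_eq_left h, max_eq_right (by omega)]; ring
    have hprod : ∀ l, xp l * xn l = 0 := by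
      intro l
      rw [hxn, hxp]
      simp only
      rcases le_total (x l) 0 with h | h
      · rw [max_eq_right h]; ring
      · rw [max_eq_right (show -x l ≤ 0 by omega)]; ring
    have hno : xn o = 0 := by
      rw [hxn]
      simp only
      rw [hxo]
      simp
    have h1 : 0 ≤ B (-p) (∑ l, xn l • β l) := by
      rw [DOM_right]
      apply Finset.sum_nonneg
      intro l _
      by_cases hl : l = o
      · rw [hl, hno, zero_mul]
      · exact mul_nonneg (hn0 l) (hBpl l hl)
    have h2 : B (-p) (∑ l, xn l • β l) =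
        ∑ l, ∑ l', xp l * xn l' * B (β l) (β l') - B (∑ l, xn l • β l) (∑ l, xn l • β l) := by
      rw [hBp, DOM_left]
      rw [← Finset.sum_sub_distrib]
      apply Finset.sum_congr rfl
      intro l _
      rw [DOM_right, hxpn l, Finset.mul_sum, Finset.mul_sum, ← Finset.sum_sub_distrib]
      apply Finset.sum_congr rfl
      intro l' _
      ring
    have h3 : ∑ l, ∑ l', xp l * xn l' * B (β l) (β l') ≤ 0 := by
      apply Finset.sum_nonpos
      intro l _
      apply Finset.sum_nonpos
      intro l' _
      by_cases hll : l = l'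
      · rw [← hll, hprod l, zero_mul]
      · exact mul_nonpos_of_nonneg_of_nonpos (mul_nonneg (hp0 l) (hn0 l')) (hoff l l' hll)
    have h4 : B (∑ l, xn l • β l) (∑ l, xn l • β l) = 0 := by
      have := hB.nonneg (∑ l, xn l • β l)
      omega
    obtain ⟨a, b, hab⟩ := hm.gen _ (hB.mem_radical_of_self h4)
    have h5 : (-a) • ε + ∑ l, (xn l - b * m l) • β l = 0 := by
      have h6 : ∑ l, (xn l - b * m l) • β l = ∑ l, xn l • β l - b • ∑ l, (m l : ℤ) • β l := by
        rw [Finset.smul_sum, ← Finset.sum_sub_distrib]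
        apply Finset.sum_congr rfl
        intro l _
        rw [sub_smul, smul_smul]
      rw [h6, hab, neg_smul]
      abel
    have h6 := (hS.indep _ _ h5).2
    have h7 : b = 0 := by
      have := h6 o
      rw [hno, ho] at this
      push_cast at this
      omega
    intro l
    have h8 := h6 l
    rw [h7, zero_mul, sub_zero] at h8
    rw [hxpn l, h8, sub_zero]
    exact hp0 l
  -- orthogonality
  have horth : ∀ l, l ≠ o → x l = 0 → ∀ j, x j ≠ 0 → B (β j) (β l) = 0 := by
    intro l hl hxl j hj
    have h1 := hBpl l hl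
    rw [hBp] at h1
    have h2 : ∀ i ∈ (Finset.univ : Finset (Fin n)), x i * B (β i) (β l) ≤ 0 := by
      intro i _
      by_cases hi : i = l
      · rw [hi, hxl, zero_mul]
      · exact mul_nonpos_of_nonneg_of_nonpos (hneg i) (hoff i l hi)
    have h3 : ∑ i, x i * B (β i) (β l) = 0 := le_antisymm (Finset.sum_nonpos h2) h1
    have h4 := (Finset.sum_eq_zero_iff_of_nonpos h2).1 h3 j (Finset.mem_univ j)
    rcases mul_eq_zero.1 h4 with h5 | h5
    · exact absurd h5 hj
    · exact h5
  by_cases hI : ∃ l, l ≠ o ∧ x l = 0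
  · left
    obtain ⟨l0, hl0, hxl0⟩ := hI
    let P : AddSubgroup K := AddSubgroup.closure ((radical B : Set K) ∪ {y | ∃ j, x j ≠ 0 ∧ y = β j})
    let Q : AddSubgroup K := AddSubgroup.closure
      ((radical B : Set K) ∪ {y | ∃ j, j ≠ o ∧ x j = 0 ∧ y = β j})
    have hradP : ∀ y ∈ radical B, y ∈ P := fun y hy =>
      AddSubgroup.subset_closure (Or.inl hy)
    have hmem : ∀ l, l ≠ o → β l ∈ P ⊔ Q := by
      intro l hl
      by_cases hxl : x l = 0
      · exact AddSubgroup.mem_sup_right (AddSubgroup.subset_closure (Or.inr ⟨l, hl, hxl, rfl⟩))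
      · exact AddSubgroup.mem_sup_left (AddSubgroup.subset_closure (Or.inr ⟨l, hxl, rfl⟩))
    have hsplit : (∑ l, (m l : ℤ) • β l) = β o + ∑ l ∈ Finset.univ.erase o, (m l : ℤ) • β l := by
      rw [← Finset.add_sum_erase _ _ (Finset.mem_univ o), ho]
      push_cast
      rw [one_smul]
    have hsum : ∑ l ∈ Finset.univ.erase o, (m l : ℤ) • β l ∈ P ⊔ Q := by
      apply AddSubgroup.sum_mem
      intro l hl
      exact AddSubgroup.zsmul_mem _ (hmem l (Finset.ne_of_mem_erase hl)) _
    have hmo : β o ∈ P ⊔ Q := by
      have h1 : β o = (∑ l, (m l : ℤ) • β l) - ∑ l ∈ Finset.univ.erase o, (m l : ℤ) • β l := by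
        rw [hsplit]; abel
      rw [h1]
      exact AddSubgroup.sub_mem _ (AddSubgroup.mem_sup_left (hradP _ hm.rad)) hsum
    have htop : P ⊔ Q = ⊤ := by
      rw [eq_top_iff]
      intro y _
      obtain ⟨k', c', hy⟩ := hS.span y
      rw [hy]
      apply AddSubgroup.add_mem
      · exact AddSubgroup.zsmul_mem _ (AddSubgroup.mem_sup_left (hradP _ hL.rad)) _
      · apply AddSubgroup.sum_mem
        intro l _
        apply AddSubgroup.zsmul_mem
        by_cases hl : l = o
        · rw [hl]; exact hmo
        · exact hmem l hl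
    have hPQ : ∀ y ∈ P, ∀ z ∈ Q, B y z = 0 := by
      intro y hy z hz
      induction hy using AddSubgroup.closure_induction with
      | mem y hy =>
        induction hz using AddSubgroup.closure_induction with
        | mem z hz =>
          rcases hy with hy | ⟨j, hj, rfl⟩
          · exact hy z
          · rcases hz with hz | ⟨l, hl, hxl, rfl⟩
            · rw [hsymm]
              exact hz _
            · exact horth l hl hxl j hj
        | zero => exact map_zero _
        | add z z' _ _ h1 h2 => rw [map_add, h1, h2, add_zero]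
        | neg z _ h1 => rw [map_neg, h1, neg_zero]
      | zero => rw [map_zero, AddMonoidHom.zero_apply]
      | add y y' _ _ h1 h2 => rw [map_add, AddMonoidHom.add_apply, h1, h2, add_zero]
      | neg y _ h1 => rw [map_neg, AddMonoidHom.neg_apply, h1, neg_zero]
    rcases hL.irred P Q htop hPQ with h | h
    · -- all coefficients vanish
      have h1 : ∀ j, x j = 0 := by
        intro j
        by_contra hj
        have h2 := h (β j) (AddSubgroup.subset_closure (Or.inr ⟨j, hj, rfl⟩)) (β j)
        rw [hS.norm j] at h2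
        omega
      have h2 : -p ∈ radical B := by
        intro y
        rw [hBp]
        apply Finset.sum_eq_zero
        intro j _
        rw [h1 j, zero_mul]
      rw [← neg_neg p]
      exact Submodule.neg_mem _ h2
    · exfalso
      have h2 := h (β l0) (AddSubgroup.subset_closure (Or.inr ⟨l0, hl0, hxl0, rfl⟩)) (β l0)
      rw [hS.norm l0] at h2
      omega
  · right
    push Not at hI
    have h1 : B (-p) (-q) ≤ 0 := by
      rw [map_neg, map_neg, AddMonoidHom.neg_apply, neg_neg]
      exact hpq
    rw [hBp] at h1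
    have h2 : ∀ l ∈ (Finset.univ : Finset (Fin n)), 0 ≤ x l * B (β l) (-q) := by
      intro l _
      by_cases hl : l = o
      · rw [hl, hxo, zero_mul]
      · apply mul_nonneg (hneg l)
        rw [map_neg, hsymm]
        have := hq l hl
        omega
    have h3 : ∑ l, x l * B (β l) (-q) = 0 := le_antisymm h1 (Finset.sum_nonneg h2)
    have h4 : ∀ l, l ≠ o → B q (β l) = 0 := by
      intro l hl
      have h5 := (Finset.sum_eq_zero_iff_of_nonneg h2).1 h3 l (Finset.mem_univ l)
      rcases mul_eq_zero.1 h5 with h6 | h6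
      · exact absurd h6 (hI l hl)
      · rw [map_neg, neg_eq_zero] at h6
        rw [hsymm]
        exact h6
    have h5 : B q (∑ l, (m l : ℤ) • β l) = 0 := by
      rw [hsymm]
      exact hm.rad q
    have h6 : B q (β o) = 0 := by
      rw [DOM_right, ← Finset.add_sum_erase _ _ (Finset.mem_univ o), ho] at h5
      rw [Finset.sum_eq_zero (fun l hl => by rw [h4 l (Finset.ne_of_mem_erase hl), mul_zero])] at h5
      push_cast at h5
      linarith
    intro y
    obtain ⟨k', c', hy⟩ := hS.span y
    have h7 : B q ε = 0 := by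
      rw [hsymm]
      exact hL.rad q
    rw [hy, map_add, map_zsmul, h7, smul_zero, zero_add, DOM_right]
    apply Finset.sum_eq_zero
    intro l _
    by_cases hl : l = o
    · rw [hl, h6, mul_zero]
    · rw [h4 l hl, mul_zero]

end Pool.Align
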