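import Mathlib
import Pool.Agent.Work.MP_841263_al.Interface

/-!
# Path connectedness of `Stab`: the top level statements (helper44)

`Stmt_SEP` (helper34, table sq_blocks), `Stmt_HLF` (helper78, helper13, table sr_blocks, with the pieces of helper31 and
helper92) are the two big pieces of the amplitude reduction; `SEM TUP CLO AMP END` are blocks of the table al_blocks.
-/

open CategoryTheory CategoryTheory.Limits CategoryTheory.Pretriangulated
open scoped ZeroObject Topology
open Filter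

namespace Pool.Align

open Pool.Stab Pool.Tube

universe v u

variable (C : Type u) [Category.{v} C] [Preadditive C] [HasZeroObject C] [HasShift C ℤ]
  [∀ n : ℤ, (shiftFunctor C n).Additive] [Pretriangulated C] [IsTriangulated C] [Linear ℂ C]
  [∀ n : ℤ, (shiftFunctor C n).Linear ℂ]

/-- Pairwise orthogonal spherical objects without morphisms of negative degree; the diagram is connected. -/
structure Semi {C : Type u} [Category.{v} C] [Preadditive C] [HasZeroObject C] [HasShift C ℤ]
    [∀ n : ℤ, (shiftFunctor C n).Additive] [Pretriangulated C] [Linear ℂ C] {n : ℕ}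
    (S : Fin n → C) : Prop where
  pos : 0 < n
  sph : ∀ l, Spherical (S l)
  orth : ∀ l l', l ≠ l' → ∀ f : S l ⟶ S l', f = 0
  neg : ∀ l l' (p : ℤ), p < 0 → ∀ f : S l ⟶ (S l')⟦p⟧, f = 0
  conn : ∀ I : Set (Fin n), (∀ i ∈ I, ∀ j ∉ I, Orth (S i) (S j)) → I = ∅ ∨ I = Set.univ

/-- SEM (80 lines). `neg`: phases for `τ` (both in `P(1/2)`). `conn`: `Orth (S i) (S j)` gives `χ(β i, β j) = 0`; `irred` (field of
`LatHyp`, from `Coll.lat`) for the subgroups generated by `ε` and `β i`, `i ∈ I`, resp. `i ∉ I` (`span`); `β i` has norm 2, so it is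
not in the radical. `0 < n`: `rank4` and `span`. -/
def Stmt_SEM : Prop := ∀ (h : EllipticSetting C) (ε : K0 C) (n : ℕ) (β : Fin n → K0 C)
  (m : Fin n → ℕ) (o : Fin n) (S : Fin n → C), Coll h ε β m o S →
  ∀ (τ : StabCond C), Aligned 0 ε S τ → Semi S

/-- TUP (60 lines; uses LFT OPE; same proof as PER; `In (Ioc φ (φ + N + 1))` instead of the heart). -/
def Stmt_TUP : Prop := ∀ (h : EllipticSetting C) (σ : StabCond C) (φ : ℝ) (N n : ℕ)
  (S : Fin n → C), (∀ l, σ.sl.In (Set.Ioc φ (φ + N + 1)) (S l)) →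
  ∃ (σ' : StabCond C) (t : ℝ) (δ : K0 C), Joined σ σ' ∧ TubeHyp h σ' t δ ∧
    ∀ l, σ'.sl.In (Set.Ioo t (t + N + 1)) (S l)

/-- SEP (helper34), separation of two objects of a tube; the direction `t + 1/2` of `σ'` is RATIONAL (a radical class `r` lies on
it). Rationality: `{g = 0} ∩ {h = 0}` is given by finitely many inequalities `0 ≤ θ a`, `θ b ≤ 0`, `a, b ∈ K` (`θ δ = 1`). For a point `θ` of
it choose a basis `1 = v 0, v 1, .., v k` of the `ℚ`-vector space spanned by `θ (K) ⊂ ℝ` and replace `v 1, .., v k` by rational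
numbers close to them: the new `θ'` is rational, `θ' δ = 1`, `θ' x = 0` whenever `θ x = 0`, and the finitely many strict
inequalities stay true. Then `θ' r = 0` for `r = p F - q δ`. -/
def Stmt_SEP : Prop := ∀ (h : EllipticSetting C) (σ : StabCond C) (t : ℝ) (δ : K0 C) (n : ℕ)
  (α : Fin n → K0 C), Frame h σ t δ α → ∀ M L : C, σ.sl.Heart t M → σ.sl.Heart t L →
    (∀ f : M ⟶ L, f = 0) → (∀ T, σ.sl.P (t + 1) T → ∀ f : T ⟶ L, f = 0) →
    ∃ σ' : StabCond C, Joined σ σ' ∧ (∀ X, σ.sl.Heart t X → σ'.sl.Heart t X) ∧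
      (∃ r ∈ radical (eulerForm h.k3), r ≠ 0 ∧ σ'.im (t + 1 / 2) r = 0) ∧
      σ'.sl.In (Set.Icc (t + 1 / 2) (t + 1)) M ∧ σ'.sl.In (Set.Ioc t (t + 1 / 2)) L

/-- CLO (150 lines; uses TUP SEP). TUP, then `c_LHY`, `c_BAS` for a frame. Truncate every `S l` (phases in `(t, t + N + 1)`):
`L l[N] → S l → R l`, `L l[N]` the part with phases in `(t + N, t + N + 1)`, and `R' l → S l → M l`, `M l` the part with phases in
`(t, t + 1]`; `L l`, `M l` in the heart, `Hom(P(t + 1), L l) = 0`. `Hom(M l, L l') = 0`: for `f : M l ⟶ L l'` the composite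
`S l → M l → L l' → S l'[-N]` is zero (`Semi.neg`, `1 ≤ N`); `Hom(S l, R l'[-N - 1]) = 0` by phases, so `S l → M l → L l'` is zero;
`Hom(R' l[1], L l') = 0` by phases, so `f = 0`. SEP for `M = ⨁ M l`, `L = ⨁ L l` (biproducts over `Fin n`, or an induction); `In` for
direct summands. `R' l` has the phases `> t + 1`; the part of `S l` with phases in `(t + 1, t + N]` stays in the shifts `1, .., N - 1` of the heart. The result:
all `S l` have phases in `[t + 1/2, t + 1/2 + N]` for `σ'`. -/
def Stmt_CLO : Prop := ∀ (h : EllipticSetting C) (n : ℕ) (S : Fin n → C), Semi S →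
  ∀ (σ : StabCond C) (φ : ℝ) (N : ℕ), 1 ≤ N → (∀ l, σ.sl.In (Set.Ioc φ (φ + N + 1)) (S l)) →
    ∃ (σ' : StabCond C) (ψ : ℝ), Joined σ σ' ∧
      (∃ r ∈ radical (eulerForm h.k3), r ≠ 0 ∧ σ'.im ψ r = 0) ∧
      ∀ l, σ'.sl.In (Set.Icc ψ (ψ + N)) (S l)

/-- HLF (helper78, helper13), from the closed interval to the half open interval, in a rational direction (so every block of
`P(ψ)` is affine or a radical point, and `im` is discrete on the classes of norm at most 2). -/
def Stmt_HLF : Prop := ∀ (h : EllipticSetting C) (n : ℕ) (S : Fin n → C), Semi S →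
  ∀ (σ : StabCond C) (ψ : ℝ) (N : ℕ), 1 ≤ N →
    (∃ r ∈ radical (eulerForm h.k3), r ≠ 0 ∧ σ.im ψ r = 0) →
    (∀ l, σ.sl.In (Set.Icc ψ (ψ + N)) (S l)) →
    ∃ (σ' : StabCond C) (φ : ℝ), Joined σ σ' ∧ ∀ l, σ'.sl.In (Set.Ioc φ (φ + N)) (S l)

/-- AMP (50 lines; uses CLO HLF). Every `S l` has finitely many phases, so some `N` works (`Ioc φ (φ + N)`); induction on `N`. -/
def Stmt_AMP : Prop := ∀ (_ : EllipticSetting C) (n : ℕ) (S : Fin n → C), Semi S →
  ∀ σ : StabCond C, ∃ (σ' : StabCond C) (φ : ℝ), Joined σ σ' ∧ ∀ l, σ'.sl.Heart φ (S l)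

/-- END (120 lines; uses SPX FIA SEM AMP). SPX for `τ₀`, SEM, AMP for `σ`, FIA. Orientation: `orientOf σ.Z r s` is continuous in `σ` and
not zero (`continuous_orient`, `orient_ne` in `c/Crit.lean`), so its sign is constant on path components; the sign of
`orientOf σ.Z a b * orientOf τ.Z a b` does not depend on the independent pair `a, b` of the radical (rank 2: `N a = p r + q s`,
`N b = p' r + q' s`, both factors get the same factor `(p q' - q p')/N²`). -/
def Stmt_END : Prop := ∀ (h : EllipticSetting C) (r s : K0 C),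
  r ∈ radical (eulerForm h.k3) → s ∈ radical (eulerForm h.k3) → LinearIndependent ℤ ![r, s] →
  ∀ σ τ : StabCond C, 0 < orientOf σ.Z r s * orientOf τ.Z r s → Joined σ τ

end Pool.Align
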