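import Mathlib
import Pool.Agent.Work.MP_841263_al.Interface
import Pool.Agent.Work.MP_841263_al.Top

/-!
# Block END (helper43): the orientation separates the path components
-/

open CategoryTheory CategoryTheory.Limits CategoryTheory.Pretriangulated
open scoped ZeroObject Topology
open Filter

set_option autoImplicit false
set_option linter.unusedSectionVars false

namespace Pool.Align

open Pool.Stab Pool.Tube

universe v u

theorem END_det {K : Type*} [AddCommGroup K] (W : K →+ ℂ) (x y : K) (p q p' q' : ℤ) :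
    orientOf W (p • x + q • y) (p' • x + q' • y) =
      ((p : ℝ) * q' - q * p') * orientOf W x y := by
  unfold orientOf
  simp only [map_add, map_zsmul, zsmul_eq_mul, map_mul, map_intCast, Complex.mul_im, Complex.add_im,
    Complex.mul_re, Complex.add_re, Complex.conj_re, Complex.conj_im, Complex.intCast_re,
    Complex.intCast_im]
  ring

variable {C : Type u} [Category.{v} C] [Preadditive C] [HasZeroObject C] [HasShift C ℤ]
  [∀ n : ℤ, (shiftFunctor C n).Additive] [Pretriangulated C] [IsTriangulated C] [Linear ℂ C]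
  [∀ n : ℤ, (shiftFunctor C n).Linear ℂ]

/-- The orientation is constant on path components. -/
theorem END_joined (h : EllipticSetting C) {r s : K0 C} (hr : r ∈ radical (eulerForm h.k3))
    (hs : s ∈ radical (eulerForm h.k3)) (hrs : LinearIndependent ℤ ![r, s]) {σ τ : StabCond C}
    (hJ : Joined σ τ) : 0 < orientOf σ.Z r s * orientOf τ.Z r s := by
  have hne := orient_ne h hr hs hrs σ
  obtain ⟨γ⟩ := hJ
  have hcont : Continuous (fun x : unitInterval => σ.orient r s * (γ x).orient r s) :=
    continuous_const.mul ((continuous_orient r s).comp γ.continuous)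
  have hclopen : IsClopen {x : unitInterval | 0 < σ.orient r s * (γ x).orient r s} := by
    refine ⟨?_, isOpen_lt continuous_const hcont⟩
    have : {x : unitInterval | 0 < σ.orient r s * (γ x).orient r s} =
        {x : unitInterval | 0 ≤ σ.orient r s * (γ x).orient r s} := by
      ext x
      refine ⟨fun h1 => ?_, fun h1 => ?_⟩
      · have h2 : 0 < σ.orient r s * (γ x).orient r s := h1
        exact h2.le
      · have h2 : 0 ≤ σ.orient r s * (γ x).orient r s := h1
        exact lt_of_le_of_ne h2 (mul_ne_zero hne (orient_ne h hr hs hrs (γ x))).symm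
    rw [this]
    exact isClosed_le continuous_const hcont
  have huniv := hclopen.eq_univ ⟨0, by
    show 0 < σ.orient r s * (γ 0).orient r s
    rw [γ.source]
    exact mul_self_pos.2 hne⟩
  have h1 : (1 : unitInterval) ∈ {x : unitInterval | 0 < σ.orient r s * (γ x).orient r s} := by
    rw [huniv]
    trivial
  have h2 : 0 < σ.orient r s * (γ 1).orient r s := h1
  rw [γ.target] at h2
  exact h2

theorem END_indep {h : EllipticSetting C} {ε : K0 C} {n : ℕ} {β : Fin n → K0 C}
    {m : Fin n → ℕ} {o : Fin n} {S : Fin n → C} (hc : Coll h ε β m o S) :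
    LinearIndependent ℤ ![ε, ∑ l, (m l : ℤ) • β l] := by
  have := h.free
  obtain ⟨y, L, hS⟩ := hc.lat
  have hY : 0 < y (∑ l, (m l : ℤ) • β l) := by
    rw [map_sum]
    refine Finset.sum_pos (fun l _ => ?_) ⟨o, Finset.mem_univ o⟩
    rw [map_zsmul, zsmul_eq_mul]
    have h2 : (0 : ℝ) < (((m l : ℕ) : ℤ) : ℝ) := by
      have := hc.lab.one_le l
      exact_mod_cast this
    exact mul_pos h2 (hS.pos l)
  rw [LinearIndependent.pair_iff]
  intro a b hab
  have h1 := congrArg y hab
  rw [map_add, map_zsmul, map_zsmul, L.im0, smul_zero, zero_add, map_zero, zsmul_eq_mul,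
    mul_eq_zero] at h1
  have hb : b = 0 := by exact_mod_cast h1.resolve_right hY.ne'
  rw [hb, zero_smul, add_zero, smul_eq_zero] at hab
  exact ⟨hab.resolve_right L.ne, hb⟩

/-- The sign of the product of two orientations does not depend on the pair. -/
theorem END_sign (h : EllipticSetting C) {r s a b : K0 C} (hr : r ∈ radical (eulerForm h.k3))
    (hs : s ∈ radical (eulerForm h.k3)) (ha : a ∈ radical (eulerForm h.k3))
    (hb : b ∈ radical (eulerForm h.k3)) (hab : LinearIndependent ℤ ![a, b]) (σ τ : StabCond C)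
    (h0 : 0 < orientOf σ.Z r s * orientOf τ.Z r s) :
    0 < orientOf σ.Z a b * orientOf τ.Z a b := by
  have := h.finite
  have := h.free
  obtain ⟨b₀, hb₀, b₁, hb₁, hspan, hindep⟩ := exists_basis_of_finrank_two _ h.rank
  obtain ⟨p, q, rfl⟩ := hspan r hr
  obtain ⟨p', q', rfl⟩ := hspan s hs
  obtain ⟨x, y, hxy⟩ := hspan a ha
  obtain ⟨x', y', hxy'⟩ := hspan b hb
  have e1 : orientOf σ.Z a b ≠ 0 := orient_ne h ha hb hab σ
  have e2 : orientOf τ.Z a b ≠ 0 := orient_ne h ha hb hab τ
  rw [hxy, hxy', END_det] at e1 e2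
  rw [END_det, END_det] at h0
  rw [hxy, hxy', END_det, END_det]
  set D : ℝ := (p : ℝ) * q' - q * p' with hD
  set E : ℝ := (x : ℝ) * y' - y * x' with hE
  set A := orientOf σ.Z b₀ b₁ with hA
  set B := orientOf τ.Z b₀ b₁ with hB
  have hE0 : E ≠ 0 := left_ne_zero_of_mul e1
  have h1 : 0 < D * D * (A * B) := by
    calc 0 < D * A * (D * B) := h0
      _ = D * D * (A * B) := by ring
  have h2 : 0 < A * B := by
    have hDD : 0 ≤ D * D := mul_self_nonneg D
    by_contra hn
    push Not at hn
    exact absurd h1 (not_lt.2 (mul_nonpos_of_nonneg_of_nonpos hDD hn))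
  calc 0 < E * E * (A * B) := mul_pos (mul_self_pos.2 hE0) h2
    _ = E * A * (E * B) := by ring

theorem p_END : Stmt_SPX C → Stmt_FIA C → Stmt_SEM C → Stmt_AMP C → Stmt_END C := by
  intro hSPX hFIA hSEM hAMP h r s hr hs hrs σ τ h0
  obtain ⟨τ₁, ε, n, β, m, o, S, hJ, hc, hA, him⟩ := hSPX h τ
  have hSemi := hSEM h ε n β m o S hc τ₁ hA
  obtain ⟨σ', φ, hJ', hH⟩ := hAMP h n S hSemi σ
  have hε : ε ∈ radical (eulerForm h.k3) := by
    obtain ⟨y, L, -⟩ := hc.lat
    exact L.rad
  have hi := END_indep hc
  have h1 := END_sign h hr hs hε hc.lab.rad hi σ τ h0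
  have h2 := END_joined h hε hc.lab.rad hi hJ'
  have h3 := END_joined h hε hc.lab.rad hi hJ
  have h4 := hFIA h ε n β m o S hc τ₁ hA him σ' φ hH (by
    set a := orientOf σ.Z ε (∑ l, (m l : ℤ) • β l)
    set b := orientOf τ.Z ε (∑ l, (m l : ℤ) • β l)
    set c := orientOf σ'.Z ε (∑ l, (m l : ℤ) • β l)
    set d := orientOf τ₁.Z ε (∑ l, (m l : ℤ) • β l)
    have h5 : 0 < (a * b) * (c * d) := by
      calc 0 < (a * c) * (b * d) := mul_pos h2 h3
        _ = (a * b) * (c * d) := by ring
    exact (mul_pos_iff_of_pos_left h1).1 h5)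
  exact hJ'.trans (h4.trans hJ.symm)

end Pool.Align
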