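import Mathlib
import Pool.Agent.Work.MP_841263_al.Interface

/-!
# Block FIA (helper3): the criterion, all `S l` in one heart
-/

open CategoryTheory CategoryTheory.Limits CategoryTheory.Pretriangulated
open scoped ZeroObject Topology
open Filter

set_option autoImplicit false
set_option linter.unusedSectionVars false

namespace Pool.Align

open Pool.Stab Pool.Tube

universe v u

variable {C : Type u} [Category.{v} C] [Preadditive C] [HasZeroObject C] [HasShift C ℤ]
  [∀ n : ℤ, (shiftFunctor C n).Additive] [Pretriangulated C] [IsTriangulated C] [Linear ℂ C]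
  [∀ n : ℤ, (shiftFunctor C n).Linear ℂ]

theorem FIA_nonzero {X : C} (h : Spherical X) : ¬ IsZero X := by
  intro h0
  have h1 := h.1
  have h2 : Subsingleton (X ⟶ X) := ⟨fun f g => h0.eq_of_src f g⟩
  rw [Module.finrank_zero_of_subsingleton] at h1
  exact zero_ne_one h1

/-- `exp (π t i)` as a unit. -/
theorem FIA_exp (t : ℝ) : Complex.exp (Real.pi * t * Complex.I) *
    Complex.exp (-(Real.pi * t * Complex.I)) = 1 := by
  rw [← Complex.exp_add, add_neg_cancel, Complex.exp_zero]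

/-- The charge of an object of phase `t + 1/2`. -/
theorem FIA_Z {σ : StabCond C} {t : ℝ} {X : C} (hX : σ.sl.P (t + 1 / 2) X) (h0 : ¬ IsZero X) :
    ∃ y : ℝ, 0 < y ∧ σ.Z (cls X) = y * Complex.I * Complex.exp (Real.pi * t * Complex.I) := by
  obtain ⟨m, hm, hZ⟩ := σ.compat _ X hX h0
  refine ⟨m, hm, ?_⟩
  rw [hZ]
  have e : (Real.pi * ((t + 1 / 2 : ℝ) : ℂ) * Complex.I : ℂ) =
      Real.pi * t * Complex.I + Real.pi / 2 * Complex.I := by
    push_cast
    ring
  rw [e, Complex.exp_add, Complex.exp_pi_div_two_mul_I]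
  ring

/-- The orientation of `ε` and `∑ m l β l` is the sign of `re ε`. -/
theorem FIA_orient {h : EllipticSetting C} {ε : K0 C} {n : ℕ} {β : Fin n → K0 C}
    {m : Fin n → ℕ} {o : Fin n} {S : Fin n → C} (hc : Coll h ε β m o S) {σ : StabCond C} {t : ℝ}
    (hP : ∀ l, σ.sl.P (t + 1 / 2) (S l)) :
    ∃ Y : ℝ, 0 < Y ∧ orientOf σ.Z ε (∑ l, (m l : ℤ) • β l) = σ.re t ε * Y := by
  choose y hy hZ using fun l => FIA_Z (hP l) (FIA_nonzero (hc.sph l))
  refine ⟨∑ l, (m l : ℝ) * y l, ?_, ?_⟩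
  · refine Finset.sum_pos (fun l _ => ?_) ⟨o, Finset.mem_univ o⟩
    have h1 : (0 : ℝ) < (m l : ℝ) := by
      have := hc.lab.one_le l
      exact_mod_cast this
    exact mul_pos h1 (hy l)
  · have e1 : σ.Z (∑ l, (m l : ℤ) • β l) =
        ((∑ l, (m l : ℝ) * y l : ℝ) : ℂ) * Complex.I * Complex.exp (Real.pi * t * Complex.I) := by
      rw [map_sum]
      push_cast
      rw [Finset.sum_mul, Finset.sum_mul]
      refine Finset.sum_congr rfl (fun l _ => ?_)
      rw [map_zsmul, ← hc.cls_eq, hZ, zsmul_eq_mul]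
      push_cast
      ring
    unfold orientOf
    rw [e1]
    set Y : ℝ := ∑ l, (m l : ℝ) * y l with hYdef
    have e2 : σ.Z ε = ((⟨σ.re t ε, σ.im t ε⟩ : ℂ)) * Complex.exp (Real.pi * t * Complex.I) := by
      rw [← σ.Z_eq t ε, mul_assoc, mul_comm (Complex.exp (-(Real.pi * t * Complex.I))), FIA_exp,
        mul_one]
    have e3 : (starRingEnd ℂ) (Complex.exp (Real.pi * t * Complex.I)) =
        Complex.exp (-(Real.pi * t * Complex.I)) := by
      rw [← Complex.exp_conj]
      congr 1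
      simp
    have e4 : (starRingEnd ℂ) (σ.Z ε) * ((Y : ℂ) * Complex.I *
        Complex.exp (Real.pi * t * Complex.I)) =
        (starRingEnd ℂ) (⟨σ.re t ε, σ.im t ε⟩ : ℂ) * ((Y : ℂ) * Complex.I) := by
      rw [e2, map_mul, e3]
      have := FIA_exp t
      linear_combination ((starRingEnd ℂ) (⟨σ.re t ε, σ.im t ε⟩ : ℂ) * ((Y : ℂ) * Complex.I)) * this
    rw [e4, Complex.mul_im, Complex.conj_re, Complex.conj_im]
    simp

/-- The orientation is constant on path components. -/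
theorem FIA_joined (h : EllipticSetting C) {r s : K0 C} (hr : r ∈ radical (eulerForm h.k3))
    (hs : s ∈ radical (eulerForm h.k3)) (hrs : LinearIndependent ℤ ![r, s]) {σ τ : StabCond C}
    (hJ : Joined σ τ) : 0 < orientOf σ.Z r s * orientOf τ.Z r s := by
  have hne := orient_ne h hr hs hrs σ
  obtain ⟨γ⟩ := hJ
  have hcont : Continuous (fun x : unitInterval => σ.orient r s * (γ x).orient r s) :=
    continuous_const.mul ((continuous_orient r s).comp γ.continuous)
  have hclopen : IsClopen {x : unitInterval | 0 < σ.orient r s * (γ x).orient r s} := by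
    refine ⟨?_, isOpen_lt continuous_const hcont⟩
    have : {x : unitInterval | 0 < σ.orient r s * (γ x).orient r s} =
        {x : unitInterval | 0 ≤ σ.orient r s * (γ x).orient r s} := by
      ext x
      refine ⟨fun h1 => ?_, fun h1 => ?_⟩
      · have h2 : 0 < σ.orient r s * (γ x).orient r s := h1
        exact h2.le
      · have h2 : 0 ≤ σ.orient r s * (γ x).orient r s := h1
        exact lt_of_le_of_ne h2 (mul_ne_zero hne (orient_ne h hr hs hrs (γ x))).symm
    rw [this]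
    exact isClosed_le continuous_const hcont
  have huniv := hclopen.eq_univ ⟨0, by
    show 0 < σ.orient r s * (γ 0).orient r s
    rw [γ.source]
    exact mul_self_pos.2 hne⟩
  have h1 : (1 : unitInterval) ∈ {x : unitInterval | 0 < σ.orient r s * (γ x).orient r s} := by
    rw [huniv]
    trivial
  have h2 : 0 < σ.orient r s * (γ 1).orient r s := h1
  rw [γ.target] at h2
  exact h2

theorem FIA_indep {h : EllipticSetting C} {ε : K0 C} {n : ℕ} {β : Fin n → K0 C}
    {m : Fin n → ℕ} {o : Fin n} {S : Fin n → C} (hc : Coll h ε β m o S) :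
    LinearIndependent ℤ ![ε, ∑ l, (m l : ℤ) • β l] := by
  have := h.free
  obtain ⟨y, L, hS⟩ := hc.lat
  have hY : 0 < y (∑ l, (m l : ℤ) • β l) := by
    rw [map_sum]
    refine Finset.sum_pos (fun l _ => ?_) ⟨o, Finset.mem_univ o⟩
    rw [map_zsmul, zsmul_eq_mul]
    have h2 : (0 : ℝ) < (((m l : ℕ) : ℤ) : ℝ) := by
      have := hc.lab.one_le l
      exact_mod_cast this
    exact mul_pos h2 (hS.pos l)
  rw [LinearIndependent.pair_iff]
  intro a b hab
  have h1 := congrArg y hab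
  rw [map_add, map_zsmul, map_zsmul, L.im0, smul_zero, zero_add, map_zero, zsmul_eq_mul,
    mul_eq_zero] at h1
  have hb : b = 0 := by exact_mod_cast h1.resolve_right hY.ne'
  rw [hb, zero_smul, add_zero, smul_eq_zero] at hab
  exact ⟨hab.resolve_right L.ne, hb⟩

/-- The case of a stability condition `σ₃` in which the `S l` have the same phase. -/
theorem FIA_last (hPTH : Stmt_PTH C) (hUNQ : Stmt_UNQ C) (h : EllipticSetting C) {ε : K0 C}
    {n : ℕ} {β : Fin n → K0 C} {m : Fin n → ℕ} {o : Fin n} {S : Fin n → C}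
    (hc : Coll h ε β m o S) {τ : StabCond C} (hτ : Aligned 0 ε S τ) (hτ0 : τ.im 0 ε = 0)
    {σ : StabCond C} {t : ℝ} (hσ : Aligned t ε S σ) : Joined σ τ := by
  set e : ℂ := Complex.exp (Real.pi * t * Complex.I) with he
  have hee : e * Complex.exp (-(Real.pi * t * Complex.I)) = 1 := FIA_exp t
  choose y hy hZy using fun l => FIA_Z (hσ.P l) (FIA_nonzero (hc.sph l))
  choose z hz hZz using fun l => FIA_Z (hτ.P l) (FIA_nonzero (hc.sph l))
  have hZz' : ∀ l, τ.Z (β l) = (z l : ℂ) * Complex.I := by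
    intro l
    rw [← hc.cls_eq, hZz]
    simp
  have hZy' : ∀ l, σ.Z (β l) = (y l : ℂ) * Complex.I * e := fun l => by
    rw [← hc.cls_eq, hZy]
  have hre : (τ.Z ε).re < 0 := by
    have h1 := hτ.re
    rw [StabCond.re_apply] at h1
    simpa using h1
  have him : (τ.Z ε).im = 0 := by
    have h1 := hτ0
    rw [StabCond.im_apply] at h1
    simpa using h1
  -- the segment
  obtain ⟨σ₄, hJ4, hZ4, hA4⟩ := hPTH h ε n β m o S hc σ (fun _ => t)
    (fun s => CEL_seg σ.Z (gl e 0 τ.Z) s) continuous_const (by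
      intro x
      simp only [CEL_seg_apply]
      fun_prop) hσ (by
      ext x
      simp [CEL_seg_apply]) (by
      intro s hs
      have key : ∀ a b : ℝ, 0 < a → 0 < b → 0 < (1 - s) * a + s * b := by
        intro a b ha hb
        rcases eq_or_lt_of_le hs.1 with h1 | h1
        · rw [← h1]; linarith
        · have h2 := mul_nonneg (sub_nonneg.2 hs.2) ha.le
          have h3 := mul_pos h1 hb
          linarith
      refine ⟨fun l => ⟨(1 - s) * y l + s * z l, key _ _ (hy l) (hz l), ?_⟩, ?_⟩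
      · rw [CEL_seg_apply, hZy', gl_apply, hZz', ← he]
        push_cast
        ring
      · rw [CEL_seg_apply, gl_apply]
        have h1 := hσ.re
        rw [StabCond.re_apply] at h1
        have e1 : (((1 - s : ℝ) : ℂ) * σ.Z ε + (s : ℂ) *
            (e * τ.Z ε + 0 * (starRingEnd ℂ) (τ.Z ε))) *
            Complex.exp (-(Real.pi * t * Complex.I)) =
            ((1 - s : ℝ) : ℂ) * (σ.Z ε * Complex.exp (-(Real.pi * t * Complex.I))) +
            (s : ℂ) * τ.Z ε := by
          linear_combination ((s : ℂ) * τ.Z ε) * hee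
        show ((((1 - s : ℝ) : ℂ) * σ.Z ε + (s : ℂ) *
            (e * τ.Z ε + 0 * (starRingEnd ℂ) (τ.Z ε))) *
            Complex.exp (-(Real.pi * t * Complex.I))).re < 0
        rw [e1, Complex.add_re, Complex.re_ofReal_mul, Complex.re_ofReal_mul]
        have h2 := key (-(σ.Z ε * Complex.exp (-(Real.pi * t * Complex.I))).re) (-(τ.Z ε).re)
          (by linarith) (by linarith)
        linarith)
  -- the rotation
  obtain ⟨τ', hJ', hZ', hA'⟩ := hPTH h ε n β m o S hc τ (fun s => t * s)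
    (fun s => gl (Complex.exp (Real.pi * ((t * s : ℝ) : ℂ) * Complex.I)) 0 τ.Z) (by fun_prop) (by
      intro x
      simp only [gl_apply]
      fun_prop) (by
      have h1 : t * 0 = (0 : ℝ) := mul_zero t
      simp only [h1]
      exact hτ) (by
      ext x
      simp [gl_apply]) (by
      intro s _
      refine ⟨fun l => ⟨z l, hz l, ?_⟩, ?_⟩
      · rw [gl_apply, hZz']
        ring
      · rw [gl_apply]
        have e1 : (Complex.exp (Real.pi * ((t * s : ℝ) : ℂ) * Complex.I) * τ.Z ε +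
            0 * (starRingEnd ℂ) (τ.Z ε)) *
            Complex.exp (-(Real.pi * ((t * s : ℝ) : ℂ) * Complex.I)) = τ.Z ε := by
          have := FIA_exp (t * s)
          linear_combination (τ.Z ε) * this
        rw [e1]
        exact hre)
  have hZ1 : ∀ x, σ₄.Z x = e * τ.Z x := by
    intro x
    rw [hZ4, CEL_seg_apply, gl_apply]
    simp
  have hZ2 : ∀ x, τ'.Z x = e * τ.Z x := by
    intro x
    rw [hZ', gl_apply]
    simp [he]
  have hA'' : Aligned t ε S τ' := by
    have h1 : t * 1 = t := mul_one t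
    simp only [h1] at hA'
    exact hA'
  have heq := hUNQ h ε n β m o S hc σ₄ τ' t hA4 hA'' (by
    rw [StabCond.im_apply, hZ2]
    have e1 : e * τ.Z ε * Complex.exp (-(Real.pi * t * Complex.I)) = τ.Z ε := by
      linear_combination (τ.Z ε) * hee
    rw [e1, him]) (by
    ext x
    rw [hZ1, hZ2])
  rw [heq] at hJ4
  exact hJ4.trans hJ'.symm

theorem p_FIA : Stmt_REF.{u} → Stmt_SRY.{u} → Stmt_SIM.{u} → Stmt_COR.{u} → Stmt_LBL.{u} →
    Stmt_PER C → Stmt_WLK C → Stmt_ALN C → Stmt_PTH C → Stmt_UNQ C → Stmt_HOM.{u} →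
    Stmt_FIA C := by
  intro _ hSRY hSIM hCOR _ hPER hWLK hALN hPTH hUNQ _ h ε n β m o S hc τ hτ hτ0 σ φ hσ hor
  have := h.finite
  have := h.free
  have hnz : ∀ l, ¬ IsZero (S l) := fun l => FIA_nonzero (hc.sph l)
  obtain ⟨σ₁, t, δ, hJ1, T1, hTF1⟩ := hPER h σ φ n S hσ hnz
  have L1 := c_LHY C h σ₁ t δ T1
  obtain ⟨n₁, α, hα⟩ := c_BAS (K0 C) (eulerForm h.k3) (σ₁.im t) δ L1
  have F1 : Frame h σ₁ t δ α := ⟨T1, hα⟩
  obtain ⟨im, L, hβ⟩ := hc.lat
  obtain ⟨η, hη, hgap⟩ := σ₁.exists_gap h.k3 h.psd' h.rank T1.rad T1.ne T1.im0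
  have hpos : ∀ l, 0 < σ₁.im t (β l) := fun l => by
    rw [← hc.cls_eq]
    exact lt_of_lt_of_le hη (σ₁.gap_tf hη hgap (hTF1 l))
  obtain ⟨y, hyδ, hyroot, hyrad, hypos, hysimple⟩ :=
    hCOR (K0 C) (eulerForm h.k3) im ε L n β m o hβ hc.lab hc.one (σ₁.im t) δ L1 hpos
  obtain ⟨σ₂, α', hJ2, F2, hyα, hFam⟩ := hWLK h n S t δ n₁ y hyδ hyroot
    (fun l => by rw [hc.cls_eq]; exact hypos l) σ₁ α F1 hyrad ⟨hTF1, fun l => (hc.sph l).1, hc.orth⟩
  have L2 := c_LHY C h σ₂ t δ F2.toTubeHyp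
  obtain ⟨hSy, Ly⟩ := hSRY (K0 C) (eulerForm h.k3) (σ₂.im t) δ L2 n₁ α' F2.toSimpleRoots y hyδ hyα
  obtain ⟨σ₃, hJ3, hP3⟩ := hALN h ε n β m o S hc σ₂ t δ n₁ α' F2 hFam.tf (fun l hl =>
    hSIM (K0 C) (eulerForm h.k3) y δ h.psd' T1.rad hyδ n₁ α' hSy (β l) (hysimple l hl))
  -- the orientation
  obtain ⟨Y, hY, hoY⟩ := FIA_orient hc hP3
  obtain ⟨Y', hY', hoY'⟩ := FIA_orient hc hτ.P
  have hJ : Joined σ σ₃ := (hJ1.trans hJ2).trans hJ3
  have h1 := FIA_joined h L.rad hc.lab.rad (FIA_indep hc) hJ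
  rw [hoY'] at hor
  rw [hoY] at h1
  have hneg : τ.re 0 ε * Y' < 0 := mul_neg_of_neg_of_pos hτ.re hY'
  have h2 : orientOf σ.Z ε (∑ l, (m l : ℤ) • β l) < 0 := by
    by_contra hcon
    push Not at hcon
    have := mul_nonpos_of_nonneg_of_nonpos hcon hneg.le
    linarith
  have h3 : σ₃.re t ε < 0 := by
    by_contra hcon
    push Not at hcon
    have h4 : 0 ≤ σ₃.re t ε * Y := mul_nonneg hcon hY.le
    have := mul_nonpos_of_nonpos_of_nonneg h2.le h4
    linarith
  exact hJ.trans (FIA_last hPTH hUNQ h hc hτ hτ0 ⟨hP3, h3⟩)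

end Pool.Align
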