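import Pool.Agent.Work.MP_841263_al.Interface

/-!
# Block FRA: the frame of an aligned stability condition
-/

open CategoryTheory CategoryTheory.Limits CategoryTheory.Pretriangulated
open scoped ZeroObject Topology
open Filter

namespace Pool.Align

open Pool.Stab Pool.Tube

universe v u

/-- A spherical object is not zero. -/
theorem FRA_not_isZero {C : Type u} [Category.{v} C] [Preadditive C] [HasShift C ℤ]
    [Linear ℂ C] {X : C} (h : Spherical X) : ¬ IsZero X := by
  intro h0
  have h1 := h.1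
  have : Subsingleton (X ⟶ X) := ⟨fun f g => h0.eq_of_src f g⟩
  rw [Module.finrank_zero_of_subsingleton] at h1
  exact absurd h1 (by norm_num)

/-- The rotated charge of an object of phase `t + 1 / 2`. -/
theorem FRA_polar {C : Type u} [Category.{v} C] [Preadditive C] [HasZeroObject C] [HasShift C ℤ]
    [∀ n : ℤ, (shiftFunctor C n).Additive] [Pretriangulated C] (τ : StabCond C) {t : ℝ} {X : C}
    (hX : τ.sl.P (t + 1 / 2) X) (h0 : ¬ IsZero X) :
    0 < τ.im t (cls X) ∧ τ.re t (cls X) = 0 := by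
  obtain ⟨hpos, hre, him⟩ := τ.polar t hX h0
  have e : Real.pi * (t + 1 / 2 - t) = Real.pi / 2 := by ring
  rw [e, Real.cos_pi_div_two, mul_zero] at hre
  rw [e, Real.sin_pi_div_two, mul_one] at him
  exact ⟨him ▸ hpos, hre⟩

theorem p_FRA {C : Type u} [Category.{v} C] [Preadditive C] [HasZeroObject C] [HasShift C ℤ]
    [∀ n : ℤ, (shiftFunctor C n).Additive] [Pretriangulated C] [IsTriangulated C] [Linear ℂ C]
    [∀ n : ℤ, (shiftFunctor C n).Linear ℂ] (hSRY : Stmt_SRY.{u}) : Stmt_FRA C := by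
  intro h ε n β m o S hC τ t hA him
  have := h.finite
  have := h.free
  obtain ⟨im, L, R⟩ := hC.lat
  have h0 : ∀ l, ¬ IsZero (S l) := fun l => FRA_not_isZero (hC.sph l)
  have hpol : ∀ l, 0 < τ.im t (β l) ∧ τ.re t (β l) = 0 := by
    intro l
    have := FRA_polar τ (hA.P l) (h0 l)
    rwa [hC.cls_eq l] at this
  obtain ⟨SR, LH⟩ := hSRY (K0 C) (eulerForm h.k3) im ε L n β R (τ.im t) him
    (fun i => (hpol i).1)
  refine ⟨{ toTubeHyp := ⟨LH.rad, LH.ne, LH.prim, him, hA.re, LH.imroot⟩
            toSimpleRoots := SR }, ?_, fun l => (hpol l).2⟩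
  intro l
  refine ⟨τ.tf_of_in (Slicing.in_of_P (hA.P l) ⟨by linarith, by linarith⟩) (h0 l), ?_⟩
  rw [hC.cls_eq l, zero_smul, add_zero]

end Pool.Align
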