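import Pool.Agent.Work.MP_841263_al.Interface

set_option autoImplicit false
set_option linter.unusedSectionVars false

/-! # MP_841263, alignment, block GAT: the gate -/

open CategoryTheory CategoryTheory.Limits CategoryTheory.Pretriangulated
open scoped ZeroObject Topology
open Filter

namespace Pool.Align

open Pool.Stab Pool.Tube

universe v u

variable {C : Type u} [Category.{v} C] [Preadditive C] [HasZeroObject C] [HasShift C ℤ]
  [∀ n : ℤ, (shiftFunctor C n).Additive] [Pretriangulated C] [IsTriangulated C] [Linear ℂ C]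
  [∀ n : ℤ, (shiftFunctor C n).Linear ℂ]

/-- A morphism whose cone is in the heart is a monomorphism for objects of the heart. -/
theorem GAT_mono {σ : StabCond C} {t : ℝ} {Y X Q W : C} {f : Y ⟶ X} {g : X ⟶ Q}
    {w : Q ⟶ Y⟦(1 : ℤ)⟧} (hT : Triangle.mk f g w ∈ distTriang C) (hQ : σ.sl.Heart t Q)
    (hW : σ.sl.Heart t W) (u : W ⟶ Y) (hu : u ≫ f = 0) : u = 0 := by
  have h1 : u⟦(1 : ℤ)⟧' ≫ f⟦(1 : ℤ)⟧' = 0 := by rw [← Functor.map_comp, hu, Functor.map_zero]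
  obtain ⟨v, hv⟩ := Triangle.coyoneda_exact₁ _ hT (u⟦(1 : ℤ)⟧') h1
  have h2 : v = 0 := StabCond.hom_shift_zero σ hW hQ v
  have h3 : u⟦(1 : ℤ)⟧' = 0 := by
    refine hv.trans ?_
    rw [h2]
    exact zero_comp
  exact (shiftFunctor C (1 : ℤ)).map_injective (by rw [h3, Functor.map_zero])

/-- Endomorphisms of a brick are scalars. -/
theorem GAT_scal {X : C} (h1 : Module.finrank ℂ (X ⟶ X) = 1) (f : X ⟶ X) :
    ∃ c : ℂ, f = c • 𝟙 X := by
  have h0 : (𝟙 X : X ⟶ X) ≠ 0 := by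
    intro h0
    have hz : ∀ f : X ⟶ X, f = 0 := fun f => by rw [← Category.comp_id f, h0, comp_zero]
    rw [finrank_of_forall_zero hz] at h1
    exact zero_ne_one h1
  obtain ⟨c, hc⟩ := (finrank_eq_one_iff_of_nonzero' (𝟙 X) h0).1 h1 f
  exact ⟨c, hc.symm⟩

/-- Nonzero morphisms between the objects of one line. -/
theorem GAT_ne (h : EllipticSetting C) {σ : StabCond C} {t : ℝ} {δ : K0 C} {n : ℕ}
    {α : Fin n → K0 C} (hF : Frame h σ t δ α) {j : Fin n} {k' k : ℤ} {Y' Y : C}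
    (hY' : IsS σ t δ α j k' Y') (hY : IsS σ t δ α j k Y) (hk : k' ≤ k) :
    ∃ f : Y' ⟶ Y, f ≠ 0 := by
  by_contra hno
  push Not at hno
  have hδ : ∀ y, eulerForm h.k3 δ y = 0 := hF.rad
  have hδ' : ∀ y, eulerForm h.k3 y δ = 0 := fun y => by rw [eulerForm_symm, hδ]
  have h2 : eulerChar Y' Y = 2 := by
    rw [← eulerForm_cls h.k3, hY'.2, hY.2]
    simp only [map_add, map_zsmul, AddMonoidHom.add_apply, AddMonoidHom.zsmul_apply, hδ, hδ',
      smul_zero, add_zero]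
    exact hF.norm j
  have h3 := Slicing.Heart.eulerChar h.k3 hY'.1.1 hY.1.1
  by_cases hYX : ∀ f : Y ⟶ Y', f = 0
  · rw [h2, finrank_of_forall_zero hno, finrank_of_forall_zero hYX] at h3
    have h4 : (0 : ℤ) ≤ (Module.finrank ℂ (Y' ⟶ Y⟦(1 : ℤ)⟧) : ℤ) := Int.natCast_nonneg _
    push_cast at h3
    omega
  · push Not at hYX
    obtain ⟨f, hf⟩ := hYX
    obtain ⟨-, m, Q, g, w, hkm, -, -, -⟩ := c_MOR C h σ t δ n α hF j j k k' Y Y' hY hY' f hf
    have hkk : k = k' := by omega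
    subst hkk
    obtain ⟨e⟩ := c_UNI C h σ t δ n α hF j k Y' Y hY' hY
    apply hY'.1.2.1
    rw [IsZero.iff_id_eq_zero, ← e.hom_inv_id, hno e.hom, zero_comp]

/-- The key of the gate. -/
theorem GAT_key (hMON : Stmt_MON C) (h : EllipticSetting C) {σ : StabCond C} {t : ℝ} {δ : K0 C}
    {n : ℕ} {α : Fin n → K0 C} (hF : Frame h σ t δ α) {N : ℕ} {S : Fin N → C}
    (hS : Fam σ t S) {j : Fin n} (hc : ∀ l (k : ℤ), cls (S l) ≠ α j + k • δ) {k' k : ℤ}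
    {Y' Y : C} (hY' : IsS σ t δ α j k' Y') (hY : IsS σ t δ α j k Y) {l l' : Fin N}
    (f : S l ⟶ Y') (g : Y ⟶ S l') (hf : f ≠ 0) (hg : g ≠ 0) : k < k' := by
  by_contra hk
  push Not at hk
  obtain ⟨u, hu⟩ := GAT_ne h hF hY' hY hk
  obtain ⟨Q1, g1, w1, hT1, hQ1⟩ := hMON h σ t δ n α hF j k' Y' Y hY' hY.1 u hu
  obtain ⟨Q2, g2, w2, hT2, hQ2⟩ := hMON h σ t δ n α hF j k Y (S l') hY (hS.tf l') g hg
  have h1 : f ≫ u ≠ 0 := fun h0 => hf (GAT_mono hT1 hQ1 (hS.tf l).1 f h0)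
  have h2 : (f ≫ u) ≫ g ≠ 0 := fun h0 => h1 (GAT_mono hT2 hQ2 (hS.tf l).1 _ h0)
  have hl : l = l' := by
    by_contra hne
    exact h2 (hS.orth l l' hne _)
  subst hl
  obtain ⟨c, hc1⟩ := GAT_scal (hS.brick l) ((f ≫ u) ≫ g)
  have hc0 : c ≠ 0 := by
    rintro rfl
    exact h2 (by rw [hc1, zero_smul])
  obtain ⟨d, hd⟩ := GAT_scal (c_SPH C h σ t δ n α hF j k' Y' hY').1.1 ((u ≫ g) ≫ f)
  have h3 : c • f = d • f := by
    have h4 : ((f ≫ u) ≫ g) ≫ f = f ≫ ((u ≫ g) ≫ f) := by simp only [Category.assoc]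
    rw [hc1, hd, Linear.smul_comp, Linear.comp_smul, Category.id_comp, Category.comp_id] at h4
    exact h4
  have hdc : d = c := by
    have h5 : (c - d) • f = 0 := by rw [sub_smul, h3, sub_self]
    rcases smul_eq_zero.1 h5 with h6 | h6
    · exact (sub_eq_zero.1 h6).symm
    · exact absurd h6 hf
  have hfr : f ≫ (c⁻¹ • (u ≫ g)) = 𝟙 (S l) := by
    rw [Linear.comp_smul, ← Category.assoc, hc1, smul_smul, inv_mul_cancel₀ hc0, one_smul]
  have hrf : (c⁻¹ • (u ≫ g)) ≫ f = 𝟙 Y' := by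
    rw [Linear.smul_comp, hd, hdc, smul_smul, inv_mul_cancel₀ hc0, one_smul]
  let e : S l ≅ Y' := ⟨f, c⁻¹ • (u ≫ g), hfr, hrf⟩
  exact hc l k' (by rw [cls_iso e, hY'.2])

theorem p_GAT : Stmt_MON C → Stmt_BDS C → Stmt_GAT C := by
  intro hMON hBDS h σ t δ n α hF N S hS j hc
  have hb : ∀ l, (∃ k₀ : ℤ, ∀ k, k₀ ≤ k → ∀ Y, IsS σ t δ α j k Y → ∀ f : Y ⟶ S l, f = 0) ∧
      ∃ k₁ : ℤ, ∀ k, k ≤ k₁ → ∀ Y, IsS σ t δ α j k Y → ∀ f : S l ⟶ Y, f = 0 := fun l =>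
    hBDS h σ t δ n α hF j (S l) (hS.tf l)
  choose k₀ hk₀ using fun l => (hb l).1
  choose k₁ hk₁ using fun l => (hb l).2
  by_cases hP : ∃ k : ℤ, ∃ (l : Fin N) (Y : C) (g : Y ⟶ S l), IsS σ t δ α j k Y ∧ g ≠ 0
  · have hbd : ∃ b : ℤ, ∀ k : ℤ,
        (∃ (l : Fin N) (Y : C) (g : Y ⟶ S l), IsS σ t δ α j k Y ∧ g ≠ 0) → k ≤ b := by
      refine ⟨∑ l, |k₀ l|, ?_⟩
      rintro k ⟨l, Y, g, hY, hg⟩
      by_contra hlt
      push Not at hlt
      apply hg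
      refine hk₀ l k ?_ Y hY g
      have h1 : |k₀ l| ≤ ∑ l, |k₀ l| :=
        Finset.single_le_sum (f := fun l => |k₀ l|) (fun i _ => abs_nonneg _)
          (Finset.mem_univ l)
      have h2 := le_abs_self (k₀ l)
      omega
    obtain ⟨b, hbP, hbm⟩ := Int.exists_greatest_of_bdd hbd hP
    refine ⟨b + 1, ?_, ?_⟩
    · intro l k hk Y hY f
      by_contra hf
      have := hbm k ⟨l, Y, f, hY, hf⟩
      omega
    · intro l k hk Y hY f
      by_contra hf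
      obtain ⟨l', Y', g, hY', hg⟩ := hbP
      have := GAT_key hMON h hF hS hc hY hY' f g hf hg
      omega
  · push Not at hP
    refine ⟨-∑ l, |k₁ l|, ?_, ?_⟩
    · intro l k _ Y hY f
      exact hP k l Y f hY
    · intro l k hk Y hY f
      refine hk₁ l k ?_ Y hY f
      have h1 : |k₁ l| ≤ ∑ l, |k₁ l| :=
        Finset.single_le_sum (f := fun l => |k₁ l|) (fun i _ => abs_nonneg _)
          (Finset.mem_univ l)
      have h2 := neg_abs_le (k₁ l)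
      omega

end Pool.Align
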