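import Pool.Agent.Work.MP_841263_al.Interface

/-! Block HOM of `al_blocks` (helper71). -/

open CategoryTheory CategoryTheory.Limits CategoryTheory.Pretriangulated
open scoped ZeroObject Topology
open Filter

namespace Pool.Align

open Pool.Stab Pool.Tube

universe v u

theorem p_HOM : Stmt_HOM.{u} := by
  intro K _ B im δ n α h A _ a b
  classical
  -- the basis as an additive equivalence
  let φ : ℤ × (Fin n → ℤ) →+ K :=
    { toFun := fun x => x.1 • δ + ∑ i, x.2 i • α i
      map_zero' := by simp
      map_add' := by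
        intro x y
        simp only [Prod.fst_add, Prod.snd_add, Pi.add_apply, add_smul, Finset.sum_add_distrib]
        abel }
  have hφ : ∀ x, φ x = x.1 • δ + ∑ i, x.2 i • α i := fun _ => rfl
  have hinj : Function.Injective φ := by
    rw [injective_iff_map_eq_zero]
    intro x hx
    rw [hφ] at hx
    obtain ⟨h1, h2⟩ := h.indep x.1 x.2 hx
    exact Prod.ext h1 (funext h2)
  have hsur : Function.Surjective φ := by
    intro x
    obtain ⟨k, c, hx⟩ := h.span x
    exact ⟨(k, c), by rw [hφ, hx]⟩
  let e : ℤ × (Fin n → ℤ) ≃+ K := AddEquiv.ofBijective φ ⟨hinj, hsur⟩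
  let ψ : ℤ × (Fin n → ℤ) →+ A :=
    { toFun := fun x => x.1 • a + ∑ i, x.2 i • b i
      map_zero' := by simp
      map_add' := by
        intro x y
        simp only [Prod.fst_add, Prod.snd_add, Pi.add_apply, add_smul, Finset.sum_add_distrib]
        abel }
  have hψ : ∀ x, ψ x = x.1 • a + ∑ i, x.2 i • b i := fun _ => rfl
  refine ⟨ψ.comp e.symm.toAddMonoidHom, ?_, ?_⟩
  · have h1 : e.symm δ = ((1 : ℤ), (0 : Fin n → ℤ)) := by
      rw [AddEquiv.symm_apply_eq]
      change δ = φ _
      rw [hφ]
      simp
    change ψ (e.symm δ) = a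
    rw [h1, hψ]
    simp
  · intro i
    have h1 : e.symm (α i) = ((0 : ℤ), (Pi.single i 1 : Fin n → ℤ)) := by
      rw [AddEquiv.symm_apply_eq]
      change α i = φ _
      rw [hφ]
      simp [Pi.single_apply, ite_smul]
    change ψ (e.symm (α i)) = b i
    rw [h1, hψ]
    simp [Pi.single_apply, ite_smul]

end Pool.Align
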