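import Mathlib
import Pool.Agent.Work.MP_841263_al.Interface

/-!
HRT: two stability conditions with the same frame and the same `IsS` objects have the same heart,
the same objects of phase `t + 1` and the same torsion free objects.
-/

open CategoryTheory CategoryTheory.Limits CategoryTheory.Pretriangulated
open scoped ZeroObject Topology
open Filter

namespace Pool.Align

open Pool.Stab Pool.Tube

universe v u

variable {C : Type u} [Category.{v} C] [Preadditive C] [HasZeroObject C] [HasShift C ℤ]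
  [∀ n : ℤ, (shiftFunctor C n).Additive] [Pretriangulated C] [IsTriangulated C] [Linear ℂ C]
  [∀ n : ℤ, (shiftFunctor C n).Linear ℂ]

theorem HRT_P (h : EllipticSetting C) (σ τ : StabCond C) (t : ℝ) (δ : K0 C) (n : ℕ)
    (α : Fin n → K0 C) (hσ : Frame h σ t δ α) (hτ : Frame h τ t δ α)
    (hH : ∀ X, σ.sl.Heart t X → τ.sl.Heart t X) (X : C) (hX : σ.sl.P (t + 1) X) :
    τ.sl.P (t + 1) X := by
  have h1 : τ.sl.Heart t X := hH X (Slicing.heart_of_P hX (by linarith) le_rfl)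
  obtain ⟨m, hm, -⟩ := c_PTP C h σ t δ hσ.toTubeHyp X hX
  refine τ.P_of_im h1 ?_
  rw [hm, map_zsmul, hτ.im0, smul_zero]

theorem p_HRT : Stmt_HRT C := by
  intro h σ τ t δ n α hσ hτ hk X
  have hS : ∀ (i : Fin n) (k : ℤ), ∃ X, IsS σ t δ α i k X ∧ IsS τ t δ α i k X := by
    intro i k
    obtain ⟨Y, hY, -⟩ := c_EXI C h σ t δ n α hσ i k
    exact ⟨Y, hY, hk i k Y hY⟩
  have hS' : ∀ (i : Fin n) (k : ℤ), ∃ X, IsS τ t δ α i k X ∧ IsS σ t δ α i k X := by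
    intro i k
    obtain ⟨Y, hY, hY'⟩ := hS i k
    exact ⟨Y, hY', hY⟩
  have hH : ∀ Y, σ.sl.Heart t Y → τ.sl.Heart t Y := c_UQ2 C h σ τ t δ n α hσ hτ hS
  have hH' : ∀ Y, τ.sl.Heart t Y → σ.sl.Heart t Y := c_UQ2 C h τ σ t δ n α hτ hσ hS'
  have hP : ∀ Y, σ.sl.P (t + 1) Y → τ.sl.P (t + 1) Y :=
    fun Y => HRT_P h σ τ t δ n α hσ hτ hH Y
  have hP' : ∀ Y, τ.sl.P (t + 1) Y → σ.sl.P (t + 1) Y :=
    fun Y => HRT_P h τ σ t δ n α hτ hσ hH' Y
  refine ⟨⟨hH X, hH' X⟩, ⟨hP X, hP' X⟩, ?_, ?_⟩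
  · rintro ⟨h1, h2, h3⟩
    exact ⟨hH X h1, h2, fun T hT f => h3 T (hP' T hT) f⟩
  · rintro ⟨h1, h2, h3⟩
    exact ⟨hH' X h1, h2, fun T hT f => h3 T (hP T hT) f⟩

end Pool.Align
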