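import Pool.Agent.Work.MP_841263_al.Interface

/-!
# Block KFO: objects with phases in the open interval which are orthogonal to all `S l` vanish
-/

open CategoryTheory CategoryTheory.Limits CategoryTheory.Pretriangulated
open scoped ZeroObject Topology
open Filter

set_option backward.isDefEq.respectTransparency false
set_option backward.defeqAttrib.useBackward true
set_option linter.unusedSectionVars false

namespace Pool.Align

open Pool.Stab Pool.Tube

universe v u

section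

variable {C : Type u} [Category.{v} C] [Preadditive C] [HasZeroObject C] [HasShift C ℤ]
  [∀ n : ℤ, (shiftFunctor C n).Additive] [Pretriangulated C]

lemma KFO_gen {G : C → Prop} {E A : C} (hE : Gen G E) (h : ∀ Y, G Y → Orth Y A) :
    Orth E A := by
  induction hE with
  | zero h0 => intro n f; exact h0.eq_of_src _ _
  | of hX => exact h _ hX
  | ext hT _ _ h1 h2 =>
    intro n a
    exact hom_zero_of_ext₁ hT (fun b => h1 n b) (fun b => h2 n b) a

lemma KFO_shift {S A Y : C} (h : Orth S A) (e : Y ≅ S⟦(1 : ℤ)⟧) : Orth Y A := by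
  intro n f
  have e' : A⟦n⟧ ≅ (A⟦n - 1⟧)⟦(1 : ℤ)⟧ :=
    (shiftFunctorAdd' C (n - 1) 1 n (by ring)).app A
  obtain ⟨g, hg⟩ := (shiftFunctor C (1 : ℤ)).map_surjective (e.inv ≫ f ≫ e'.hom)
  have hg0 : g = 0 := h (n - 1) g
  rw [hg0, Functor.map_zero] at hg
  rw [← cancel_mono e'.hom, ← cancel_epi e.inv, zero_comp, comp_zero, ← hg]

end

variable (C : Type u) [Category.{v} C] [Preadditive C] [HasZeroObject C] [HasShift C ℤ]
  [∀ n : ℤ, (shiftFunctor C n).Additive] [Pretriangulated C] [IsTriangulated C] [Linear ℂ C]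
  [∀ n : ℤ, (shiftFunctor C n).Linear ℂ]

theorem p_KFO : Stmt_OPE C → Stmt_KPA C → Stmt_KPT C → Stmt_SPR C → Stmt_KFO C := by
  intro hOPE hKPA hKPT hSPR h ε n β m o S hS τ t hA hi A hAin hOrth
  by_contra h0
  obtain ⟨Γ, n', γ, hΓ0, hT⟩ := hKPA h ε n β m o S hS τ t hA hi
  obtain ⟨Q, hQs, hQg⟩ := hKPT h ε n β m o S hS τ t hA hi Γ n' γ hΓ0 hT
  have hev := hOPE h Γ 0 A (t + 1 / 2) (t + 3 / 2) (by rw [hΓ0]; exact hAin)
  have : (𝓝[>] (0 : unitInterval)).NeBot := nhdsGT_neBot_of_exists_gt ⟨1, zero_lt_one⟩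
  obtain ⟨s, hs, hs0⟩ := ((hev.filter_mono nhdsWithin_le_nhds).and
    (self_mem_nhdsWithin : Set.Ioi (0 : unitInterval) ∈ 𝓝[>] (0 : unitInterval))).exists
  have htf : (Γ s).TF (t + 1 / 2) A := (Γ s).tf_of_in (hs.mono (fun x hx => by
    refine ⟨hx.1, ?_⟩
    have := hx.2
    linarith)) h0
  have hrad : cls A ∈ radical (eulerForm h.k3) := by
    obtain ⟨im, hlat, hsr⟩ := hS.lat
    intro y
    obtain ⟨k, c, rfl⟩ := hsr.span y
    have h1 : eulerForm h.k3 (cls A) ε = 0 := by
      rw [eulerForm_symm]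
      exact hlat.rad _
    have h2 : ∀ l, eulerForm h.k3 (cls A) (β l) = 0 := by
      intro l
      rw [eulerForm_symm, ← hS.cls_eq l, eulerForm_cls, Pool.Stab.eulerChar]
      have : ∀ p : ℤ, (p.negOnePow : ℤ) * (Module.finrank ℂ (S l ⟶ A⟦p⟧) : ℤ) = 0 := by
        intro p
        rw [finrank_of_forall_zero (fun f => hOrth l p f)]
        simp
      simp [this]
    rw [map_add, map_zsmul, h1, map_sum]
    simp [h2]
  have hQA : Orth Q A := KFO_gen hQg (fun Y hY => by
    obtain ⟨l, ⟨e⟩⟩ := hY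
    exact KFO_shift (hOrth l) e)
  exact hSPR h (Γ s) (t + 1 / 2) _ n' γ (hT.frame s hs0) A htf hrad Q (hQs s hs0) hQA

end Pool.Align
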