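import Mathlib
import Pool.Agent.Work.MP_841263_al.Interface

/-!
# Block KPA: the second tube near an aligned stability condition
-/

open CategoryTheory CategoryTheory.Limits CategoryTheory.Pretriangulated
open scoped ZeroObject Topology
open Filter

namespace Pool.Align

open Pool.Stab Pool.Tube

universe v u

section Lattice

variable {K : Type u} [AddCommGroup K] {B : K →+ K →+ ℤ} {im : K →+ ℝ} {ε : K} {n : ℕ}
  {β : Fin n → K}

/-- A positive class with vanishing coordinate at `o` is negative for `w`. -/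
theorem KPA_neg (hε : im ε = 0) (hS : SimpleRoots B im ε β) {o : Fin n} {w : K →+ ℝ}
    (hw0 : w ε = 0) (hw : ∀ l, l ≠ o → w (β l) = -1) {z : K} (hz : B z z ≤ 2) (hpos : 0 < im z)
    {c : Fin n → ℤ} (hc : z = ∑ l, c l • β l) (ho : c o = 0) : w z < 0 := by
  obtain ⟨k, d, hd⟩ := hS.nonneg z hz hpos
  have h1 := hS.indep k (fun l => (d l : ℤ) - c l) (by
    have h2 : ∑ l, ((d l : ℤ) - c l) • β l = ∑ l, (d l : ℤ) • β l - ∑ l, c l • β l := by
      rw [← Finset.sum_sub_distrib]
      exact Finset.sum_congr rfl (fun l _ => sub_smul _ _ _)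
    rw [h2, ← hc, ← add_sub_assoc, ← hd, sub_self])
  have hdo : (d o : ℤ) = 0 := by
    have h2 := h1.2 o
    simp only [ho, sub_zero] at h2
    exact h2
  have hsum : w z = ∑ l, (d l : ℝ) * w (β l) := by
    rw [hd, map_add, map_zsmul, hw0, smul_zero, zero_add, map_sum]
    exact Finset.sum_congr rfl (fun l _ => by rw [map_zsmul, zsmul_eq_mul]; push_cast; rfl)
  have hle : ∀ l, (d l : ℝ) * w (β l) ≤ 0 := by
    intro l
    by_cases hl : l = o
    · rw [hl]
      have h2 : (d o : ℝ) = 0 := by exact_mod_cast hdo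
      rw [h2, zero_mul]
    · rw [hw l hl]
      have h2 : (0 : ℝ) ≤ d l := Nat.cast_nonneg _
      linarith
  have hex : ∃ l, d l ≠ 0 := by
    by_contra hcon
    push Not at hcon
    rw [hd, map_add, map_zsmul, hε, smul_zero, zero_add, map_sum, Finset.sum_eq_zero] at hpos
    · exact lt_irrefl _ hpos
    · intro l _
      rw [hcon l]
      simp
  obtain ⟨l, hl⟩ := hex
  rw [hsum]
  refine Finset.sum_neg' (fun j _ => hle j) ⟨l, Finset.mem_univ l, ?_⟩
  have hlo : l ≠ o := by
    rintro rfl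
    exact hl (by exact_mod_cast hdo)
  rw [hw l hlo]
  have h2 : (0 : ℝ) < d l := by exact_mod_cast Nat.pos_of_ne_zero hl
  linarith

theorem KPA_rad (L : LatHyp B im ε) (hS : SimpleRoots B im ε β) {m : Fin n → ℕ} {o : Fin n}
    (hm : m o = 1) (hD : ∑ l, (m l : ℤ) • β l ∈ radical B) {w : K →+ ℝ} (hw0 : w ε = 0)
    (hw : ∀ l, l ≠ o → w (β l) = -1) (hwD : w (∑ l, (m l : ℤ) • β l) = 0) {x : K}
    (hx : B x x ≤ 2) {c : Fin n → ℤ} (hc : x = ∑ l, c l • β l) (hwx : w x = 0) :
    x ∈ radical B := by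
  set D : K := ∑ l, (m l : ℤ) • β l with hDdef
  obtain ⟨z, hz⟩ : ∃ z : K, z = x - c o • D := ⟨_, rfl⟩
  have hzc : z = ∑ l, (c l - c o * (m l : ℤ)) • β l := by
    have h1 : ∑ l, (c l - c o * (m l : ℤ)) • β l = ∑ l, c l • β l - ∑ l, c o • (m l : ℤ) • β l := by
      rw [← Finset.sum_sub_distrib]
      exact Finset.sum_congr rfl (fun l _ => by rw [sub_smul, mul_smul])
    rw [hz, h1, ← hc, hDdef, Finset.smul_sum]
  have hzo : c o - c o * (m o : ℤ) = 0 := by rw [hm]; simp
  have hzz : B z z ≤ 2 := by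
    have h1 : ∀ y, B D y = 0 := mem_radical.1 hD
    have h2 : ∀ y, B y D = 0 := fun y => by rw [L.psd.symm]; exact h1 y
    rw [hz]
    simp only [map_sub, map_zsmul, AddMonoidHom.sub_apply, AddMonoidHom.coe_smul, Pi.smul_apply,
      h1, h2, smul_zero, sub_zero]
    exact hx
  have hwz : w z = 0 := by rw [hz, map_sub, map_zsmul, hwD, smul_zero, sub_zero, hwx]
  have hz0 : im z = 0 := by
    rcases lt_trichotomy (im z) 0 with h | h | h
    · exfalso
      have h1 := KPA_neg L.im0 hS hw0 hw (z := -z) (c := fun l => -(c l - c o * (m l : ℤ)))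
        (by simpa using hzz) (by rw [map_neg]; linarith)
        (by
          rw [hzc, ← Finset.sum_neg_distrib]
          exact Finset.sum_congr rfl (fun l _ => (neg_smul _ _).symm))
        (by simp only [hzo, neg_zero])
      rw [map_neg, hwz, neg_zero] at h1
      exact lt_irrefl _ h1
    · exact h
    · exfalso
      exact (KPA_neg L.im0 hS hw0 hw hzz h hzc hzo).ne hwz
  have hz1 : B z z = 0 := by
    obtain ⟨a, ha⟩ := L.even z
    have h1 := L.psd.nonneg z
    have h2 : B z z = 0 ∨ B z z = 2 := by omega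
    rcases h2 with h2 | h2
    · exact h2
    · exact absurd hz0 (L.imroot z h2)
  have hzr := L.psd.mem_radical_of_self hz1
  have h3 : x = z + c o • D := by rw [hz]; abel
  rw [h3]
  exact Submodule.add_mem _ hzr (Submodule.smul_mem _ _ hD)

theorem KPA_bound [Module.Finite ℤ K] (hB : IsPSD B) {w : K →+ ℝ}
    (hw : ∀ r ∈ radical B, w r = 0) : ∃ N : ℝ, 0 < N ∧ ∀ x, B x x ≤ 2 → |w x| ≤ N := by
  obtain ⟨F, hF⟩ := hB.finite_mod_radical 2
  refine ⟨∑ f ∈ F, |w f| + 1, ?_, ?_⟩
  · have := Finset.sum_nonneg (fun f (_ : f ∈ F) => abs_nonneg (w f))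
    linarith
  · intro x hx
    obtain ⟨f, hf, hr⟩ := hF x hx
    have h1 := hw _ hr
    rw [map_sub, sub_eq_zero] at h1
    rw [h1]
    have h2 := Finset.single_le_sum (f := fun f => |w f|) (fun f _ => abs_nonneg (w f)) hf
    linarith

end Lattice

section Category

variable {C : Type u} [Category.{v} C] [Preadditive C] [HasZeroObject C] [HasShift C ℤ]
  [∀ n : ℤ, (shiftFunctor C n).Additive] [Pretriangulated C]

/-- The charge `Z` plus a real multiple of `w` in the direction `exp (π t i)`. -/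
noncomputable def KPA_V (Z : K0 C →+ ℂ) (w : K0 C →+ ℝ) (t a : ℝ) : K0 C →+ ℂ :=
  AddMonoidHom.mk' (fun x => Z x + ((a * w x : ℝ) : ℂ) * Complex.exp (Real.pi * t * Complex.I))
    (by
      intro x y
      rw [map_add, map_add]
      push_cast
      ring)

theorem KPA_V_apply (Z : K0 C →+ ℂ) (w : K0 C →+ ℝ) (t a : ℝ) (x : K0 C) : KPA_V Z w t a x =
    Z x + ((a * w x : ℝ) : ℂ) * Complex.exp (Real.pi * t * Complex.I) := rfl

theorem KPA_V_rot (Z : K0 C →+ ℂ) (w : K0 C →+ ℝ) (t a : ℝ) (x : K0 C) :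
    KPA_V Z w t a x * Complex.exp (-(Real.pi * t * Complex.I)) =
      Z x * Complex.exp (-(Real.pi * t * Complex.I)) + ((a * w x : ℝ) : ℂ) := by
  have h : Complex.exp (Real.pi * t * Complex.I) * Complex.exp (-(Real.pi * t * Complex.I)) =
      1 := by rw [← Complex.exp_add]; simp
  rw [KPA_V_apply, add_mul, mul_assoc (((a * w x : ℝ) : ℂ)), h, mul_one]

theorem KPA_reHalf (W : K0 C →+ ℂ) (t : ℝ) (x : K0 C) :
    rotRe W (t + 1 / 2) x = rotIm W t x := by
  rw [rotIm_apply, rotRe_apply]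
  have h1 : Complex.exp (-(Real.pi * ((t + 1 / 2 : ℝ) : ℂ) * Complex.I)) =
      Complex.exp (-(Real.pi * t * Complex.I)) * (- Complex.I) := by
    have h2 : (-(Real.pi * ((t + 1 / 2 : ℝ) : ℂ) * Complex.I) : ℂ) =
        -(Real.pi * t * Complex.I) + -(Real.pi / 2 * Complex.I) := by push_cast; ring
    rw [h2, Complex.exp_add]
    congr 1
    have h3 : (-(Real.pi / 2 * Complex.I) : ℂ) = ((-(Real.pi / 2) : ℝ) : ℂ) * Complex.I := by
      push_cast; ring
    rw [h3, Complex.exp_mul_I, ← Complex.ofReal_cos, ← Complex.ofReal_sin, Real.cos_neg,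
      Real.sin_neg, Real.cos_pi_div_two, Real.sin_pi_div_two]
    push_cast; ring
  rw [h1, ← mul_assoc]
  simp

end Category

theorem p_KPA {C : Type u} [Category.{v} C] [Preadditive C] [HasZeroObject C] [HasShift C ℤ]
    [∀ n : ℤ, (shiftFunctor C n).Additive] [Pretriangulated C] [IsTriangulated C] [Linear ℂ C]
    [∀ n : ℤ, (shiftFunctor C n).Linear ℂ] (hHOM : Stmt_HOM.{u}) (hCRN : Stmt_CRN.{u})
    (hSIM : Stmt_SIM.{u}) (hLFT : Stmt_LFT C) (hSAM : Stmt_SAM C) (hSRY : Stmt_SRY.{u})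
    (hFRA : Stmt_FRA C) : Stmt_KPA C := by
  intro h ε n β m o S hS τ t hA him
  have := h.finite
  have := h.free
  obtain ⟨F, hI, hre⟩ := hFRA h ε n β m o S hS τ t hA him
  have L := c_LHY C h τ t ε F.toTubeHyp
  have hSR : SimpleRoots (eulerForm h.k3) (τ.im t) ε β := F.toSimpleRoots
  obtain ⟨D, hD⟩ : ∃ D : K0 C, D = ∑ l, (m l : ℤ) • β l := ⟨_, rfl⟩
  have hDr : D ∈ radical (eulerForm h.k3) := by rw [hD]; exact hS.lab.rad
  -- the functional `w`
  obtain ⟨w, hw0, hwβ⟩ := hHOM (K0 C) (eulerForm h.k3) (τ.im t) ε n β hSR ℝ 0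
    (fun l => if l = o then ((∑ l ∈ Finset.univ.erase o, m l : ℕ) : ℝ) else -1)
  have hw1 : ∀ l, l ≠ o → w (β l) = -1 := fun l hl => by rw [hwβ l, if_neg hl]
  have hwD : w D = 0 := by
    rw [hD, map_sum, ← Finset.add_sum_erase _ _ (Finset.mem_univ o), map_zsmul, hwβ o,
      if_pos rfl, hS.one]
    have h1 : ∑ l ∈ Finset.univ.erase o, w ((m l : ℤ) • β l) =
        - ∑ l ∈ Finset.univ.erase o, (m l : ℝ) := by
      rw [← Finset.sum_neg_distrib]
      refine Finset.sum_congr rfl (fun l hl => ?_)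
      rw [map_zsmul, hw1 l (Finset.ne_of_mem_erase hl)]
      simp
    rw [h1]
    push_cast
    simp
  have hwr : ∀ r ∈ radical (eulerForm h.k3), w r = 0 := by
    intro r hr
    obtain ⟨a, b, hab⟩ := hS.lab.gen r hr
    rw [hab, ← hD, map_add, map_zsmul, map_zsmul, hw0, hwD, smul_zero, smul_zero, add_zero]
  obtain ⟨N, hN, hbd⟩ := KPA_bound L.psd hwr
  obtain ⟨κ, hκ, hcrn⟩ := hCRN (K0 C) (eulerForm h.k3) (τ.im t) ε L n β m o hSR hS.lab hS.one
  obtain ⟨ρ, hρe⟩ : ∃ ρ : ℝ, τ.re t ε = -ρ := ⟨-τ.re t ε, by ring⟩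
  have hρ : 0 < ρ := by
    have := hA.re
    linarith
  obtain ⟨η, hη, hη1, hη2⟩ : ∃ η : ℝ, 0 < η ∧ η * N < ρ / 2 ∧ η < κ * ρ := by
    have hκρ : 0 < κ * ρ := mul_pos hκ hρ
    refine ⟨min (ρ / (4 * N)) (κ * ρ / 2), ?_, ?_, ?_⟩
    · have : 0 < ρ / (4 * N) := by positivity
      exact lt_min this (by linarith)
    · have h1 : min (ρ / (4 * N)) (κ * ρ / 2) * N ≤ ρ / (4 * N) * N :=
        mul_le_mul_of_nonneg_right (min_le_left _ _) hN.le
      have h2 : ρ / (4 * N) * N = ρ / 4 := by field_simp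
      rw [h2] at h1
      linarith
    · have h1 : min (ρ / (4 * N)) (κ * ρ / 2) ≤ κ * ρ / 2 := min_le_right _ _
      linarith
  -- the path
  have hcell : ∀ a : ℝ, InCell t ε β (KPA_V τ.Z w t a) := by
    intro a
    obtain ⟨⟨r, hr, e1⟩, e2⟩ := CEL_self (σ := τ) (t := t) (δ := ε) (α := β) him hA.re F.pos
    refine ⟨⟨r, hr, ?_⟩, fun i => ?_⟩
    · rw [KPA_V_apply, hw0, mul_zero, Complex.ofReal_zero, zero_mul, add_zero, e1]
    · rw [KPA_V_rot, Complex.add_im, Complex.ofReal_im, add_zero]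
      exact e2 i
  obtain ⟨Γ, hΓ0, hΓ⟩ := hLFT h τ (fun s => KPA_V τ.Z w t (s * η))
    (by
      intro x
      simp only [KPA_V_apply]
      fun_prop)
    (fun s _ => (c_XRG C h τ t ε n β F _ (hcell _)).1)
    (by
      ext x
      rw [KPA_V_apply, zero_mul, zero_mul, Complex.ofReal_zero, zero_mul, add_zero])
  have hFs : ∀ s, Frame h (Γ s) t ε β := fun s =>
    (c_XRG C h τ t ε n β F _ (hcell _)).2 (Γ s) (hΓ s)
  have hIs : ∀ s l, IsS (Γ s) t ε β l 0 (S l) := by
    intro s l
    refine hSAM h Γ t ε n β Set.univ Set.ordConnected_univ (fun s _ => hFs s) 0 trivial s trivial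
      l 0 (S l) ?_
    rw [hΓ0]
    exact hI l
  -- real and imaginary parts
  have him' : ∀ (s : unitInterval) x, (Γ s).im t x = τ.im t x := by
    intro s x
    rw [StabCond.im_apply, hΓ s, KPA_V_rot, Complex.add_im, Complex.ofReal_im, add_zero,
      StabCond.im_apply]
  have hre' : ∀ (s : unitInterval) x, (Γ s).re t x = τ.re t x + s * η * w x := by
    intro s x
    rw [StabCond.re_apply, hΓ s, KPA_V_rot, Complex.add_re, Complex.ofReal_re,
      StabCond.re_apply]
  have hIh : ∀ (s : unitInterval) x,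
      (Γ s).im (t + 1 / 2) x = -(τ.re t x + s * η * w x) := by
    intro s x
    rw [← hre' s x]
    exact rotIm_half (Γ s).Z t x
  have hRh : ∀ (s : unitInterval) x, (Γ s).re (t + 1 / 2) x = τ.im t x := by
    intro s x
    rw [← him' s x]
    exact KPA_reHalf (Γ s).Z t x
  -- real part of a class
  have hreD : τ.re t D = 0 := by
    rw [hD, map_sum]
    exact Finset.sum_eq_zero (fun l _ => by rw [map_zsmul, hre l, smul_zero])
  have hspan : ∀ x : K0 C, ∃ (k : ℤ) (c : Fin n → ℤ), x = k • ε + ∑ l, c l • β l ∧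
      τ.re t x = -(k * ρ) := by
    intro x
    obtain ⟨k, c, hx⟩ := F.span x
    refine ⟨k, c, hx, ?_⟩
    rw [hx, map_add, map_zsmul, hρe, map_sum, Finset.sum_eq_zero]
    · rw [zsmul_eq_mul]
      ring
    · intro l _
      rw [map_zsmul, hre l, smul_zero]
  have hsmall : ∀ (s : unitInterval) x, eulerForm h.k3 x x ≤ 2 → |s * η * w x| < ρ / 2 := by
    intro s x hx
    have h1 := hbd x hx
    have h2 : |s * η * w x| ≤ η * N := by
      rw [abs_mul, abs_mul, abs_of_nonneg s.2.1, abs_of_pos hη, mul_assoc]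
      have h3 : η * |w x| ≤ η * N := mul_le_mul_of_nonneg_left h1 hη.le
      have h4 : (s : ℝ) * (η * |w x|) ≤ 1 * (η * |w x|) :=
        mul_le_mul_of_nonneg_right s.2.2 (mul_nonneg hη.le (abs_nonneg _))
      linarith
    linarith
  -- `δ = - D`
  have hDne : D ≠ 0 := by
    intro h0
    have h1 := F.indep 0 (fun l => (m l : ℤ)) (by rw [zero_smul, zero_add, ← hD, h0])
    have h2 := h1.2 o
    simp only [hS.one] at h2
    exact absurd h2 (by norm_num)
  have hT : ∀ s : unitInterval, 0 < s → TubeHyp h (Γ s) (t + 1 / 2) (-D) := by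
    intro s hs
    have hs' : (0 : ℝ) < s := hs
    refine ⟨neg_mem hDr, neg_ne_zero.2 hDne, ?_, ?_, ?_, ?_⟩
    · intro x p hp
      obtain ⟨k, c, hx⟩ := F.span x
      have h1 := F.indep (p * k) (fun l => p * c l + (m l : ℤ)) (by
        have h2 : ∑ l, (p * c l + (m l : ℤ)) • β l = p • ∑ l, c l • β l + D := by
          rw [hD, Finset.smul_sum, ← Finset.sum_add_distrib]
          exact Finset.sum_congr rfl (fun l _ => by rw [add_smul, mul_smul])
        rw [h2, mul_smul, ← add_assoc, ← smul_add, ← hx, ← hp, neg_add_cancel])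
      have h2 := h1.2 o
      simp only [hS.one, Nat.cast_one] at h2
      have h3 : p * (-(c o)) = 1 := by linarith
      exact Int.isUnit_iff.1 (IsUnit.of_mul_eq_one _ h3)
    · rw [hIh, map_neg, map_neg, hreD, hwD]
      simp
    · rw [hRh, map_neg, hD, map_sum, neg_lt_zero]
      refine Finset.sum_pos' (fun l _ => ?_) ⟨o, Finset.mem_univ o, ?_⟩
      · rw [map_zsmul, zsmul_eq_mul]
        have h1 := (F.pos l).le
        positivity
      · rw [map_zsmul, zsmul_eq_mul, hS.one]
        have h1 := F.pos o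
        push_cast
        linarith
    · intro x hx h0
      rw [hIh] at h0
      obtain ⟨k, c, hxc, hxr⟩ := hspan x
      have h1 := abs_lt.1 (hsmall s x hx.le)
      rw [hxr] at h0
      have hk : k = 0 := by
        rcases lt_trichotomy k 0 with hk | hk | hk
        · exfalso
          have h2 : (k : ℝ) ≤ -1 := by exact_mod_cast Int.le_sub_one_of_lt hk
          have h3 := mul_le_mul_of_nonneg_right h2 hρ.le
          linarith [h1.2]
        · exact hk
        · exfalso
          have h2 : (1 : ℝ) ≤ k := by exact_mod_cast hk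
          have h3 := mul_le_mul_of_nonneg_right h2 hρ.le
          linarith [h1.1]
      rw [hk] at hxc h0
      rw [zero_smul, zero_add] at hxc
      have hw : w x = 0 := by
        have h2 : (s : ℝ) * η * w x = 0 := by
          push_cast at h0
          linarith
        exact (mul_eq_zero.1 h2).resolve_left (mul_pos hs' hη).ne'
      have h3 := KPA_rad L hSR hS.one (by rw [← hD]; exact hDr) hw0 hw1
        (by rw [← hD]; exact hwD) hx.le hxc hw
      rw [mem_radical.1 h3 x] at hx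
      exact absurd hx (by norm_num)
  -- the simple roots
  have h01 : (0 : unitInterval) < 1 := by
    rw [← Subtype.coe_lt_coe]
    simp
  have L1 := c_LHY C h (Γ 1) (t + 1 / 2) (-D) (hT 1 h01)
  obtain ⟨n', γ, hγ⟩ := c_BAS (K0 C) (eulerForm h.k3) ((Γ 1).im (t + 1 / 2)) (-D) L1
  refine ⟨Γ, n', γ, hΓ0, ?_⟩
  refine ⟨?_, ?_, ?_⟩
  · intro s hs
    have hs' : (0 : ℝ) < s := hs
    rw [← hD]
    refine ⟨hT s hs, ?_⟩
    refine (hSRY (K0 C) (eulerForm h.k3) ((Γ 1).im (t + 1 / 2)) (-D) L1 n' γ hγ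
      ((Γ s).im (t + 1 / 2)) (hT s hs).im0 ?_).1
    intro i
    have h1 := hγ.pos i
    have hn : eulerForm h.k3 (γ i) (γ i) ≤ 2 := (hγ.norm i).le
    rw [hIh] at h1 ⊢
    obtain ⟨k, c, hxc, hxr⟩ := hspan (γ i)
    have h2 := abs_lt.1 (hsmall s (γ i) hn)
    have h3 := abs_lt.1 (hsmall 1 (γ i) hn)
    rw [hxr] at h1 ⊢
    rcases lt_trichotomy k 0 with hk | hk | hk
    · exfalso
      have h4 : (k : ℝ) ≤ -1 := by exact_mod_cast Int.le_sub_one_of_lt hk
      have h5 := mul_le_mul_of_nonneg_right h4 hρ.le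
      linarith [h3.1]
    · rw [hk] at h1 ⊢
      push_cast at h1 ⊢
      have h4 : 0 < -(η * w (γ i)) := by
        linarith
      have h5 := mul_pos hs' h4
      linarith
    · have h4 : (1 : ℝ) ≤ k := by exact_mod_cast hk
      have h5 := mul_le_mul_of_nonneg_right h4 hρ.le
      linarith [h2.2]
  · intro l hl
    rw [← hD]
    refine hSIM (K0 C) (eulerForm h.k3) ((Γ 1).im (t + 1 / 2)) (-D) L1.psd L1.rad L1.im0 n' γ hγ
      (β l) ?_
    refine hcrn ((Γ 1).im (t + 1 / 2)) ρ hρ ?_ ?_ l hl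
    · intro r hr
      obtain ⟨a, b, hab⟩ := hS.lab.gen r hr
      refine ⟨a, ?_⟩
      rw [hIh, hwr r hr, hab, ← hD, map_add, map_zsmul, map_zsmul, hρe, hreD, zsmul_eq_mul]
      simp
    · intro j hj
      rw [hIh, hre j, hw1 j hj]
      simp only [Set.Icc.coe_one]
      constructor <;> linarith
  · intro s hs l hl
    have hs' : (0 : ℝ) < s := hs
    obtain ⟨-, φ, h1, h2, hst⟩ := c_SPH C h (Γ s) t ε n β (hFs s) l 0 (S l) (hIs s l)
    have hP : (Γ s).sl.P φ (S l) := hst.1
    have hnz : ¬ IsZero (S l) := (hIs s l).1.2.1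
    obtain ⟨hp, hr, -⟩ := (Γ s).polar t hP hnz
    have hr2 : (Γ s).re t (cls (S l)) = -(s * η) := by
      rw [hS.cls_eq l, hre', hre l, hw1 l hl]
      ring
    rw [hr2] at hr
    have hsη := mul_pos hs' hη
    have hcos : Real.cos (Real.pi * (φ - t)) < 0 := by
      by_contra hcon
      push Not at hcon
      have h3 := mul_nonneg hp.le hcon
      linarith
    have hφ : t + 1 / 2 < φ := by
      by_contra hcon
      push Not at hcon
      have h3 : 0 ≤ Real.cos (Real.pi * (φ - t)) := by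
        refine Real.cos_nonneg_of_mem_Icc ⟨?_, ?_⟩
        · have h4 : 0 ≤ Real.pi * (φ - t) := mul_nonneg Real.pi_pos.le (by linarith)
          linarith [Real.pi_pos]
        · have h4 : Real.pi * (φ - t) ≤ Real.pi * (1 / 2) :=
            mul_le_mul_of_nonneg_left (by linarith) Real.pi_pos.le
          linarith
      linarith
    refine (Γ s).tf_of_in ?_ hnz
    exact Slicing.in_of_P hP ⟨hφ, by linarith⟩

end Pool.Align
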