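import Pool.Agent.Work.MP_841263_al.Interface

/-!
# Block KPT: points of the second tube are iterated extensions of the aligned objects
-/

set_option autoImplicit false

open CategoryTheory CategoryTheory.Limits CategoryTheory.Pretriangulated
open scoped ZeroObject Topology
open Filter

namespace Pool.Align

open Pool.Stab Pool.Tube

universe v u

/-- Positive parameters are frequent near zero. -/
lemma KPT_freq : ∃ᶠ s : unitInterval in 𝓝 (0 : unitInterval), 0 < s := by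
  have h1 : (𝓝[>] (0 : unitInterval)).NeBot := nhdsGT_neBot_of_exists_gt ⟨1, zero_lt_one⟩
  have h2 : ∃ᶠ s : unitInterval in 𝓝[>] (0 : unitInterval), 0 < s :=
    (eventually_mem_nhdsWithin (a := (0 : unitInterval)) (s := Set.Ioi 0)).frequently
  exact h2.filter_mono nhdsWithin_le_nhds

variable {C : Type u} [Category.{v} C] [Preadditive C] [HasZeroObject C] [HasShift C ℤ]
  [∀ n : ℤ, (shiftFunctor C n).Additive] [Pretriangulated C] [IsTriangulated C] [Linear ℂ C]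
  [∀ n : ℤ, (shiftFunctor C n).Linear ℂ]

omit [IsTriangulated C] in
/-- In a triangle with an indecomposable middle term and nonzero ends the last morphism is not
zero, also after the shift by `-1`. -/
lemma KPT_last {X Y Q : C} {f : X ⟶ Y} {p : Y ⟶ Q} {q : Q ⟶ X⟦(1 : ℤ)⟧}
    (hT : Triangle.mk f p q ∈ distTriang C) (hY : Module.finrank ℂ (Y ⟶ Y) = 1)
    (hX : ¬ IsZero X) (hQ : ¬ IsZero Q) : ∃ g : Q⟦(-1 : ℤ)⟧ ⟶ X, g ≠ 0 := by
  by_contra hcon
  push Not at hcon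
  have hq : q = 0 := by
    let e : (Q⟦(-1 : ℤ)⟧)⟦(1 : ℤ)⟧ ≅ Q := (shiftFunctorCompIsoId C (-1 : ℤ) 1 (by simp)).app Q
    obtain ⟨g, hg⟩ : ∃ g : Q⟦(-1 : ℤ)⟧ ⟶ X, g⟦(1 : ℤ)⟧' = e.hom ≫ q :=
      ⟨(shiftFunctor C (1 : ℤ)).preimage _, Functor.map_preimage _ _⟩
    rw [hcon g, Functor.map_zero] at hg
    rw [← cancel_epi e.hom, ← hg, comp_zero]
  obtain ⟨e, -⟩ := exists_iso_binaryBiproduct_of_distTriang _ hT hq
  have e' : Y ≅ X ⊞ Q := e
  rcases isZero_of_iso_biprod hY e' with h | h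
  · exact hX h
  · exact hQ h

/-- The aligned objects are stable, and every stable object of the same phase is one of them or
has its class in the radical. -/
lemma KPT_stable (hSMT : Stmt_SMT C) (h : EllipticSetting C) (ε : K0 C) (n : ℕ)
    (β : Fin n → K0 C) (m : Fin n → ℕ) (o : Fin n) (S : Fin n → C) (hcoll : Coll h ε β m o S)
    (τ : StabCond C) (t : ℝ) (hal : Aligned t ε S τ) (hFr : Frame h τ t ε β)
    (hIsS : ∀ l, IsS τ t ε β l 0 (S l)) :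
    (∀ l, τ.Stable (t + 1 / 2) (S l)) ∧ ∀ T, τ.Stable (t + 1 / 2) T →
      cls T ∉ Set.range β → cls T ∈ radical (eulerForm h.k3) := by
  have hst : ∀ l, τ.Stable (t + 1 / 2) (S l) := by
    intro l
    obtain ⟨-, φ, h1, h2, hφ⟩ := c_SPH C h τ t ε n β hFr l 0 (S l) (hIsS l)
    have h3 : φ = t + 1 / 2 := τ.phase_unique hφ.1 (hal.P l) hφ.2.1 hφ.2.1 rfl t
      ⟨h1.le, h2.le⟩ ⟨by linarith, by linarith⟩
    rw [← h3]
    exact hφ
  have hsimp : ∀ X, τ.Stable (t + 1 / 2) X → SimpleIn (τ.sl.Heart (t + 1 / 2 - 1)) X := by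
    intro X hX
    refine StabCond.Stable.simple (t := t + 1 / 2 - 1) ?_
    rw [sub_add_cancel]
    exact hX
  refine ⟨hst, ?_⟩
  intro T hT hcls
  refine hSMT h ε n β m o S hcoll τ t hal T hT.1 (Or.inl ?_)
  intro l f
  refine (hsimp _ (hst l)).hom_zero (hsimp _ hT) ?_ f
  intro h0
  exact hcls ⟨l, by rw [← h0, hcoll.cls_eq]⟩

theorem p_KPT : Stmt_LIM C → Stmt_SAM C → Stmt_SMT C → Stmt_FRA C → Stmt_KPT C := by
  intro hLIM hSAM hSMT hFRA h ε n β m o S hcoll τ t hal him Γ n' γ hΓ hst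
  have hfin : Module.Finite ℤ (K0 C) := h.finite
  have hfree : Module.Free ℤ (K0 C) := h.free
  obtain ⟨hFr, hIsS, hre⟩ := hFRA h ε n β m o S hcoll τ t hal him
  have hn : 3 ≤ n := by
    have h1 := c_RNK C h τ t ε n β hFr
    have h2 := h.rank4
    omega
  obtain ⟨l, hl⟩ : ∃ l : Fin n, l ≠ o := by
    by_contra hcon
    push Not at hcon
    have h0 := hcon ⟨0, by omega⟩
    have h1 := hcon ⟨1, by omega⟩
    rw [← h1] at h0
    simp [Fin.ext_iff] at h0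
  obtain ⟨i, k, hik⟩ := hst.simple l hl
  have hSl : ∀ s, 0 < s → IsS (Γ s) (t + 1 / 2) (-∑ l, (m l : ℤ) • β l) γ i k (S l) :=
    fun s hs => ⟨hst.tf s hs l hl, by rw [hcoll.cls_eq, ← hik]⟩
  obtain ⟨Y, hY, hYs, -⟩ := c_EXI C h (Γ 1) (t + 1 / 2) _ n' γ (hst.frame 1 one_pos) i (k + 1)
  have hY' : ∀ s, 0 < s → IsS (Γ s) (t + 1 / 2) (-∑ l, (m l : ℤ) • β l) γ i (k + 1) Y :=
    fun s hs => hSAM h Γ (t + 1 / 2) _ n' γ (Set.Ioi 0) Set.ordConnected_Ioi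
      (fun s hs => hst.frame s hs) 1 (Set.mem_Ioi.2 one_pos) s (Set.mem_Ioi.2 hs) i (k + 1) Y hY
  have htwo := (c_TWO C h (Γ 1) (t + 1 / 2) _ n' γ (hst.frame 1 one_pos) i k (S l) Y
    (hSl 1 one_pos) hY).1
  obtain ⟨f, hf⟩ : ∃ f : S l ⟶ Y, f ≠ 0 := by
    by_contra hcon
    push Not at hcon
    have h1 := finrank_of_forall_zero hcon
    omega
  obtain ⟨Q, p, q, hT⟩ := distinguished_cocone_triangle f
  have hQ : ∀ s, 0 < s → (Γ s).Stable (t + 1 / 2 + 1) Q := fun s hs =>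
    (c_PNT C h (Γ s) (t + 1 / 2) _ n' γ (hst.frame s hs) i k (S l) Y (hSl s hs) (hY' s hs) f Q p
      q hf hT).1
  refine ⟨Q, hQ, ?_⟩
  -- the phase of `Q` at the end point
  have hQP : τ.sl.P (t + 1 / 2 + 1) Q := by
    have h1 : (Γ 0).sl.In (Set.Icc (t + 1 / 2 + 1) (t + 1 / 2 + 1)) Q := by
      refine hLIM h Γ 0 Q _ _ ?_
      intro η hη
      refine KPT_freq.mono ?_
      intro s hs
      exact Slicing.in_of_P (hQ s hs).1 ⟨by linarith, by linarith⟩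
    rw [hΓ, Set.Icc_self] at h1
    exact h1.P_of_singleton
  have hEP : τ.sl.P (t + 1 / 2) (Q⟦(-1 : ℤ)⟧) := by
    have h1 := τ.sl.P_shift_neg_one (t + 1 / 2 + 1) Q hQP
    rwa [add_sub_cancel_right] at h1
  obtain ⟨hSst, hrad⟩ := KPT_stable hSMT h ε n β m o S hcoll τ t hal hFr hIsS
  have hsimp : ∀ X, τ.Stable (t + 1 / 2) X → SimpleIn (τ.sl.Heart (t + 1 / 2 - 1)) X := by
    intro X hX
    refine StabCond.Stable.simple (t := t + 1 / 2 - 1) ?_
    rw [sub_add_cancel]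
    exact hX
  have hQs : SimpleIn ((Γ 1).sl.Heart (t + 1 / 2)) Q := (hQ 1 one_pos).simple
  have hend : Module.finrank ℂ (Q⟦(-1 : ℤ)⟧ ⟶ Q⟦(-1 : ℤ)⟧) = 1 := by
    rw [finrank_shift_both]
    exact hQs.finrank_end h.k3
  have hne := KPT_last hT hYs.1 (hSst l).2.1 hQs.2.1
  have hgen := AbSub.split (Slicing.heart_ab τ.sl (t + 1 / 2 - 1)) h.k3 hsimp
    (τ.gen_stable hEP) hend (J := Set.range β) (by
      intro S' T' hS' hT' hJ hJ'
      rw [eulerForm_symm]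
      exact hrad T' hT' hJ' _) (hSst l) ⟨l, (hcoll.cls_eq l).symm⟩ hne
  have hgen' : Gen (fun Y => ∃ l, Nonempty (Y ≅ (S l)⟦(1 : ℤ)⟧)) ((Q⟦(-1 : ℤ)⟧)⟦(1 : ℤ)⟧) := by
    refine hgen.shift' 1 ?_
    rintro X ⟨hX, l', hl'⟩
    have hXS : IsS τ t ε β l' 0 X := by
      refine ⟨τ.tf_of_in (Slicing.in_of_P hX.1 ⟨by linarith, by linarith⟩) hX.2.1, ?_⟩
      rw [← hl', zero_smul, add_zero]
    obtain ⟨e⟩ := c_UNI C h τ t ε n β hFr l' 0 X (S l') hXS (hIsS l')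
    exact ⟨l', ⟨(shiftFunctor C (1 : ℤ)).mapIso e⟩⟩
  exact hgen'.iso ((shiftFunctorCompIsoId C (-1 : ℤ) 1 (by simp)).app Q)

end Pool.Align
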