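import Pool.Agent.Work.MP_841263_al.Interface

/-! # Alignment: block LBL -/

namespace Pool.Align

open Pool.Stab Pool.Tube

universe v u

/-- Three elements of the radical are dependent. -/
theorem LBL_dep {K : Type u} [AddCommGroup K] [Module.Finite ℤ K] [Module.Free ℤ K]
    {B : K →+ K →+ ℤ} (hr : Module.finrank ℤ (radical B) = 2) (x y z : K) (hx : x ∈ radical B)
    (hy : y ∈ radical B) (hz : z ∈ radical B) :
    ∃ a b c : ℤ, a • x + b • y + c • z = 0 ∧ (a ≠ 0 ∨ b ≠ 0 ∨ c ≠ 0) := by
  have hnot : ¬ LinearIndependent ℤ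
      (![⟨x, hx⟩, ⟨y, hy⟩, ⟨z, hz⟩] : Fin 3 → radical B) := by
    intro hli
    have h := hli.fintype_card_le_finrank
    rw [hr, Fintype.card_fin] at h
    omega
  rw [Fintype.not_linearIndependent_iff] at hnot
  obtain ⟨g, hg, i, hi⟩ := hnot
  refine ⟨g 0, g 1, g 2, ?_, ?_⟩
  · have h1 := congrArg (fun w : radical B => (w : K)) hg
    simpa [Fin.sum_univ_three] using h1
  · by_contra hcon
    push Not at hcon
    obtain ⟨h0, h1, h2⟩ := hcon
    fin_cases i
    · exact hi h0
    · exact hi h1
    · exact hi h2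

/-- Not all elements of the radical are multiples of one element. -/
theorem LBL_ex {K : Type u} [AddCommGroup K] [Module.Finite ℤ K] [Module.Free ℤ K]
    {B : K →+ K →+ ℤ} (hr : Module.finrank ℤ (radical B) = 2) (ε : K) :
    ∃ r ∈ radical B, ∀ k : ℤ, r ≠ k • ε := by
  by_contra hcon
  push Not at hcon
  let b := Module.finBasisOfFinrankEq ℤ (radical B) hr
  obtain ⟨k, hk⟩ := hcon _ (b 0).2
  obtain ⟨l, hl⟩ := hcon _ (b 1).2
  have h1 : l • b 0 - k • b 1 = 0 := by
    apply Subtype.ext
    have e : ((l • b 0 - k • b 1 : radical B) : K) = l • (b 0 : K) - k • (b 1 : K) := rfl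
    rw [e, hk, hl, smul_smul, smul_smul, mul_comm]
    simp
  have h2 := congrArg (fun w => b.repr w 1) h1
  have h3 := congrArg (fun w => b.repr w 0) h1
  simp at h2 h3
  rw [h2, zero_smul] at hk
  exact b.ne_zero 0 (Subtype.ext hk)

theorem p_LBL : Stmt_LBL.{u} := by
  classical
  intro K _ _ _ B im ε L n β hβ
  -- radical elements of positive imaginary part
  have hnn : ∀ r ∈ radical B, 0 < im r →
      ∃ (k : ℤ) (c : Fin n → ℕ), r = k • ε + ∑ i, (c i : ℤ) • β i := fun r hr h =>
    hβ.nonneg r (by have h2 : B r r = 0 := hr r; rw [h2]; norm_num) h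
  have hex : ∃ N : ℕ, ∃ r ∈ radical B, 0 < im r ∧
      ∃ (k : ℤ) (c : Fin n → ℕ), r = k • ε + ∑ i, (c i : ℤ) • β i ∧ ∑ i, c i = N := by
    obtain ⟨r, hr, hrk⟩ := LBL_ex L.rank ε
    have h0 : im r ≠ 0 := fun h => by
      obtain ⟨k, hk⟩ := L.imrad r hr h
      exact hrk k hk
    rcases lt_or_gt_of_ne h0 with h | h
    · have h1 : 0 < im (-r) := by rw [map_neg]; linarith
      obtain ⟨k, c, hc⟩ := hnn (-r) (neg_mem hr) h1
      exact ⟨_, -r, neg_mem hr, h1, k, c, hc, rfl⟩
    · obtain ⟨k, c, hc⟩ := hnn r hr h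
      exact ⟨_, r, hr, h, k, c, hc, rfl⟩
  obtain ⟨r, hr, hrpos, k, m, hrm, hN⟩ := Nat.find_spec hex
  have hmin : ∀ s ∈ radical B, 0 < im s → ∀ (k : ℤ) (c : Fin n → ℕ),
      s = k • ε + ∑ i, (c i : ℤ) • β i → ∑ i, m i ≤ ∑ i, c i := by
    intro s hs hs0 k c hc
    rw [hN]
    exact Nat.find_min' hex ⟨s, hs, hs0, k, c, hc, rfl⟩
  set d : K := ∑ i, (m i : ℤ) • β i with hd
  have hdr : d = r - k • ε := by rw [hrm]; abel
  have hdrad : d ∈ radical B := by
    rw [hdr]
    exact sub_mem hr ((radical B).smul_mem k L.rad)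
  have hdim : 0 < im d := by
    rw [hdr, map_sub, map_zsmul, L.im0, smul_zero, sub_zero]
    exact hrpos
  have hmpos : 0 < ∑ i, m i := by
    rcases Nat.eq_zero_or_pos (∑ i, m i) with h | h
    · exfalso
      rw [Finset.sum_eq_zero_iff] at h
      have : d = 0 := by
        rw [hd]
        exact Finset.sum_eq_zero fun i hi => by rw [h i hi]; simp
      rw [this, map_zero] at hdim
      exact lt_irrefl _ hdim
    · exact h
  refine ⟨m, ?_, hdrad, ?_⟩
  · -- one_le
    by_contra hcon
    push Not at hcon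
    obtain ⟨l₀, hl₀⟩ := hcon
    have hl₀ : m l₀ = 0 := by omega
    have horth : ∀ i l, m i = 0 → m l ≠ 0 → B (β i) (β l) = 0 := by
      intro i l hi hl
      have h0 : B d (β i) = 0 := hdrad (β i)
      have h1 : B d (β i) = ∑ j, (m j : ℤ) * B (β j) (β i) := by
        rw [hd, map_sum, AddMonoidHom.finsetSum_apply]
        exact Finset.sum_congr rfl fun j _ => by
          rw [map_zsmul, AddMonoidHom.coe_smul, Pi.smul_apply, smul_eq_mul]
      have hle : ∀ j ∈ Finset.univ, (m j : ℤ) * B (β j) (β i) ≤ 0 := by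
        intro j _
        by_cases hj : j = i
        · rw [hj, hi]; simp
        · rcases hβ.off j i hj with h | h
          · rw [h]; simp
          · rw [h]
            have : (0 : ℤ) ≤ m j := Int.natCast_nonneg _
            linarith
      have hz := (Finset.sum_eq_zero_iff_of_nonpos hle).1 (by rw [← h1, h0]) l
        (Finset.mem_univ l)
      have h3 : ((m l : ℕ) : ℤ) ≠ 0 := by exact_mod_cast hl
      rw [L.psd.symm]
      exact (mul_eq_zero.1 hz).resolve_left h3
    let P : AddSubgroup K := AddSubgroup.closure ({ε} ∪ {x | ∃ i, m i = 0 ∧ x = β i})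
    let Q : AddSubgroup K := AddSubgroup.closure ({ε} ∪ {x | ∃ i, m i ≠ 0 ∧ x = β i})
    have hP : ∀ i, m i = 0 → β i ∈ P := fun i hi =>
      AddSubgroup.subset_closure (Or.inr ⟨i, hi, rfl⟩)
    have hQ : ∀ i, m i ≠ 0 → β i ∈ Q := fun i hi =>
      AddSubgroup.subset_closure (Or.inr ⟨i, hi, rfl⟩)
    have hεP : ε ∈ P := AddSubgroup.subset_closure (Or.inl rfl)
    have htop : P ⊔ Q = ⊤ := by
      rw [eq_top_iff]
      intro x _
      obtain ⟨a, c, hc⟩ := hβ.span x
      rw [hc]
      refine add_mem (AddSubgroup.zsmul_mem _ ((le_sup_left : P ≤ P ⊔ Q) hεP) a)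
        (sum_mem fun i _ => AddSubgroup.zsmul_mem _ ?_ _)
      by_cases hi : m i = 0
      · exact (le_sup_left : P ≤ P ⊔ Q) (hP i hi)
      · exact (le_sup_right : Q ≤ P ⊔ Q) (hQ i hi)
    have hε' : ∀ x, B x ε = 0 := fun x => by rw [L.psd.symm]; exact L.rad x
    have hPQ : ∀ x ∈ P, ∀ y ∈ Q, B x y = 0 := by
      intro x hx y hy
      induction hx using AddSubgroup.closure_induction with
      | mem x hx =>
        rcases hx with hx | ⟨i, hi, rfl⟩
        · rw [Set.mem_singleton_iff.1 hx]
          exact L.rad y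
        · induction hy using AddSubgroup.closure_induction with
          | mem y hy =>
            rcases hy with hy | ⟨l, hl, rfl⟩
            · rw [Set.mem_singleton_iff.1 hy]
              exact hε' _
            · exact horth i l hi hl
          | zero => rw [map_zero]
          | add a b _ _ ha hb => rw [map_add, ha, hb, add_zero]
          | neg a _ ha => rw [map_neg, ha, neg_zero]
      | zero => rw [map_zero, AddMonoidHom.zero_apply]
      | add a b _ _ ha hb => rw [map_add, AddMonoidHom.add_apply, ha, hb, add_zero]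
      | neg a _ ha => rw [map_neg, AddMonoidHom.neg_apply, ha, neg_zero]
    rcases L.irred P Q htop hPQ with h | h
    · have h1 : B (β l₀) (β l₀) = 0 := h _ (hP l₀ hl₀) _
      rw [hβ.norm] at h1
      norm_num at h1
    · obtain ⟨l, -, hl⟩ := Finset.exists_ne_zero_of_sum_ne_zero hmpos.ne'
      have h1 : B (β l) (β l) = 0 := h _ (hQ l hl) _
      rw [hβ.norm] at h1
      norm_num at h1
  · -- gen
    intro s hs
    let q : ℤ := ⌊im s / im d⌋
    have hs' : s - q • d ∈ radical B := sub_mem hs ((radical B).smul_mem q hdrad)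
    have e1 : im (s - q • d) = im s - q * im d := by
      rw [map_sub, map_zsmul, zsmul_eq_mul]
    have hge : 0 ≤ im (s - q • d) := by
      rw [e1]
      have := (le_div_iff₀ hdim).1 (Int.floor_le (im s / im d))
      linarith
    have hlt : im (s - q • d) < im d := by
      rw [e1]
      have := (div_lt_iff₀ hdim).1 (Int.lt_floor_add_one (im s / im d))
      have e : (q : ℝ) = (⌊im s / im d⌋ : ℝ) := rfl
      rw [e]
      linarith
    rcases hge.lt_or_eq with h | h
    · exfalso
      obtain ⟨l, c, hc⟩ := hnn _ hs' h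
      have h1 := hmin _ hs' h l c hc
      obtain ⟨x, y, z, hxyz, hne⟩ := LBL_dep L.rank ε d (s - q • d) L.rad hdrad hs'
      -- the coordinates are proportional
      have hcoord : (x + z * l) • ε + ∑ i, (y * m i + z * c i) • β i = 0 := by
        have e2 : ∑ i, (y * m i + z * c i) • β i =
            y • ∑ i, (m i : ℤ) • β i + z • ∑ i, (c i : ℤ) • β i := by
          rw [Finset.smul_sum, Finset.smul_sum, ← Finset.sum_add_distrib]
          exact Finset.sum_congr rfl fun i _ => by rw [add_smul, mul_smul, mul_smul]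
        rw [e2, ← hd, add_smul, mul_smul]
        have e3 : x • ε + y • d + z • (l • ε + ∑ i, (c i : ℤ) • β i) = 0 := by
          rw [← hc]; exact hxyz
        rw [smul_add] at e3
        rw [← e3]
        abel
      obtain ⟨-, hco⟩ := hβ.indep _ _ hcoord
      have him : y * im d + z * im (s - q • d) = 0 := by
        have := congrArg im hxyz
        rw [map_add, map_add, map_zsmul, map_zsmul, map_zsmul, L.im0, smul_zero, zero_add,
          map_zero, zsmul_eq_mul, zsmul_eq_mul] at this
        exact this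
      have hz : z ≠ 0 := by
        rintro rfl
        have hy : y = 0 := by
          have h3 : (y : ℝ) * im d = 0 := by simpa using him
          exact_mod_cast (mul_eq_zero.1 h3).resolve_right hdim.ne'
        rw [hy, zero_smul, zero_smul, add_zero, add_zero] at hxyz
        have hx : x = 0 := (smul_eq_zero.1 hxyz).resolve_right L.ne
        rcases hne with h3 | h3 | h3
        · exact h3 hx
        · exact h3 hy
        · exact h3 rfl
      have hsum : y * (∑ i, (m i : ℤ)) + z * ∑ i, (c i : ℤ) = 0 := by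
        rw [Finset.mul_sum, Finset.mul_sum, ← Finset.sum_add_distrib]
        exact Finset.sum_eq_zero fun i _ => hco i
      have hS1 : (∑ i, (m i : ℤ)) ≤ ∑ i, (c i : ℤ) := by exact_mod_cast h1
      have hS0 : (0 : ℤ) < ∑ i, (m i : ℤ) := by exact_mod_cast hmpos
      have hR1 : (∑ i, (m i : ℝ)) ≤ ∑ i, (c i : ℝ) := by exact_mod_cast h1
      have hR0 : (0 : ℝ) < ∑ i, (m i : ℝ) := by exact_mod_cast hmpos
      have hR : (y : ℝ) * (∑ i, (m i : ℝ)) + z * ∑ i, (c i : ℝ) = 0 := by exact_mod_cast hsum
      have hzR : (z : ℝ) ≠ 0 := by exact_mod_cast hz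
      -- im (s - q d) / im d = - y / z = (sum c) / (sum m)
      have e5 : (z : ℝ) * (im (s - q • d) * (∑ i, (m i : ℝ)) - im d * ∑ i, (c i : ℝ)) = 0 := by
        linear_combination (∑ i, (m i : ℝ)) * him - im d * hR
      have e6 := (mul_eq_zero.1 e5).resolve_left hzR
      nlinarith [mul_lt_mul_of_pos_right hlt hR0, mul_le_mul_of_nonneg_left hR1 hdim.le]
    · obtain ⟨a, ha⟩ := L.imrad _ hs' h.symm
      exact ⟨a, q, by rw [← ha]; abel⟩

end Pool.Align
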