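import Pool.Agent.Work.MP_841263_al.Interface

/-! # Alignment, block LFT (helper5) -/

set_option autoImplicit false

open CategoryTheory CategoryTheory.Limits CategoryTheory.Pretriangulated
open scoped ZeroObject Topology
open Filter

namespace Pool.Align

open Pool.Stab Pool.Tube

universe v u

section

variable {C : Type u} [Category.{v} C] [Preadditive C] [HasZeroObject C] [HasShift C ℤ]
  [∀ n : ℤ, (shiftFunctor C n).Additive] [Pretriangulated C] [IsTriangulated C] [Linear ℂ C]
  [∀ n : ℤ, (shiftFunctor C n).Linear ℂ]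

theorem p_LFT : Stmt_LFT C := by
  intro h σ W hWc hWX hW0
  obtain ⟨γ, hγ⟩ : ∃ γ : C(unitInterval, Xreg (eulerForm h.k3)), ∀ s, (γ s).1 = W s := by
    refine ⟨⟨fun s => ⟨W s, hWX s s.2⟩, ?_⟩, fun s => rfl⟩
    refine Continuous.subtype_mk ?_ _
    rw [continuous_hom_iff]
    intro x
    exact (hWc x).comp continuous_subtype_val
  have hγ0 : γ 0 = h.period σ := by
    apply Subtype.ext
    rw [hγ]
    show W ((0 : unitInterval) : ℝ) = σ.Z
    rw [← hW0]
    rfl
  have cov := h.isCoveringMap_period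
  refine ⟨cov.liftPath γ σ hγ0, cov.liftPath_zero _ _ _, fun s => ?_⟩
  have h1 : h.period (cov.liftPath γ σ hγ0 s) = γ s :=
    congrFun (cov.liftPath_lifts γ σ hγ0) s
  rw [← hγ s, ← h1]
  rfl

end

end Pool.Align
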