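import Pool.Agent.Work.MP_841263_al.Interface

/-!
# Block LIM: membership in a closed interval of phases is a closed condition along a path
-/

open CategoryTheory CategoryTheory.Limits CategoryTheory.Pretriangulated
open scoped ZeroObject Topology
open Filter

set_option backward.isDefEq.respectTransparency false
set_option backward.defeqAttrib.useBackward true
set_option linter.unusedSectionVars false

namespace Pool.Align

open Pool.Stab Pool.Tube

universe v u

variable (C : Type u) [Category.{v} C] [Preadditive C] [HasZeroObject C] [HasShift C ℤ]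
  [∀ n : ℤ, (shiftFunctor C n).Additive] [Pretriangulated C] [IsTriangulated C] [Linear ℂ C]
  [∀ n : ℤ, (shiftFunctor C n).Linear ℂ]

theorem p_LIM : Stmt_NEA C → Stmt_LIM C := by
  intro hN h Γ s₀ X a b hX
  by_cases h0 : IsZero X
  · exact Slicing.in_of_isZero _ h0
  have key : ∀ η : ℝ, 0 < η → a - 2 * η ≤ (Γ s₀).phiMinus X ∧
      (Γ s₀).phiPlus X ≤ b + 2 * η := by
    intro η hη
    obtain ⟨s, hs, -, hs2⟩ := ((hX η hη).and_eventually (hN h Γ s₀ η hη)).exists
    constructor
    · rw [(Γ s₀).le_phiMinus_iff h0]
      exact hs2.up (isUpperSet_Ici _) (fun φ hφ => by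
        have := hφ.1
        show a - 2 * η ≤ φ - η
        linarith) hs
    · rw [(Γ s₀).phiPlus_le_iff h0, Iic_eq_compl]
      exact hs2.low (isUpperSet_Ioi _) (fun φ hφ => by
        have := hφ.2
        show ¬ (b + 2 * η < φ + η)
        linarith) hs
  have h1 : a ≤ (Γ s₀).phiMinus X := by
    refine le_of_forall_pos_le_add (fun e he => ?_)
    have := (key (e / 2) (by positivity)).1
    linarith
  have h2 : (Γ s₀).phiPlus X ≤ b := by
    refine le_of_forall_pos_le_add (fun e he => ?_)
    have := (key (e / 2) (by positivity)).2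
    linarith
  rw [(Γ s₀).le_phiMinus_iff h0] at h1
  rw [(Γ s₀).phiPlus_le_iff h0, Iic_eq_compl] at h2
  refine (Slicing.In.inter (isUpperSet_Ici _) (isUpperSet_Ioi _) h1 h2).mono ?_
  rintro x ⟨hx1, hx2⟩
  exact ⟨hx1, not_lt.1 hx2⟩

end Pool.Align
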