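import Pool.Agent.Work.MP_841263_al.Interface

/-!
# Block LIN: a torsion free object of radical class orthogonal to one point of a line is
orthogonal to the whole line
-/

open CategoryTheory CategoryTheory.Limits CategoryTheory.Pretriangulated
open scoped ZeroObject Topology
open Filter

set_option backward.isDefEq.respectTransparency false
set_option backward.defeqAttrib.useBackward true
set_option linter.unusedSectionVars false

namespace Pool.Align

open Pool.Stab Pool.Tube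

universe v u

variable {C : Type u} [Category.{v} C] [Preadditive C] [HasZeroObject C] [HasShift C ℤ]
  [∀ n : ℤ, (shiftFunctor C n).Additive] [Pretriangulated C] [IsTriangulated C] [Linear ℂ C]
  [∀ n : ℤ, (shiftFunctor C n).Linear ℂ]

/-- Morphisms from the second object of a triangle vanish if those from the first and the third
object do. -/
lemma LIN_up {X Y Q B : C} {f : X ⟶ Y} {p : Y ⟶ Q} {q : Q ⟶ X⟦(1 : ℤ)⟧}
    (hT : Triangle.mk f p q ∈ distTriang C) (hQ : ∀ g : Q ⟶ B, g = 0)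
    (hX : ∀ g : X ⟶ B, g = 0) : ∀ g : Y ⟶ B, g = 0 := by
  intro g
  obtain ⟨g', hg'⟩ := Triangle.yoneda_exact₂ _ hT g (hX _)
  rw [hg', hQ g']
  exact comp_zero

/-- Morphisms from the first object of a triangle vanish if those from the second object and
those of the next degree from the third object do. -/
lemma LIN_down {X Y Q A : C} {f : X ⟶ Y} {p : Y ⟶ Q} {q : Q ⟶ X⟦(1 : ℤ)⟧}
    (hT : Triangle.mk f p q ∈ distTriang C) (m : ℤ) (hQ : ∀ g : Q ⟶ A⟦m + 1⟧, g = 0)
    (hY : ∀ g : Y ⟶ A⟦m⟧, g = 0) : ∀ g : X ⟶ A⟦m⟧, g = 0 := by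
  intro g
  have h1 : q ≫ (shiftFunctor C (1 : ℤ)).map g = 0 := by
    have h2 := hQ (q ≫ (shiftFunctor C (1 : ℤ)).map g ≫
      (shiftFunctorAdd' C m 1 (m + 1) rfl).inv.app A)
    rw [← Category.assoc] at h2
    exact (cancel_mono ((shiftFunctorAdd' C m 1 (m + 1) rfl).inv.app A)).1
      (by rw [h2, zero_comp])
  obtain ⟨g', hg'⟩ := Triangle.yoneda_exact₃ _ (rot_of_distTriang _ hT)
    ((shiftFunctor C (1 : ℤ)).map g) h1
  have h3 : g' = 0 := by
    have h4 := hY ((shiftFunctor C (1 : ℤ)).preimage g')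
    have h5 := (shiftFunctor C (1 : ℤ)).map_preimage g'
    rw [← h5, h4]
    exact Functor.map_zero _ _ _
  apply (shiftFunctor C (1 : ℤ)).map_injective
  rw [hg', h3, comp_zero, Functor.map_zero]

/-- A predicate on the integers which is invariant under `k ↦ k + 1` is constant. -/
lemma LIN_const {P : ℤ → Prop} (hP : ∀ k, P k ↔ P (k + 1)) : ∀ k l, P k → P l := by
  have h0 : ∀ k, P 0 ↔ P k := by
    intro k
    induction k using Int.induction_on with
    | zero => exact Iff.rfl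
    | succ i ih => exact ih.trans (hP _)
    | pred i ih =>
      refine ih.trans ?_
      have h1 := hP (-(i : ℤ) - 1)
      rw [sub_add_cancel] at h1
      exact h1.symm
  intro k l hk
  exact (h0 l).1 ((h0 k).2 hk)

/-- **Block LIN.** -/
theorem p_LIN (hBDS : Stmt_BDS C) : Stmt_LIN C := by
  intro h σ t δ n α hF A hA hr i Q hQ hg hO
  obtain ⟨k₁, X₁, g₁, hX₁, hg₁⟩ := hg
  have hall := (c_ONE C h σ t δ n α hF i k₁ X₁ Q hX₁ hQ ⟨g₁, hg₁⟩).2
  have htri : ∀ (k : ℤ) (X Y : C), IsS σ t δ α i k X → IsS σ t δ α i (k + 1) Y →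
      ∃ (f : X ⟶ Y) (p : Y ⟶ Q) (q : Q ⟶ X⟦(1 : ℤ)⟧), f ≠ 0 ∧
        Triangle.mk f p q ∈ distTriang C :=
    fun k X Y hX hY => c_PEN C h σ t δ n α hF i k X Y Q hX hY hQ (hall (k + 1) Y hY)
  have hstep : ∀ m k : ℤ, (∀ X, IsS σ t δ α i k X → ∀ f : X ⟶ A⟦m⟧, f = 0) ↔
      (∀ X, IsS σ t δ α i (k + 1) X → ∀ f : X ⟶ A⟦m⟧, f = 0) := by
    intro m k
    constructor
    · intro hk Y hY
      obtain ⟨X, hX, -⟩ := c_EXI C h σ t δ n α hF i k
      obtain ⟨f, p, q, -, hT⟩ := htri k X Y hX hY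
      exact LIN_up hT (hO m) (hk X hX)
    · intro hk X hX
      obtain ⟨Y, hY, -⟩ := c_EXI C h σ t δ n α hF i (k + 1)
      obtain ⟨f, p, q, -, hT⟩ := htri k X Y hX hY
      exact LIN_down hT m (hO (m + 1)) (hk Y hY)
  have hAh : σ.sl.Heart t A := hA.1
  obtain ⟨⟨k₀, hk₀⟩, k₂, hk₂⟩ := hBDS h σ t δ n α hF i A hA
  -- degree 0
  have hz0 : ∀ k X, IsS σ t δ α i k X → ∀ f : X ⟶ A, f = 0 := by
    have h1 : ∀ X, IsS σ t δ α i k₀ X → ∀ f : X ⟶ A⟦(0 : ℤ)⟧, f = 0 := by
      intro X hX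
      refine forall_zero_of_finrank h.k3 ?_
      rw [finrank_shift_zero]
      exact finrank_of_forall_zero (hk₀ k₀ le_rfl X hX)
    intro k X hX
    have h2 := LIN_const (hstep 0) k₀ k h1 X hX
    have h3 : Module.finrank ℂ (X ⟶ A⟦(0 : ℤ)⟧) = 0 := finrank_of_forall_zero h2
    rw [finrank_shift_zero] at h3
    exact forall_zero_of_finrank h.k3 h3
  -- degree 2
  have hz2 : ∀ k X, IsS σ t δ α i k X → ∀ f : X ⟶ A⟦(2 : ℤ)⟧, f = 0 := by
    have h1 : ∀ X, IsS σ t δ α i k₂ X → ∀ f : X ⟶ A⟦(2 : ℤ)⟧, f = 0 := by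
      intro X hX
      refine forall_zero_of_finrank h.k3 ?_
      rw [← h.k3.serre A X]
      exact finrank_of_forall_zero (hk₂ k₂ le_rfl X hX)
    intro k X hX
    exact LIN_const (hstep 2) k₂ k h1 X hX
  intro k X hX m f
  have hXh : σ.sl.Heart t X := hX.1.1
  refine forall_zero_of_finrank h.k3 ?_ f
  have h0 : Module.finrank ℂ (X ⟶ A) = 0 := finrank_of_forall_zero (hz0 k X hX)
  have h2 : Module.finrank ℂ (A ⟶ X) = 0 := by
    rw [h.k3.serre A X]
    exact finrank_of_forall_zero (hz2 k X hX)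
  by_cases hm : m < 0 ∨ 2 < m
  · exact hXh.finrank_zero h.k3 hAh hm
  · push Not at hm
    obtain ⟨hm1, hm2⟩ := hm
    interval_cases m
    · rw [finrank_shift_zero]
      exact h0
    · have h3 := hXh.eulerChar h.k3 hAh
      have h4 : eulerChar X A = 0 := by
        rw [← eulerForm_cls h.k3, eulerForm_symm h.k3]
        exact hr _
      rw [h4, h0, h2] at h3
      push_cast at h3
      omega
    · exact finrank_of_forall_zero (hz2 k X hX)

end Pool.Align
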