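import Pool.Agent.Work.MP_841263_al.Interface

/-!
# Alignment, block MON: nonzero morphisms from an `IsS` object to a torsion free object

The cone of a nonzero morphism from an `IsS` object (which is atomic) to a torsion free object lies
in the heart, so the morphism is a monomorphism of the heart.
-/

open CategoryTheory CategoryTheory.Limits CategoryTheory.Pretriangulated
open scoped ZeroObject Topology
open Filter

namespace Pool.Align

open Pool.Stab Pool.Tube

universe v u

/-- MON. -/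
theorem p_MON {C : Type u} [Category.{v} C] [Preadditive C] [HasZeroObject C] [HasShift C ℤ]
    [∀ n : ℤ, (shiftFunctor C n).Additive] [Pretriangulated C] [IsTriangulated C] [Linear ℂ C]
    [∀ n : ℤ, (shiftFunctor C n).Linear ℂ] : Stmt_MON C := by
  intro h σ t δ n α hF j k Y X hY hX f hf
  have hAY := c_ATM C h σ t δ n α hF j k Y hY
  obtain ⟨K, I, Q, i', p, d, j', q, e, hT1, hT2, hK, hI, hQ, hpj⟩ :=
    Slicing.exists_KIQ hY.1.1 hX.1 f
  have hK0 : IsZero K := by
    rcases hAY.2 _ _ _ _ _ hT1 hK hI with h0 | h0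
    · exact h0
    · exfalso
      apply hf
      rw [← hpj, hX.2.2 I h0 j', comp_zero]
  have hp : IsIso p := iso_of_isZero₁ hT1 hK0
  refine ⟨Q, q, e ≫ (inv p)⟦(1 : ℤ)⟧', ?_, hQ⟩
  refine isomorphic_distinguished _ hT2 _ ?_
  let ep : Y ≅ I := asIso p
  have hep : ep.hom = p := rfl
  refine Triangle.isoMk (Triangle.mk f q (e ≫ (inv p)⟦(1 : ℤ)⟧')) (Triangle.mk j' q e)
    ep (Iso.refl X) (Iso.refl Q) ?_ ?_ ?_
  · show f ≫ 𝟙 X = ep.hom ≫ j'
    rw [Category.comp_id, hep, hpj]
  · show q ≫ 𝟙 Q = 𝟙 X ≫ q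
    rw [Category.comp_id, Category.id_comp]
  · show (e ≫ (inv p)⟦(1 : ℤ)⟧') ≫ ep.hom⟦(1 : ℤ)⟧' = 𝟙 Q ≫ e
    rw [Category.id_comp, Category.assoc, ← Functor.map_comp, hep, IsIso.inv_hom_id,
      CategoryTheory.Functor.map_id, Category.comp_id]

end Pool.Align
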