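import Pool.Agent.Work.MP_841263_al.Interface

/-! MP_841263_ag, alignment, block NEA (helper60): near stability conditions along a path. -/

set_option autoImplicit false

open CategoryTheory CategoryTheory.Limits CategoryTheory.Pretriangulated
open scoped ZeroObject Topology
open Filter

namespace Pool.Align

open Pool.Stab Pool.Tube

universe v u

variable (C : Type u) [Category.{v} C] [Preadditive C] [HasZeroObject C] [HasShift C ℤ]
  [∀ n : ℤ, (shiftFunctor C n).Additive] [Pretriangulated C] [IsTriangulated C] [Linear ℂ C]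
  [∀ n : ℤ, (shiftFunctor C n).Linear ℂ]

theorem p_NEA : Stmt_NEA C := by
  intro h Γ s₀ η hη
  have h2 := h.covData.ball_mem (Γ s₀) (ENNReal.ofReal_pos.2 hη)
  have h3 := Γ.continuous.continuousAt h2
  refine mem_of_superset h3 (fun s hs => ?_)
  have h4 : (Γ s).phaseDist (Γ s₀) ≤ ENNReal.ofReal η := le_of_lt hs
  refine ⟨StabCond.near_of_phaseDist hη.le h4, StabCond.near_of_phaseDist hη.le ?_⟩
  rw [StabCond.phaseDist_comm]
  exact h4

end Pool.Align
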