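import Pool.Agent.Work.MP_841263_al.Interface

/-!
# Block NFI: finitely many positive classes are negative for `y` (helper72)
-/

open CategoryTheory CategoryTheory.Limits CategoryTheory.Pretriangulated
open scoped ZeroObject Topology
open Filter

namespace Pool.Align

open Pool.Stab Pool.Tube

universe v u

theorem p_NFI : Stmt_LBL.{u} → Stmt_NFI.{u} := by
  intro hLBL K _ _ _ B im δ H n α S y hy hrad
  obtain ⟨m, hm⟩ := hLBL K B im δ H n α S
  rcases Nat.eq_zero_or_pos n with hn | hn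
  · subst hn
    exact Set.toFinite _
  have : Nonempty (Fin n) := ⟨⟨0, hn⟩⟩
  set r : K := ∑ l, (m l : ℤ) • α l with hr
  have him : 0 < im r := by
    rw [hr, map_sum]
    refine Finset.sum_pos (fun l _ => ?_) Finset.univ_nonempty
    rw [map_zsmul, zsmul_eq_mul]
    have h1 : (0 : ℝ) < (((m l : ℕ) : ℤ) : ℝ) := by exact_mod_cast hm.one_le l
    exact mul_pos h1 (S.pos l)
  have hyr : 0 < y r := hrad r hm.rad him
  obtain ⟨F, hF⟩ := H.psd.finite_mod_radical 2
  have hfin : (⋃ f ∈ (F : Set K), ⋃ b ∈ Set.Icc (⌊-(im f) / im r⌋ - 1) (⌈-(y f) / y r⌉ + 1),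
      {c : Fin n → ℕ | ∃ a : ℤ, ∑ i, (c i : ℤ) • α i = f + (a • δ + b • r)}).Finite := by
    refine Set.Finite.biUnion F.finite_toSet fun f _ => ?_
    refine Set.Finite.biUnion (Set.finite_Icc _ _) fun b _ => ?_
    refine Set.Subsingleton.finite ?_
    rintro c ⟨a, ha⟩ d ⟨a', ha'⟩
    have h1 : (a' - a) • δ + ∑ i, ((c i : ℤ) - (d i : ℤ)) • α i = 0 := by
      have h2 : ∑ i, ((c i : ℤ) - (d i : ℤ)) • α i =
          ∑ i, (c i : ℤ) • α i - ∑ i, (d i : ℤ) • α i := by
        rw [← Finset.sum_sub_distrib]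
        exact Finset.sum_congr rfl fun i _ => sub_smul _ _ _
      rw [h2, ha, ha', sub_smul]
      abel
    have h3 := (S.indep _ _ h1).2
    funext i
    have := h3 i
    omega
  refine hfin.subset ?_
  rintro c ⟨hc1, hc2⟩
  obtain ⟨f, hf, hfr⟩ := hF (∑ i, (c i : ℤ) • α i) (le_of_eq hc1)
  obtain ⟨a, b, hab⟩ := hm.gen _ hfr
  have hx : ∑ i, (c i : ℤ) • α i = f + (a • δ + b • r) := by
    rw [← hab]; abel
  simp only [Set.mem_iUnion]
  refine ⟨f, hf, b, ?_, a, hx⟩
  have h1 : im (∑ i, (c i : ℤ) • α i) = im f + b * im r := by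
    rw [hx, map_add, map_add, map_zsmul, map_zsmul, H.im0, smul_zero, zero_add, zsmul_eq_mul]
  have h2 : y (∑ i, (c i : ℤ) • α i) = y f + b * y r := by
    rw [hx, map_add, map_add, map_zsmul, map_zsmul, hy, smul_zero, zero_add, zsmul_eq_mul]
  have h3 : 0 ≤ im (∑ i, (c i : ℤ) • α i) := by
    rw [map_sum]
    refine Finset.sum_nonneg fun l _ => ?_
    rw [map_zsmul, zsmul_eq_mul]
    have := (S.pos l).le
    positivity
  rw [h1] at h3
  rw [h2] at hc2
  constructor
  · have h4 : -(im f) / im r ≤ b := by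
      rw [div_le_iff₀ him]; linarith
    have h5 : (⌊-(im f) / im r⌋ : ℝ) ≤ b := (Int.floor_le _).trans h4
    have h6 : ⌊-(im f) / im r⌋ ≤ b := by exact_mod_cast h5
    omega
  · have h4 : (b : ℝ) ≤ -(y f) / y r := by
      rw [le_div_iff₀ hyr]; linarith
    have h5 : (b : ℝ) ≤ ⌈-(y f) / y r⌉ := h4.trans (Int.le_ceil _)
    have h6 : b ≤ ⌈-(y f) / y r⌉ := by exact_mod_cast h5
    omega

end Pool.Align
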