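import Pool.Agent.Work.MP_841263_al.Interface

open CategoryTheory CategoryTheory.Limits CategoryTheory.Pretriangulated
open scoped ZeroObject Topology
open Filter

namespace Pool.Align

open Pool.Stab Pool.Tube

universe v u

lemma OPE_eps (a b : ℝ) : ∀ l : List ℝ, (∀ φ ∈ l, φ ∈ Set.Ioo a b) →
    ∃ η : ℝ, 0 < η ∧ ∀ φ ∈ l, a < φ - η ∧ φ + η < b := by
  intro l
  induction l with
  | nil =>
    intro _
    exact ⟨1, one_pos, by simp⟩
  | cons x l ih =>
    intro hl
    obtain ⟨η, hη, h⟩ := ih (fun φ hφ => hl φ (by simp [hφ]))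
    have hx := hl x (by simp)
    have h1 : a < x := hx.1
    have h2 : x < b := hx.2
    refine ⟨min η (min ((x - a) / 2) ((b - x) / 2)), ?_, ?_⟩
    · refine lt_min hη (lt_min ?_ ?_) <;> linarith
    · intro φ hφ
      have m1 : min η (min ((x - a) / 2) ((b - x) / 2)) ≤ η := min_le_left _ _
      have m2 : min η (min ((x - a) / 2) ((b - x) / 2)) ≤ (x - a) / 2 :=
        (min_le_right _ _).trans (min_le_left _ _)
      have m3 : min η (min ((x - a) / 2) ((b - x) / 2)) ≤ (b - x) / 2 :=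
        (min_le_right _ _).trans (min_le_right _ _)
      rcases List.mem_cons.1 hφ with rfl | hφ
      · exact ⟨by linarith, by linarith⟩
      · have h3 := h φ hφ
        exact ⟨by linarith [h3.1], by linarith [h3.2]⟩

/-- OPE: to have all phases in an open interval is an open condition. -/
theorem p_OPE {C : Type u} [Category.{v} C] [Preadditive C] [HasZeroObject C] [HasShift C ℤ]
    [∀ n : ℤ, (shiftFunctor C n).Additive] [Pretriangulated C] [IsTriangulated C] [Linear ℂ C]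
    [∀ n : ℤ, (shiftFunctor C n).Linear ℂ] : Stmt_NEA C → Stmt_OPE C := by
  intro hNEA h Γ s₀ X a b hX
  obtain ⟨l, hl, hI⟩ := hX
  obtain ⟨η, hη, hlη⟩ := OPE_eps a b l hI
  have hXI : (Γ s₀).sl.In {φ : ℝ | a < φ - η ∧ φ + η < b} X := ⟨l, hl, hlη⟩
  filter_upwards [hNEA h Γ s₀ η hη] with s hs
  have h1 : (Γ s).sl.In (Set.Ioi a) X :=
    hs.1.up (isUpperSet_Ioi a) (fun φ hφ => hφ.1) hXI
  have h2 : (Γ s).sl.In (Set.Ici b)ᶜ X :=
    hs.1.low (isUpperSet_Ici b) (fun φ hφ => not_le.2 hφ.2) hXI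
  obtain ⟨l', hl'⟩ := (Γ s).sl.exists_HN X
  exact ⟨l', hl', fun φ hφ => ⟨hl'.mem_upper (isUpperSet_Ioi a) h1 φ hφ,
    not_le.1 (hl'.mem_lower (isUpperSet_Ici b) h2 φ hφ)⟩⟩

end Pool.Align
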