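import Pool.Agent.Work.MP_841263_al.Interface

/-! # Alignment of the simple objects, block PER (helper48) -/

set_option autoImplicit false

open CategoryTheory CategoryTheory.Limits CategoryTheory.Pretriangulated
open scoped ZeroObject Topology
open Filter

namespace Pool.Align

open Pool.Stab Pool.Tube

universe v u

section aux

lemma PER_list (l : List ℝ) (φ : ℝ) (h : ∀ ψ ∈ l, φ < ψ) : ∃ m, φ < m ∧ ∀ ψ ∈ l, m ≤ ψ := by
  induction l with
  | nil => exact ⟨φ + 1, by linarith, by simp⟩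
  | cons a l ih =>
    obtain ⟨m, hm, h1⟩ := ih (fun ψ hψ => h ψ (List.mem_cons_of_mem _ hψ))
    refine ⟨min a m, lt_min (h a (by simp)) hm, ?_⟩
    intro ψ hψ
    rcases List.mem_cons.1 hψ with rfl | h2
    · exact min_le_left _ _
    · exact (min_le_right _ _).trans (h1 ψ h2)

lemma PER_cramer (z w e : ℂ) :
    (((starRingEnd ℂ) z * w).im : ℂ) * e =
      (((starRingEnd ℂ) e * w).im : ℂ) * z + (((starRingEnd ℂ) z * e).im : ℂ) * w := by
  apply Complex.ext
  · simp [Complex.mul_re, Complex.mul_im]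
    ring
  · simp [Complex.mul_re, Complex.mul_im]
    ring

lemma PER_im_exp (c s : ℝ) : ((c : ℂ) * Complex.exp (Real.pi * s * Complex.I)).im =
    c * Real.sin (Real.pi * s) := by
  have h : (Real.pi * s * Complex.I : ℂ) = ((Real.pi * s : ℝ) : ℂ) * Complex.I := by
    push_cast; ring
  rw [h, Complex.exp_mul_I, ← Complex.ofReal_cos, ← Complex.ofReal_sin]
  exact im_aux _ _ _

lemma PER_exp_mul (a b : ℝ) : Complex.exp (Real.pi * a * Complex.I) *
    Complex.exp (-(Real.pi * b * Complex.I)) = Complex.exp (Real.pi * (a - b : ℝ) * Complex.I) := by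
  rw [← Complex.exp_add]
  congr 1
  push_cast
  ring

/-- There are lattice vectors in every cone. -/
lemma PER_cone {z w : ℂ} (hzw : ((starRingEnd ℂ) z * w).im ≠ 0) {α β : ℝ} (h1 : α < β)
    (h2 : β < α + 1) : ∃ a b : ℤ,
      0 < (((a : ℂ) * z + (b : ℂ) * w) * Complex.exp (-(Real.pi * α * Complex.I))).im ∧
      (((a : ℂ) * z + (b : ℂ) * w) * Complex.exp (-(Real.pi * β * Complex.I))).im < 0 := by
  set o : ℝ := ((starRingEnd ℂ) z * w).im with ho
  set θ : ℝ := (α + β) / 2 with hθ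
  set e : ℂ := Complex.exp (Real.pi * θ * Complex.I) with he
  set x : ℝ := ((starRingEnd ℂ) e * w).im / o with hx
  set y : ℝ := ((starRingEnd ℂ) z * e).im / o with hy
  have hexy : e = (x : ℂ) * z + (y : ℂ) * w := by
    have h3 := PER_cramer z w e
    rw [← ho] at h3
    have hoC : (o : ℂ) ≠ 0 := by exact_mod_cast hzw
    have h4 : (o : ℂ) * e = (o : ℂ) * ((x : ℂ) * z + (y : ℂ) * w) := by
      rw [h3, hx, hy]
      push_cast
      field_simp
    exact mul_left_cancel₀ hoC h4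
  set s : ℝ := Real.sin (Real.pi * ((β - α) / 2)) with hs
  have hs0 : 0 < s := by
    refine Real.sin_pos_of_pos_of_lt_pi ?_ ?_
    · exact mul_pos Real.pi_pos (by linarith)
    · nlinarith [Real.pi_pos]
  obtain ⟨N, hN⟩ := exists_nat_gt ((‖z‖ + ‖w‖) / s)
  have hN' : ‖z‖ + ‖w‖ < N * s := by
    rwa [div_lt_iff₀ hs0] at hN
  set a : ℤ := ⌊(N : ℝ) * x⌋ with ha
  set b : ℤ := ⌊(N : ℝ) * y⌋ with hb
  set r : ℂ := ((Int.fract ((N : ℝ) * x) : ℝ) : ℂ) * z + ((Int.fract ((N : ℝ) * y) : ℝ) : ℂ) * w with hr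
  have hv : (a : ℂ) * z + (b : ℂ) * w = (N : ℂ) * e - r := by
    have h3 : ((N : ℝ) * x : ℝ) = (a : ℝ) + Int.fract ((N : ℝ) * x) := (Int.floor_add_fract _).symm
    have h4 : ((N : ℝ) * y : ℝ) = (b : ℝ) + Int.fract ((N : ℝ) * y) := (Int.floor_add_fract _).symm
    have h3' : (N : ℂ) * (x : ℂ) = (a : ℂ) + ((Int.fract ((N : ℝ) * x) : ℝ) : ℂ) := by exact_mod_cast congrArg (fun q : ℝ => (q : ℂ)) h3
    have h4' : (N : ℂ) * (y : ℂ) = (b : ℂ) + ((Int.fract ((N : ℝ) * y) : ℝ) : ℂ) := by exact_mod_cast congrArg (fun q : ℝ => (q : ℂ)) h4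
    rw [hexy, hr]
    linear_combination (-z) * h3' + (-w) * h4'
  have hrn : ‖r‖ ≤ ‖z‖ + ‖w‖ := by
    have key : ∀ q : ℝ, ∀ u : ℂ, ‖((Int.fract q : ℝ) : ℂ) * u‖ ≤ ‖u‖ := by
      intro q u
      rw [norm_mul, Complex.norm_real, Real.norm_eq_abs, abs_of_nonneg (Int.fract_nonneg q)]
      exact mul_le_of_le_one_left (norm_nonneg _) (Int.fract_lt_one q).le
    exact (norm_add_le _ _).trans (add_le_add (key _ _) (key _ _))
  have him : ∀ γ : ℝ, (((a : ℂ) * z + (b : ℂ) * w) * Complex.exp (-(Real.pi * γ * Complex.I))).im =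
      N * Real.sin (Real.pi * (θ - γ)) - (r * Complex.exp (-(Real.pi * γ * Complex.I))).im := by
    intro γ
    rw [hv, sub_mul, Complex.sub_im, he, mul_assoc, PER_exp_mul]
    have := PER_im_exp (N : ℝ) (θ - γ)
    rw [← this]
    norm_num
  have hrb : ∀ γ : ℝ, |(r * Complex.exp (-(Real.pi * γ * Complex.I))).im| ≤ ‖z‖ + ‖w‖ := by
    intro γ
    refine (Complex.abs_im_le_norm _).trans ?_
    rw [norm_mul, norm_exp_rot, mul_one]
    exact hrn
  refine ⟨a, b, ?_, ?_⟩
  · rw [him α]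
    have e1 : θ - α = (β - α) / 2 := by rw [hθ]; ring
    rw [e1, ← hs]
    have := (abs_le.1 (hrb α)).2
    linarith
  · rw [him β]
    have e1 : Real.pi * (θ - β) = -(Real.pi * ((β - α) / 2)) := by rw [hθ]; ring
    rw [e1, Real.sin_neg, ← hs]
    have := (abs_le.1 (hrb β)).1
    linarith

/-- A primitive lattice vector with direction in a given open interval. -/
lemma PER_dir {z w : ℂ} (hzw : ((starRingEnd ℂ) z * w).im ≠ 0) {α β : ℝ} (h1 : α < β)
    (h2 : β < α + 1) : ∃ (a b : ℤ) (s ρ : ℝ), IsCoprime a b ∧ α < s ∧ s < β ∧ 0 < ρ ∧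
      ((a : ℂ) * z + (b : ℂ) * w) * Complex.exp (-(Real.pi * s * Complex.I)) = ρ := by
  obtain ⟨a, b, h3, h4⟩ := PER_cone hzw h1 h2
  have hab : ¬ (a = 0 ∧ b = 0) := by
    rintro ⟨rfl, rfl⟩
    simp at h3
  have hg : 0 < Int.gcd a b := by
    rcases Nat.eq_zero_or_pos (Int.gcd a b) with h | h
    · exact absurd (Int.gcd_eq_zero_iff.1 h) hab
    · exact h
  obtain ⟨g, a', b', hg0, hcop, ha, hb⟩ : ∃ (g : ℕ) (a' b' : ℤ), 0 < g ∧ IsCoprime a' b' ∧
      a = a' * g ∧ b = b' * g := by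
    obtain ⟨a', b', hc, ha, hb⟩ := Int.exists_gcd_one hg
    exact ⟨Int.gcd a b, a', b', hg, Int.isCoprime_iff_gcd_eq_one.2 hc, ha, hb⟩
  set v : ℂ := (a' : ℂ) * z + (b' : ℂ) * w with hv
  have hv' : (a : ℂ) * z + (b : ℂ) * w = ((g : ℝ) : ℂ) * v := by
    rw [ha, hb, hv]
    push_cast
    ring
  have hgR : (0 : ℝ) < g := by exact_mod_cast hg0
  rw [hv', mul_assoc, Complex.im_ofReal_mul] at h3 h4
  have h3' : 0 < (v * Complex.exp (-(Real.pi * α * Complex.I))).im := pos_of_mul_pos_right h3 hgR.le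
  have h4' : (v * Complex.exp (-(Real.pi * β * Complex.I))).im < 0 := by
    by_contra hcon
    have := mul_nonneg hgR.le (not_lt.1 hcon)
    linarith
  have hcont : Continuous (fun s : ℝ => (v * Complex.exp (-(Real.pi * s * Complex.I))).im) := by
    fun_prop
  obtain ⟨s, hs, hs0⟩ : (0 : ℝ) ∈ (fun s : ℝ => (v * Complex.exp (-(Real.pi * s * Complex.I))).im) ''
      Set.Ioo α β :=
    intermediate_value_Ioo' h1.le hcont.continuousOn ⟨h4', h3'⟩
  have hs0' : (v * Complex.exp (-(Real.pi * s * Complex.I))).im = 0 := hs0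
  set ρ : ℝ := (v * Complex.exp (-(Real.pi * s * Complex.I))).re with hρ
  have hvs : v * Complex.exp (-(Real.pi * s * Complex.I)) = ρ := by
    apply Complex.ext
    · simp [hρ]
    · rw [hs0']; simp
  have hvα : v * Complex.exp (-(Real.pi * α * Complex.I)) =
      (ρ : ℂ) * Complex.exp (Real.pi * (s - α : ℝ) * Complex.I) := by
    rw [← hvs]
    have h5 : Complex.exp (-(Real.pi * α * Complex.I)) = Complex.exp (-(Real.pi * s * Complex.I)) *
        Complex.exp (Real.pi * (s - α : ℝ) * Complex.I) := by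
      rw [← Complex.exp_add]
      congr 1
      push_cast
      ring
    rw [h5]
    ring
  have hρ0 : 0 < ρ := by
    rw [hvα, PER_im_exp] at h3'
    refine pos_of_mul_pos_left h3' ?_
    refine Real.sin_nonneg_of_nonneg_of_le_pi ?_ ?_
    · exact mul_nonneg Real.pi_pos.le (by linarith [hs.1])
    · nlinarith [Real.pi_pos, hs.1, hs.2]
  exact ⟨a', b', s, ρ, hcop, hs.1, hs.2, hρ0, hvs⟩

/-- A real functional which vanishes exactly on the radical. -/
lemma PER_func {K : Type*} [AddCommGroup K] [Module.Finite ℤ K] [Module.Free ℤ K]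
    (B : K →+ K →+ ℤ) : ∃ v : K →+ ℝ, (∀ x ∈ radical B, v x = 0) ∧
      ∀ x, x ∉ radical B → v x ≠ 0 := by
  classical
  set b := Module.finBasis ℤ K with hb
  have hK : Countable K := b.equivFun.injective.countable
  let p : K → Polynomial ℝ := fun x =>
    ∑ i, Polynomial.C ((B x (b i) : ℤ) : ℝ) * Polynomial.X ^ (i : ℕ)
  have hcoeff : ∀ x (i : Fin (Module.finrank ℤ K)), (p x).coeff i = ((B x (b i) : ℤ) : ℝ) := by
    intro x i
    simp only [p, Polynomial.finsetSum_coeff, Polynomial.coeff_C_mul_X_pow]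
    rw [Finset.sum_eq_single i]
    · simp
    · intro j _ hj
      rw [if_neg]
      intro h
      exact hj (Fin.ext h.symm)
    · simp
  have hne : ∀ x, x ∉ radical B → p x ≠ 0 := by
    intro x hx h0
    apply hx
    rw [mem_radical]
    intro y
    have h1 : ∀ i, B x (b i) = 0 := by
      intro i
      have := hcoeff x i
      rw [h0] at this
      have h2 : ((B x (b i) : ℤ) : ℝ) = 0 := by rw [← this]; simp
      exact_mod_cast h2
    rw [← b.sum_repr y, map_sum]
    refine Finset.sum_eq_zero (fun i _ => ?_)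
    rw [map_zsmul, h1, smul_zero]
  have hcount : (⋃ x ∈ {x : K | x ∉ radical B}, {τ : ℝ | (p x).IsRoot τ}).Countable := by
    refine (Set.to_countable _).biUnion (fun x hx => ?_)
    exact (Polynomial.finite_setOfPred_isRoot (hne x hx)).countable
  obtain ⟨τ, hτ⟩ := (hcount.dense_compl ℝ).nonempty
  have heval : ∀ x, (p x).eval τ = ∑ i, ((B x (b i) : ℤ) : ℝ) * τ ^ (i : ℕ) := by
    intro x
    simp only [p, Polynomial.eval_finsetSum, Polynomial.eval_mul, Polynomial.eval_C,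
      Polynomial.eval_pow, Polynomial.eval_X]
  refine ⟨⟨⟨fun x => (p x).eval τ, ?_⟩, ?_⟩, ?_, ?_⟩
  · show (p 0).eval τ = 0
    rw [heval]
    simp
  · intro x y
    show (p (x + y)).eval τ = (p x).eval τ + (p y).eval τ
    rw [heval, heval, heval, ← Finset.sum_add_distrib]
    refine Finset.sum_congr rfl (fun i _ => ?_)
    rw [map_add, AddMonoidHom.add_apply]
    push_cast
    ring
  · intro x hx
    show (p x).eval τ = 0
    rw [heval]
    refine Finset.sum_eq_zero (fun i _ => ?_)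
    rw [mem_radical.1 hx (b i)]
    simp
  · intro x hx h0
    apply hτ
    exact Set.mem_biUnion (show x ∈ {x : K | x ∉ radical B} from hx) h0

end aux

variable {C : Type u} [Category.{v} C] [Preadditive C] [HasZeroObject C] [HasShift C ℤ]
  [∀ n : ℤ, (shiftFunctor C n).Additive] [Pretriangulated C] [IsTriangulated C] [Linear ℂ C]
  [∀ n : ℤ, (shiftFunctor C n).Linear ℂ]

/-- The direction and the primitive class. -/
lemma PER_delta (h : EllipticSetting C) (σ : StabCond C) {α β : ℝ} (h1 : α < β)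
    (h2 : β < α + 1) : ∃ (t : ℝ) (δ : K0 C), α < t + 1 ∧ t + 1 < β ∧
      δ ∈ radical (eulerForm h.k3) ∧ δ ≠ 0 ∧
      (∀ (x : K0 C) (n : ℤ), δ = n • x → n = 1 ∨ n = -1) ∧ σ.im t δ = 0 ∧ σ.re t δ < 0 := by
  have := h.finite
  have := h.free
  obtain ⟨r, hr, s, hs, hspan, hind⟩ := exists_basis_of_finrank_two _ h.rank
  have hli : LinearIndependent ℤ ![r, s] := by
    rw [LinearIndependent.pair_iff]
    exact hind
  have hor := orient_iff.1 ((h.mem_Xreg σ).2 r hr s hs hli)
  obtain ⟨a, b, q, ρ, hcop, h3, h4, hρ, hq⟩ := PER_dir hor h1 h2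
  set δ : K0 C := a • r + b • s with hδ
  have hZ : σ.Z δ = (a : ℂ) * σ.Z r + (b : ℂ) * σ.Z s := by
    rw [hδ, map_add, map_zsmul, map_zsmul, zsmul_eq_mul, zsmul_eq_mul]
  have hrot : σ.Z δ * Complex.exp (-(Real.pi * ((q - 1 : ℝ) : ℂ) * Complex.I)) = ((-ρ : ℝ) : ℂ) := by
    rw [hZ]
    have h5 : Complex.exp (-(Real.pi * ((q - 1 : ℝ) : ℂ) * Complex.I)) =
        Complex.exp (-(Real.pi * q * Complex.I)) * Complex.exp (Real.pi * Complex.I) := by
      rw [← Complex.exp_add]
      congr 1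
      push_cast
      ring
    rw [h5, ← mul_assoc, hq, Complex.exp_pi_mul_I]
    push_cast
    ring
  have hδr : δ ∈ radical (eulerForm h.k3) :=
    Submodule.add_mem _ (Submodule.smul_mem _ _ hr) (Submodule.smul_mem _ _ hs)
  have him : σ.im (q - 1) δ = 0 := by rw [σ.im_apply, hrot, Complex.ofReal_im]
  have hre : σ.re (q - 1) δ = -ρ := by rw [σ.re_apply, hrot, Complex.ofReal_re]
  have hne : δ ≠ 0 := by
    intro h0
    rw [h0, map_zero] at hre
    linarith
  refine ⟨q - 1, δ, by linarith, by linarith, hδr, hne, ?_, him, by rw [hre]; linarith⟩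
  intro x n hn
  have hn0 : n ≠ 0 := by
    rintro rfl
    exact hne (by rw [hn, zero_smul])
  have hx : x ∈ radical (eulerForm h.k3) := by
    rw [mem_radical]
    intro y
    have h5 := mem_radical.1 hδr y
    rw [hn, map_zsmul, AddMonoidHom.zsmul_apply, smul_eq_mul] at h5
    exact (mul_eq_zero.1 h5).resolve_left hn0
  obtain ⟨c, d, hcd⟩ := hspan x hx
  have h6 : (a - n * c) • r + (b - n * d) • s = 0 := by
    have h7 : δ - n • x = 0 := by rw [← hn, sub_self]
    rw [hδ, hcd] at h7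
    rw [← h7]
    simp only [sub_smul, mul_smul, smul_add]
    abel
  obtain ⟨h8, h9⟩ := hind _ _ h6
  have hna : n ∣ a := ⟨c, by linarith⟩
  have hnb : n ∣ b := ⟨d, by linarith⟩
  exact Int.isUnit_iff.1 (hcop.isUnit_of_dvd' hna hnb)

/-- The perturbed charge. -/
noncomputable def PER_W (σ : StabCond C) (v : K0 C →+ ℝ) (t c : ℝ) (s : ℝ) : K0 C →+ ℂ :=
  σ.Z + (AddMonoidHom.mulRight ((((s * c : ℝ) : ℂ) * Complex.I) *
    Complex.exp (Real.pi * t * Complex.I))).comp (Complex.ofRealHom.toAddMonoidHom.comp v)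

omit [IsTriangulated C] [Linear ℂ C] [∀ n : ℤ, (shiftFunctor C n).Linear ℂ] in
lemma PER_W_apply (σ : StabCond C) (v : K0 C →+ ℝ) (t c s : ℝ) (x : K0 C) :
    PER_W σ v t c s x = σ.Z x + (v x : ℂ) * ((((s * c : ℝ) : ℂ) * Complex.I) *
      Complex.exp (Real.pi * t * Complex.I)) := rfl

omit [IsTriangulated C] [Linear ℂ C] [∀ n : ℤ, (shiftFunctor C n).Linear ℂ] in
lemma PER_W_rot (σ τ : StabCond C) (v : K0 C →+ ℝ) (t c s : ℝ) (hτ : τ.Z = PER_W σ v t c s)
    (x : K0 C) : τ.im t x = σ.im t x + s * c * v x ∧ τ.re t x = σ.re t x := by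
  have h4 : Complex.exp (Real.pi * t * Complex.I) * Complex.exp (-(Real.pi * t * Complex.I)) = 1 := by
    rw [← Complex.exp_add, add_neg_cancel, Complex.exp_zero]
  have h5 : τ.Z x * Complex.exp (-(Real.pi * t * Complex.I)) =
      σ.Z x * Complex.exp (-(Real.pi * t * Complex.I)) + ((s * c * v x : ℝ) : ℂ) * Complex.I := by
    rw [hτ, PER_W_apply]
    calc (σ.Z x + (v x : ℂ) * ((((s * c : ℝ) : ℂ) * Complex.I) *
        Complex.exp (Real.pi * t * Complex.I))) * Complex.exp (-(Real.pi * t * Complex.I))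
        = σ.Z x * Complex.exp (-(Real.pi * t * Complex.I)) + (v x : ℂ) * (((s * c : ℝ) : ℂ) *
          Complex.I) * (Complex.exp (Real.pi * t * Complex.I) *
            Complex.exp (-(Real.pi * t * Complex.I))) := by ring
      _ = _ := by rw [h4]; push_cast; ring
  constructor
  · rw [τ.im_apply, h5, Complex.add_im, ← σ.im_apply]
    congr 1
    simp
  · rw [τ.re_apply, h5, Complex.add_re, ← σ.re_apply]
    simp

theorem p_PER : Stmt_LFT C → Stmt_OPE C → Stmt_PER C := by
  intro hLFT hOPE h σ φ N S hS hS0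
  have hfin := h.finite
  have hfree := h.free
  -- the gap
  have h1 : ∀ l, ∃ m : ℝ, φ < m ∧ ∀ t, t < m → φ < t → σ.sl.In (Set.Ioo t (t + 1)) (S l) := by
    intro l
    obtain ⟨L, hL, hLI⟩ := hS l
    obtain ⟨m, hm, hmL⟩ := PER_list L φ (fun ψ hψ => (hLI ψ hψ).1)
    refine ⟨m, hm, fun t ht htφ => ⟨L, hL, fun ψ hψ => ⟨lt_of_lt_of_le ht (hmL ψ hψ), ?_⟩⟩⟩
    have := (hLI ψ hψ).2
    linarith
  choose m hm hmS using h1
  obtain ⟨η, hη0, hη1, hηm⟩ : ∃ η : ℝ, 0 < η ∧ η < 1 ∧ ∀ l, φ + η < m l := by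
    have h2 : ∀ᶠ η : ℝ in 𝓝[>] 0, ∀ l, φ + η < m l := by
      rw [eventually_all]
      intro l
      have h3 : Tendsto (fun η : ℝ => φ + η) (𝓝[>] 0) (𝓝 (φ + 0)) :=
        ((continuous_const.add continuous_id).tendsto 0).mono_left nhdsWithin_le_nhds
      rw [add_zero] at h3
      exact h3.eventually (gt_mem_nhds (hm l))
    have h4 : ∀ᶠ η : ℝ in 𝓝[>] 0, η < 1 :=
      nhdsWithin_le_nhds (gt_mem_nhds one_pos)
    obtain ⟨η, h5, h6, h7⟩ := (h2.and (h4.and self_mem_nhdsWithin)).exists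
    exact ⟨η, h7, h6, h5⟩
  obtain ⟨t, δ, ht1, ht2, hδr, hδ0, hprim, him, hre⟩ :=
    PER_delta h σ (α := φ + 1) (β := φ + 1 + η) (by linarith) (by linarith)
  have hSt : ∀ l, σ.sl.In (Set.Ioo t (t + 1)) (S l) := fun l =>
    hmS l t (by linarith [hηm l]) (by linarith)
  -- the perturbation
  obtain ⟨v, hv0, hv1⟩ := PER_func (eulerForm h.k3)
  have hroot : ∀ x, eulerForm h.k3 x x = 2 → v x ≠ 0 := by
    intro x hx
    refine hv1 x (fun hr => ?_)
    have := mem_radical.1 hr x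
    omega
  obtain ⟨M, hM0, hM⟩ := Xreg.control h.psd' h.even h.rank (h.mem_Xreg σ)
  set V : K0 C →+ ℂ := Complex.ofRealHom.toAddMonoidHom.comp v with hV
  have hVx : ∀ x, ‖V x‖ = |v x| := by
    intro x
    show ‖((v x : ℝ) : ℂ)‖ = |v x|
    rw [Complex.norm_real, Real.norm_eq_abs]
  set c : ℝ := (M * nC V + 1)⁻¹ with hc
  have hMn : 0 ≤ M * nC V := mul_nonneg hM0 (nC_nonneg V)
  have hc0 : 0 < c := inv_pos.2 (by linarith)
  have hc1 : c * (M * nC V) < 1 := by
    rw [hc, inv_mul_lt_iff₀ (by linarith)]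
    linarith
  have hexp : ‖Complex.exp (Real.pi * t * Complex.I)‖ = 1 := by
    have : (Real.pi * t * Complex.I : ℂ) = ((Real.pi * t : ℝ) : ℂ) * Complex.I := by
      push_cast; ring
    rw [this, Complex.norm_exp_ofReal_mul_I]
  obtain ⟨Γ, hΓ0, hΓ⟩ := hLFT h σ (fun s => PER_W σ v t c s) (by
      intro x
      simp only [PER_W_apply]
      fun_prop) (by
      rintro s ⟨hs0, hs1⟩
      refine ⟨fun x hx h0 => ?_, fun r hr s' hs' hrs => ?_⟩
      · rw [PER_W_apply] at h0
        have h2 : σ.Z x = -((v x : ℂ) * ((((s * c : ℝ) : ℂ) * Complex.I) *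
            Complex.exp (Real.pi * t * Complex.I))) := by
          linear_combination h0
        have h3 : ‖σ.Z x‖ = |v x| * (s * c) := by
          rw [h2, norm_neg, norm_mul, norm_mul, norm_mul, hexp, Complex.norm_I,
            Complex.norm_real, Complex.norm_real, Real.norm_eq_abs, Real.norm_eq_abs,
            abs_of_nonneg (mul_nonneg hs0 hc0.le)]
          ring
        have hx0 : x ≠ 0 := by
          rintro rfl
          simp at hx
        have h4 := hM V x hx0 hx.le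
        rw [hVx, h3] at h4
        have h5 : 0 < |v x| := abs_pos.2 (hroot x hx)
        have h6 : M * nC V * (|v x| * (s * c)) = |v x| * (s * (c * (M * nC V))) := by ring
        rw [h6] at h4
        have h7 : s * (c * (M * nC V)) < 1 := by
          have h8 : 0 ≤ c * (M * nC V) := mul_nonneg hc0.le hMn
          nlinarith
        nlinarith
      · have h2 := (h.mem_Xreg σ).2 r hr s' hs' hrs
        have h3 : PER_W σ v t c s r = σ.Z r := by rw [PER_W_apply, hv0 r hr]; simp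
        have h4 : PER_W σ v t c s s' = σ.Z s' := by rw [PER_W_apply, hv0 s' hs']; simp
        rw [h3, h4]
        exact h2) (by
      ext x
      rw [PER_W_apply]
      simp)
  have hev : ∀ᶠ s in 𝓝 (0 : unitInterval), ∀ l, (Γ s).sl.In (Set.Ioo t (t + 1)) (S l) := by
    rw [eventually_all]
    intro l
    refine hOPE h Γ 0 (S l) t (t + 1) ?_
    rw [hΓ0]
    exact hSt l
  have hproj : Tendsto (Set.projIcc (0 : ℝ) 1 zero_le_one) (𝓝 0) (𝓝 0) := by
    have h2 := (continuous_projIcc (h := zero_le_one (α := ℝ))).tendsto 0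
    have h3 : Set.projIcc (0 : ℝ) 1 zero_le_one 0 = 0 := by
      rw [Set.projIcc_of_le_left _ le_rfl]
      rfl
    rwa [h3] at h2
  obtain ⟨ε, hε0, hε⟩ := Metric.eventually_nhds_iff.1 (hproj.eventually hev)
  have hcountK : Countable (K0 C) := (Module.finBasis ℤ (K0 C)).equivFun.injective.countable
  have hbad : (⋃ x ∈ {x : K0 C | eulerForm h.k3 x x = 2},
      {s : ℝ | σ.im t x + s * c * v x = 0}).Countable := by
    refine (Set.to_countable _).biUnion (fun x hx => ?_)
    refine Set.Countable.mono (s₂ := {-(σ.im t x) / (c * v x)}) ?_ (Set.countable_singleton _)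
    intro s hs
    have hs' : σ.im t x + s * c * v x = 0 := hs
    rw [Set.mem_singleton_iff, eq_div_iff (mul_ne_zero hc0.ne' (hroot x hx))]
    linarith
  obtain ⟨s, hs, hs0, hs1⟩ := (hbad.dense_compl ℝ).exists_between (lt_min hε0 one_pos)
  have hsI : s ∈ Set.Icc (0 : ℝ) 1 := ⟨hs0.le, (hs1.trans_le (min_le_right _ _)).le⟩
  have hεs := hε (y := s) (by
    rw [Real.dist_eq, sub_zero, abs_of_pos hs0]
    exact hs1.trans_le (min_le_left _ _))
  rw [Set.projIcc_of_mem _ hsI] at hεs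
  set s' : unitInterval := ⟨s, hsI⟩ with hs'
  have hZs : (Γ s').Z = PER_W σ v t c s := hΓ s'
  have hrot := PER_W_rot σ (Γ s') v t c s hZs
  refine ⟨Γ s', t, δ, ?_, ⟨hδr, hδ0, hprim, ?_, ?_, ?_⟩, fun l => (Γ s').tf_of_in (hεs l) (hS0 l)⟩
  · have hpc : PathConnectedSpace unitInterval := isPathConnected_iff_pathConnectedSpace.1
      ((convex_Icc (0 : ℝ) 1).isPathConnected ⟨0, by simp⟩)
    have h2 : Joined (0 : unitInterval) s' := PathConnectedSpace.joined 0 s'
    have h3 := h2.map Γ.continuous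
    rwa [hΓ0] at h3
  · rw [(hrot δ).1, him, hv0 δ hδr]
    simp
  · rw [(hrot δ).2]
    exact hre
  · intro x hx h0
    rw [(hrot x).1] at h0
    exact hs (Set.mem_biUnion (show x ∈ {x : K0 C | eulerForm h.k3 x x = 2} from hx) h0)

end Pool.Align
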