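import Pool.Agent.Work.MP_841263_al.Interface

/-!
# Block PTH: paths of aligned stability conditions (helper52)
-/

open CategoryTheory CategoryTheory.Limits CategoryTheory.Pretriangulated
open scoped ZeroObject Topology
open Filter

set_option backward.isDefEq.respectTransparency false
set_option backward.defeqAttrib.useBackward true
set_option linter.unusedSectionVars false

namespace Pool.Align

open Pool.Stab Pool.Tube

universe v u

lemma PTH_rot (y t : ℝ) : ((y : ℂ) * Complex.I * Complex.exp (Real.pi * t * Complex.I)) *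
    Complex.exp (-(Real.pi * t * Complex.I)) = (y : ℂ) * Complex.I := by
  rw [mul_assoc, ← Complex.exp_add, add_neg_cancel, Complex.exp_zero, mul_one]

section Lattice

variable {K : Type u} [AddCommGroup K]

lemma PTH_reg {B : K →+ K →+ ℤ} {im : K →+ ℝ} {ε : K} {n : ℕ} {β : Fin n → K} {m : Fin n → ℕ}
    (o : Fin n) (L : LatHyp B im ε) (R : SimpleRoots B im ε β) (lab : Labels B ε β m)
    (W : K →+ ℂ) (t : ℝ)
    (h1 : ∀ l, ∃ y : ℝ, 0 < y ∧ W (β l) = y * Complex.I * Complex.exp (Real.pi * t * Complex.I))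
    (h2 : (W ε * Complex.exp (-(Real.pi * t * Complex.I))).re < 0) : W ∈ Xreg B := by
  choose y hy hWy using h1
  obtain ⟨E, hE⟩ : ∃ E : ℂ, E = Complex.exp (-(Real.pi * t * Complex.I)) := ⟨_, rfl⟩
  have hE1 : ‖E‖ = 1 := by rw [hE]; exact norm_exp_rot t
  have hβ : ∀ l, W (β l) * E = y l * Complex.I := fun l => by rw [hWy, hE, PTH_rot]
  rw [← hE] at h2
  -- positive classes
  have hpos : ∀ x, B x x ≤ 2 → 0 < im x → W x ≠ 0 := by
    intro x hx hx0 hW
    obtain ⟨k, c, hkc⟩ := R.nonneg x hx hx0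
    have e1 : W x * E = (k : ℂ) * (W ε * E) + ∑ i, ((c i : ℤ) : ℂ) * (y i * Complex.I) := by
      rw [hkc, map_add, map_zsmul, map_sum, add_mul, zsmul_eq_mul, Finset.sum_mul, mul_assoc]
      congr 1
      refine Finset.sum_congr rfl (fun i _ => ?_)
      rw [map_zsmul, zsmul_eq_mul, mul_assoc, hβ]
    rw [hW, zero_mul] at e1
    have e2 := congrArg Complex.re e1
    have e3 := congrArg Complex.im e1
    have s1 : (∑ i, ((c i : ℤ) : ℂ) * (y i * Complex.I)).re = 0 := by
      rw [Complex.re_sum]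
      refine Finset.sum_eq_zero (fun i _ => ?_)
      simp
    have s2 : (∑ i, ((c i : ℤ) : ℂ) * (y i * Complex.I)).im = ∑ i, (c i : ℝ) * y i := by
      rw [Complex.im_sum]
      refine Finset.sum_congr rfl (fun i _ => ?_)
      simp
    have k1 : ((k : ℂ) * (W ε * E)).re = (k : ℝ) * (W ε * E).re := by
      rw [← Complex.ofReal_intCast, Complex.re_ofReal_mul]
    have k2 : ((k : ℂ) * (W ε * E)).im = (k : ℝ) * (W ε * E).im := by
      rw [← Complex.ofReal_intCast, Complex.im_ofReal_mul]
    rw [Complex.add_re, s1, k1, Complex.zero_re, add_zero] at e2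
    have hk : (k : ℝ) = 0 := by
      rcases mul_eq_zero.1 e2.symm with h | h
      · exact h
      · exact absurd h h2.ne
    rw [Complex.add_im, s2, k2, Complex.zero_im, hk, zero_mul, zero_add] at e3
    have hc : ∀ i, c i = 0 := by
      intro i
      have h3 := (Finset.sum_eq_zero_iff_of_nonneg
        (fun j _ => mul_nonneg (Nat.cast_nonneg (c j)) (hy j).le)).1 e3.symm i (Finset.mem_univ i)
      rcases mul_eq_zero.1 h3 with h | h
      · exact_mod_cast h
      · exact absurd h (hy i).ne'
    have hk0 : k = 0 := by exact_mod_cast hk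
    rw [hkc, hk0] at hx0
    simp [hc] at hx0
  refine ⟨fun x hx hW => ?_, ?_⟩
  · rcases lt_trichotomy (im x) 0 with h | h | h
    · refine hpos (-x) (by simp [hx]) (by rw [map_neg]; linarith) ?_
      rw [map_neg, hW, neg_zero]
    · exact L.imroot x hx h
    · exact hpos x hx.le h hW
  · intro r hr s hs hrs
    rw [orient_iff]
    intro ho
    obtain ⟨a, b, hab⟩ := lab.gen r hr
    obtain ⟨c, d, hcd⟩ := lab.gen s hs
    obtain ⟨D, hD⟩ : ∃ D : K, D = ∑ l, (m l : ℤ) • β l := ⟨_, rfl⟩
    rw [← hD] at hab hcd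
    obtain ⟨Y, hY⟩ : ∃ Y : ℝ, Y = ∑ l, (m l : ℝ) * y l := ⟨_, rfl⟩
    have hY0 : 0 < Y := by
      rw [hY]
      refine Finset.sum_pos' (fun l _ => mul_nonneg (Nat.cast_nonneg _) (hy l).le)
        ⟨o, Finset.mem_univ o, mul_pos ?_ (hy o)⟩
      have := lab.one_le o
      exact_mod_cast this
    have hDW : W D * E = Y * Complex.I := by
      rw [hD, map_sum, Finset.sum_mul, hY]
      push_cast
      rw [Finset.sum_mul]
      refine Finset.sum_congr rfl (fun l _ => ?_)
      rw [map_zsmul, zsmul_eq_mul, mul_assoc, hβ]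
      push_cast
      ring
    have hEE : (starRingEnd ℂ) E * E = 1 := by
      rw [mul_comm, Complex.mul_conj, Complex.normSq_eq_norm_sq, hE1]
      simp
    have hcore : ((starRingEnd ℂ) (W ε) * W D).im ≠ 0 := by
      have e1 : (starRingEnd ℂ) (W ε) * W D = (starRingEnd ℂ) (W ε * E) * (W D * E) := by
        rw [map_mul]
        calc (starRingEnd ℂ) (W ε) * W D = ((starRingEnd ℂ) (W ε) * W D) * 1 := by ring
          _ = ((starRingEnd ℂ) (W ε) * W D) * ((starRingEnd ℂ) E * E) := by rw [hEE]
          _ = _ := by ring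
      rw [e1, hDW]
      simp only [Complex.mul_im, Complex.conj_re, Complex.conj_im, Complex.mul_re,
        Complex.ofReal_re, Complex.ofReal_im, Complex.I_re, Complex.I_im]
      simp only [Complex.mul_re] at h2
      have := mul_ne_zero h2.ne hY0.ne'
      intro h
      apply this
      linear_combination h
    have e2 : (starRingEnd ℂ) (W r) * W s =
        ((a * c : ℤ) : ℂ) * ((starRingEnd ℂ) (W ε) * W ε) +
        ((b * d : ℤ) : ℂ) * ((starRingEnd ℂ) (W D) * W D) +
        ((a * d : ℤ) : ℂ) * ((starRingEnd ℂ) (W ε) * W D) +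
        ((b * c : ℤ) : ℂ) * ((starRingEnd ℂ) (W D) * W ε) := by
      rw [hab, hcd]
      simp only [map_add, map_zsmul, zsmul_eq_mul, map_mul, map_intCast]
      push_cast
      ring
    have hself : ∀ z : ℂ, ((starRingEnd ℂ) z * z).im = 0 := by
      intro z
      simp only [Complex.mul_im, Complex.conj_re, Complex.conj_im]
      ring
    have hswap : ((starRingEnd ℂ) (W D) * W ε).im = -((starRingEnd ℂ) (W ε) * W D).im := by
      simp only [Complex.mul_im, Complex.conj_re, Complex.conj_im]
      ring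
    have him : ∀ (k : ℤ) (z : ℂ), ((k : ℂ) * z).im = (k : ℝ) * z.im := by
      intro k z
      rw [← Complex.ofReal_intCast, Complex.im_ofReal_mul]
    rw [e2, Complex.add_im, Complex.add_im, Complex.add_im, him, him, him, him, hself, hself,
      hswap] at ho
    have e3 : ((a * d - b * c : ℤ) : ℝ) * ((starRingEnd ℂ) (W ε) * W D).im = 0 := by
      push_cast at ho ⊢
      linear_combination ho
    have hdet : a * d - b * c = 0 := by
      rcases mul_eq_zero.1 e3 with h | h
      · exact_mod_cast h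
      · exact absurd h hcore
    rw [LinearIndependent.pair_iff] at hrs
    have f1 := hrs d (-b) (by
      rw [hab, hcd]
      have : d • (a • ε + b • D) + -b • (c • ε + d • D) = (a * d - b * c) • ε := by
        module
      rw [this, hdet, zero_smul])
    have f2 := hrs c (-a) (by
      rw [hab, hcd]
      have : c • (a • ε + b • D) + -a • (c • ε + d • D) = (-(a * d - b * c)) • D := by
        module
      rw [this, hdet, neg_zero, zero_smul])
    have g1 : b = 0 := by simpa using f1.2
    have g2 : a = 0 := by simpa using f2.2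
    have hr0 : r = 0 := by rw [hab, g1, g2]; simp
    have f3 := hrs 1 0 (by rw [hr0]; simp)
    exact one_ne_zero f3.1

end Lattice

section Category

variable {C : Type u} [Category.{v} C] [Preadditive C] [HasZeroObject C] [HasShift C ℤ]
  [∀ n : ℤ, (shiftFunctor C n).Additive] [Pretriangulated C] [IsTriangulated C] [Linear ℂ C]
  [∀ n : ℤ, (shiftFunctor C n).Linear ℂ]

lemma PTH_HN (σ : StabCond C) {t θ ρ y : ℝ} (hθ : 0 < θ) (hθ1 : θ ≤ 1 / 3) (hρ : 0 < ρ)
    (hy : 2 * y * (Real.pi * θ) < ρ) (hre : ∀ x : K0 C, ∃ k : ℤ, σ.re t x = k * ρ)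
    {X : C} {l : List ℝ} (hX : HN σ.sl.P X l)
    (hl : ∀ φ ∈ l, φ ∈ Set.Ioo (t + 1 / 2 - θ) (t + 1 / 2 + θ)) (him : σ.im t (cls X) ≤ y) :
    ∀ φ ∈ l, φ = t + 1 / 2 := by
  have hpi := Real.pi_pos
  induction hX with
  | zero h => simp
  | @step X Y A φ l hX hφ hA hA0 f g k hT ih =>
    rw [cls_mk hT, map_add] at him
    have h1 := σ.im_nonneg_of_HN (t := t) hX (fun ψ hψ => by
      have := hl ψ (by simp [hψ])
      exact ⟨by linarith [this.1], by linarith [this.2]⟩)
    have h2 := hl φ (by simp)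
    have h3 := σ.im_nonneg_of_P (t := t) hA (by linarith [h2.1]) (by linarith [h2.2])
    have h4 := ih (fun ψ hψ => hl ψ (by simp [hψ])) (by linarith)
    intro ψ hψ
    rcases List.mem_cons.1 hψ with rfl | h
    · obtain ⟨hN, hr, hi⟩ := σ.polar t hA hA0
      obtain ⟨N, hNN⟩ : ∃ N : ℝ, N = ‖σ.Z (cls A)‖ := ⟨_, rfl⟩
      rw [← hNN] at hN hr hi
      obtain ⟨x, hx⟩ : ∃ x : ℝ, x = Real.pi * (ψ - t - 1 / 2) := ⟨_, rfl⟩
      have hx1 : |x| ≤ Real.pi * θ := by
        rw [hx, abs_mul, abs_of_pos hpi]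
        refine mul_le_mul_of_nonneg_left ?_ hpi.le
        rw [abs_le]
        constructor <;> linarith [h2.1, h2.2]
      have hx2 : |x| ≤ Real.pi / 3 := hx1.trans (by nlinarith)
      have e1 : Real.pi * (ψ - t) = x + Real.pi / 2 := by rw [hx]; ring
      rw [e1, Real.cos_add_pi_div_two] at hr
      rw [e1, Real.sin_add_pi_div_two] at hi
      have hcos : 1 / 2 ≤ Real.cos x := by
        rw [← Real.cos_abs x, ← Real.cos_pi_div_three]
        exact Real.cos_le_cos_of_nonneg_of_le_pi (abs_nonneg x) (by linarith) hx2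
      have hN2 : N ≤ 2 * y := by
        have h5 : N * (1 / 2) ≤ N * Real.cos x := mul_le_mul_of_nonneg_left hcos hN.le
        rw [← hi] at h5
        linarith
      obtain ⟨k', hk'⟩ := hre (cls A)
      have hsin : |Real.sin x| ≤ |x| := Real.abs_sin_le_abs
      have h6 : |σ.re t (cls A)| < ρ := by
        rw [hr, mul_neg, abs_neg, abs_mul, abs_of_pos hN]
        calc N * |Real.sin x| ≤ (2 * y) * (Real.pi * θ) :=
              mul_le_mul hN2 (hsin.trans hx1) (abs_nonneg _) (hN.le.trans hN2)
          _ < ρ := hy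
      have hk0 : k' = 0 := by
        rw [hk', abs_mul, abs_of_pos hρ] at h6
        have h7 : |(k' : ℝ)| < 1 := by
          by_contra hcon
          push Not at hcon
          nlinarith
        have h8 : |k'| < 1 := by exact_mod_cast h7
        exact Int.abs_lt_one_iff.1 h8
      rw [hk', hk0, Int.cast_zero, zero_mul] at hr
      have hs0 : Real.sin x = 0 := by
        rcases mul_eq_zero.1 hr.symm with h | h
        · exact absurd h hN.ne'
        · linarith
      have hx3 := abs_le.1 hx2
      have hx0 : x = 0 :=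
        (Real.sin_eq_zero_iff_of_lt_of_lt (by linarith) (by linarith)).1 hs0
      rw [hx] at hx0
      rcases mul_eq_zero.1 hx0 with h | h
      · exact absurd h hpi.ne'
      · linarith
    · exact h4 ψ h

end Category

variable (C : Type u) [Category.{v} C] [Preadditive C] [HasZeroObject C] [HasShift C ℤ]
  [∀ n : ℤ, (shiftFunctor C n).Additive] [Pretriangulated C] [IsTriangulated C] [Linear ℂ C]
  [∀ n : ℤ, (shiftFunctor C n).Linear ℂ]

theorem p_PTH : Stmt_LFT C → Stmt_LIM C → Stmt_OPE C → Stmt_PTH C := by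
  intro hLFT hLIM hOPE h ε n β m o S hC σ T W hT hW hA hW0 hcond
  have hpi := Real.pi_pos
  obtain ⟨im0, L, R⟩ := hC.lat
  obtain ⟨Γ, hΓ0, hΓ⟩ := hLFT h σ W hW (fun s hs =>
    PTH_reg o L R hC.lab (W s) (T s) (hcond s hs).1 (hcond s hs).2) hW0
  obtain ⟨A, hAdef⟩ : ∃ A : Set unitInterval,
      A = {s : unitInterval | ∀ l, (Γ s).sl.P (T s + 1 / 2) (S l)} := ⟨_, rfl⟩
  have hTc : Continuous (fun s : unitInterval => T s) := hT.comp continuous_subtype_val
  have hA0 : (0 : unitInterval) ∈ A := by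
    rw [hAdef]
    intro l
    rw [hΓ0]
    exact hA.P l
  have hclosed : IsClosed A := by
    refine isClosed_of_closure_subset (fun s₀ hs₀ => ?_)
    rw [hAdef]
    intro l
    rw [mem_closure_iff_frequently] at hs₀
    have h1 := hLIM h Γ s₀ (S l) (T s₀ + 1 / 2) (T s₀ + 1 / 2) (fun η hη => by
      have h2 : ∀ᶠ s : unitInterval in 𝓝 s₀, |T s - T s₀| < η := by
        have h3 := (Metric.continuous_iff'.1 hTc) s₀ η hη
        filter_upwards [h3] with s hs
        rwa [Real.dist_eq] at hs
      refine (hs₀.and_eventually h2).mono (fun s hs => ?_)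
      obtain ⟨hs1, hs2⟩ := hs
      rw [hAdef] at hs1
      rw [abs_lt] at hs2
      exact Slicing.in_of_P (hs1 l) ⟨by linarith [hs2.1], by linarith [hs2.2]⟩)
    rw [Set.Icc_self] at h1
    exact h1.P_of_singleton
  have hopen : IsOpen A := by
    rw [isOpen_iff_mem_nhds]
    intro s₀ hs₀
    have hs₀' : ∀ l, (Γ s₀).sl.P (T s₀ + 1 / 2) (S l) := by
      rw [hAdef] at hs₀
      exact hs₀
    have hmem : ∀ᶠ s : unitInterval in 𝓝 s₀, ∀ l, (Γ s).sl.P (T s + 1 / 2) (S l) := by
      rw [eventually_all]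
      intro l
      -- the continuous functions
      have cE : Continuous (fun s : unitInterval =>
          Complex.exp (-(Real.pi * (T s : ℝ) * Complex.I))) := by
        have : Continuous (fun s : unitInterval => ((T s : ℝ) : ℂ)) :=
          Complex.continuous_ofReal.comp hTc
        fun_prop
      have cx : ∀ x, Continuous (fun s : unitInterval =>
          W s x * Complex.exp (-(Real.pi * (T s : ℝ) * Complex.I))) := fun x =>
        ((hW x).comp continuous_subtype_val).mul cE
      obtain ⟨fI, hfI⟩ : ∃ fI : unitInterval → ℝ, fI = fun s : unitInterval =>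
          (W s (β l) * Complex.exp (-(Real.pi * (T s : ℝ) * Complex.I))).im := ⟨_, rfl⟩
      obtain ⟨fR, hfR⟩ : ∃ fR : unitInterval → ℝ, fR = fun s : unitInterval =>
          -(W s ε * Complex.exp (-(Real.pi * (T s : ℝ) * Complex.I))).re := ⟨_, rfl⟩
      have cI : Continuous fI := by rw [hfI]; exact Complex.continuous_im.comp (cx (β l))
      have cR : Continuous fR := by rw [hfR]; exact (Complex.continuous_re.comp (cx ε)).neg
      have hR0 : ∀ s, 0 < fR s := fun s => by
        have := (hcond s s.2).2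
        rw [hfR]
        show 0 < -(W s ε * Complex.exp (-(Real.pi * (T s : ℝ) * Complex.I))).re
        linarith
      have hI0 : 0 < fI s₀ := by
        obtain ⟨y, hy, hy1⟩ := (hcond s₀ s₀.2).1 l
        rw [hfI]
        show 0 < (W s₀ (β l) * Complex.exp (-(Real.pi * (T s₀ : ℝ) * Complex.I))).im
        rw [hy1, PTH_rot]
        simpa using hy
      obtain ⟨M, hM⟩ : ∃ M : ℝ, M = fI s₀ + 1 := ⟨_, rfl⟩
      have hM0 : 0 < M := by linarith
      obtain ⟨θ, hθ⟩ : ∃ θ : ℝ, θ = min (1 / 3) (fR s₀ / 2 / (4 * M * Real.pi)) := ⟨_, rfl⟩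
      have hθ0 : 0 < θ := by
        rw [hθ]
        have := hR0 s₀
        exact lt_min (by norm_num) (by positivity)
      have hθ1 : θ ≤ 1 / 3 := by rw [hθ]; exact min_le_left _ _
      have hθ2 : 2 * M * (Real.pi * θ) < fR s₀ / 2 := by
        have h1 : θ ≤ fR s₀ / 2 / (4 * M * Real.pi) := by rw [hθ]; exact min_le_right _ _
        have h2 := hR0 s₀
        have h3 : (0 : ℝ) < 4 * M * Real.pi := by positivity
        rw [le_div_iff₀ h3] at h1
        nlinarith
      have e1 : ∀ᶠ s : unitInterval in 𝓝 s₀, fI s < M :=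
        (cI.tendsto s₀).eventually (gt_mem_nhds (by linarith))
      have e2 : ∀ᶠ s : unitInterval in 𝓝 s₀, fR s₀ / 2 < fR s :=
        (cR.tendsto s₀).eventually (lt_mem_nhds (by linarith [hR0 s₀]))
      have e3 : ∀ᶠ s : unitInterval in 𝓝 s₀, |T s - T s₀| < θ / 2 := by
        have h3 := (Metric.continuous_iff'.1 hTc) s₀ (θ / 2) (by positivity)
        filter_upwards [h3] with s hs
        rwa [Real.dist_eq] at hs
      have e4 := hOPE h Γ s₀ (S l) (T s₀ + 1 / 2 - θ / 2) (T s₀ + 1 / 2 + θ / 2)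
        (Slicing.in_of_P (hs₀' l) ⟨by linarith, by linarith⟩)
      filter_upwards [e1, e2, e3, e4] with s g1 g2 g3 g4
      rw [abs_lt] at g3
      obtain ⟨ls, hls, hls2⟩ := g4
      refine Slicing.In.P_of_singleton ⟨ls, hls, fun φ hφ => ?_⟩
      refine PTH_HN (Γ s) (t := T s) (θ := θ) (ρ := fR s) (y := M) hθ0 hθ1 (hR0 s)
        (by linarith) ?_ hls ?_ ?_ φ hφ
      · intro x
        obtain ⟨k, c, hkc⟩ := R.span x
        refine ⟨-k, ?_⟩
        rw [StabCond.re_apply, hΓ s, hkc, map_add, map_zsmul, map_sum, add_mul, zsmul_eq_mul,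
          Finset.sum_mul, mul_assoc, Complex.add_re, Complex.re_sum]
        rw [Finset.sum_eq_zero (fun i _ => ?_), add_zero, ← Complex.ofReal_intCast,
          Complex.re_ofReal_mul]
        · rw [hfR]
          push_cast
          ring
        · obtain ⟨y, -, hy1⟩ := (hcond s s.2).1 i
          rw [map_zsmul, zsmul_eq_mul, mul_assoc, hy1, PTH_rot]
          simp
      · intro ψ hψ
        have := hls2 ψ hψ
        exact ⟨by linarith [this.1], by linarith [this.2]⟩
      · rw [StabCond.im_apply, hΓ s, hC.cls_eq l]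
        have := g1
        rw [hfI] at this
        exact this.le
    rw [hAdef]
    exact hmem
  have huniv : A = Set.univ := IsClopen.eq_univ ⟨hclosed, hopen⟩ ⟨0, hA0⟩
  have h1 : (1 : unitInterval) ∈ A := by rw [huniv]; trivial
  rw [hAdef] at h1
  refine ⟨Γ 1, ⟨⟨Γ, hΓ0, rfl⟩⟩, hΓ 1, ⟨fun l => ?_, ?_⟩⟩
  · have := h1 l
    rwa [show ((1 : unitInterval) : ℝ) = 1 from rfl] at this
  · have h2 := (hcond 1 ⟨zero_le_one, le_rfl⟩).2
    rw [StabCond.re_apply, hΓ 1]
    exact h2

end Pool.Align
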