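import Pool.Agent.Work.MP_841263_al.Interface

/-!
# Block REF: simple roots of the chamber on the other side of a wall (helper32)
-/

open CategoryTheory CategoryTheory.Limits CategoryTheory.Pretriangulated
open scoped ZeroObject Topology
open Filter

namespace Pool.Align

open Pool.Stab Pool.Tube

universe v u

section

variable {K : Type u} [AddCommGroup K]

/-- The reflection in `b`. -/
def REF_s (B : K →+ K →+ ℤ) (b : K) : K →+ K where
  toFun x := x - B x b • b
  map_zero' := by simp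
  map_add' x y := by
    rw [map_add, AddMonoidHom.add_apply, add_smul]
    abel

theorem REF_s_apply (B : K →+ K →+ ℤ) (b x : K) : REF_s B b x = x - B x b • b := rfl

theorem REF_B {B : K →+ K →+ ℤ} (hB : IsPSD B) {b : K} (hb : B b b = 2) (x y : K) :
    B (REF_s B b x) (REF_s B b y) = B x y := by
  rw [REF_s_apply, REF_s_apply]
  simp only [map_sub, AddMonoidHom.sub_apply, map_zsmul, AddMonoidHom.coe_smul, Pi.smul_apply,
    smul_eq_mul]
  rw [hb, hB.symm b y]
  ring

theorem REF_ss {B : K →+ K →+ ℤ} {b : K} (hb : B b b = 2) (x : K) :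
    REF_s B b (REF_s B b x) = x := by
  have h : B (REF_s B b x) b = - B x b := by
    rw [REF_s_apply]
    simp only [map_sub, AddMonoidHom.sub_apply, map_zsmul, AddMonoidHom.coe_smul, Pi.smul_apply,
      smul_eq_mul]
    rw [hb]
    ring
  rw [REF_s_apply B b (REF_s B b x), h, REF_s_apply]
  rw [neg_smul]
  abel

theorem REF_comb (B : K →+ K →+ ℤ) (δ : K) {n : ℕ} (α : Fin n → K) (j : Fin n)
    (hδ : B δ (α j) = 0) (k : ℤ) (c : Fin n → ℤ) :
    REF_s B (α j) (k • δ + ∑ i, c i • α i) = k • δ + ∑ i, c i • refl B α j i := by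
  have h1 : REF_s B (α j) δ = δ := by
    rw [REF_s_apply, hδ]
    simp
  rw [map_add, map_zsmul, h1, map_sum]
  congr 1
  refine Finset.sum_congr rfl fun i _ => ?_
  rw [map_zsmul]
  rfl

/-- Sign coherence. -/
theorem REF_coh [Module.Finite ℤ K] [Module.Free ℤ K] {B : K →+ K →+ ℤ} {im : K →+ ℝ} {δ : K}
    (H : LatHyp B im δ) {n : ℕ} {α : Fin n → K} (S : SimpleRoots B im δ α) {x : K}
    (hx : B x x ≤ 2) :
    (∃ (k : ℤ) (c : Fin n → ℕ), x = k • δ + ∑ i, (c i : ℤ) • α i) ∨
      ∃ (k : ℤ) (c : Fin n → ℕ), x = k • δ + ∑ i, (-(c i : ℤ)) • α i := by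
  rcases lt_trichotomy (im x) 0 with h | h | h
  · right
    have hx' : B (-x) (-x) ≤ 2 := by
      simpa using hx
    obtain ⟨k, c, hc⟩ := S.nonneg (-x) hx' (by rw [map_neg]; linarith)
    refine ⟨-k, c, ?_⟩
    have : x = -(k • δ + ∑ i, (c i : ℤ) • α i) := by rw [← hc, neg_neg]
    rw [this, neg_add, neg_smul, ← Finset.sum_neg_distrib]
    congr 1
    refine Finset.sum_congr rfl fun i _ => ?_
    rw [neg_smul]
  · left
    obtain ⟨m, hm⟩ := H.even x
    have h1 := H.psd.nonneg x
    have h2 : B x x = 0 := by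
      have h3 : B x x ≠ 2 := fun h3 => H.imroot x h3 h
      omega
    obtain ⟨k, hk⟩ := H.imrad x (H.psd.mem_radical_of_self h2) h
    refine ⟨k, fun _ => 0, ?_⟩
    simpa using hk
  · left
    exact S.nonneg x hx h

end

theorem p_REF : Stmt_REF.{u} := by
  intro K _ _ _ B im δ H n α S j im' h0 hp
  have hb : B (α j) (α j) = 2 := S.norm j
  have hrad : ∀ r ∈ radical B, REF_s B (α j) r = r := by
    intro r hr
    rw [REF_s_apply, mem_radical.1 hr (α j)]
    simp
  have hδ : B δ (α j) = 0 := mem_radical.1 H.rad (α j)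
  have hs : ∀ i, REF_s B (α j) (α i) = refl B α j i := fun i => rfl
  refine ⟨⟨?_, ?_, hp, ?_, ?_, ?_⟩, ?_⟩
  · intro i
    rw [← hs i, REF_B H.psd hb]
    exact S.norm i
  · intro i i' hii
    rw [← hs i, ← hs i', REF_B H.psd hb]
    exact S.off i i' hii
  · intro x
    obtain ⟨k, c, hc⟩ := S.span (REF_s B (α j) x)
    refine ⟨k, c, ?_⟩
    rw [← REF_comb B δ α j hδ, ← hc, REF_ss hb]
  · intro k c hc
    refine S.indep k c ?_
    rw [← REF_comb B δ α j hδ] at hc
    have := congrArg (REF_s B (α j)) hc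
    rwa [REF_ss hb, map_zero] at this
  · intro x hx hx0
    have hy : B (REF_s B (α j) x) (REF_s B (α j) x) ≤ 2 := by
      rw [REF_B H.psd hb]; exact hx
    rcases REF_coh H S hy with ⟨k, c, hc⟩ | ⟨k, c, hc⟩
    · refine ⟨k, c, ?_⟩
      rw [← REF_comb B δ α j hδ, ← hc, REF_ss hb]
    · exfalso
      have hx1 : x = k • δ + ∑ i, (-(c i : ℤ)) • refl B α j i := by
        rw [← REF_comb B δ α j hδ k (fun i => -(c i : ℤ)), ← hc, REF_ss hb]
      rw [hx1, map_add, map_zsmul, h0, smul_zero, zero_add, map_sum] at hx0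
      refine absurd hx0 (not_lt.2 (Finset.sum_nonpos fun i _ => ?_))
      rw [map_zsmul, zsmul_eq_mul]
      have h1 := (hp i).le
      have h2 : (0 : ℝ) ≤ ((c i : ℕ) : ℝ) := Nat.cast_nonneg _
      push_cast
      nlinarith
  · intro r hr hr0
    have hrr : B r r ≤ 2 := by
      rw [mem_radical.1 hr r]; norm_num
    obtain ⟨k, c, hc⟩ := S.nonneg r hrr hr0
    have h1 : r = k • δ + ∑ i, (c i : ℤ) • refl B α j i := by
      rw [← REF_comb B δ α j hδ k (fun i => (c i : ℤ)), ← hc, hrad r hr]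
    have hex : ∃ i, c i ≠ 0 := by
      by_contra hcon
      push Not at hcon
      rw [hc, map_add, map_zsmul, H.im0, smul_zero, zero_add, map_sum, Finset.sum_eq_zero] at hr0
      · exact lt_irrefl _ hr0
      · intro i _
        rw [hcon i]
        simp
    rw [h1, map_add, map_zsmul, h0, smul_zero, zero_add, map_sum]
    obtain ⟨i, hi⟩ := hex
    refine Finset.sum_pos' (fun l _ => ?_) ⟨i, Finset.mem_univ i, ?_⟩
    · rw [map_zsmul, zsmul_eq_mul]
      have := (hp l).le
      positivity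
    · rw [map_zsmul, zsmul_eq_mul]
      have h2 : 0 < c i := Nat.pos_of_ne_zero hi
      have h3 : (0 : ℝ) < (((c i : ℕ) : ℤ) : ℝ) := by exact_mod_cast h2
      exact mul_pos h3 (hp i)

end Pool.Align
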