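import Pool.Agent.Work.MP_841263_al.Interface

/-! # Alignment, block SAM (helper20) -/

set_option autoImplicit false

open CategoryTheory CategoryTheory.Limits CategoryTheory.Pretriangulated
open scoped ZeroObject Topology
open Filter

namespace Pool.Align

open Pool.Stab Pool.Tube

universe v u

section

variable {C : Type u} [Category.{v} C] [Preadditive C] [HasZeroObject C] [HasShift C ℤ]
  [∀ n : ℤ, (shiftFunctor C n).Additive] [Pretriangulated C] [IsTriangulated C] [Linear ℂ C]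
  [∀ n : ℤ, (shiftFunctor C n).Linear ℂ]

omit [IsTriangulated C] [Linear ℂ C] [∀ n : ℤ, (shiftFunctor C n).Linear ℂ] in
theorem SAM_iso {σ : StabCond C} {t : ℝ} {δ : K0 C} {n : ℕ} {α : Fin n → K0 C} {i : Fin n}
    {k : ℤ} {X Y : C} (e : X ≅ Y) (hX : IsS σ t δ α i k X) : IsS σ t δ α i k Y := by
  refine ⟨⟨hX.1.1.iso e, fun hz => hX.1.2.1 (hz.of_iso e), ?_⟩, by rw [← cls_iso e]; exact hX.2⟩
  intro T hT f
  have h1 := hX.1.2.2 T hT (f ≫ e.inv)
  rw [← Category.comp_id f, ← e.inv_hom_id, ← Category.assoc, h1, zero_comp]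

theorem SAM_conn (J : Set unitInterval) (hJ : J.OrdConnected) (s s' : unitInterval)
    (hs : s ∈ J) (hs' : s' ∈ J) :
    ∃ L : Set unitInterval, _root_.IsPreconnected L ∧ L ⊆ J ∧ s ∈ L ∧ s' ∈ L := by
  refine ⟨Set.projIcc (0 : ℝ) 1 zero_le_one '' Set.uIcc (s : ℝ) (s' : ℝ),
    isPreconnected_uIcc.image _ continuous_projIcc.continuousOn, ?_,
    ⟨s, Set.left_mem_uIcc, Set.projIcc_val _ s⟩, ⟨s', Set.right_mem_uIcc, Set.projIcc_val _ s'⟩⟩
  rintro _ ⟨r, hr, rfl⟩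
  have h1 : Set.uIcc s s' ⊆ J := hJ.uIcc_subset hs hs'
  apply h1
  rw [Set.mem_uIcc] at hr ⊢
  rcases hr with ⟨h2, h3⟩ | ⟨h2, h3⟩
  · left
    have h4 := Set.monotone_projIcc (zero_le_one (α := ℝ)) h2
    have h5 := Set.monotone_projIcc (zero_le_one (α := ℝ)) h3
    rw [Set.projIcc_val] at h4 h5
    exact ⟨h4, h5⟩
  · right
    have h4 := Set.monotone_projIcc (zero_le_one (α := ℝ)) h2
    have h5 := Set.monotone_projIcc (zero_le_one (α := ℝ)) h3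
    rw [Set.projIcc_val] at h4 h5
    exact ⟨h4, h5⟩

theorem p_SAM : Stmt_SAM C := by
  intro h Γ t δ n α J hJ hF s hs s' hs' i k X hX
  by_contra hn
  obtain ⟨L, hL, hLJ, hsL, hs'L⟩ := SAM_conn J hJ s s' hs hs'
  have hopen : ∀ (Y : C) (s₀ : unitInterval), s₀ ∈ J → IsS (Γ s₀) t δ α i k Y →
      {s | IsS (Γ s) t δ α i k Y} ∈ 𝓝 s₀ := by
    intro Y s₀ hs₀ hY
    obtain ⟨ε, hε, h1⟩ := c_OPN C h (Γ s₀) t δ n α (hF s₀ hs₀) i k Y hY
    have h2 := h.covData.ball_mem (Γ s₀) hε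
    have h3 := Γ.continuous.continuousAt h2
    exact mem_of_superset h3 (fun s hs => h1 (Γ s) hs)
  have hU : ∀ s₀ ∈ L, IsS (Γ s₀) t δ α i k X → s₀ ∈ interior {s | IsS (Γ s) t δ α i k X} :=
    fun s₀ h0 h1 => mem_interior_iff_mem_nhds.2 (hopen X s₀ (hLJ h0) h1)
  have hV : ∀ s₀ ∈ L, ¬ IsS (Γ s₀) t δ α i k X →
      s₀ ∈ interior {s | s ∈ J → ¬ IsS (Γ s) t δ α i k X} := by
    intro s₀ h0 h1
    obtain ⟨Y, hY, -⟩ := c_EXI C h (Γ s₀) t δ n α (hF s₀ (hLJ h0)) i k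
    refine mem_interior_iff_mem_nhds.2 (mem_of_superset (hopen Y s₀ (hLJ h0) hY) ?_)
    intro r hr hrJ hrX
    obtain ⟨e⟩ := c_UNI C h (Γ r) t δ n α (hF r hrJ) i k Y X hr hrX
    exact h1 (SAM_iso e hY)
  obtain ⟨r, hrL, hrU, hrV⟩ := hL _ _ isOpen_interior isOpen_interior
    (fun r hr => by
      by_cases h1 : IsS (Γ r) t δ α i k X
      · exact Or.inl (hU r hr h1)
      · exact Or.inr (hV r hr h1))
    ⟨s, hsL, hU s hsL hX⟩ ⟨s', hs'L, hV s' hs'L hn⟩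
  have h1 := interior_subset hrU
  have h2 := interior_subset hrV
  exact h2 (hLJ hrL) h1

end

end Pool.Align
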