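import Pool.Agent.Work.MP_841263_al.Top
import Pool.Agent.Work.MP_841263_o.Sign

/-!
# Block SEM: the objects `S l` form a connected semibrick
-/

open CategoryTheory CategoryTheory.Limits CategoryTheory.Pretriangulated
open scoped ZeroObject Topology
open Filter

namespace Pool.Align

open Pool.Stab Pool.Tube

universe v u

/-- Orthogonal objects have Euler characteristic zero. -/
theorem SEM_euler {C : Type u} [Category.{v} C] [Preadditive C] [HasZeroObject C] [HasShift C ℤ]
    [∀ n : ℤ, (shiftFunctor C n).Additive] [Pretriangulated C] [Linear ℂ C] {X Y : C}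
    (h : Orth X Y) : eulerChar X Y = 0 := by
  rw [eulerChar]
  refine finsum_eq_zero_of_forall_eq_zero fun n => ?_
  have h1 : Subsingleton (X ⟶ Y⟦n⟧) := ⟨fun a b => by rw [h n a, h n b]⟩
  have h2 : Module.finrank ℂ (X ⟶ Y⟦n⟧) = 0 := Module.finrank_zero_of_subsingleton
  rw [h2]
  simp

/-- Connectedness of the diagram of the simple roots. -/
theorem SEM_irred {K : Type u} [AddCommGroup K] {B : K →+ K →+ ℤ} {im : K →+ ℝ} {ε : K} {n : ℕ}
    {β : Fin n → K} (H : LatHyp B im ε) (R : SimpleRoots B im ε β) (I : Set (Fin n))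
    (h : ∀ i ∈ I, ∀ j ∉ I, B (β i) (β j) = 0) : I = ∅ ∨ I = Set.univ := by
  let P : AddSubgroup K := AddSubgroup.closure (insert ε (β '' I))
  let Q : AddSubgroup K := AddSubgroup.closure (insert ε (β '' Iᶜ))
  have hεP : ε ∈ P := AddSubgroup.subset_closure (Set.mem_insert _ _)
  have hβP : ∀ i ∈ I, β i ∈ P := fun i hi => AddSubgroup.subset_closure (Or.inr ⟨i, hi, rfl⟩)
  have hβQ : ∀ i ∉ I, β i ∈ Q := fun i hi => AddSubgroup.subset_closure (Or.inr ⟨i, hi, rfl⟩)
  have hsup : P ⊔ Q = ⊤ := by
    rw [eq_top_iff]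
    intro x _
    obtain ⟨k, c, rfl⟩ := R.span x
    refine add_mem (zsmul_mem (AddSubgroup.mem_sup_left hεP) k)
      (sum_mem fun i _ => zsmul_mem ?_ _)
    by_cases hi : i ∈ I
    · exact AddSubgroup.mem_sup_left (hβP i hi)
    · exact AddSubgroup.mem_sup_right (hβQ i hi)
  have hgen : ∀ x ∈ insert ε (β '' I), ∀ y ∈ insert ε (β '' Iᶜ), B x y = 0 := by
    rintro x (rfl | ⟨i, hi, rfl⟩) y hy
    · exact H.rad y
    · rcases hy with rfl | ⟨j, hj, rfl⟩
      · rw [H.psd.symm]
        exact H.rad _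
      · exact h i hi j hj
  have horth : ∀ x ∈ P, ∀ y ∈ Q, B x y = 0 := by
    intro x hx y hy
    induction hx using AddSubgroup.closure_induction with
    | mem x hx =>
      induction hy using AddSubgroup.closure_induction with
      | mem y hy => exact hgen x hx y hy
      | zero => simp
      | add a b _ _ ha hb => rw [map_add, ha, hb, add_zero]
      | neg a _ ha => rw [map_neg, ha, neg_zero]
    | zero => simp
    | add a b _ _ ha hb => rw [map_add, AddMonoidHom.add_apply, ha, hb, add_zero]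
    | neg a _ ha => rw [map_neg, AddMonoidHom.neg_apply, ha, neg_zero]
  rcases H.irred P Q hsup horth with h1 | h1
  · left
    rw [Set.eq_empty_iff_forall_notMem]
    intro i hi
    have h2 := h1 _ (hβP i hi) (β i)
    rw [R.norm i] at h2
    norm_num at h2
  · right
    rw [Set.eq_univ_iff_forall]
    intro i
    by_contra hi
    have h2 := h1 _ (hβQ i hi) (β i)
    rw [R.norm i] at h2
    norm_num at h2

theorem p_SEM {C : Type u} [Category.{v} C] [Preadditive C] [HasZeroObject C] [HasShift C ℤ]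
    [∀ n : ℤ, (shiftFunctor C n).Additive] [Pretriangulated C] [IsTriangulated C] [Linear ℂ C]
    [∀ n : ℤ, (shiftFunctor C n).Linear ℂ] : Stmt_SEM C := by
  intro h ε n β m o S hS τ hτ
  obtain ⟨im, H, R⟩ := hS.lat
  refine ⟨Fin.pos o, hS.sph, hS.orth, ?_, ?_⟩
  · intro l l' p hp f
    have h1 := hτ.P l
    have h2 := Slicing.P_shift (hτ.P l') p
    refine τ.sl.hom_zero ?_ h1 h2 f
    have h3 : (p : ℝ) < 0 := by exact_mod_cast hp
    linarith
  · intro I hI
    refine SEM_irred H R I fun i hi j hj => ?_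
    rw [← hS.cls_eq i, ← hS.cls_eq j, eulerForm_cls]
    exact SEM_euler (hI i hi j hj)

end Pool.Align
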