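import Pool.Agent.Work.MP_841263_al.Interface

/-! # Alignment: block SIM -/

namespace Pool.Align

open Pool.Stab Pool.Tube

universe v u

theorem p_SIM : Stmt_SIM.{u} := by
  classical
  intro K _ B y δ hpsd hδ hy0 n α hα β hβ
  obtain ⟨hβ2, hβpos, hβs⟩ := hβ
  obtain ⟨k, c, hc⟩ := hα.nonneg β hβ2.le hβpos
  -- a positive term of the norm
  have hBδ : B β δ = 0 := by rw [hpsd.symm]; exact hδ β
  have h2 : ∑ i, (c i : ℤ) * B β (α i) = 2 := by
    rw [← hβ2]
    conv_rhs => rw [show B β β = B β (k • δ + ∑ i, (c i : ℤ) • α i) from by rw [← hc]]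
    rw [map_add, map_zsmul, hBδ, smul_zero, zero_add, map_sum]
    exact Finset.sum_congr rfl fun i _ => by rw [map_zsmul, smul_eq_mul]
  have hex : ∃ i, 0 < (c i : ℤ) * B β (α i) := by
    by_contra hcon
    push Not at hcon
    have := Finset.sum_nonpos fun i (_ : i ∈ Finset.univ) => hcon i
    omega
  obtain ⟨i, hi⟩ := hex
  have hci : 1 ≤ c i := by
    rcases Nat.eq_zero_or_pos (c i) with h | h
    · rw [h] at hi
      simp at hi
    · exact h
  have hBi : 1 ≤ B β (α i) := by
    have h1 : (0 : ℤ) < c i := by exact_mod_cast hci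
    have h3 := (pos_iff_pos_of_mul_pos hi).1 h1
    omega
  -- the difference
  have hx : B (β - α i) (β - α i) ≤ 2 := by
    have h1 := hα.norm i
    have h3 : B (α i) β = B β (α i) := hpsd.symm _ _
    simp only [map_sub, AddMonoidHom.sub_apply]
    rw [hβ2, h1, h3]
    omega
  have hdec : β - α i = k • δ + ∑ j, (((if j = i then c j - 1 else c j : ℕ) : ℕ) : ℤ) • α j := by
    have e : ∑ j, (c j : ℤ) • α j =
        ∑ j, (((if j = i then c j - 1 else c j : ℕ) : ℕ) : ℤ) • α j + α i := by
      have e1 : ∀ j, (c j : ℤ) • α j =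
          (((if j = i then c j - 1 else c j : ℕ) : ℕ) : ℤ) • α j +
            (if j = i then α i else 0) := by
        intro j
        by_cases hj : j = i
        · subst hj
          rw [if_pos rfl, if_pos rfl, Nat.cast_sub hci, sub_smul]
          simp
        · rw [if_neg hj, if_neg hj, add_zero]
      rw [Finset.sum_congr rfl fun j _ => e1 j, Finset.sum_add_distrib,
        Finset.sum_ite_eq' Finset.univ i, if_pos (Finset.mem_univ i)]
    rw [hc, e]
    abel
  have hyx : y (β - α i) =
      ∑ j, (((if j = i then c j - 1 else c j : ℕ) : ℕ) : ℝ) * y (α j) := by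
    rw [hdec, map_add, map_zsmul, hy0, smul_zero, zero_add, map_sum]
    refine Finset.sum_congr rfl fun j _ => ?_
    rw [map_zsmul, zsmul_eq_mul]
    push_cast
    rfl
  have hterm : ∀ j ∈ Finset.univ,
      0 ≤ (((if j = i then c j - 1 else c j : ℕ) : ℕ) : ℝ) * y (α j) := fun j _ =>
    mul_nonneg (Nat.cast_nonneg _) (hα.pos j).le
  have hge : 0 ≤ y (β - α i) := by
    rw [hyx]
    exact Finset.sum_nonneg hterm
  rcases hge.lt_or_eq with h | h
  · exact absurd (sub_add_cancel β (α i)).symm
      (hβs (β - α i) (α i) hx (hα.norm i).le h (hα.pos i))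
  · rw [hyx] at h
    have hz := (Finset.sum_eq_zero_iff_of_nonneg hterm).1 h.symm
    refine ⟨i, k, ?_⟩
    have e : ∑ j, (((if j = i then c j - 1 else c j : ℕ) : ℕ) : ℤ) • α j = 0 := by
      refine Finset.sum_eq_zero fun j hj => ?_
      have h1 := hz j hj
      have h3 : (((if j = i then c j - 1 else c j : ℕ) : ℕ) : ℝ) = 0 :=
        (mul_eq_zero.1 h1).resolve_right (hα.pos j).ne'
      have h4 : (if j = i then c j - 1 else c j : ℕ) = 0 := by exact_mod_cast h3
      rw [h4]
      simp
    rw [e, add_zero] at hdec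
    rw [← hdec]
    abel

end Pool.Align
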