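import Pool.Agent.Work.MP_841263_al.Interface
import Pool.Agent.Work.MP_841263_r3.Block

/-!
# Block SMT: objects of the phase of the aligned objects which do not see them
-/

set_option autoImplicit false

open CategoryTheory CategoryTheory.Limits CategoryTheory.Pretriangulated
open scoped ZeroObject Topology
open Filter

namespace Pool.Align

open Pool.Stab Pool.Tube

universe v u

/-- Sign principle. -/
lemma SMT_sign {K : Type u} [AddCommGroup K] {B : K →+ K →+ ℤ} {im : K →+ ℝ} {ε : K} {n : ℕ}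
    {β : Fin n → K} (hL : LatHyp B im ε) (hR : SimpleRoots B im ε β) {x : K} (hx : B x x ≤ 2) :
    ∃ (k : ℤ) (c : Fin n → ℕ), x = k • ε + ∑ l, (c l : ℤ) • β l ∨
      x = k • ε - ∑ l, (c l : ℤ) • β l := by
  rcases lt_trichotomy (im x) 0 with h | h | h
  · obtain ⟨k, c, hc⟩ := hR.nonneg (-x) (by simpa using hx) (by rw [map_neg]; linarith)
    refine ⟨-k, c, Or.inr ?_⟩
    rw [neg_smul, ← neg_add', ← hc, neg_neg]
  · have h0 : B x x = 0 := by
      have h1 := hL.psd.nonneg x
      obtain ⟨r, hr⟩ := hL.even x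
      have h2 : B x x ≠ 2 := fun h3 => hL.imroot x h3 h
      omega
    obtain ⟨k, hk⟩ := hL.imrad x (hL.psd.mem_radical_of_self h0) h
    exact ⟨k, fun _ => 0, Or.inl (by simpa using hk)⟩
  · obtain ⟨k, c, hc⟩ := hR.nonneg x hx h
    exact ⟨k, c, Or.inl hc⟩

variable {C : Type u} [Category.{v} C] [Preadditive C] [HasZeroObject C] [HasShift C ℤ]
  [∀ n : ℤ, (shiftFunctor C n).Additive] [Pretriangulated C]

/-- Coordinates of the objects of phase `t + 1/2`. -/
lemma SMT_polar (σ : StabCond C) (t : ℝ) {X : C} (hX : σ.sl.P (t + 1 / 2) X) :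
    σ.re t (cls X) = 0 ∧ (¬ IsZero X → 0 < σ.im t (cls X)) := by
  have e : Real.pi * (t + 1 / 2 - t) = Real.pi / 2 := by ring
  by_cases h0 : IsZero X
  · exact ⟨by rw [cls_of_isZero h0, map_zero], fun h => absurd h0 h⟩
  · obtain ⟨h1, h2, h3⟩ := σ.polar t hX h0
    rw [e, Real.cos_pi_div_two, mul_zero] at h2
    rw [e, Real.sin_pi_div_two, mul_one] at h3
    exact ⟨h2, fun _ => by rw [h3]; exact h1⟩

variable [IsTriangulated C] [Linear ℂ C] [∀ n : ℤ, (shiftFunctor C n).Linear ℂ]

/-- The classes of the objects of phase `t + 1/2` are nonnegative combinations of the `β l`. -/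
lemma SMT_cls {h : EllipticSetting C} {ε : K0 C} {n : ℕ} {β : Fin n → K0 C} {m : Fin n → ℕ}
    {o : Fin n} {S : Fin n → C} (hC : Coll h ε β m o S) {τ : StabCond C} {t : ℝ}
    (hA : Aligned t ε S τ) {X : C} (hX : τ.sl.P (t + 1 / 2) X) :
    ∃ c : Fin n → ℕ, cls X = ∑ l, (c l : ℤ) • β l := by
  have hfinK : Module.Finite ℤ (K0 C) := h.finite
  have hfreeK : Module.Free ℤ (K0 C) := h.free
  obtain ⟨im, hL, hR⟩ := hC.lat
  have hβ : ∀ l, τ.re t (β l) = 0 ∧ 0 ≤ τ.im t (β l) := by
    intro l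
    rw [← hC.cls_eq l]
    obtain ⟨h1, h2⟩ := SMT_polar τ t (hA.P l)
    refine ⟨h1, ?_⟩
    by_cases h0 : IsZero (S l)
    · rw [cls_of_isZero h0, map_zero]
    · exact (h2 h0).le
  have hg := τ.gen_stable hX
  clear hX
  induction hg with
  | zero h0 => exact ⟨fun _ => 0, by rw [cls_of_isZero h0]; simp⟩
  | @of U hU =>
    have hUs : SimpleIn (τ.sl.Heart (t - 1 / 2)) U := by
      refine StabCond.Stable.simple ?_
      have e : t - 1 / 2 + 1 = t + 1 / 2 := by ring
      rw [e]
      exact hU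
    have hnorm : eulerForm h.k3 (cls U) (cls U) ≤ 2 := by
      rw [eulerForm_cls]
      exact hUs.eulerChar_self_le h.k3
    obtain ⟨h1, h2⟩ := SMT_polar τ t hU.1
    have h3 := h2 hU.2.1
    have hsum : ∀ c : Fin n → ℕ, τ.re t (∑ l, (c l : ℤ) • β l) = 0 ∧
        0 ≤ τ.im t (∑ l, (c l : ℤ) • β l) := by
      intro c
      rw [map_sum, map_sum]
      refine ⟨Finset.sum_eq_zero fun l _ => by rw [map_zsmul, (hβ l).1, smul_zero],
        Finset.sum_nonneg fun l _ => ?_⟩
      rw [map_zsmul, zsmul_eq_mul]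
      exact mul_nonneg (by positivity) (hβ l).2
    obtain ⟨k, c, hc⟩ := SMT_sign hL hR hnorm
    have hk : k = 0 := by
      have h4 : (k : ℝ) * τ.re t ε = 0 := by
        rcases hc with hc | hc
        · rw [hc, map_add, (hsum c).1, map_zsmul, zsmul_eq_mul, add_zero] at h1
          exact h1
        · rw [hc, map_sub, (hsum c).1, map_zsmul, zsmul_eq_mul, sub_zero] at h1
          exact h1
      rcases mul_eq_zero.1 h4 with h5 | h5
      · exact_mod_cast h5
      · exact absurd h5 hA.re.ne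
    subst hk
    rcases hc with hc | hc
    · exact ⟨c, by rw [hc, zero_smul, zero_add]⟩
    · exfalso
      rw [hc, zero_smul, zero_sub, map_neg] at h3
      linarith [(hsum c).2]
  | ext hT _ _ h1 h2 =>
    obtain ⟨c, hc⟩ := h1
    obtain ⟨d, hd⟩ := h2
    refine ⟨fun l => c l + d l, ?_⟩
    rw [cls_mk hT, hc, hd, ← Finset.sum_add_distrib]
    refine Finset.sum_congr rfl fun l _ => ?_
    rw [Nat.cast_add, add_smul]

/-- The aligned objects are stable. -/
lemma SMT_stable {h : EllipticSetting C} {ε : K0 C} {n : ℕ} {β : Fin n → K0 C} {m : Fin n → ℕ}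
    {o : Fin n} {S : Fin n → C} (hC : Coll h ε β m o S) {τ : StabCond C} {t : ℝ}
    (hA : Aligned t ε S τ) (l : Fin n) : τ.Stable (t + 1 / 2) (S l) := by
  obtain ⟨im, hL, hR⟩ := hC.lat
  have hne : ¬ IsZero (S l) := by
    intro h0
    have h1 := hR.norm l
    rw [← hC.cls_eq l, cls_of_isZero h0, map_zero] at h1
    norm_num at h1
  refine ⟨hA.P l, hne, ?_⟩
  intro Y Z f g w hT hY hZ
  by_contra hcon
  push Not at hcon
  obtain ⟨c, hc⟩ := SMT_cls hC hA hY
  obtain ⟨d, hd⟩ := SMT_cls hC hA hZ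
  have hsum : (0 : ℤ) • ε + ∑ l', ((c l' : ℤ) + (d l' : ℤ) - if l' = l then 1 else 0) • β l' =
      0 := by
    have h1 := cls_mk hT
    rw [hC.cls_eq l, hc, hd] at h1
    simp only [sub_smul, add_smul, Finset.sum_sub_distrib, Finset.sum_add_distrib, ite_smul,
      one_smul, zero_smul, Finset.sum_ite_eq', Finset.mem_univ, if_true, zero_add]
    rw [← h1, sub_self]
  have hall := (hR.indep _ _ hsum).2
  have h1 := (SMT_polar τ t hY).2 hcon.1
  have h2 := (SMT_polar τ t hZ).2 hcon.2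
  have key : (∀ l', c l' = 0) ∨ (∀ l', d l' = 0) := by
    have h3 := hall l
    rw [if_pos rfl] at h3
    have h4 : c l = 0 ∨ d l = 0 := by omega
    rcases h4 with h4 | h4
    · left
      intro l'
      by_cases e : l' = l
      · rw [e]; exact h4
      · have h5 := hall l'
        rw [if_neg e] at h5
        omega
    · right
      intro l'
      by_cases e : l' = l
      · rw [e]; exact h4
      · have h5 := hall l'
        rw [if_neg e] at h5
        omega
  rcases key with h3 | h3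
  · rw [hc] at h1
    simp [h3] at h1
  · rw [hd] at h2
    simp [h3] at h2

/-- The other stable objects have their class in the radical and are orthogonal to the aligned
objects. -/
lemma SMT_other {h : EllipticSetting C} {ε : K0 C} {n : ℕ} {β : Fin n → K0 C} {m : Fin n → ℕ}
    {o : Fin n} {S : Fin n → C} (hC : Coll h ε β m o S) {τ : StabCond C} {t : ℝ}
    (hA : Aligned t ε S τ) {U : C} (hU : τ.Stable (t + 1 / 2) U)
    (hne : ∀ l, ¬ Nonempty (U ≅ S l)) :
    cls U ∈ radical (eulerForm h.k3) ∧ ∀ l, Orth (S l) U ∧ Orth U (S l) := by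
  obtain ⟨im, hL, hR⟩ := hC.lat
  have e : t - 1 / 2 + 1 = t + 1 / 2 := by ring
  have hUs : SimpleIn (τ.sl.Heart (t - 1 / 2)) U := StabCond.Stable.simple (by rw [e]; exact hU)
  have hSs : ∀ l, SimpleIn (τ.sl.Heart (t - 1 / 2)) (S l) := fun l =>
    StabCond.Stable.simple (by rw [e]; exact SMT_stable hC hA l)
  have hz1 : ∀ l (f : S l ⟶ U), f = 0 := by
    intro l f
    by_contra hf
    have := (hSs l).isIso hUs f hf
    exact hne l ⟨(asIso f).symm⟩
  have hz2 : ∀ l (f : U ⟶ S l), f = 0 := by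
    intro l f
    by_contra hf
    have := hUs.isIso (hSs l) f hf
    exact hne l ⟨asIso f⟩
  have hle : ∀ l, eulerForm h.k3 (β l) (cls U) ≤ 0 := by
    intro l
    rw [← hC.cls_eq l, eulerForm_cls, (hSs l).1.eulerChar h.k3 hUs.1,
      finrank_of_forall_zero (hz1 l), finrank_of_forall_zero (hz2 l)]
    push_cast
    have : (0 : ℤ) ≤ (Module.finrank ℂ (S l ⟶ U⟦(1 : ℤ)⟧) : ℤ) := by positivity
    linarith
  have hcls : ∀ l, cls (S l) ≠ cls U := by
    intro l hcl
    have h1 := hle l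
    rw [← hcl, hC.cls_eq l, hR.norm l] at h1
    norm_num at h1
  have hrad : cls U ∈ radical (eulerForm h.k3) := by
    obtain ⟨c, hc⟩ := SMT_cls hC hA hU.1
    refine hL.psd.mem_radical_of_self (le_antisymm ?_ (hL.psd.nonneg _))
    have h1 : ∀ y, eulerForm h.k3 (cls U) y = ∑ l, (c l : ℤ) * eulerForm h.k3 (β l) y := by
      intro y
      rw [hc, map_sum, AddMonoidHom.finsetSum_apply]
      refine Finset.sum_congr rfl fun l _ => ?_
      rw [map_zsmul, AddMonoidHom.coe_smul, Pi.smul_apply, smul_eq_mul]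
    rw [h1]
    refine Finset.sum_nonpos fun l _ => ?_
    have h2 := hle l
    have h3 : (0 : ℤ) ≤ (c l : ℤ) := by positivity
    exact mul_nonpos_of_nonneg_of_nonpos h3 h2
  refine ⟨hrad, fun l => ⟨?_, ?_⟩⟩
  · refine fun n f => (hSs l).orth h.k3 hUs (hcls l) ?_ n f
    rw [← eulerForm_cls h.k3, eulerForm_symm]
    exact hrad _
  · refine fun n f => hUs.orth h.k3 (hSs l) (hcls l).symm ?_ n f
    rw [← eulerForm_cls h.k3]
    exact hrad _

/-- Block SMT. -/
theorem p_SMT : Stmt_SMT C := by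
  intro h ε n β m o S hC τ t hA A hP hcase
  have hfc := Pool.Blk.finCat_P h τ (t + 1 / 2)
  rcases hcase with h0 | h0
  · refine hfc.induction (P := fun X => (∀ l (f : S l ⟶ X), f = 0) →
      cls X ∈ radical (eulerForm h.k3)) ?_ A hP h0
    intro E hE _ h2 h0
    by_cases hz : IsZero E
    · rw [cls_of_isZero hz]
      exact zero_mem _
    obtain ⟨U, Q, s, q, hsq, hU⟩ := hfc.exists_simple_sub E hE hz
    have hs0 : s ≠ 0 := fun h3 => hU.2.1 (isZero_of_SES_left hfc.toAbSub hsq h3)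
    have hne : ∀ l, ¬ Nonempty (U ≅ S l) := by
      rintro l ⟨e⟩
      apply hs0
      rw [← cancel_epi e.inv, h0 l (e.inv ≫ s), comp_zero]
    obtain ⟨hrad, horth⟩ := SMT_other hC hA hU hne
    rw [hsq.cls_eq]
    refine add_mem hrad (h2 U Q s q hsq hU.2.1 ?_)
    intro l f
    obtain ⟨-, -, -, d, hT⟩ := hsq
    exact hom_zero_of_ext₂ (rot_mk hT) (h0 l) ((horth l).1 1) f
  · refine hfc.induction (P := fun X => (∀ l (f : X ⟶ S l), f = 0) →
      cls X ∈ radical (eulerForm h.k3)) ?_ A hP h0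
    intro E hE h1 _ h0
    by_cases hz : IsZero E
    · rw [cls_of_isZero hz]
      exact zero_mem _
    obtain ⟨K, U, k, s, hks, hU⟩ := hfc.exists_simple_quot E hE hz
    have hs0 : s ≠ 0 := fun h3 => hU.2.1 (isZero_of_SES_right hfc.toAbSub hks h3)
    have hne : ∀ l, ¬ Nonempty (U ≅ S l) := by
      rintro l ⟨e⟩
      apply hs0
      rw [← cancel_mono e.hom, h0 l (s ≫ e.hom), zero_comp]
    obtain ⟨hrad, horth⟩ := SMT_other hC hA hU hne
    rw [hks.cls_eq]
    refine add_mem (h1 K U k s hks hU.2.1 ?_) hrad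
    intro l f
    obtain ⟨-, -, -, d, hT⟩ := hks
    obtain ⟨a, c, hinv⟩ := exists_invrot hT
    refine hom_zero_of_ext₁ hinv ?_ (h0 l) f
    intro b
    have h3 := orth_shift (horth l).2 (-1) 0 (b ≫ ((shiftFunctorZero C ℤ).app (S l)).inv)
    rw [← cancel_mono ((shiftFunctorZero C ℤ).app (S l)).inv, h3, zero_comp]

end Pool.Align
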