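import Pool.Agent.Work.MP_841263_al.Interface

/-! Existence of a special vertex (block SPE, MP_841263_al). -/

set_option autoImplicit false

namespace Pool.Align

open Pool.Stab Pool.Tube

universe v u

/-- The radical is saturated. -/
lemma SPE_sat {K : Type u} [AddCommGroup K] (B : K →+ K →+ ℤ) {n : ℤ} (hn : n ≠ 0) {x : K}
    (h : n • x ∈ radical B) : x ∈ radical B := by
  intro y
  have h1 : B (n • x) y = 0 := h y
  rw [map_zsmul, AddMonoidHom.coe_smul, Pi.smul_apply, smul_eq_mul] at h1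
  exact (mul_eq_zero.1 h1).resolve_left hn

/-- A retraction onto the radical. -/
lemma SPE_retr {K : Type u} [AddCommGroup K] [Module.Finite ℤ K] (B : K →+ K →+ ℤ) :
    Module.Free ℤ (K ⧸ radical B) ∧
      ∃ p : K →ₗ[ℤ] radical B, ∀ x : radical B, p x = x := by
  have htf : Module.IsTorsionFree ℤ (K ⧸ radical B) := by
    rw [Module.isTorsionFree_iff_smul_eq_zero]
    intro n x hx
    obtain ⟨x, rfl⟩ := Submodule.Quotient.mk_surjective _ x
    rw [← Submodule.Quotient.mk_smul, Submodule.Quotient.mk_eq_zero] at hx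
    rw [Submodule.Quotient.mk_eq_zero]
    by_cases hn : n = 0
    · exact Or.inl hn
    · exact Or.inr (SPE_sat B hn hx)
  have hfree : Module.Free ℤ (K ⧸ radical B) := inferInstance
  refine ⟨hfree, ?_⟩
  obtain ⟨s, hs⟩ := Module.projective_lifting_property (radical B).mkQ
    (LinearMap.id : (K ⧸ radical B) →ₗ[ℤ] (K ⧸ radical B)) (Submodule.mkQ_surjective _)
  have hs' : ∀ q, (radical B).mkQ (s q) = q := fun q => LinearMap.congr_fun hs q
  refine ⟨LinearMap.codRestrict (radical B) (LinearMap.id - s ∘ₗ (radical B).mkQ) ?_, ?_⟩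
  · intro x
    rw [← Submodule.Quotient.mk_eq_zero (radical B)]
    change (radical B).mkQ (x - s ((radical B).mkQ x)) = 0
    rw [map_sub, hs', sub_self]
  · intro x
    apply Subtype.ext
    rw [LinearMap.codRestrict_apply]
    change (x : K) - s ((radical B).mkQ x) = x
    have : (radical B).mkQ (x : K) = 0 := (Submodule.Quotient.mk_eq_zero _).2 x.2
    rw [this, map_zero, sub_zero]

/-- An injective functional with real values. -/
lemma SPE_inj (M : Type u) [AddCommGroup M] [Module.Finite ℤ M] [Module.Free ℤ M] :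
    ∃ z : M →ₗ[ℤ] ℝ, ∀ x, z x = 0 → x = 0 := by
  classical
  have hr : ((Module.finrank ℤ M : ℕ) : Cardinal) ≤ Module.rank ℚ ℝ := by
    rw [Real.rank_rat_real]
    exact (Cardinal.natCast_lt_aleph0 (n := Module.finrank ℤ M)).le.trans
      Cardinal.aleph0_le_continuum
  obtain ⟨s, hs, hli⟩ := le_rank_iff_exists_linearIndependent_finset.1 hr
  let b := Module.finBasis ℤ M
  let e : Fin (Module.finrank ℤ M) ≃ s := (Fintype.equivFinOfCardEq (by simpa using hs)).symm
  have hli' : LinearIndependent ℤ (fun i : Fin (Module.finrank ℤ M) => ((e i : s) : ℝ)) := by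
    have h1 : LinearIndependent ℚ (fun i : Fin (Module.finrank ℤ M) => ((e i : s) : ℝ)) :=
      hli.comp e e.injective
    exact h1.restrict_scalars (by
      intro a c h
      simpa using h)
  refine ⟨b.constr ℤ (fun i => ((e i : s) : ℝ)), ?_⟩
  intro x hx
  rw [Module.Basis.constr_apply_fintype] at hx
  have h2 := Fintype.linearIndependent_iff.1 hli' (fun i => b.equivFun x i) hx
  have h3 : b.equivFun x = 0 := by
    funext i
    exact h2 i
  simpa using h3

/-- A functional on the radical with kernel generated by `δ`. -/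
lemma SPE_coord {K : Type u} [AddCommGroup K] (R : Submodule ℤ K) [Module.Finite ℤ R]
    [Module.Free ℤ R] (hR : Module.finrank ℤ R = 2) {δ : K} (hδ : δ ∈ R)
    (prim : ∀ (x : K) (n : ℤ), δ = n • x → n = 1 ∨ n = -1) :
    ∃ (a : R →ₗ[ℤ] ℤ) (r₀ : R), a r₀ = 1 ∧ a ⟨δ, hδ⟩ = 0 ∧
      ∀ r : R, a r = 0 → ∃ k : ℤ, (r : K) = k • δ := by
  let b : Module.Basis (Fin 2) ℤ R := Module.finBasisOfFinrankEq ℤ R hR
  set d : R := ⟨δ, hδ⟩ with hd
  have hrepr : ∀ r : R, r = b.coord 0 r • b 0 + b.coord 1 r • b 1 := by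
    intro r
    have h := b.sum_repr r
    rw [Fin.sum_univ_two] at h
    simpa using h.symm
  have hco : IsCoprime (b.coord 0 d) (b.coord 1 d) := by
    rw [Int.isCoprime_iff_gcd_eq_one]
    set g : ℤ := (Int.gcd (b.coord 0 d) (b.coord 1 d) : ℤ) with hg
    obtain ⟨p, hp⟩ : g ∣ b.coord 0 d := Int.gcd_dvd_left _ _
    obtain ⟨q, hq⟩ : g ∣ b.coord 1 d := Int.gcd_dvd_right _ _
    have h1 : d = g • (p • b 0 + q • b 1) := by
      rw [smul_add, smul_smul, smul_smul, ← hp, ← hq]
      exact hrepr d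
    have h2 : δ = g • ((p • b 0 + q • b 1 : R) : K) := by
      have := congrArg Subtype.val h1
      simpa [hd] using this
    rcases prim _ _ h2 with h | h
    · rw [hg] at h
      exact_mod_cast h
    · have : 0 ≤ g := by positivity
      omega
  obtain ⟨u, v, huv⟩ := hco
  have hb00 : b.coord 0 (b 0) = 1 := by simp
  have hb01 : b.coord 0 (b 1) = 0 := by simp
  have hb10 : b.coord 1 (b 0) = 0 := by simp
  have hb11 : b.coord 1 (b 1) = 1 := by simp
  refine ⟨b.coord 0 d • b.coord 1 - b.coord 1 d • b.coord 0, u • b 1 - v • b 0, ?_, ?_, ?_⟩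
  · simp only [LinearMap.sub_apply, LinearMap.smul_apply, map_sub, map_smul, hb00, hb01, hb10,
      hb11, smul_eq_mul]
    linear_combination huv
  · simp only [LinearMap.sub_apply, LinearMap.smul_apply, smul_eq_mul]
    ring
  · intro r hr
    simp only [LinearMap.sub_apply, LinearMap.smul_apply, smul_eq_mul] at hr
    refine ⟨u * b.coord 0 r + v * b.coord 1 r, ?_⟩
    have h1 : r = (u * b.coord 0 r + v * b.coord 1 r) • d := by
      conv_lhs => rw [hrepr r]
      conv_rhs => rw [hrepr d]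
      rw [smul_add, smul_smul, smul_smul]
      have e0 : b.coord 0 r = (u * b.coord 0 r + v * b.coord 1 r) * b.coord 0 d := by
        linear_combination (-(b.coord 0 r)) * huv - v * hr
      have e1 : b.coord 1 r = (u * b.coord 0 r + v * b.coord 1 r) * b.coord 1 d := by
        linear_combination (-(b.coord 1 r)) * huv + u * hr
      rw [← e0, ← e1]
    have := congrArg Subtype.val h1
    simpa [hd] using this

theorem p_SPE : Stmt_SPE.{u} := by
  classical
  intro K _ _ _ B im δ h
  set R := radical B with hRdef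
  have hRfin : Module.Finite ℤ R := inferInstance
  have hRfree : Module.Free ℤ R := inferInstance
  obtain ⟨hfree, p, hp⟩ := SPE_retr B
  obtain ⟨a₀, s₀, ha₀, haδ₀, hker₀⟩ := SPE_coord R h.rank h.rad h.prim
  -- choose the sign
  obtain ⟨a, r₀, har, haδ, hker, himr⟩ : ∃ (a : R →ₗ[ℤ] ℤ) (r₀ : R), a r₀ = 1 ∧
      a ⟨δ, h.rad⟩ = 0 ∧ (∀ r : R, a r = 0 → ∃ k : ℤ, (r : K) = k • δ) ∧ 0 < im r₀ := by
    have hne : im (s₀ : K) ≠ 0 := by
      intro h0
      obtain ⟨k, hk⟩ := h.imrad _ s₀.2 h0
      have h1 : s₀ = k • (⟨δ, h.rad⟩ : R) := Subtype.ext (by simpa using hk)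
      rw [h1, map_smul, haδ₀, smul_zero] at ha₀
      exact zero_ne_one ha₀
    rcases lt_or_gt_of_ne hne with h0 | h0
    · refine ⟨-a₀, -s₀, by simpa using ha₀, by simpa using haδ₀, ?_, by simpa using h0⟩
      intro r hr
      exact hker₀ r (by simpa using hr)
    · exact ⟨a₀, s₀, ha₀, haδ₀, hker₀, h0⟩
  -- the imaginary part on the radical
  have him : ∀ r : R, im (r : K) = a r * im (r₀ : K) := by
    intro r
    have h1 : a (r - a r • r₀) = 0 := by
      rw [map_sub, map_smul, har, smul_eq_mul, mul_one, sub_self]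
    obtain ⟨k, hk⟩ := hker _ h1
    have h2 : (r : K) = a r • (r₀ : K) + k • δ := by
      rw [← hk]; simp
    have h3 := congrArg im h2
    rw [map_add, map_zsmul, map_zsmul, h.im0, smul_zero, add_zero, zsmul_eq_mul] at h3
    exact h3
  -- the functional
  obtain ⟨z, hz⟩ := SPE_inj (K ⧸ radical B)
  obtain ⟨F, hF⟩ := h.psd.finite_mod_radical 2
  set S : ℝ := ∑ f ∈ F, |z ((radical B).mkQ f)| with hS
  have hS0 : 0 ≤ S := Finset.sum_nonneg fun f _ => abs_nonneg _
  set c : ℝ := 1 / (1 + S) with hc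
  have hc0 : 0 < c := by positivity
  have hsmall : ∀ x, B x x ≤ 2 → |c * z ((radical B).mkQ x)| < 1 := by
    intro x hx
    obtain ⟨f, hf, hxf⟩ := hF x hx
    have h1 : (radical B).mkQ x = (radical B).mkQ f := by
      have : (radical B).mkQ (x - f) = 0 := (Submodule.Quotient.mk_eq_zero _).2 hxf
      rw [map_sub, sub_eq_zero] at this
      exact this
    have h2 : |z ((radical B).mkQ f)| ≤ S :=
      Finset.single_le_sum (f := fun f => |z ((radical B).mkQ f)|) (fun i _ => abs_nonneg _) hf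
    rw [h1, abs_mul, abs_of_pos hc0, hc, one_div, inv_mul_lt_iff₀ (by positivity)]
    linarith
  let y : K →+ ℝ :=
    { toFun := fun x => (a (p x) : ℝ) + c * z ((radical B).mkQ x)
      map_zero' := by simp
      map_add' := by
        intro x x'
        simp only [map_add, Int.cast_add]
        ring }
  have hy : ∀ x, y x = (a (p x) : ℝ) + c * z ((radical B).mkQ x) := fun x => rfl
  have hyR : ∀ r (hr : r ∈ radical B), y r = (a ⟨r, hr⟩ : ℝ) := by
    intro r hr
    have h1 : (radical B).mkQ r = 0 := (Submodule.Quotient.mk_eq_zero _).2 hr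
    have h2 : p r = ⟨r, hr⟩ := hp ⟨r, hr⟩
    rw [hy, h1, h2, map_zero, mul_zero, add_zero]
  refine ⟨y, ?_, ?_, ?_⟩
  · refine ⟨h.psd, h.even, h.rank, h.rank4, h.irred, h.gen, h.rad, h.ne, h.prim, ?_, ?_, ?_⟩
    · rw [hyR δ h.rad, haδ, Int.cast_zero]
    · intro α hα h0
      have h1 := hsmall α hα.le
      rw [hy] at h0
      by_cases h2 : a (p α) = 0
      · rw [h2, Int.cast_zero, zero_add, mul_eq_zero] at h0
        have h3 := hz _ (h0.resolve_left hc0.ne')
        have h4 : α ∈ radical B := (Submodule.Quotient.mk_eq_zero _).1 h3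
        have h5 : B α α = 0 := h4 α
        omega
      · have h3 : (1 : ℝ) ≤ |(a (p α) : ℝ)| := by
          have : (1 : ℤ) ≤ |a (p α)| := Int.one_le_abs h2
          exact_mod_cast this
        have h4 : (a (p α) : ℝ) = -(c * z ((radical B).mkQ α)) := by linarith
        rw [h4, abs_neg] at h3
        linarith
    · intro r hr h0
      rw [hyR r hr] at h0
      exact hker ⟨r, hr⟩ (by exact_mod_cast h0)
  · intro r hr h0
    rw [hyR r hr]
    have h1 := him ⟨r, hr⟩
    rw [h1] at h0
    exact (pos_iff_pos_of_mul_pos h0).2 himr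
  · intro n α m hα hm
    have hA : ∀ l, 0 ≤ a (p (α l)) := by
      intro l
      have h1 := hα.pos l
      have h2 := hsmall (α l) (hα.norm l).le
      rw [hy] at h1
      have h3 := (abs_lt.1 h2).2
      have h4 : (-1 : ℝ) < (a (p (α l)) : ℝ) := by linarith
      have h5 : (-1 : ℤ) < a (p (α l)) := by exact_mod_cast h4
      omega
    obtain ⟨k, q, hkq⟩ := hm.gen (r₀ : K) r₀.2
    have h1 : a (p (r₀ : K)) = 1 := by rw [hp r₀, har]
    have h2 : a (p δ) = 0 := by
      have : p δ = ⟨δ, h.rad⟩ := hp ⟨δ, h.rad⟩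
      rw [this, haδ]
    have h3 : q * ∑ l, (m l : ℤ) * a (p (α l)) = 1 := by
      rw [hkq] at h1
      simpa [map_add, map_sum, h2] using h1
    have h4 : 0 ≤ ∑ l, (m l : ℤ) * a (p (α l)) :=
      Finset.sum_nonneg fun l _ => mul_nonneg (by positivity) (hA l)
    have h5 : ∑ l, (m l : ℤ) * a (p (α l)) = 1 := by
      rcases Int.isUnit_iff.1 (isUnit_iff_dvd_one.2 (Dvd.intro_left _ h3)) with h6 | h6
      · exact h6
      · omega
    obtain ⟨o, -, ho⟩ := Finset.exists_ne_zero_of_sum_ne_zero (by rw [h5]; exact one_ne_zero)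
    have h6 : (m o : ℤ) * a (p (α o)) ≤ 1 := by
      rw [← h5]
      exact Finset.single_le_sum (f := fun l => (m l : ℤ) * a (p (α l)))
        (fun l _ => mul_nonneg (by positivity) (hA l)) (Finset.mem_univ o)
    have h7 : 0 ≤ (m o : ℤ) * a (p (α o)) := mul_nonneg (by positivity) (hA o)
    have h8 : (m o : ℤ) * a (p (α o)) = 1 := by omega
    refine ⟨o, ?_⟩
    rcases Int.isUnit_iff.1 (isUnit_iff_dvd_one.2 (Dvd.intro _ h8)) with h9 | h9
    · exact_mod_cast h9
    · omega

end Pool.Align
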