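import Mathlib
import Pool.Agent.Work.MP_841263_al.Interface

/-! # Alignment, block SPL: a decomposition of a brick with a radical piece -/

open CategoryTheory CategoryTheory.Limits CategoryTheory.Pretriangulated
open scoped ZeroObject Topology
open Filter

set_option backward.isDefEq.respectTransparency false
set_option backward.defeqAttrib.useBackward true
set_option linter.unusedSectionVars false

namespace Pool.Align

open Pool.Stab Pool.Tube

universe v u

/-- SPL. -/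
theorem p_SPL {C : Type u} [Category.{v} C] [Preadditive C] [HasZeroObject C] [HasShift C ℤ]
    [∀ n : ℤ, (shiftFunctor C n).Additive] [Pretriangulated C] [IsTriangulated C] [Linear ℂ C]
    [∀ n : ℤ, (shiftFunctor C n).Linear ℂ] : Stmt_SPL C := by
  intro h σ t N X Q f g w hT hN hX hQ hend hN0 hQ0 hNQ hrad
  have hK := h.k3
  have hid : (𝟙 X : X ⟶ X) ≠ 0 := by
    intro h0
    have h1 : ∀ e : X ⟶ X, e = 0 := fun e => by rw [← Category.id_comp e, h0, zero_comp]
    rw [finrank_of_forall_zero h1] at hend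
    exact zero_ne_one hend
  have hsc : ∀ e : X ⟶ X, ∃ c : ℂ, e = c • 𝟙 X := by
    intro e
    obtain ⟨c, hc⟩ := (finrank_eq_one_iff_of_nonzero' (𝟙 X) hid).1 hend e
    exact ⟨c, hc.symm⟩
  have hfg : f ≫ g = 0 := comp_distTriang_mor_zero₁₂ _ hT
  have hmono : ∀ (Z : C), σ.sl.Heart t Z → ∀ a : Z ⟶ N, a ≫ f = 0 → a = 0 := by
    intro Z hZ a ha
    have h1 : a⟦(1 : ℤ)⟧' ≫ f⟦(1 : ℤ)⟧' = 0 := by
      rw [← Functor.map_comp, ha, Functor.map_zero]
    obtain ⟨b, hb⟩ := Triangle.coyoneda_exact₁ _ hT (a⟦(1 : ℤ)⟧') h1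
    have h2 := σ.hom_shift_zero hZ hQ b
    rw [h2, zero_comp] at hb
    exact (shiftFunctor C (1 : ℤ)).map_injective (by rw [hb, Functor.map_zero])
  have hepi : ∀ (Z : C), σ.sl.Heart t Z → ∀ a : Q ⟶ Z, g ≫ a = 0 → a = 0 := by
    intro Z hZ a ha
    obtain ⟨b, hb⟩ := Triangle.yoneda_exact₃ _ hT a ha
    have h2 := σ.hom_shift_zero hN hZ b
    rw [h2, comp_zero] at hb
    exact hb
  have hg : g ≠ 0 := by
    intro hg0
    have h1 := hepi Q hQ (𝟙 Q) (by rw [hg0, zero_comp])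
    exact hQ0 ((IsZero.iff_id_eq_zero _).2 h1)
  have hQN : ∀ a : Q ⟶ N, a = 0 := by
    intro a
    obtain ⟨c, hc⟩ := hsc (g ≫ a ≫ f)
    by_cases hc0 : c = 0
    · rw [hc0, zero_smul] at hc
      exact hmono Q hQ a (hepi X hX (a ≫ f) hc)
    · exfalso
      have h1 : c • g = 0 := by
        calc c • g = (c • 𝟙 X) ≫ g := by rw [Linear.smul_comp, Category.id_comp]
          _ = (g ≫ a ≫ f) ≫ g := by rw [hc]
          _ = 0 := by rw [Category.assoc, Category.assoc, hfg, comp_zero, comp_zero]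
      exact hg ((smul_eq_zero.1 h1).resolve_left hc0)
  have hchi : eulerChar Q N = 0 := by
    rw [← eulerForm_cls hK]
    rcases hrad with h1 | h1
    · rw [eulerForm_symm]
      exact h1 (cls Q)
    · exact h1 (cls N)
  have h3 := Slicing.Heart.eulerChar hK hQ hN
  rw [hchi, finrank_of_forall_zero hQN, finrank_of_forall_zero hNQ] at h3
  have h4 : Module.finrank ℂ (Q ⟶ N⟦(1 : ℤ)⟧) = 0 := by
    push_cast at h3
    omega
  have hw : w = 0 := forall_zero_of_finrank hK h4 w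
  obtain ⟨s, hs⟩ := Triangle.coyoneda_exact₃ _ hT (𝟙 Q) (by
    show 𝟙 Q ≫ w = 0
    rw [hw, comp_zero])
  have hs' : 𝟙 Q = s ≫ g := hs
  obtain ⟨c, hc⟩ := hsc (g ≫ s)
  by_cases hc0 : c = 0
  · rw [hc0, zero_smul] at hc
    have h1 : (𝟙 Q) = 0 := by
      calc 𝟙 Q = 𝟙 Q ≫ 𝟙 Q := (Category.id_comp _).symm
        _ = (s ≫ g) ≫ (s ≫ g) := by rw [← hs']
        _ = s ≫ (g ≫ s) ≫ g := by simp only [Category.assoc]
        _ = 0 := by rw [hc, zero_comp, comp_zero]
    exact hQ0 ((IsZero.iff_id_eq_zero _).2 h1)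
  · have h1 : c • f = 0 := by
      calc c • f = f ≫ (c • 𝟙 X) := by rw [Linear.comp_smul, Category.comp_id]
        _ = f ≫ g ≫ s := by rw [hc]
        _ = 0 := by rw [← Category.assoc, hfg, zero_comp]
    have h2 : f = 0 := (smul_eq_zero.1 h1).resolve_left hc0
    have h5 := hmono N hN (𝟙 N) (by rw [h2, comp_zero])
    exact hN0 ((IsZero.iff_id_eq_zero _).2 h5)

end Pool.Align
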