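import Mathlib
import Pool.Agent.Work.MP_841263_al.Interface

/-!
# Block SPX (helper3): an aligned stability condition at a special vertex
-/

open CategoryTheory CategoryTheory.Limits CategoryTheory.Pretriangulated
open scoped ZeroObject Topology
open Filter

set_option autoImplicit false
set_option linter.unusedSectionVars false

namespace Pool.Align

open Pool.Stab Pool.Tube

universe v u

/-- Finitely many real numbers which are independent over the integers. -/
theorem SPX_real (ι : Type*) [Fintype ι] : ∃ v : ι → ℝ, LinearIndependent ℤ v := by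
  obtain ⟨s, hs, hli⟩ := exists_finset_linearIndependent_of_le_rank (R := ℚ) (M := ℝ)
    (n := Fintype.card ι) (by
      rw [Real.rank_rat_real]
      exact (Cardinal.nat_lt_continuum _).le)
  have e : ι ≃ s := Fintype.equivOfCardEq (by rw [Fintype.card_coe, hs])
  refine ⟨fun i => ((e i : s) : ℝ), ?_⟩
  have h1 : LinearIndependent ℚ (fun i => ((e i : s) : ℝ)) := hli.comp e e.injective
  rw [Fintype.linearIndependent_iff] at h1 ⊢
  intro g hg i
  have h2 := h1 (fun i => (g i : ℚ)) (by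
    rw [← hg]
    refine Finset.sum_congr rfl (fun j _ => ?_)
    rw [zsmul_eq_mul, Rat.smul_def]
    push_cast
    rfl) i
  exact_mod_cast h2

section Lat

variable {K : Type u} [AddCommGroup K]

/-- A functional with kernel `ℤ δ`. -/
theorem SPX_fun [Module.Finite ℤ K] [Module.Free ℤ K] {δ : K}
    (prim : ∀ (x : K) (n : ℤ), δ = n • x → n = 1 ∨ n = -1) (h0 : δ ≠ 0) :
    ∃ f : K →+ ℝ, f δ = 0 ∧ ∀ x, f x = 0 → ∃ k : ℤ, x = k • δ := by
  let b := Module.Free.chooseBasis ℤ K
  obtain ⟨v, hv⟩ := SPX_real (Module.Free.ChooseBasisIndex ℤ K)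
  obtain ⟨i₀, hi₀⟩ : ∃ i, b.repr δ i ≠ 0 := by
    by_contra hcon
    push Not at hcon
    apply h0
    have h1 : b.repr δ = 0 := Finsupp.ext hcon
    exact (LinearEquiv.map_eq_zero_iff b.repr).1 h1
  refine ⟨AddMonoidHom.mk' (fun x => ∑ j, (b.repr x j * b.repr δ i₀ -
    b.repr x i₀ * b.repr δ j : ℤ) • v j) ?_, ?_, ?_⟩
  · intro x y
    rw [← Finset.sum_add_distrib]
    refine Finset.sum_congr rfl (fun j _ => ?_)
    rw [← add_smul]
    congr 1
    rw [map_add, Finsupp.add_apply, Finsupp.add_apply]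
    ring
  · show ∑ j, (b.repr δ j * b.repr δ i₀ - b.repr δ i₀ * b.repr δ j : ℤ) • v j = 0
    refine Finset.sum_eq_zero (fun j _ => ?_)
    rw [mul_comm, sub_self, zero_smul]
  · intro x hx
    have hx' : ∑ j, (b.repr x j * b.repr δ i₀ - b.repr x i₀ * b.repr δ j : ℤ) • v j = 0 := hx
    have h1 := Fintype.linearIndependent_iff.1 hv _ hx'
    have h2 : b.repr δ i₀ • x = b.repr x i₀ • δ := by
      apply b.repr.injective
      ext j
      rw [map_smul, map_smul, Finsupp.smul_apply, Finsupp.smul_apply, smul_eq_mul, smul_eq_mul]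
      have h3 := h1 j
      linarith [mul_comm (b.repr δ i₀) (b.repr x j)]
    exact LHY_mult prim hi₀ h2

variable {B : K →+ K →+ ℤ} {im : K →+ ℝ} {δ : K}

theorem SPX_neg_lat (L : LatHyp B im δ) : LatHyp B im (-δ) where
  psd := L.psd
  even := L.even
  rank := L.rank
  rank4 := L.rank4
  irred := L.irred
  gen := L.gen
  rad := (radical B).neg_mem L.rad
  ne := neg_ne_zero.2 L.ne
  prim := fun x n hx => L.prim (-x) n (by rw [smul_neg, ← hx, neg_neg])
  im0 := by rw [map_neg, L.im0, neg_zero]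
  imroot := L.imroot
  imrad := fun r hr h0 => by
    obtain ⟨k, hk⟩ := L.imrad r hr h0
    exact ⟨-k, by rw [neg_smul, smul_neg, neg_neg, hk]⟩

theorem SPX_neg_roots {n : ℕ} {α : Fin n → K} (S : SimpleRoots B im δ α) :
    SimpleRoots B im (-δ) α where
  norm := S.norm
  off := S.off
  pos := S.pos
  span := fun x => by
    obtain ⟨k, c, hx⟩ := S.span x
    exact ⟨-k, c, by rw [neg_smul, smul_neg, neg_neg, hx]⟩
  indep := fun k c h => by
    obtain ⟨h1, h2⟩ := S.indep (-k) c (by rw [neg_smul, ← smul_neg, h])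
    exact ⟨by simpa using h1, h2⟩
  nonneg := fun x hx h0 => by
    obtain ⟨k, c, hx⟩ := S.nonneg x hx h0
    exact ⟨-k, c, by rw [neg_smul, smul_neg, neg_neg, hx]⟩

theorem SPX_neg_labels {n : ℕ} {β : Fin n → K} {m : Fin n → ℕ} (hm : Labels B δ β m) :
    Labels B (-δ) β m where
  one_le := hm.one_le
  rad := hm.rad
  gen := fun r hr => by
    obtain ⟨a, b, h⟩ := hm.gen r hr
    exact ⟨-a, b, by rw [neg_smul, smul_neg, neg_neg, h]⟩

/-- The value of a functional on `∑ m l β l`. -/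
theorem SPX_pos {n : ℕ} {β : Fin n → K} {m : Fin n → ℕ} (h1 : ∀ l, 1 ≤ m l) (o : Fin n)
    {f : K →+ ℝ} (hf : ∀ l, 0 < f (β l)) : 0 < f (∑ l, (m l : ℤ) • β l) := by
  rw [map_sum]
  have key : ∀ l, 0 < f ((m l : ℤ) • β l) := by
    intro l
    rw [map_zsmul, zsmul_eq_mul]
    have h2 : (0 : ℝ) < (((m l : ℕ) : ℤ) : ℝ) := by
      have := h1 l
      exact_mod_cast this
    exact mul_pos h2 (hf l)
  exact Finset.sum_pos (fun l _ => key l) ⟨o, Finset.mem_univ o⟩

end Lat

/-- `cos (π φ) = 0` for `0 < φ < 1`. -/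
theorem SPX_half {φ : ℝ} (h0 : 0 < φ) (h1 : φ < 1) (h : Real.cos (Real.pi * φ) = 0) :
    φ = 1 / 2 := by
  have hp := Real.pi_pos
  have h2 : Real.pi * φ = Real.pi / 2 := by
    refine Real.injOn_cos ⟨by positivity, by nlinarith⟩ ⟨by positivity, by linarith⟩ ?_
    rw [h, Real.cos_pi_div_two]
  have h3 : Real.pi * φ = Real.pi * (1 / 2) := by rw [h2]; ring
  exact mul_left_cancel₀ hp.ne' h3

variable {C : Type u} [Category.{v} C] [Preadditive C] [HasZeroObject C] [HasShift C ℤ]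
  [∀ n : ℤ, (shiftFunctor C n).Additive] [Pretriangulated C] [IsTriangulated C] [Linear ℂ C]
  [∀ n : ℤ, (shiftFunctor C n).Linear ℂ]

/-- The charge with real part `ρ` and imaginary part `y` is regular. -/
theorem SPX_reg {K : Type u} [AddCommGroup K] {B : K →+ K →+ ℤ} {y : K →+ ℝ} {ε r' : K}
    (L : LatHyp B y ε) (hgen : ∀ r ∈ radical B, ∃ a b : ℤ, r = a • ε + b • r')
    {W : K →+ ℂ} (hy : ∀ x, (W x).im = y x) (h1 : (W ε).re = -1) (h2 : (W r').re = 0)
    (h3 : 0 < y r') : W ∈ Xreg B := by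
  refine ⟨fun x hx h0 => L.imroot x hx (by rw [← hy, h0, Complex.zero_im]), ?_⟩
  intro r hr s hs hrs
  rw [orient_iff]
  obtain ⟨a, b, rfl⟩ := hgen r hr
  obtain ⟨c, d, rfl⟩ := hgen s hs
  rw [LinearIndependent.pair_iff] at hrs
  have e1 : ∀ p q : ℤ, (W (p • ε + q • r')).re = -(p : ℝ) := by
    intro p q
    rw [map_add, map_zsmul, map_zsmul, zsmul_eq_mul, zsmul_eq_mul, Complex.add_re,
      Complex.mul_re, Complex.mul_re, h1, h2]
    simp
  have e2 : ∀ p q : ℤ, (W (p • ε + q • r')).im = (q : ℝ) * y r' := by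
    intro p q
    rw [hy, map_add, map_zsmul, map_zsmul, L.im0, smul_zero, zero_add, zsmul_eq_mul]
  have e3 : ((starRingEnd ℂ) (W (a • ε + b • r')) * W (c • ε + d • r')).im =
      (((b * c - a * d : ℤ)) : ℝ) * y r' := by
    rw [Complex.mul_im, Complex.conj_re, Complex.conj_im, e1, e1, e2, e2]
    push_cast
    ring
  rw [e3]
  refine mul_ne_zero ?_ h3.ne'
  intro h0
  have h4 : b * c - a * d = 0 := by exact_mod_cast h0
  have h5 := hrs d (-b) (by
    have : d • (a • ε + b • r') + -b • (c • ε + d • r') =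
        (-(b * c - a * d)) • ε + (d * b - b * d) • r' := by
      module
    rw [this, h4, mul_comm d b, sub_self, neg_zero, zero_smul, zero_smul, add_zero])
  have h6 := hrs c (-a) (by
    have : c • (a • ε + b • r') + -a • (c • ε + d • r') =
        (c * a - a * c) • ε + (b * c - a * d) • r' := by
      module
    rw [this, h4, mul_comm c a, sub_self, zero_smul, zero_smul, add_zero])
  have h7 := hrs 1 0 (by
    have hb : b = 0 := by simpa using h5.2
    have ha : a = 0 := by simpa using h6.2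
    rw [ha, hb]
    simp)
  exact one_ne_zero h7.1

theorem SPX_main (hHOM : Stmt_HOM.{u}) (h : EllipticSetting C) (τ₀ : StabCond C)
    (y : K0 C →+ ℝ) (ε : K0 C) (n : ℕ) (β : Fin n → K0 C) (m : Fin n → ℕ) (o : Fin n)
    (L : LatHyp (eulerForm h.k3) y ε) (hS : SimpleRoots (eulerForm h.k3) y ε β)
    (hm : Labels (eulerForm h.k3) ε β m) (ho : m o = 1)
    (hor : orientOf τ₀.Z ε (∑ l, (m l : ℤ) • β l) < 0) :
    ∃ (τ : StabCond C) (S : Fin n → C), Joined τ₀ τ ∧ Coll h ε β m o S ∧ Aligned 0 ε S τ ∧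
      τ.im 0 ε = 0 := by
  obtain ⟨ρ, hρ, hρβ⟩ := hHOM (K0 C) (eulerForm h.k3) y ε n β hS ℝ (-1) (fun _ => 0)
  set r' : K0 C := ∑ l, (m l : ℤ) • β l with hr'
  have hY : 0 < y r' := SPX_pos hm.one_le o hS.pos
  have hρr : ρ r' = 0 := by
    rw [hr', map_sum]
    exact Finset.sum_eq_zero (fun l _ => by rw [map_zsmul, hρβ, smul_zero])
  let W : K0 C →+ ℂ := AddMonoidHom.mk' (fun x => (⟨ρ x, y x⟩ : ℂ)) (fun a b => by
    apply Complex.ext
    · simp
    · simp)
  have hWre : ∀ x, (W x).re = ρ x := fun x => rfl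
  have hWim : ∀ x, (W x).im = y x := fun x => rfl
  have hX : W ∈ Xreg (eulerForm h.k3) :=
    SPX_reg L hm.gen hWim (by rw [hWre, hρ]) (by rw [hWre, hρr]) hY
  have hWor : orientOf W ε r' = -y r' := by
    unfold orientOf
    rw [Complex.mul_im, Complex.conj_re, Complex.conj_im, hWre, hWre, hWim, hWim, hρ, hρr, L.im0]
    ring
  have hind : LinearIndependent ℤ ![ε, r'] := by
    rw [LinearIndependent.pair_iff]
    intro a b hab
    have h1 := congrArg y hab
    rw [map_add, map_zsmul, map_zsmul, L.im0, smul_zero, zero_add, map_zero, zsmul_eq_mul,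
      mul_eq_zero] at h1
    have hb : b = 0 := by exact_mod_cast h1.resolve_right hY.ne'
    have h2 := congrArg ρ hab
    rw [map_add, map_zsmul, map_zsmul, hρ, hρr, smul_zero, add_zero, map_zero, zsmul_eq_mul] at h2
    have ha : (a : ℝ) = 0 := by linarith
    exact ⟨by exact_mod_cast ha, hb⟩
  obtain ⟨τ, hJ, hτ⟩ := h.exists_joined L.rad hm.rad hind τ₀ ⟨W, hX⟩ (by
    show 0 < orientOf τ₀.Z ε r' * orientOf W ε r'
    rw [hWor]
    nlinarith)
  have hZ : τ.Z = W := congrArg Subtype.val hτ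
  have hre : ∀ x, τ.re 0 x = ρ x := by
    intro x
    rw [StabCond.re_apply, hZ]
    simp [hWre]
  have him : τ.im 0 = y := by
    ext x
    rw [StabCond.im_apply, hZ]
    simp [hWim]
  have F : Frame h τ 0 ε β :=
    { toTubeHyp := ⟨L.rad, L.ne, L.prim, by rw [him]; exact L.im0, by
        rw [hre, hρ]; norm_num, by rw [him]; exact L.imroot⟩
      toSimpleRoots := by rw [him]; exact hS }
  choose S hS1 hS2 hS3 using fun l => c_EXI C h τ 0 ε n β F l 0
  have hcls : ∀ l, cls (S l) = β l := fun l => by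
    rw [(hS1 l).2, zero_smul, add_zero]
  refine ⟨τ, S, hJ, ⟨⟨y, L, hS⟩, hm, ho, hcls, hS2, ?_⟩, ⟨?_, ?_⟩, ?_⟩
  · intro l l' hll' f
    by_contra hf
    exact hll' (c_MOR C h τ 0 ε n β F l l' 0 0 (S l) (S l') (hS1 l) (hS1 l') f hf).1
  · intro l
    obtain ⟨φ, h1, h2, hP⟩ := hS3 l
    obtain ⟨hpos, hre', -⟩ := τ.polar 0 hP (hS1 l).1.2.1
    rw [hre, hcls, hρβ, sub_zero] at hre'
    rw [← hcls] at hre'
    have h3 : Real.cos (Real.pi * φ) = 0 := by
      rcases mul_eq_zero.1 hre'.symm with h4 | h4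
      · exact absurd h4 hpos.ne'
      · exact h4
    have h4 := SPX_half h1 (by linarith) h3
    rw [zero_add, ← h4]
    exact hP
  · rw [hre, hρ]
    norm_num
  · rw [him]
    exact L.im0

theorem p_SPX : Stmt_SPE.{u} → Stmt_LBL.{u} → Stmt_HOM.{u} → Stmt_SPX C := by
  intro hSPE hLBL hHOM h τ₀
  have := h.finite
  have := h.free
  obtain ⟨b₀, hb₀, b₁, hb₁, hspan, hindep⟩ := exists_basis_of_finrank_two _ h.rank
  have hne : b₀ ≠ 0 := by
    rintro rfl
    have := (hindep 1 0 (by simp)).1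
    exact one_ne_zero this
  have hprim : ∀ (x : K0 C) (k : ℤ), b₀ = k • x → k = 1 ∨ k = -1 := by
    intro x k hk
    have hk0 : k ≠ 0 := by
      rintro rfl
      exact hne (by rw [hk, zero_smul])
    have hx : x ∈ radical (eulerForm h.k3) := by
      intro z
      have h1 := hb₀ z
      rw [hk, map_zsmul, AddMonoidHom.smul_apply, smul_eq_zero] at h1
      exact h1.resolve_left hk0
    obtain ⟨p, q, hpq⟩ := hspan x hx
    have h1 : (k * p - 1) • b₀ + (k * q) • b₁ = 0 := by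
      rw [sub_smul, one_smul, mul_smul, mul_smul]
      have h2 : k • (p • b₀ + q • b₁) = b₀ := by rw [← hpq, ← hk]
      rw [smul_add] at h2
      calc k • p • b₀ - b₀ + k • q • b₁ = (k • p • b₀ + k • q • b₁) - b₀ := by abel
        _ = 0 := by rw [h2, sub_self]
    have h2 := (hindep _ _ h1).1
    have h3 : k ∣ 1 := ⟨p, by linarith⟩
    exact Int.isUnit_iff.1 (isUnit_of_dvd_one h3)
  obtain ⟨f, hf0, hf⟩ := SPX_fun hprim hne
  have hgen : AddSubgroup.closure {x : K0 C | eulerForm h.k3 x x = 2} = ⊤ := by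
    obtain ⟨t', H'⟩ := τ₀.exists_Gap
    rw [eq_top_iff, ← h.gen, AddSubgroup.closure_le]
    rintro z ⟨Y, hY, rfl⟩
    have h1 := H'.rigid_mem h.k3 h.psd' h.even hY
    refine AddSubgroup.closure_mono ?_ h1
    intro x hx
    exact hx.1
  have L₀ : LatHyp (eulerForm h.k3) f b₀ := by
    refine ⟨h.psd', h.even, h.rank, h.rank4, h.irred, hgen, hb₀, hne, hprim, hf0, ?_, ?_⟩
    · intro x hx h0
      obtain ⟨k, rfl⟩ := hf x h0
      rw [(radical (eulerForm h.k3)).smul_mem k hb₀ (k • b₀)] at hx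
      norm_num at hx
    · intro r _ h0
      exact hf r h0
  obtain ⟨y, L, -, hone⟩ := hSPE (K0 C) (eulerForm h.k3) f b₀ L₀
  obtain ⟨n, β, hβ⟩ := c_BAS (K0 C) (eulerForm h.k3) y b₀ L
  obtain ⟨m, hm⟩ := hLBL (K0 C) (eulerForm h.k3) y b₀ L n β hβ
  obtain ⟨o, ho⟩ := hone n β m hβ hm
  set r' : K0 C := ∑ l, (m l : ℤ) • β l with hr'
  have hY : 0 < y r' := SPX_pos hm.one_le o hβ.pos
  have hne' : orientOf τ₀.Z b₀ r' ≠ 0 := by
    refine orient_ne h hb₀ hm.rad ?_ τ₀
    rw [LinearIndependent.pair_iff]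
    intro a b hab
    have h1 := congrArg y hab
    rw [map_add, map_zsmul, map_zsmul, L.im0, smul_zero, zero_add, map_zero, zsmul_eq_mul,
      mul_eq_zero] at h1
    have hb : b = 0 := by exact_mod_cast h1.resolve_right hY.ne'
    rw [hb, zero_smul, add_zero, smul_eq_zero] at hab
    exact ⟨hab.resolve_right hne, hb⟩
  rcases lt_or_gt_of_ne hne' with h1 | h1
  · obtain ⟨τ, S, h2, h3, h4, h5⟩ := SPX_main hHOM h τ₀ y b₀ n β m o L hβ hm ho h1
    exact ⟨τ, b₀, n, β, m, o, S, h2, h3, h4, h5⟩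
  · have h2 : orientOf τ₀.Z (-b₀) r' < 0 := by
      have : orientOf τ₀.Z (-b₀) r' = -orientOf τ₀.Z b₀ r' := by
        unfold orientOf
        rw [map_neg, map_neg, neg_mul, Complex.neg_im]
      rw [this]
      linarith
    obtain ⟨τ, S, h2, h3, h4, h5⟩ := SPX_main hHOM h τ₀ y (-b₀) n β m o (SPX_neg_lat L)
      (SPX_neg_roots hβ) (SPX_neg_labels hm) ho h2
    exact ⟨τ, -b₀, n, β, m, o, S, h2, h3, h4, h5⟩

end Pool.Align
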