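import Pool.Agent.Work.MP_841263_al.Interface

/-! # Alignment: block SRY -/

namespace Pool.Align

open Pool.Stab Pool.Tube

universe v u

/-- Sign principle, positive case. -/
theorem SRY_pos {K : Type u} [AddCommGroup K] {B : K →+ K →+ ℤ} {im I : K →+ ℝ} {δ : K} {n : ℕ}
    {α : Fin n → K} (hnon : ∀ x : K, B x x ≤ 2 → 0 < im x →
      ∃ (k : ℤ) (c : Fin n → ℕ), x = k • δ + ∑ i, (c i : ℤ) • α i)
    (him0 : im δ = 0) (hI0 : I δ = 0) (hpos : ∀ i, 0 < I (α i)) {x : K} (hx : B x x ≤ 2)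
    (h : 0 < im x) : 0 < I x := by
  obtain ⟨k, c, rfl⟩ := hnon x hx h
  rw [map_add, map_zsmul, him0, smul_zero, zero_add, map_sum] at h
  rw [map_add, map_zsmul, hI0, smul_zero, zero_add, map_sum]
  have hex : ∃ i, c i ≠ 0 := by
    by_contra hcon
    push Not at hcon
    rw [Finset.sum_eq_zero] at h
    · exact lt_irrefl _ h
    · intro i _
      rw [hcon i]
      simp
  obtain ⟨i, hi⟩ := hex
  refine Finset.sum_pos' (fun j _ => ?_) ⟨i, Finset.mem_univ i, ?_⟩
  · rw [map_zsmul, zsmul_eq_mul]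
    have := (hpos j).le
    positivity
  · rw [map_zsmul, zsmul_eq_mul]
    have h1 := hpos i
    have h2 : 0 < c i := Nat.pos_of_ne_zero hi
    have h3 : (0 : ℝ) < (((c i : ℕ) : ℤ) : ℝ) := by exact_mod_cast h2
    exact mul_pos h3 h1

theorem p_SRY : Stmt_SRY.{u} := by
  intro K _ _ _ B im δ L n α hα y hy0 hypos
  have hneg : ∀ x, B (-x) (-x) = B x x := fun x => by simp
  have hP : ∀ x, B x x ≤ 2 → 0 < im x → 0 < y x := fun x hx hx0 =>
    SRY_pos hα.nonneg L.im0 hy0 hypos hx hx0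
  have hZ : ∀ x, B x x ≤ 2 → im x = 0 → y x = 0 := by
    intro x hx hx0
    obtain ⟨m, hm⟩ := L.even x
    have h1 := L.psd.nonneg x
    have h2 : B x x = 0 ∨ B x x = 2 := by omega
    rcases h2 with h2 | h2
    · obtain ⟨k, hk⟩ := L.imrad x (L.psd.mem_radical_of_self h2) hx0
      rw [hk, map_zsmul, hy0, smul_zero]
    · exact absurd hx0 (L.imroot x h2)
  have hN : ∀ x, B x x ≤ 2 → im x < 0 → y x < 0 := by
    intro x hx hx0
    have h1 := hP (-x) (by rw [hneg]; exact hx) (by rw [map_neg]; linarith)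
    rw [map_neg] at h1
    linarith
  have hS0 : ∀ x, B x x ≤ 2 → y x = 0 → im x = 0 := by
    intro x hx hx0
    rcases lt_trichotomy (im x) 0 with h1 | h1 | h1
    · exact absurd hx0 (hN x hx h1).ne
    · exact h1
    · exact absurd hx0 (hP x hx h1).ne'
  have hSP : ∀ x, B x x ≤ 2 → 0 < y x → 0 < im x := by
    intro x hx hx0
    rcases lt_trichotomy (im x) 0 with h1 | h1 | h1
    · exact absurd (hN x hx h1) hx0.le.not_gt
    · exact absurd (hZ x hx h1) hx0.ne'
    · exact h1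
  refine ⟨⟨hα.norm, hα.off, hypos, hα.span, hα.indep, fun x hx hx0 =>
    hα.nonneg x hx (hSP x hx hx0)⟩, ⟨L.psd, L.even, L.rank, L.rank4, L.irred, L.gen, L.rad, L.ne,
    L.prim, hy0, fun x hx h0 => L.imroot x hx (hS0 x hx.le h0), fun r hr h0 => L.imrad r hr ?_⟩⟩
  have h2 : B r r = 0 := hr r
  exact hS0 r (by rw [h2]; norm_num) h0

end Pool.Align
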