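import Pool.Agent.Work.MP_841263_al.Interface

/-!
# Block TOB: rigid objects with prescribed vanishing lie in one open heart
-/

open CategoryTheory CategoryTheory.Limits CategoryTheory.Pretriangulated
open scoped ZeroObject Topology
open Filter

set_option backward.isDefEq.respectTransparency false
set_option backward.defeqAttrib.useBackward true
set_option linter.unusedSectionVars false

namespace Pool.Align

open Pool.Stab Pool.Tube

universe v u

variable {C : Type u} [Category.{v} C] [Preadditive C] [HasZeroObject C] [HasShift C ℤ]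
  [∀ n : ℤ, (shiftFunctor C n).Additive] [Pretriangulated C] [IsTriangulated C] [Linear ℂ C]
  [∀ n : ℤ, (shiftFunctor C n).Linear ℂ]

lemma TOB_P_shift {σ : StabCond C} {φ : ℝ} {X : C} (hX : σ.sl.P φ X) (n : ℤ) :
    σ.sl.P (φ + n) (X⟦n⟧) := by
  refine Slicing.In.P_of_singleton ?_
  refine ((Slicing.in_of_P hX (Set.mem_singleton φ)).shift n).mono ?_
  rintro _ ⟨x, hx, rfl⟩
  rw [Set.mem_singleton_iff] at hx
  subst hx
  rfl

lemma TOB_iso {X Y Y' : C} (e : Y ≅ Y') (h : ∀ f : X ⟶ Y, f = 0) (f : X ⟶ Y') : f = 0 := by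
  rw [← cancel_mono e.inv, h (f ≫ e.inv), zero_comp]

/-- Hom from phase `b` to phases below `b` vanishes. -/
lemma TOB_down {τ : StabCond C} {b : ℝ} {S X : C} (hS : τ.sl.P b S)
    (hX : τ.sl.In (Set.Iio b) X) (f : S ⟶ X) : f = 0 := by
  refine Slicing.In.hom_zero (Slicing.in_of_P hS (Set.mem_singleton b)) hX ?_ f
  intro φ hφ ψ hψ
  rw [Set.mem_singleton_iff] at hφ
  rw [hφ]
  exact hψ

/-- Hom from phase `b` to phases above `b + 2` vanishes (Serre duality). -/
lemma TOB_up (hK : IsK3 C) {τ : StabCond C} {b : ℝ} {S X : C} (hS : τ.sl.P b S)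
    (hX : τ.sl.In (Set.Ioi (b + 2)) X) (f : S ⟶ X) : f = 0 := by
  refine forall_zero_of_finrank hK ?_ f
  rw [hK.serre S X]
  refine finrank_of_forall_zero ?_
  intro g
  refine Slicing.In.hom_zero hX
    (Slicing.in_of_P (TOB_P_shift hS 2) (Set.mem_singleton _)) ?_ g
  intro φ hφ ψ hψ
  rw [Set.mem_singleton_iff] at hψ
  rw [hψ]
  have h1 : b + 2 < φ := hφ
  push_cast
  exact h1

/-- The Euler number is the difference of two dimensions. -/
lemma TOB_euler (hK : IsK3 C) {τ : StabCond C} {b : ℝ} {S A : C} (hS : τ.sl.P b S)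
    (hA : τ.sl.In (Set.Ioo b (b + 1)) A) :
    (∀ n : ℤ, n ≠ 0 → n ≠ 1 → Module.finrank ℂ (S ⟶ A⟦n⟧) = 0) ∧
    eulerChar S A = (Module.finrank ℂ (S ⟶ A) : ℤ) -
      (Module.finrank ℂ (S ⟶ A⟦(1 : ℤ)⟧) : ℤ) := by
  have hz : ∀ n : ℤ, n ≠ 0 → n ≠ 1 → Module.finrank ℂ (S ⟶ A⟦n⟧) = 0 := by
    intro n h0 h1
    rcases lt_or_ge n 0 with hn | hn
    · refine finrank_of_forall_zero (TOB_down hS ((hA.shift n).mono ?_))
      rintro _ ⟨x, ⟨hx1, hx2⟩, rfl⟩
      have : (n : ℝ) ≤ -1 := by exact_mod_cast Int.le_sub_one_of_lt hn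
      show x + (n : ℝ) < b
      linarith
    · have h2 : (2 : ℤ) ≤ n := by omega
      refine finrank_of_forall_zero (TOB_up hK hS ((hA.shift n).mono ?_))
      rintro _ ⟨x, ⟨hx1, hx2⟩, rfl⟩
      have : (2 : ℝ) ≤ n := by exact_mod_cast h2
      show b + 2 < x + (n : ℝ)
      linarith
  refine ⟨hz, ?_⟩
  rw [Pool.Stab.eulerChar]
  rw [finsum_eq_sum_of_support_subset (s := {0, 1})]
  · rw [Finset.sum_insert (by decide), Finset.sum_singleton]
    rw [finrank_shift_zero, Int.negOnePow_zero, Int.negOnePow_one]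
    push_cast
    ring
  · intro n hn
    by_contra hcon
    apply hn
    have h0 : n ≠ 0 := by
      rintro rfl
      exact hcon (by simp)
    have h1 : n ≠ 1 := by
      rintro rfl
      exact hcon (by simp)
    show (n.negOnePow : ℤ) * (Module.finrank ℂ (S ⟶ A⟦n⟧) : ℤ) = 0
    rw [hz n h0 h1]
    simp

/-- Nonnegative weights: if the sum vanishes all terms vanish. -/
lemma TOB_sum {n : ℕ} (m : Fin n → ℕ) (hm : ∀ l, 1 ≤ m l) (d : Fin n → ℕ)
    (h : ∑ l, (m l : ℤ) * (d l : ℤ) = 0) (l : Fin n) : d l = 0 := by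
  have h1 := (Finset.sum_eq_zero_iff_of_nonneg
    (fun i _ => mul_nonneg (Int.natCast_nonneg (m i)) (Int.natCast_nonneg (d i)))).1 h l
      (Finset.mem_univ l)
  have h2 := hm l
  rcases mul_eq_zero.1 h1 with h3 | h3
  · omega
  · exact_mod_cast h3

/-- The principle (K). -/
lemma TOB_K (hKFO : Stmt_KFO C) (h : EllipticSetting C) {ε : K0 C} {n : ℕ} {β : Fin n → K0 C}
    {m : Fin n → ℕ} {o : Fin n} {S : Fin n → C} (hC : Coll h ε β m o S) {τ : StabCond C}
    {t : ℝ} (hA : Aligned t ε S τ) (him : τ.im t ε = 0) {A : C}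
    (hAp : τ.sl.In (Set.Ioo (t + 1 / 2) (t + 1 / 2 + 1)) A)
    (hz : (∀ l (f : S l ⟶ A), f = 0) ∨ (∀ l (f : S l ⟶ A⟦(1 : ℤ)⟧), f = 0)) : IsZero A := by
  have hK := h.k3
  have he := fun l => TOB_euler hK (hA.P l) hAp
  have hsum : ∑ l, (m l : ℤ) * ((Module.finrank ℂ (S l ⟶ A) : ℤ) -
      (Module.finrank ℂ (S l ⟶ A⟦(1 : ℤ)⟧) : ℤ)) = 0 := by
    have h1 := hC.lab.rad (cls A)
    rw [map_sum] at h1
    rw [AddMonoidHom.finsetSum_apply] at h1
    rw [← h1]
    refine Finset.sum_congr rfl ?_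
    intro l _
    rw [map_zsmul, AddMonoidHom.coe_smul, Pi.smul_apply, smul_eq_mul, ← hC.cls_eq l,
      eulerForm_cls, (he l).2]
  have h01 : (∀ l, Module.finrank ℂ (S l ⟶ A) = 0) ∧
      (∀ l, Module.finrank ℂ (S l ⟶ A⟦(1 : ℤ)⟧) = 0) := by
    rcases hz with hz | hz
    · have h0 : ∀ l, Module.finrank ℂ (S l ⟶ A) = 0 := fun l => finrank_of_forall_zero (hz l)
      refine ⟨h0, TOB_sum m hC.lab.one_le _ ?_⟩
      rw [← neg_eq_zero, ← Finset.sum_neg_distrib, ← hsum]
      refine Finset.sum_congr rfl ?_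
      intro l _
      rw [h0 l]
      push_cast
      ring
    · have h1 : ∀ l, Module.finrank ℂ (S l ⟶ A⟦(1 : ℤ)⟧) = 0 :=
        fun l => finrank_of_forall_zero (hz l)
      refine ⟨TOB_sum m hC.lab.one_le _ ?_, h1⟩
      rw [← hsum]
      refine Finset.sum_congr rfl ?_
      intro l _
      rw [h1 l]
      push_cast
      ring
  refine hKFO h ε n β m o S hC τ t hA him A ?_ ?_
  · refine hAp.mono ?_
    rintro x ⟨hx1, hx2⟩
    exact ⟨hx1, by linarith⟩
  · intro l p f
    refine forall_zero_of_finrank hK ?_ f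
    by_cases hp0 : p = 0
    · subst hp0
      rw [finrank_shift_zero]
      exact h01.1 l
    · by_cases hp1 : p = 1
      · subst hp1
        exact h01.2 l
      · exact (he l).1 p hp0 hp1

/-- A nonzero rigid semistable object has a shift class outside the radical. -/
lemma TOB_rigid (hK : IsK3 C) {τ : StabCond C} {ψ : ℝ} {A : C} (hA : τ.sl.P ψ A)
    (h0 : ¬ IsZero A) (hr : Module.finrank ℂ (A ⟶ A⟦(1 : ℤ)⟧) = 0) (N : ℤ)
    (hrad : cls (A⟦N⟧) ∈ radical (eulerForm hK)) : False := by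
  have h1 : cls A ∈ radical (eulerForm hK) := by
    rw [cls_shift] at hrad
    have h2 := (radical (eulerForm hK)).smul_mem ((N.negOnePow : ℤˣ) : ℤ) hrad
    rw [smul_smul] at h2
    have h3 : ((N.negOnePow : ℤˣ) : ℤ) * ((N.negOnePow : ℤˣ) : ℤ) = 1 := by
      rw [← Units.val_mul, Int.units_mul_self, Units.val_one]
    rwa [h3, one_smul] at h2
  have h2 := h1 (cls A)
  rw [τ.euler_self hK hA, hr] at h2
  have h3 : Module.finrank ℂ (A ⟶ A) = 0 := by
    push_cast at h2
    omega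
  apply h0
  rw [IsZero.iff_id_eq_zero]
  exact forall_zero_of_finrank hK h3 _

open Classical in
/-- The top step of a filtration. -/
lemma TOB_topstep {τ : StabCond C} {E : C} {l : List ℝ} (hl : HN τ.sl.P E l) {ψ : ℝ}
    (hψ : ψ ∈ l) (hmax : ∀ χ ∈ l, χ ≤ ψ) :
    ∃ (A E' : C) (f : A ⟶ E) (g : E ⟶ E') (k : E' ⟶ A⟦(1 : ℤ)⟧),
      Triangle.mk f g k ∈ distTriang C ∧ τ.sl.P ψ A ∧ ¬ IsZero A ∧
        τ.sl.In (Set.Iio ψ) E' := by
  obtain ⟨A, E', f, g, k, hT, h1, h2⟩ := hl.trunc (Set.Ici ψ) (isUpperSet_Ici ψ)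
  refine ⟨A, E', f, g, k, hT, ?_, ?_, ?_⟩
  · refine Slicing.In.P_of_singleton ⟨_, h1, ?_⟩
    intro χ hχ
    rw [List.mem_filter, decide_eq_true_eq] at hχ
    exact le_antisymm (hmax χ hχ.1) hχ.2
  · intro hz
    have h3 := h1.eq_nil hz
    have h4 : ψ ∈ l.filter (· ∈ Set.Ici ψ) := by
      rw [List.mem_filter, decide_eq_true_eq]
      exact ⟨hψ, le_refl ψ⟩
    rw [h3] at h4
    simp at h4
  · refine ⟨_, h2, ?_⟩
    intro χ hχ
    rw [List.mem_filter, decide_eq_true_eq] at hχ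
    have h5 : ¬ (ψ ≤ χ) := hχ.2
    exact lt_of_not_ge h5

/-- **Block TOB.** -/
theorem p_TOB : Stmt_SMT C → Stmt_KFO C → Stmt_TOB C := by
  intro hSMT hKFO h ε n β m o S hC τ t hA him E hE hp
  classical
  have hK := h.k3
  obtain ⟨l, hl⟩ := τ.sl.exists_HN E
  have hE1 : Module.finrank ℂ (E ⟶ E⟦(1 : ℤ)⟧) = 0 := finrank_of_forall_zero hE
  -- the phases are smaller than `t + 3/2`
  have htop : ∀ φ ∈ l, φ < t + 3 / 2 := by
    intro φ₀ hφ₀
    by_contra hcon
    push Not at hcon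
    obtain ⟨ψ, hψ, hmax⟩ := l.toFinset.exists_max_image id ⟨φ₀, List.mem_toFinset.2 hφ₀⟩
    have hmax' : ∀ χ ∈ l, χ ≤ ψ := fun χ hχ => hmax χ (List.mem_toFinset.2 hχ)
    have hbig : t + 3 / 2 ≤ ψ := hcon.trans (hmax' φ₀ hφ₀)
    obtain ⟨A, E', f, g, k, hT, hAP, hA0, hE'⟩ := TOB_topstep hl (List.mem_toFinset.1 hψ) hmax'
    have hAE' : ∀ a : A ⟶ E', a = 0 := by
      intro a
      refine Slicing.In.hom_zero (Slicing.in_of_P hAP (Set.mem_singleton ψ)) hE' ?_ a
      intro x hx y hy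
      rw [Set.mem_singleton_iff] at hx
      rw [hx]
      exact hy
    have hmu := mukai hK hT hAE'
    have hA1 : Module.finrank ℂ (A ⟶ A⟦(1 : ℤ)⟧) = 0 := by omega
    obtain ⟨N, hN1, hN2⟩ : ∃ N : ℤ, t + 1 / 2 + N ≤ ψ ∧ ψ < t + 1 / 2 + N + 1 :=
      ⟨⌊ψ - (t + 1 / 2)⌋, by linarith [Int.floor_le (ψ - (t + 1 / 2))],
        by linarith [Int.lt_floor_add_one (ψ - (t + 1 / 2))]⟩
    have hN : 1 ≤ N := by
      have : (0 : ℝ) < N := by linarith
      have h2 : (0 : ℤ) < N := by exact_mod_cast this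
      omega
    -- all maps to the shift of `A` vanish
    have hz : ∀ l (f : S l ⟶ A⟦(-N)⟧), f = 0 := by
      intro j
      have hT2 := Triangle.shift_distinguished _ hT (-N)
      obtain ⟨a', c', hinv⟩ := exists_invrot hT2
      refine fun a => hom_zero_of_ext₂ hinv ?_ ?_ a
      · refine TOB_down (hA.P j) (((hE'.shift (-N)).shift (-1)).mono ?_)
        rintro _ ⟨_, ⟨x, hx, rfl⟩, rfl⟩
        have hx' : x < ψ := hx
        show x + ((-N : ℤ) : ℝ) + ((-1 : ℤ) : ℝ) < t + 1 / 2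
        push_cast
        linarith
      · exact hp j (-N) (by omega) (by omega)
    have hP := TOB_P_shift hAP (-N)
    rcases hN1.lt_or_eq with hlt | heq
    · have hin : τ.sl.In (Set.Ioo (t + 1 / 2) (t + 1 / 2 + 1)) (A⟦(-N)⟧) := by
        refine Slicing.in_of_P hP ⟨?_, ?_⟩
        · push_cast
          linarith
        · push_cast
          linarith
      exact hA0 ((isZero_shift_iff _ _).1 (TOB_K hKFO h hC hA him hin (Or.inl hz)))
    · have hP' : τ.sl.P (t + 1 / 2) (A⟦(-N)⟧) := by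
        have e : ψ + ((-N : ℤ) : ℝ) = t + 1 / 2 := by
          push_cast
          linarith
        rwa [e] at hP
      exact TOB_rigid hK hAP hA0 hA1 (-N)
        (hSMT h ε n β m o S hC τ t hA _ hP' (Or.inl hz))
  -- the phases are larger than `t + 1/2`
  have hbot : ∀ φ ∈ l, t + 1 / 2 < φ := by
    cases hl with
    | zero h0 => simp
    | @step E' _ B ψ l' hl' hψ hB hB0 f g k hT =>
      suffices hs : t + 1 / 2 < ψ by
        intro φ hφ
        rcases List.mem_cons.1 hφ with h1 | h1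
        · rw [h1]
          exact hs
        · exact hs.trans (hψ φ h1)
      by_contra hcon
      push Not at hcon
      have hE' : τ.sl.In (Set.Ioi ψ) E' := ⟨l', hl', hψ⟩
      have hE'B : ∀ a : E' ⟶ B, a = 0 := by
        intro a
        refine Slicing.In.hom_zero hE' (Slicing.in_of_P hB (Set.mem_singleton ψ)) ?_ a
        intro x hx y hy
        rw [Set.mem_singleton_iff] at hy
        rw [hy]
        exact hx
      have hmu := mukai hK hT hE'B
      have hB1 : Module.finrank ℂ (B ⟶ B⟦(1 : ℤ)⟧) = 0 := by omega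
      obtain ⟨N, hN1, hN2⟩ : ∃ N : ℤ, t + 1 / 2 - N ≤ ψ ∧ ψ < t + 1 / 2 - N + 1 :=
        ⟨⌈(t + 1 / 2) - ψ⌉, by linarith [Int.le_ceil ((t + 1 / 2) - ψ)],
          by linarith [Int.ceil_lt_add_one ((t + 1 / 2) - ψ)]⟩
      have hN : 0 ≤ N := by
        have : (-1 : ℝ) < N := by linarith
        have h2 : (-1 : ℤ) < N := by exact_mod_cast this
        omega
      have hrot := rot_mk hT
      have hP := TOB_P_shift hB N
      -- vanishing in degree `N + q`
      have hz : ∀ q : ℤ, 2 ≤ N + q → t + 1 / 2 + 2 ≤ ψ + 1 + N + q →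
          ∀ j (f : S j ⟶ B⟦N⟧⟦q⟧), f = 0 := by
        intro q hq1 hq2 j
        have hT2 := Triangle.shift_distinguished _ (Triangle.shift_distinguished _ hrot N) q
        refine fun a => hom_zero_of_ext₂ hT2 ?_ ?_ a
        · exact TOB_iso ((shiftFunctorAdd' C N q (N + q) rfl).app E)
            (hp j (N + q) (by omega) (by omega))
        · refine TOB_up hK (hA.P j) ((((hE'.shift 1).shift N).shift q).mono ?_)
          rintro _ ⟨_, ⟨_, ⟨x, hx, rfl⟩, rfl⟩, rfl⟩
          have hx' : ψ < x := hx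
          show t + 1 / 2 + 2 < x + ((1 : ℤ) : ℝ) + (N : ℝ) + (q : ℝ)
          push_cast
          linarith
      rcases hN1.lt_or_eq with hlt | heq
      · have hN' : 1 ≤ N := by
          have : (0 : ℝ) < N := by linarith
          have h2 : (0 : ℤ) < N := by exact_mod_cast this
          omega
        have hin : τ.sl.In (Set.Ioo (t + 1 / 2) (t + 1 / 2 + 1)) (B⟦N⟧) := by
          refine Slicing.in_of_P hP ⟨?_, ?_⟩
          · linarith
          · linarith
        refine hB0 ((isZero_shift_iff _ _).1 (TOB_K hKFO h hC hA him hin (Or.inr ?_)))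
        refine hz 1 (by omega) ?_
        push_cast
        linarith
      · have hP' : τ.sl.P (t + 1 / 2) (B⟦N⟧) := by
          have e : ψ + (N : ℝ) = t + 1 / 2 := by linarith
          rwa [e] at hP
        refine TOB_rigid hK hB hB0 hB1 N
          (hSMT h ε n β m o S hC τ t hA _ hP' (Or.inr ?_))
        intro j
        refine forall_zero_of_finrank hK ?_
        rw [hK.serre (B⟦N⟧) (S j)]
        refine finrank_of_forall_zero (hz 2 (by omega) ?_ j)
        push_cast
        linarith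
  exact ⟨l, hl, fun φ hφ => ⟨hbot φ hφ, htop φ hφ⟩⟩

end Pool.Align
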