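import Mathlib
import Pool.Agent.Work.MP_841263_al.Top

/-!
# Block TUP: a primitive direction just above `φ` (helper58)
-/

open CategoryTheory CategoryTheory.Limits CategoryTheory.Pretriangulated
open scoped ZeroObject Topology
open Filter

set_option backward.isDefEq.respectTransparency false
set_option backward.defeqAttrib.useBackward true

namespace Pool.Align

open Pool.Stab Pool.Tube

universe v u

/-- Real coordinates. -/
lemma TUP_cramer {z₁ z₂ : ℂ} (h : ((starRingEnd ℂ) z₁ * z₂).im ≠ 0) (w : ℂ) :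
    ∃ x y : ℝ, (x : ℂ) * z₁ + (y : ℂ) * z₂ = w := by
  have e3 : ((starRingEnd ℂ) z₁ * z₂).im = z₁.re * z₂.im - z₁.im * z₂.re := by
    simp [Complex.mul_im]; ring
  rw [e3] at h
  obtain ⟨D, hD⟩ : ∃ D : ℝ, D = z₁.re * z₂.im - z₁.im * z₂.re := ⟨_, rfl⟩
  rw [← hD] at h
  refine ⟨(w.re * z₂.im - w.im * z₂.re) / D, (z₁.re * w.im - z₁.im * w.re) / D, ?_⟩
  apply Complex.ext
  · rw [Complex.add_re, Complex.re_ofReal_mul, Complex.re_ofReal_mul]
    field_simp
    rw [hD]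
    ring
  · rw [Complex.add_im, Complex.im_ofReal_mul, Complex.im_ofReal_mul]
    field_simp
    rw [hD]
    ring

/-- Numbers close to a negative unit number. -/
lemma TUP_near (t₀ η : ℝ) (hη : 0 < η) : ∃ ε : ℝ, 0 < ε ∧ ∀ v : ℂ,
    ‖v - -Complex.exp (Real.pi * t₀ * Complex.I)‖ < ε →
    ∃ t ρ : ℝ, |t - t₀| < η ∧ 0 < ρ ∧ v = -(ρ : ℂ) * Complex.exp (Real.pi * t * Complex.I) := by
  have hpi := Real.pi_pos
  set w : ℂ := -Complex.exp (Real.pi * t₀ * Complex.I) with hw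
  have hw0 : w ≠ 0 := neg_ne_zero.2 (Complex.exp_ne_zero _)
  have hc : ContinuousAt (fun v : ℂ => (v / w).arg) w := by
    have h1 : ContinuousAt (fun v : ℂ => v / w) w := by fun_prop (disch := assumption)
    have h2 : ContinuousAt Complex.arg (w / w) := by
      rw [div_self hw0]
      exact Complex.continuousAt_arg Complex.one_mem_slitPlane
    exact ContinuousAt.comp (f := fun v : ℂ => v / w) h2 h1
  have h1 : ∀ᶠ v in 𝓝 w, |(v / w).arg| < Real.pi * η := by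
    have h2 : ContinuousAt (fun v : ℂ => |(v / w).arg|) w := hc.abs
    have h3 : |(w / w).arg| < Real.pi * η := by
      rw [div_self hw0, Complex.arg_one, abs_zero]
      positivity
    exact h2.eventually (Iio_mem_nhds h3)
  have h2 : ∀ᶠ v in 𝓝 w, v ≠ 0 := isOpen_ne.mem_nhds hw0
  obtain ⟨ε, hε, h3⟩ := Metric.eventually_nhds_iff.1 (h1.and h2)
  refine ⟨ε, hε, fun v hv => ?_⟩
  obtain ⟨h4, h5⟩ := h3 (by rw [dist_eq_norm]; exact hv)
  refine ⟨t₀ + (v / w).arg / Real.pi, ‖v / w‖, ?_, ?_, ?_⟩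
  · rw [add_sub_cancel_left, abs_div, abs_of_pos hpi, div_lt_iff₀ hpi]
    linarith
  · exact norm_pos_iff.2 (div_ne_zero h5 hw0)
  · have h6 : v = w * (v / w) := by field_simp
    have h7 : v / w = ‖v / w‖ * Complex.exp ((v / w).arg * Complex.I) :=
      (Complex.norm_mul_exp_arg_mul_I _).symm
    have h8 : Complex.exp (Real.pi * ((t₀ + (v / w).arg / Real.pi : ℝ) : ℂ) * Complex.I) =
        Complex.exp (Real.pi * t₀ * Complex.I) * Complex.exp ((v / w).arg * Complex.I) := by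
      rw [← Complex.exp_add]
      congr 1
      have hpi' : (Real.pi : ℂ) ≠ 0 := by exact_mod_cast hpi.ne'
      push_cast
      field_simp
    rw [h8]
    conv_lhs => rw [h6, h7, hw]
    ring

/-- A primitive combination with phase close to a given one. -/
lemma TUP_window {z₁ z₂ : ℂ} (h : ((starRingEnd ℂ) z₁ * z₂).im ≠ 0) (t₀ η : ℝ) (hη : 0 < η) :
    ∃ (a b : ℤ) (t ρ : ℝ), Int.gcd a b = 1 ∧ |t - t₀| < η ∧ 0 < ρ ∧
      (a : ℂ) * z₁ + (b : ℂ) * z₂ = -(ρ : ℂ) * Complex.exp (Real.pi * t * Complex.I) := by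
  obtain ⟨ε, hε, hU⟩ := TUP_near t₀ η hη
  obtain ⟨x, y, hxy⟩ := TUP_cramer h (-Complex.exp (Real.pi * t₀ * Complex.I))
  obtain ⟨N, hN⟩ := exists_nat_gt ((‖z₁‖ + ‖z₂‖) / ε)
  have hz0 : 0 ≤ ‖z₁‖ + ‖z₂‖ := by positivity
  have hN0 : (0 : ℝ) < N := lt_of_le_of_lt (by positivity) hN
  have hNc : (N : ℂ) ≠ 0 := by exact_mod_cast hN0.ne'
  obtain ⟨a, ha⟩ : ∃ a : ℤ, a = ⌊(N : ℝ) * x⌋ := ⟨_, rfl⟩
  obtain ⟨b, hb⟩ : ∃ b : ℤ, b = ⌊(N : ℝ) * y⌋ := ⟨_, rfl⟩
  have hfl : ∀ r : ℝ, |(⌊r⌋ : ℝ) - r| ≤ 1 := by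
    intro r
    have h1 := Int.floor_le r
    have h2 := Int.lt_floor_add_one r
    rw [abs_le]
    constructor <;> linarith
  have h1 : ‖((a : ℂ) * z₁ + (b : ℂ) * z₂) / N - -Complex.exp (Real.pi * t₀ * Complex.I)‖ < ε := by
    have e1 : ((a : ℂ) * z₁ + (b : ℂ) * z₂) / N - -Complex.exp (Real.pi * t₀ * Complex.I) =
        ((((a : ℝ) - N * x : ℝ) : ℂ) * z₁ + (((b : ℝ) - N * y : ℝ) : ℂ) * z₂) / N := by
      rw [← hxy]
      push_cast
      field_simp
      ring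
    rw [e1, norm_div, Complex.norm_natCast, div_lt_iff₀ hN0]
    have e2 : ‖(((a : ℝ) - N * x : ℝ) : ℂ) * z₁ + (((b : ℝ) - N * y : ℝ) : ℂ) * z₂‖ ≤
        ‖z₁‖ + ‖z₂‖ := by
      refine (norm_add_le _ _).trans (add_le_add ?_ ?_)
      · rw [norm_mul, Complex.norm_real, Real.norm_eq_abs, ha]
        exact mul_le_of_le_one_left (norm_nonneg _) (hfl _)
      · rw [norm_mul, Complex.norm_real, Real.norm_eq_abs, hb]
        exact mul_le_of_le_one_left (norm_nonneg _) (hfl _)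
    rw [div_lt_iff₀ hε] at hN
    linarith
  obtain ⟨t, ρ, ht, hρ, hv⟩ := hU _ h1
  have hab : (a : ℂ) * z₁ + (b : ℂ) * z₂ =
      -((N * ρ : ℝ) : ℂ) * Complex.exp (Real.pi * t * Complex.I) := by
    rw [div_eq_iff hNc] at hv
    rw [hv]
    push_cast
    ring
  have hne : (a, b) ≠ (0, 0) := by
    intro h0
    have ha0 : a = 0 := congrArg Prod.fst h0
    have hb0 : b = 0 := congrArg Prod.snd h0
    rw [ha0, hb0] at hab
    have h2 : ((N * ρ : ℝ) : ℂ) * Complex.exp (Real.pi * t * Complex.I) = 0 := by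
      have : (0 : ℂ) = -((N * ρ : ℝ) : ℂ) * Complex.exp (Real.pi * t * Complex.I) := by
        simpa using hab
      linear_combination this
    rcases mul_eq_zero.1 h2 with h3 | h3
    · have : (N * ρ : ℝ) = 0 := by exact_mod_cast h3
      exact (mul_pos hN0 hρ).ne' this
    · exact Complex.exp_ne_zero _ h3
  have hg : 0 < Int.gcd a b := by
    rw [Nat.pos_iff_ne_zero]
    intro h0
    rw [Int.gcd_eq_zero_iff] at h0
    exact hne (by rw [h0.1, h0.2])
  obtain ⟨a', b', hco, ha', hb'⟩ := Int.exists_gcd_one hg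
  refine ⟨a', b', t, N * ρ / (Int.gcd a b : ℝ), hco, ht, ?_, ?_⟩
  · have : (0 : ℝ) < (Int.gcd a b : ℝ) := by exact_mod_cast hg
    positivity
  · have hgc : ((Int.gcd a b : ℕ) : ℂ) ≠ 0 := by exact_mod_cast hg.ne'
    have e1 : (a : ℂ) = a' * ((Int.gcd a b : ℕ) : ℂ) := by
      have := congrArg (fun n : ℤ => (n : ℂ)) ha'
      simpa using this
    have e2 : (b : ℂ) = b' * ((Int.gcd a b : ℕ) : ℂ) := by
      have := congrArg (fun n : ℤ => (n : ℂ)) hb'
      simpa using this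
    have e3 : (a' : ℂ) * z₁ + (b' : ℂ) * z₂ =
        ((a : ℂ) * z₁ + (b : ℂ) * z₂) / ((Int.gcd a b : ℕ) : ℂ) := by
      rw [eq_div_iff hgc]
      linear_combination z₁ * (-e1) + z₂ * (-e2)
    rw [e3, hab]
    push_cast
    ring

lemma TUP_generic {K : Type*} [AddCommGroup K] [Module.Finite ℤ K] [Module.Free ℤ K]
    (B : K →+ K →+ ℤ) : ∃ v : K →+ ℝ, ∀ x, v x = 0 ↔ x ∈ radical B := by
  classical
  obtain ⟨θ, hθ⟩ : ∃ θ : ℝ, Transcendental ℤ θ :=
    ⟨_, transcendental_liouvilleNumber (m := 2) le_rfl⟩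
  let b := Module.finBasis ℤ K
  let p : K →+ Polynomial ℤ :=
    ∑ i : Fin (Module.finrank ℤ K), ((Polynomial.monomial (i : ℕ)).toAddMonoidHom.comp
      (B.flip (b i)) : K →+ Polynomial ℤ)
  have hp : ∀ x, p x = ∑ i : Fin (Module.finrank ℤ K), Polynomial.monomial (i : ℕ) (B x (b i)) := by
    intro x
    simp [p, AddMonoidHom.finsetSum_apply]
  refine ⟨(Polynomial.aeval θ : Polynomial ℤ →ₐ[ℤ] ℝ).toRingHom.toAddMonoidHom.comp p, ?_⟩
  intro x
  constructor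
  · intro h0
    have h1 : Polynomial.aeval θ (p x) = 0 := h0
    have h2 : p x = 0 := by
      by_contra hne
      exact hθ ⟨p x, hne, h1⟩
    rw [mem_radical]
    have h3 : ∀ i, B x (b i) = 0 := by
      intro i
      have h4 := congrArg (fun q => Polynomial.coeff q (i : ℕ)) h2
      simp only [hp, Polynomial.finsetSum_coeff, Polynomial.coeff_monomial,
        Polynomial.coeff_zero] at h4
      rw [Finset.sum_eq_single i] at h4
      · simpa using h4
      · intro j _ hj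
        rw [if_neg]
        intro h5
        exact hj (Fin.ext h5)
      · simp
    intro y
    rw [← b.sum_repr y, map_sum]
    exact Finset.sum_eq_zero fun i _ => by rw [map_zsmul, h3, smul_zero]
  · intro h0
    rw [mem_radical] at h0
    show Polynomial.aeval θ (p x) = 0
    rw [hp]
    simp [h0]

section

variable {C : Type u} [Category.{v} C] [Preadditive C] [HasZeroObject C] [HasShift C ℤ]
  [∀ n : ℤ, (shiftFunctor C n).Additive] [Pretriangulated C]

/-- There are finitely many phases. -/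
lemma TUP_low {S : Slicing C} {a b : ℝ} {X : C} (h : S.In (Set.Ioc a b) X) :
    ∀ᶠ η in 𝓝[>] (0 : ℝ), S.In (Set.Icc (a + η) b) X := by
  obtain ⟨l, hl, hI⟩ := h
  have h1 : ∀ φ ∈ l, ∀ᶠ η in 𝓝[>] (0 : ℝ), a + η ≤ φ := by
    intro φ hφ
    have h2 : 0 < φ - a := sub_pos.2 (hI φ hφ).1
    have h3 : ∀ᶠ η in 𝓝 (0 : ℝ), η < φ - a := Iio_mem_nhds h2
    refine (h3.filter_mono nhdsWithin_le_nhds).mono (fun η hη => by linarith)
  have h2 : ∀ᶠ η in 𝓝[>] (0 : ℝ), ∀ φ ∈ l, a + η ≤ φ := by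
    clear hl
    induction l with
    | nil => simp
    | cons x l ih =>
      have h3 := ih (fun φ hφ => hI φ (by simp [hφ])) (fun φ hφ => h1 φ (by simp [hφ]))
      have h4 := h1 x (by simp)
      filter_upwards [h3, h4] with η h5 h6 φ hφ
      rcases List.mem_cons.1 hφ with rfl | h7
      · exact h6
      · exact h5 φ h7
  exact h2.mono fun η hη => ⟨l, hl, fun φ hφ => ⟨hη φ hφ, (hI φ hφ).2⟩⟩

end

variable (C : Type u) [Category.{v} C] [Preadditive C] [HasZeroObject C] [HasShift C ℤ]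
  [∀ n : ℤ, (shiftFunctor C n).Additive] [Pretriangulated C] [IsTriangulated C] [Linear ℂ C]
  [∀ n : ℤ, (shiftFunctor C n).Linear ℂ]

theorem p_TUP : Stmt_LFT C → Stmt_OPE C → Stmt_TUP C := by
  intro hLFT hOPE h σ φ N n S hS
  have hfin := h.finite
  have hfree := h.free
  have hcount : Countable (K0 C) := by
    obtain ⟨n, f, hf⟩ := Module.Finite.exists_fin' ℤ (K0 C)
    exact hf.countable
  -- the phases
  obtain ⟨η, hη, hSη⟩ : ∃ η : ℝ, 0 < η ∧
      ∀ l, σ.sl.In (Set.Icc (φ + η) (φ + N + 1)) (S l) := by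
    have h1 : ∀ᶠ η in 𝓝[>] (0 : ℝ), ∀ l, σ.sl.In (Set.Icc (φ + η) (φ + N + 1)) (S l) :=
      eventually_all.2 fun l => TUP_low (hS l)
    have h2 : ∀ᶠ η in 𝓝[>] (0 : ℝ), 0 < η := self_mem_nhdsWithin
    exact (h2.and h1).exists
  -- the radical
  obtain ⟨r, hr, s, hs, hspan, hind⟩ := exists_basis_of_finrank_two _ h.rank
  have hli : LinearIndependent ℤ ![r, s] := LinearIndependent.pair_iff.2 hind
  have hor := orient_iff.1 ((h.mem_Xreg σ).2 r hr s hs hli)
  obtain ⟨a, b, t, ρ, hg, ht, hρ, hab⟩ := TUP_window hor (φ + η / 2) (η / 2) (by positivity)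
  rw [abs_lt] at ht
  obtain ⟨δ, hδ⟩ : ∃ δ : K0 C, δ = a • r + b • s := ⟨_, rfl⟩
  have hδr : δ ∈ radical (eulerForm h.k3) := by
    rw [hδ]
    exact add_mem (Submodule.smul_mem _ _ hr) (Submodule.smul_mem _ _ hs)
  have hZδ : σ.Z δ = -(ρ : ℂ) * Complex.exp (Real.pi * t * Complex.I) := by
    rw [hδ, map_add, map_zsmul, map_zsmul, zsmul_eq_mul, zsmul_eq_mul, hab]
  have hδ0 : δ ≠ 0 := by
    rintro h0
    rw [h0, map_zero] at hZδ
    have h1 : (ρ : ℂ) * Complex.exp (Real.pi * t * Complex.I) = 0 := by linear_combination hZδ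
    rcases mul_eq_zero.1 h1 with h2 | h2
    · exact hρ.ne' (by exact_mod_cast h2)
    · exact Complex.exp_ne_zero _ h2
  have hprim : ∀ (x : K0 C) (n : ℤ), δ = n • x → n = 1 ∨ n = -1 := by
    intro x n hx
    have hn : n ≠ 0 := by
      rintro rfl
      rw [zero_smul] at hx
      exact hδ0 hx
    have hxr : x ∈ radical (eulerForm h.k3) := by
      rw [mem_radical] at hδr ⊢
      intro y
      have h1 := hδr y
      rw [hx, map_zsmul, AddMonoidHom.smul_apply, smul_eq_mul] at h1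
      exact (mul_eq_zero.1 h1).resolve_left hn
    obtain ⟨p, q, hpq⟩ := hspan x hxr
    have h1 : (a - n * p) • r + (b - n * q) • s = 0 := by
      have h2 : a • r + b • s = n • (p • r + q • s) := by rw [← hδ, hx, hpq]
      rw [sub_smul, sub_smul, mul_smul, mul_smul]
      rw [smul_add] at h2
      rw [sub_add_sub_comm, h2, sub_self]
    obtain ⟨h2, h3⟩ := hind _ _ h1
    have h4 : n ∣ (Int.gcd a b : ℤ) :=
      Int.dvd_coe_gcd ⟨p, by linarith⟩ ⟨q, by linarith⟩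
    rw [hg] at h4
    exact Int.isUnit_iff.1 (isUnit_of_dvd_one (by simpa using h4))
  have hS' : ∀ l, σ.sl.In (Set.Ioo t (t + N + 1)) (S l) := fun l =>
    (hSη l).mono (fun x hx => ⟨by linarith [hx.1], by linarith [hx.2]⟩)
  -- the direction of the perturbation
  obtain ⟨v, hv⟩ := TUP_generic (eulerForm h.k3)
  obtain ⟨u, hu⟩ : ∃ u : K0 C →+ ℂ, ∀ x, u x =
      Complex.I * Complex.exp (Real.pi * t * Complex.I) * (v x : ℂ) :=
    ⟨(AddMonoidHom.mulLeft (Complex.I * Complex.exp (Real.pi * t * Complex.I))).comp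
      (Complex.ofRealHom.toAddMonoidHom.comp v), fun x => rfl⟩
  obtain ⟨M, hM0, hM⟩ := Xreg.control h.psd' h.even h.rank (h.mem_Xreg σ)
  obtain ⟨s₀, hs₀, hs₁⟩ : ∃ s₀ : ℝ, 0 < s₀ ∧ s₀ * (M * nC u) < 1 := by
    have h1 : 0 ≤ M * nC u := mul_nonneg hM0 (nC_nonneg u)
    refine ⟨1 / (M * nC u + 1), by positivity, ?_⟩
    rw [div_mul_eq_mul_div, one_mul, div_lt_one (by positivity)]
    linarith
  obtain ⟨W, hW⟩ : ∃ W : ℝ → (K0 C →+ ℂ), ∀ s x, W s x = σ.Z x + ((s * s₀ : ℝ) : ℂ) * u x :=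
    ⟨fun s => σ.Z + (AddMonoidHom.mulLeft ((s * s₀ : ℝ) : ℂ)).comp u, fun s x => rfl⟩
  have hWrad : ∀ s, ∀ x ∈ radical (eulerForm h.k3), W s x = σ.Z x := by
    intro s x hx
    rw [hW, hu, (hv x).2 hx]
    simp
  have hcont : ∀ x, Continuous (fun s => W s x) := by
    intro x
    simp only [hW]
    fun_prop
  have hreg : ∀ s ∈ Set.Icc (0 : ℝ) 1, W s ∈ Xreg (eulerForm h.k3) := by
    intro s hs
    refine ⟨fun x hx => ?_, fun r hr s' hs' hrs => ?_⟩
    · have hx0 : x ≠ 0 := by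
        rintro rfl
        simp at hx
      have h1 := hM u x hx0 hx.le
      have h2 : 0 < ‖σ.Z x‖ := norm_pos_iff.2 ((h.mem_Xreg σ).1 x hx)
      intro h0
      rw [hW] at h0
      have h3 : ‖σ.Z x‖ = s * s₀ * ‖u x‖ := by
        have h4 : σ.Z x = -(((s * s₀ : ℝ) : ℂ) * u x) := by linear_combination h0
        rw [h4, norm_neg, norm_mul, Complex.norm_real, Real.norm_eq_abs,
          abs_of_nonneg (mul_nonneg hs.1 hs₀.le)]
      have h5 : s * s₀ * ‖u x‖ ≤ s₀ * ‖u x‖ :=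
        mul_le_mul_of_nonneg_right (mul_le_of_le_one_left hs₀.le hs.2) (norm_nonneg _)
      have h6 : s₀ * ‖u x‖ ≤ s₀ * (M * nC u) * ‖σ.Z x‖ := by
        rw [mul_assoc]
        exact mul_le_mul_of_nonneg_left h1 hs₀.le
      have h7 : s₀ * (M * nC u) * ‖σ.Z x‖ < 1 * ‖σ.Z x‖ := mul_lt_mul_of_pos_right hs₁ h2
      linarith
    · rw [hWrad s r hr, hWrad s s' hs']
      exact (h.mem_Xreg σ).2 r hr s' hs' hrs
  have hW0 : W 0 = σ.Z := by
    ext x
    rw [hW]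
    simp
  obtain ⟨Γ, hΓ0, hΓ⟩ := hLFT h σ W hcont hreg hW0
  -- the phases of the `S l` near `0`
  have hev : ∀ᶠ s in 𝓝 (0 : unitInterval), ∀ l, (Γ s).sl.In (Set.Ioo t (t + N + 1)) (S l) := by
    refine eventually_all.2 fun l => hOPE h Γ 0 (S l) t (t + N + 1) ?_
    rw [hΓ0]
    exact hS' l
  obtain ⟨ε, hε, hε'⟩ := Metric.eventually_nhds_iff.1 hev
  -- the bad parameters
  obtain ⟨bad, hbad⟩ : ∃ bad : Set ℝ, bad = ⋃ x : {x : K0 C // eulerForm h.k3 x x = 2},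
      {s : ℝ | σ.im t x.1 + s * s₀ * v x.1 = 0} := ⟨_, rfl⟩
  have hbadc : bad.Countable := by
    rw [hbad]
    refine Set.countable_iUnion (fun x => Set.Subsingleton.countable ?_)
    intro y hy z hz
    have hvx : v x.1 ≠ 0 := by
      intro h0
      have h1 := (hv x.1).1 h0
      rw [mem_radical] at h1
      have h2 := x.2
      rw [h1] at h2
      norm_num at h2
    have h1 : (y - z) * (s₀ * v x.1) = 0 := by
      have hy' : σ.im t x.1 + y * s₀ * v x.1 = 0 := hy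
      have hz' : σ.im t x.1 + z * s₀ * v x.1 = 0 := hz
      linear_combination hy' - hz'
    exact sub_eq_zero.1 ((mul_eq_zero.1 h1).resolve_right (mul_ne_zero hs₀.ne' hvx))
  obtain ⟨s₁, hs₁I, hs₁b⟩ : ∃ s₁ ∈ Set.Ioo (0 : ℝ) (min ε 1), s₁ ∉ bad := by
    have hd : Dense badᶜ := hbadc.dense_compl ℝ
    obtain ⟨x, hx1, hx2⟩ := hd.exists_mem_open isOpen_Ioo
      (Set.nonempty_Ioo.2 (lt_min hε one_pos) : (Set.Ioo (0 : ℝ) (min ε 1)).Nonempty)
    exact ⟨x, hx2, hx1⟩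
  have hs₁1 : s₁ < 1 := lt_of_lt_of_le hs₁I.2 (min_le_right _ _)
  have hs₁ε : s₁ < ε := lt_of_lt_of_le hs₁I.2 (min_le_left _ _)
  obtain ⟨w, hw⟩ : ∃ w : unitInterval, (w : ℝ) = s₁ := ⟨⟨s₁, hs₁I.1.le, hs₁1.le⟩, rfl⟩
  have hZw : ∀ x, (Γ w).Z x = σ.Z x + ((s₁ * s₀ : ℝ) : ℂ) * u x := by
    intro x
    rw [hΓ, hW, hw]
  have hexp : Complex.exp (Real.pi * t * Complex.I) * Complex.exp (-(Real.pi * t * Complex.I)) =
      1 := by
    rw [← Complex.exp_add, add_neg_cancel, Complex.exp_zero]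
  have hδw : (Γ w).Z δ * Complex.exp (-(Real.pi * t * Complex.I)) = ((-ρ : ℝ) : ℂ) := by
    have h1 : (Γ w).Z δ = σ.Z δ := by
      rw [hΓ, hWrad _ δ hδr]
    rw [h1, hZδ, mul_assoc, hexp]
    push_cast
    ring
  refine ⟨Γ w, t, δ, ?_, ⟨hδr, hδ0, hprim, ?_, ?_, ?_⟩, ?_⟩
  · rw [← hΓ0]
    refine ⟨⟨⟨fun s => Γ (s * w), ?_⟩, ?_, ?_⟩⟩
    · exact Γ.continuous.comp (continuous_id.mul continuous_const)
    · show Γ (0 * w) = Γ 0
      rw [zero_mul]
    · show Γ (1 * w) = Γ w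
      rw [one_mul]
  · rw [StabCond.im_apply, hδw, Complex.ofReal_im]
  · rw [StabCond.re_apply, hδw, Complex.ofReal_re]
    linarith
  · intro α hα h0
    apply hs₁b
    rw [hbad, Set.mem_iUnion]
    refine ⟨⟨α, hα⟩, ?_⟩
    show σ.im t α + s₁ * s₀ * v α = 0
    rw [← h0, StabCond.im_apply, StabCond.im_apply, hZw, hu]
    have h1 : (σ.Z α + ((s₁ * s₀ : ℝ) : ℂ) *
        (Complex.I * Complex.exp (Real.pi * t * Complex.I) * (v α : ℂ))) *
        Complex.exp (-(Real.pi * t * Complex.I)) =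
        σ.Z α * Complex.exp (-(Real.pi * t * Complex.I)) +
          ((s₁ * s₀ * v α : ℝ) : ℂ) * Complex.I := by
      push_cast
      linear_combination (s₁ * s₀ * Complex.I * v α : ℂ) * hexp
    rw [h1, Complex.add_im, Complex.mul_I_im, Complex.ofReal_re]
  · refine hε' ?_
    rw [Subtype.dist_eq, hw, Set.Icc.coe_zero, Real.dist_eq, sub_zero, abs_of_pos hs₁I.1]
    exact hs₁ε

end Pool.Align
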