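import Pool.Agent.Work.MP_841263_al.Interface

/-! # Alignment, block UNQ: uniqueness of an aligned stability condition with a given charge (helper4) -/

set_option autoImplicit false

open CategoryTheory CategoryTheory.Limits CategoryTheory.Pretriangulated
open scoped ZeroObject Topology
open Filter

set_option backward.isDefEq.respectTransparency false
set_option backward.defeqAttrib.useBackward true
set_option linter.unusedSectionVars false

namespace Pool.Align

open Pool.Stab Pool.Tube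

universe v u

variable {C : Type u} [Category.{v} C] [Preadditive C] [HasZeroObject C] [HasShift C ℤ]
  [∀ n : ℤ, (shiftFunctor C n).Additive] [Pretriangulated C]

lemma UNQ_shift (S : Slicing C) {φ : ℝ} {X : C} (hX : S.P φ X) (n : ℤ) :
    S.P (φ + n) (X⟦n⟧) := by
  have h1 : S.In ((· + (n : ℝ)) '' {φ}) (X⟦n⟧) :=
    Slicing.In.shift (Slicing.in_of_P hX (Set.mem_singleton φ)) n
  refine Slicing.In.P_of_singleton (h1.mono ?_)
  rintro _ ⟨x, hx, rfl⟩
  have hx' : x = φ := hx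
  subst hx'
  exact Set.mem_singleton _

variable [IsTriangulated C] [Linear ℂ C] [∀ n : ℤ, (shiftFunctor C n).Linear ℂ]

/-- The real part of a class is an integer multiple of the real part of `ε`. -/
lemma UNQ_re {h : EllipticSetting C} {τ : StabCond C} {t : ℝ} {ε : K0 C} {n : ℕ}
    {β : Fin n → K0 C} (hF : Frame h τ t ε β) (hβ : ∀ l, τ.re t (β l) = 0) (x : K0 C) :
    ∃ k : ℤ, τ.re t x = k * τ.re t ε := by
  obtain ⟨k, c, rfl⟩ := hF.span x
  refine ⟨k, ?_⟩
  rw [map_add, map_zsmul, map_sum]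
  have h1 : ∑ i, τ.re t (c i • β i) = 0 := by
    refine Finset.sum_eq_zero fun i _ => ?_
    rw [map_zsmul, hβ i, smul_zero]
  rw [h1, add_zero, zsmul_eq_mul]

/-- The real part of an object with phases in `(t + 1/2, t + 3/2)`. -/
lemma UNQ_len {h : EllipticSetting C} {τ : StabCond C} {t : ℝ} {ε : K0 C} {n : ℕ}
    {β : Fin n → K0 C} (hF : Frame h τ t ε β) (hβ : ∀ l, τ.re t (β l) = 0) {X : C}
    {l : List ℝ} (hX : HN τ.sl.P X l)
    (hl : ∀ φ ∈ l, φ ∈ Set.Ioo (t + 1 / 2) (t + 3 / 2)) :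
    τ.re t (cls X) ≤ (l.length : ℝ) * τ.re t ε := by
  induction hX with
  | zero h => rw [cls_of_isZero h, map_zero]; simp
  | @step X Y A φ l hX hφ hA hA0 f g k hT ih =>
    rw [cls_mk hT, map_add]
    have h1 := ih (fun ψ hψ => hl ψ (by simp [hψ]))
    have h2 := hl φ (by simp)
    have h3 : τ.re t (cls A) < 0 := by
      obtain ⟨hp, hre, -⟩ := τ.polar t hA hA0
      rw [hre]
      have h4 : Real.cos (Real.pi * (φ - t)) < 0 := by
        refine Real.cos_neg_of_pi_div_two_lt_of_lt ?_ ?_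
        · nlinarith [Real.pi_pos, h2.1]
        · nlinarith [Real.pi_pos, h2.2]
      exact mul_neg_of_pos_of_neg hp h4
    obtain ⟨k', hk⟩ := UNQ_re hF hβ (cls A)
    have h5 : τ.re t ε < 0 := hF.re0
    have h6 : (1 : ℝ) ≤ k' := by
      have h7 : (0 : ℝ) < k' := by
        rw [hk] at h3
        by_contra hcon
        have h8 := mul_nonneg_of_nonpos_of_nonpos (not_lt.1 hcon) h5.le
        linarith
      have h9 : (0 : ℤ) < k' := by exact_mod_cast h7
      exact_mod_cast (by omega : (1 : ℤ) ≤ k')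
    have h10 : τ.re t (cls A) ≤ τ.re t ε := by
      rw [hk]
      nlinarith
    have h11 : (((φ :: l).length : ℕ) : ℝ) = (l.length : ℝ) + 1 := by
      rw [List.length_cons]; push_cast; ring
    rw [h11]
    linarith

/-- The objects `IsS l 1` of `σ` and of `τ` are the same. -/
lemma UNQ_one (hTOB : Stmt_TOB C) {h : EllipticSetting C} {ε : K0 C} {n : ℕ}
    {β : Fin n → K0 C} {m : Fin n → ℕ} {o : Fin n} {S : Fin n → C} (hC : Coll h ε β m o S)
    {σ τ : StabCond C} {t : ℝ} (hσ : Aligned t ε S σ) (hτ : Aligned t ε S τ)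
    (him : τ.im t ε = 0) (hZ : σ.Z = τ.Z) (hFσ : Frame h σ t ε β) (hFτ : Frame h τ t ε β)
    (hβ : ∀ l, τ.re t (β l) = 0) (l : Fin n) :
    ∃ X, IsS σ t ε β l 1 X ∧ IsS τ t ε β l 1 X := by
  obtain ⟨E, hE, hsph, φ, hφ1, hφ2, hP⟩ := c_EXI C h σ t ε n β hFσ l 1
  refine ⟨E, hE, ?_⟩
  have hE0 : ¬ IsZero E := hE.1.2.1
  have hreq : σ.re t = τ.re t := by unfold StabCond.re; rw [hZ]
  have hcls : cls E = β l + ε := by rw [hE.2, one_zsmul]
  have hre : τ.re t (cls E) = τ.re t ε := by rw [hcls, map_add, hβ l, zero_add]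
  have hre0 : τ.re t ε < 0 := hFτ.re0
  -- the phase of `E`
  have hφ3 : t + 1 / 2 < φ := by
    obtain ⟨hp, h1, -⟩ := σ.polar t hP hE0
    rw [hreq, hre] at h1
    by_contra hcon
    have h2 : 0 ≤ Real.cos (Real.pi * (φ - t)) := by
      refine Real.cos_nonneg_of_neg_pi_div_two_le_of_le ?_ ?_
      · nlinarith [Real.pi_pos]
      · nlinarith [Real.pi_pos, not_lt.1 hcon]
    have h3 := mul_nonneg hp.le h2
    linarith
  have hk3 := h.k3
  have hdeg : ∀ l' (p : ℤ), p ≠ 0 → p ≠ 1 → ∀ f : S l' ⟶ E⟦p⟧, f = 0 := by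
    intro l' p hp0 hp1 f
    by_cases hp : p < 0
    · refine σ.sl.hom_zero ?_ (hσ.P l') (UNQ_shift σ.sl hP p) f
      have h1 : (p : ℝ) ≤ -1 := by exact_mod_cast (by omega : p ≤ -1)
      linarith
    · have h2 : (2 : ℤ) ≤ p := by omega
      refine forall_zero_of_finrank hk3 ?_ f
      rw [finrank_duality hk3]
      refine finrank_of_forall_zero fun g => ?_
      refine σ.sl.hom_zero ?_ hP (UNQ_shift σ.sl (hσ.P l') (2 - p)) g
      have h3 : (((2 - p : ℤ) : ℤ) : ℝ) ≤ 0 := by exact_mod_cast (by omega : 2 - p ≤ 0)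
      linarith
  have hrig : Rigid E := hsph.2 1 (by norm_num) (by norm_num)
  obtain ⟨L, hL, hLI⟩ := hTOB h ε n β m o S hC τ t hτ him E hrig hdeg
  have hlen := UNQ_len hFτ hβ hL hLI
  rw [hre] at hlen
  have hL1 : L.length ≤ 1 := by
    by_contra hcon
    have h1 : (2 : ℝ) ≤ (L.length : ℝ) := by exact_mod_cast (by omega : 2 ≤ L.length)
    nlinarith
  have hτP : ∃ ψ : ℝ, t + 1 / 2 < ψ ∧ ψ < t + 3 / 2 ∧ τ.sl.P ψ E := by
    match L, hL, hLI, hL1 with
    | [], hL, _, _ => cases hL with | zero h0 => exact absurd h0 hE0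
    | [ψ], hL, hLI, _ =>
      obtain ⟨h1, h2⟩ := hLI ψ (by simp)
      refine ⟨ψ, h1, h2, Slicing.In.P_of_singleton ⟨[ψ], hL, ?_⟩⟩
      intro χ hχ
      simpa using hχ
    | _ :: _ :: _, _, _, hL1 => simp at hL1
  obtain ⟨ψ, hψ1, hψ2, hψP⟩ := hτP
  -- the phase for `τ` is smaller than `t + 1`
  have him2 : 0 < τ.im t (cls E) := by
    rw [hcls, map_add, him, add_zero]
    exact hFτ.pos l
  have hψ3 : ψ < t + 1 := by
    obtain ⟨hp, -, h1⟩ := τ.polar t hψP hE0
    rw [h1] at him2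
    by_contra hcon
    have h2 : Real.sin (Real.pi * (ψ - t)) ≤ 0 := by
      have h3 : Real.sin (Real.pi * (ψ - t)) = - Real.sin (Real.pi * (ψ - t) - Real.pi) := by
        rw [Real.sin_sub_pi, neg_neg]
      rw [h3]
      have h4 : 0 ≤ Real.sin (Real.pi * (ψ - t) - Real.pi) := by
        refine Real.sin_nonneg_of_nonneg_of_le_pi ?_ ?_
        · nlinarith [Real.pi_pos, not_lt.1 hcon]
        · nlinarith [Real.pi_pos]
      linarith
    have h5 := mul_nonpos_of_nonneg_of_nonpos hp.le h2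
    linarith
  exact ⟨τ.tf_of_in (Slicing.in_of_P hψP ⟨by linarith, hψ3⟩) hE0, hE.2⟩

theorem p_UNQ {C : Type u} [Category.{v} C] [Preadditive C] [HasZeroObject C] [HasShift C ℤ]
    [∀ n : ℤ, (shiftFunctor C n).Additive] [Pretriangulated C] [IsTriangulated C] [Linear ℂ C]
    [∀ n : ℤ, (shiftFunctor C n).Linear ℂ] : Stmt_FRA C → Stmt_TOB C → Stmt_UNQ C := by
  intro hFRA hTOB h ε n β m o S hC σ τ t hσ hτ him hZ
  have hime : σ.im t = τ.im t := by unfold StabCond.im; rw [hZ]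
  have hreq : σ.re t = τ.re t := by unfold StabCond.re; rw [hZ]
  obtain ⟨hFσ, hSσ, -⟩ := hFRA h ε n β m o S hC σ t hσ (by rw [hime]; exact him)
  obtain ⟨hFτ, hSτ, hβ⟩ := hFRA h ε n β m o S hC τ t hτ him
  have h0 : ∀ l, ∃ X, IsS σ t ε β l 0 X ∧ IsS τ t ε β l 0 X := fun l =>
    ⟨S l, hSσ l, hSτ l⟩
  have h1 := UNQ_one hTOB hC hσ hτ him hZ hFσ hFτ hβ
  have h2 : ∀ i (k : ℤ), ∃ X, IsS σ t ε β i k X ∧ IsS τ t ε β i k X := fun i =>
    c_UQ1 C h σ τ t ε n β hFσ hFτ i (h0 i) (h1 i)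
  have h3 := c_UQ2 C h σ τ t ε n β hFσ hFτ h2
  have h4 := c_UQ2 C h τ σ t ε n β hFτ hFσ (fun i k => by
    obtain ⟨X, hX, hX'⟩ := h2 i k
    exact ⟨X, hX', hX⟩)
  exact c_UQ3 C σ τ t hZ.symm (fun X => ⟨h3 X, h4 X⟩)

end Pool.Align
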