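import Pool.Agent.Work.MP_841263_al.Interface

set_option autoImplicit false
set_option linter.unusedSectionVars false

/-! # MP_841263, alignment, block WLK: the walk through the chambers (helper88) -/

open CategoryTheory CategoryTheory.Limits CategoryTheory.Pretriangulated
open scoped ZeroObject Topology
open Filter

namespace Pool.Align

open Pool.Stab Pool.Tube

universe v u

variable {C : Type u} [Category.{v} C] [Preadditive C] [HasZeroObject C] [HasShift C ℤ]
  [∀ n : ℤ, (shiftFunctor C n).Additive] [Pretriangulated C] [IsTriangulated C] [Linear ℂ C]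
  [∀ n : ℤ, (shiftFunctor C n).Linear ℂ]

theorem p_WLK (hREF : Stmt_REF.{u}) (hNFI : Stmt_NFI.{u}) (hNDE : Stmt_NDE.{u})
    (hCRS : Stmt_CRS C) : Stmt_WLK C := by
  intro h N S t δ n y hyδ hyroot hyS
  have := h.finite
  have := h.free
  have key : ∀ (M : ℕ) (σ : StabCond C) (α : Fin n → K0 C), Frame h σ t δ α →
      (∀ r ∈ radical (eulerForm h.k3), 0 < σ.im t r → 0 < y r) → Fam σ t S →
      (Neg (eulerForm h.k3) y α).ncard = M →
      ∃ (σ' : StabCond C) (α' : Fin n → K0 C), Joined σ σ' ∧ Frame h σ' t δ α' ∧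
        (∀ i, 0 < y (α' i)) ∧ Fam σ' t S := by
    intro M
    induction M using Nat.strong_induction_on with
    | _ M ih =>
      intro σ α hF hrad hFam hM
      have hL : LatHyp (eulerForm h.k3) (σ.im t) δ := c_LHY C h σ t δ hF.toTubeHyp
      by_cases hall : ∀ i, 0 < y (α i)
      · exact ⟨σ, α, Joined.refl σ, hF, hall, hFam⟩
      · push Not at hall
        obtain ⟨j, hj⟩ := hall
        have hj0 : y (α j) ≠ 0 := hyroot _ (hF.toSimpleRoots.norm j)
        have hj1 : y (α j) < 0 := lt_of_le_of_ne hj hj0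
        have hne : ∀ l (k : ℤ), cls (S l) ≠ α j + k • δ := by
          intro l k e
          have h1 := hyS l
          rw [e, map_add, map_zsmul, hyδ, smul_zero, add_zero] at h1
          exact absurd h1 (not_lt.2 hj)
        obtain ⟨σ', hJ, hF', hFam'⟩ := hCRS h σ t δ n α hF N S hFam j hne
        have hL' : LatHyp (eulerForm h.k3) (σ'.im t) δ := c_LHY C h σ' t δ hF'.toTubeHyp
        obtain ⟨-, hR⟩ := hREF (K0 C) (eulerForm h.k3) (σ.im t) δ hL n α hF.toSimpleRoots j
          (σ'.im t) hL'.im0 hF'.toSimpleRoots.pos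
        have hfin := hNFI (K0 C) (eulerForm h.k3) (σ.im t) δ hL n α hF.toSimpleRoots y hyδ hrad
        obtain ⟨-, hlt⟩ := hNDE (K0 C) (eulerForm h.k3) (σ.im t) δ hL n α hF.toSimpleRoots y
          hyδ hfin j hj1
        have hrad' : ∀ r ∈ radical (eulerForm h.k3), 0 < σ'.im t r → 0 < y r := by
          intro r hr h0
          rcases lt_trichotomy (σ.im t r) 0 with h1 | h1 | h1
          · have h2 := hR (-r) (neg_mem hr) (by rw [map_neg]; linarith)
            rw [map_neg] at h2
            linarith
          · obtain ⟨k, hk⟩ := hL.imrad r hr h1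
            rw [hk, map_zsmul, hL'.im0, smul_zero] at h0
            exact absurd h0 (lt_irrefl _)
          · exact hrad r hr h1
        obtain ⟨σ'', α', hJ', h3⟩ := ih _ (hM ▸ hlt) σ' _ hF' hrad' hFam' rfl
        exact ⟨σ'', α', hJ.trans hJ', h3⟩
  intro σ α hF hrad hFam
  exact key _ σ α hF hrad hFam rfl

end Pool.Align
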