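import Mathlib
import Pool.Agent.Work.MP_841263_al.Top
import Pool.Agent.Work.MP_841263_o.Final

/-!
# Path connectedness of the space of stability conditions: end of the proof
-/

open CategoryTheory CategoryTheory.Limits CategoryTheory.Pretriangulated
open scoped ZeroObject Topology
open Filter

set_option backward.isDefEq.respectTransparency false
set_option backward.defeqAttrib.useBackward true
set_option linter.unusedSectionVars false

namespace Pool.Align

open Pool.Stab Pool.Tube

universe v u v' u'

section abstract

variable {E X : Type*} [TopologicalSpace E] [TopologicalSpace X] {p : E → X}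

/-- A path connected covering space is simply connected if and only if only trivial loops of the base have a closed lift
at a point, in the form: the monodromy of loops at that point is injective. -/
theorem simplyConnected_iff_injective (cov : IsCoveringMap p) (e₀ : E)
    (hj : ∀ e : E, Joined e₀ e) :
    SimplyConnectedSpace E ↔ Function.Injective
      (fun γ : Path.Homotopic.Quotient (p e₀) (p e₀) => cov.monodromy γ ⟨e₀, rfl⟩) := by
  have hX : ∀ e : E, Joined (p e) (p e₀) := fun e => by
    obtain ⟨γ⟩ := hj e
    exact ⟨(γ.map cov.continuous).symm⟩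
  have hpc : PathConnectedSpace E :=
    { nonempty := ⟨e₀⟩, joined := fun x y => (hj x).symm.trans (hj y) }
  rw [simplyConnected_iff_monodromy cov e₀ hX]
  constructor
  · intro h γ₁ γ₂ h12
    exact (h (cov.monodromy γ₁ ⟨e₀, rfl⟩)).unique rfl h12.symm
  · intro h e
    have he : p e.1 = p e₀ := e.2
    let Γ : Path.Homotopic.Quotient e₀ e.1 := .mk (PathConnectedSpace.somePath e₀ e.1)
    have h1 : cov.monodromy ((Γ.map ⟨p, cov.continuous⟩).cast rfl he.symm) ⟨e₀, rfl⟩ = e := by
      refine cov.monodromy_eq_of_map_eq (ex := ⟨e₀, rfl⟩) (ey := e) Γ ?_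
      rw [Path.Homotopic.Quotient.cast_cast, Path.Homotopic.Quotient.cast_rfl_rfl]
    refine ⟨_, h1, ?_⟩
    intro γ' hγ'
    have hγ'' : cov.monodromy γ' ⟨e₀, rfl⟩ = e := hγ'
    exact h (hγ''.trans h1.symm)

end abstract

variable {C : Type u} [Category.{v} C] [Preadditive C] [HasZeroObject C] [HasShift C ℤ]
  [∀ n : ℤ, (shiftFunctor C n).Additive] [Pretriangulated C] [IsTriangulated C] [Linear ℂ C]
  [∀ n : ℤ, (shiftFunctor C n).Linear ℂ]

/-- The orientation is constant on path components. -/
theorem orient_joined (h : EllipticSetting C) {r s : K0 C}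
    (hr : r ∈ radical (eulerForm h.k3)) (hs : s ∈ radical (eulerForm h.k3))
    (hrs : LinearIndependent ℤ ![r, s]) {σ τ : StabCond C} (hj : Joined σ τ) :
    0 < orientOf σ.Z r s * orientOf τ.Z r s := by
  obtain ⟨γ⟩ := hj
  have hcont : Continuous (fun x : unitInterval => (γ x).orient r s * σ.orient r s) :=
    ((continuous_orient r s).comp γ.continuous).mul continuous_const
  have hne : ∀ x : unitInterval, (γ x).orient r s * σ.orient r s ≠ 0 := fun x =>
    mul_ne_zero (orient_ne h hr hs hrs _) (orient_ne h hr hs hrs _)
  have hclopen : IsClopen {x : unitInterval | 0 < (γ x).orient r s * σ.orient r s} := by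
    refine ⟨?_, isOpen_lt continuous_const hcont⟩
    have : {x : unitInterval | 0 < (γ x).orient r s * σ.orient r s} =
        {x : unitInterval | 0 ≤ (γ x).orient r s * σ.orient r s} := by
      ext x
      constructor
      · intro h1
        have h2 : 0 < (γ x).orient r s * σ.orient r s := h1
        exact h2.le
      · intro h1
        have h2 : 0 ≤ (γ x).orient r s * σ.orient r s := h1
        exact lt_of_le_of_ne h2 (hne x).symm
    rw [this]
    exact isClosed_le continuous_const hcont
  have h0 : (0 : unitInterval) ∈ {x : unitInterval | 0 < (γ x).orient r s * σ.orient r s} := by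
    have : (γ 0).orient r s * σ.orient r s = σ.orient r s * σ.orient r s := by rw [γ.source]
    show 0 < (γ 0).orient r s * σ.orient r s
    rw [this]
    exact mul_self_pos.2 (orient_ne h hr hs hrs σ)
  have huniv := hclopen.eq_univ ⟨0, h0⟩
  have h1 : (1 : unitInterval) ∈ {x : unitInterval | 0 < (γ x).orient r s * σ.orient r s} := by
    rw [huniv]; trivial
  have h2 : 0 < (γ 1).orient r s * σ.orient r s := h1
  rw [γ.target, mul_comm] at h2
  exact h2

variable {T : Type u'} [Category.{v'} T] [Preadditive T] [HasZeroObject T] [HasShift T ℤ]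
  [∀ n : ℤ, (shiftFunctor T n).Additive] [Pretriangulated T] [IsTriangulated T] [Linear ℂ T]
  [∀ n : ℤ, (shiftFunctor T n).Linear ℂ]
  {ι : C ⥤ T} [ι.CommShift ℤ] [ι.IsTriangulated] [ι.Full] [ι.Faithful] [ι.Linear ℂ]

/-- **The space of stability conditions is path connected.** -/
theorem joined_of_param (hEND : Stmt_END C) (h : EllipticSetting C) {G : T} {t : G ⟶ G}
    (ht : Param ι t) {A B : C} (hB : IsCone ι t B) (hA : cls A ∈ radical (eulerForm h.k3))
    (hdeg : degChar ι G A ≠ 0) (σ τ : StabCond C) : Joined σ τ := by
  have := h.finite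
  have := h.free
  have hBr : cls B ∈ radical (eulerForm h.k3) := cone_mem_radical h.k3 ht hB
  have hpos := (h.one_orientation ht hB hA hdeg).1
  refine hEND h _ _ hBr hA (h.toSetting.independent ht hB hA hdeg σ) σ τ ?_
  have hd : (0 : ℝ) < (degChar ι G A : ℝ) * (degChar ι G A : ℝ) := by
    have : (degChar ι G A : ℝ) ≠ 0 := by exact_mod_cast hdeg
    exact mul_self_pos.2 this
  have h1 := mul_pos (hpos σ) (hpos τ)
  have h2 : 0 < (orientOf σ.Z (cls B) (cls A) * orientOf τ.Z (cls B) (cls A)) *
      ((degChar ι G A : ℝ) * (degChar ι G A : ℝ)) := by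
    calc (0 : ℝ) < _ := h1
      _ = _ := by ring
  exact (pos_iff_pos_of_mul_pos h2).2 hd

end Pool.Align
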