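import Mathlib
import Pool.Agent.Work.MP_841263_al.B_HOM
import Pool.Agent.Work.MP_841263_al.B_SRY
import Pool.Agent.Work.MP_841263_al.B_REF
import Pool.Agent.Work.MP_841263_al.B_LBL
import Pool.Agent.Work.MP_841263_al.B_SPE
import Pool.Agent.Work.MP_841263_al.B_CRN
import Pool.Agent.Work.MP_841263_al.B_SIM
import Pool.Agent.Work.MP_841263_al.B_COR
import Pool.Agent.Work.MP_841263_al.B_DOM
import Pool.Agent.Work.MP_841263_al.B_NFI
import Pool.Agent.Work.MP_841263_al.B_NDE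
import Pool.Agent.Work.MP_841263_al.B_LFT
import Pool.Agent.Work.MP_841263_al.B_NEA
import Pool.Agent.Work.MP_841263_al.B_LIM
import Pool.Agent.Work.MP_841263_al.B_OPE
import Pool.Agent.Work.MP_841263_al.B_SAM
import Pool.Agent.Work.MP_841263_al.B_HRT
import Pool.Agent.Work.MP_841263_al.B_MON
import Pool.Agent.Work.MP_841263_al.B_BDS
import Pool.Agent.Work.MP_841263_al.B_GAT
import Pool.Agent.Work.MP_841263_al.B_CRP
import Pool.Agent.Work.MP_841263_al.B_DIC
import Pool.Agent.Work.MP_841263_al.B_WAL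
import Pool.Agent.Work.MP_841263_al.B_CRS
import Pool.Agent.Work.MP_841263_al.B_WLK
import Pool.Agent.Work.MP_841263_al.B_PER
import Pool.Agent.Work.MP_841263_al.B_SPL
import Pool.Agent.Work.MP_841263_al.B_ALN
import Pool.Agent.Work.MP_841263_al.B_PTH
import Pool.Agent.Work.MP_841263_al.B_FRA
import Pool.Agent.Work.MP_841263_al.B_SMT
import Pool.Agent.Work.MP_841263_al.B_KPA
import Pool.Agent.Work.MP_841263_al.B_KPT
import Pool.Agent.Work.MP_841263_al.B_LIN
import Pool.Agent.Work.MP_841263_al.B_SPR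
import Pool.Agent.Work.MP_841263_al.B_KFO
import Pool.Agent.Work.MP_841263_al.B_TOB
import Pool.Agent.Work.MP_841263_al.B_UNQ
import Pool.Agent.Work.MP_841263_al.B_SPX
import Pool.Agent.Work.MP_841263_al.B_FIA
import Pool.Agent.Work.MP_841263_al.B_SEM
import Pool.Agent.Work.MP_841263_al.B_TUP
import Pool.Agent.Work.MP_841263_al.B_CLO
import Pool.Agent.Work.MP_841263_al.B_AMP
import Pool.Agent.Work.MP_841263_al.B_END
import Pool.Agent.Work.MP_841263_al.Fin

/-!
# Alignment and uniqueness: all blocks proved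
-/

open CategoryTheory CategoryTheory.Limits CategoryTheory.Pretriangulated

set_option linter.unusedSectionVars false

namespace Pool.Align

open Pool.Stab Pool.Tube

universe v u

theorem h_HOM : Stmt_HOM.{u} := p_HOM
theorem h_SRY : Stmt_SRY.{u} := p_SRY
theorem h_REF : Stmt_REF.{u} := p_REF
theorem h_LBL : Stmt_LBL.{u} := p_LBL
theorem h_SPE : Stmt_SPE.{u} := p_SPE
theorem h_CRN : Stmt_CRN.{u} := p_CRN
theorem h_SIM : Stmt_SIM.{u} := p_SIM
theorem h_COR : Stmt_COR.{u} := p_COR h_HOM h_CRN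
theorem h_DOM : Stmt_DOM.{u} := p_DOM
theorem h_NFI : Stmt_NFI.{u} := p_NFI h_LBL
theorem h_NDE : Stmt_NDE.{u} := p_NDE

variable (C : Type u) [Category.{v} C] [Preadditive C] [HasZeroObject C] [HasShift C ℤ]
  [∀ n : ℤ, (shiftFunctor C n).Additive] [Pretriangulated C] [IsTriangulated C] [Linear ℂ C]
  [∀ n : ℤ, (shiftFunctor C n).Linear ℂ]

theorem h_LFT : Stmt_LFT C := by
  first
  | exact p_LFT
  | exact p_LFT C
theorem h_NEA : Stmt_NEA C := by
  first
  | exact p_NEA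
  | exact p_NEA C
theorem h_LIM : Stmt_LIM C := by
  first
  | exact p_LIM (h_NEA C)
  | exact p_LIM C (h_NEA C)
theorem h_OPE : Stmt_OPE C := by
  first
  | exact p_OPE (h_NEA C)
  | exact p_OPE C (h_NEA C)
theorem h_SAM : Stmt_SAM C := by
  first
  | exact p_SAM
  | exact p_SAM C
theorem h_HRT : Stmt_HRT C := by
  first
  | exact p_HRT
  | exact p_HRT C
theorem h_MON : Stmt_MON C := by
  first
  | exact p_MON
  | exact p_MON C
theorem h_BDS : Stmt_BDS C := by
  first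
  | exact p_BDS
  | exact p_BDS C
theorem h_GAT : Stmt_GAT C := by
  first
  | exact p_GAT (h_MON C) (h_BDS C)
  | exact p_GAT C (h_MON C) (h_BDS C)
theorem h_CRP : Stmt_CRP C := by
  first
  | exact p_CRP h_HOM h_REF
  | exact p_CRP C h_HOM h_REF
theorem h_DIC : Stmt_DIC C := by
  first
  | exact p_DIC (h_LIM C) (h_SAM C) (h_HRT C)
  | exact p_DIC C (h_LIM C) (h_SAM C) (h_HRT C)
theorem h_WAL : Stmt_WAL C := by
  first
  | exact p_WAL (h_LIM C) (h_SAM C) (h_HRT C) (h_DIC C)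
  | exact p_WAL C (h_LIM C) (h_SAM C) (h_HRT C) (h_DIC C)
theorem h_CRS : Stmt_CRS C := by
  first
  | exact p_CRS (h_LFT C) (h_OPE C) (h_SAM C) (h_HRT C) (h_GAT C) (h_CRP C) (h_WAL C)
  | exact p_CRS C (h_LFT C) (h_OPE C) (h_SAM C) (h_HRT C) (h_GAT C) (h_CRP C) (h_WAL C)
theorem h_WLK : Stmt_WLK C := by
  first
  | exact p_WLK h_REF h_NFI h_NDE (h_CRS C)
  | exact p_WLK C h_REF h_NFI h_NDE (h_CRS C)
theorem h_PER : Stmt_PER C := by
  first
  | exact p_PER (h_LFT C) (h_OPE C)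
  | exact p_PER C (h_LFT C) (h_OPE C)
theorem h_SPL : Stmt_SPL C := by
  first
  | exact p_SPL
  | exact p_SPL C
theorem h_ALN : Stmt_ALN C := by
  first
  | exact p_ALN h_HOM (h_HRT C) h_DOM (h_SPL C)
  | exact p_ALN C h_HOM (h_HRT C) h_DOM (h_SPL C)
theorem h_PTH : Stmt_PTH C := by
  first
  | exact p_PTH (h_LFT C) (h_LIM C) (h_OPE C)
  | exact p_PTH C (h_LFT C) (h_LIM C) (h_OPE C)
theorem h_FRA : Stmt_FRA C := by
  first
  | exact p_FRA h_SRY
  | exact p_FRA C h_SRY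
theorem h_SMT : Stmt_SMT C := by
  first
  | exact p_SMT
  | exact p_SMT C
theorem h_KPA : Stmt_KPA C := by
  first
  | exact p_KPA h_HOM h_CRN h_SIM (h_LFT C) (h_SAM C) h_SRY (h_FRA C)
  | exact p_KPA C h_HOM h_CRN h_SIM (h_LFT C) (h_SAM C) h_SRY (h_FRA C)
theorem h_KPT : Stmt_KPT C := by
  first
  | exact p_KPT (h_LIM C) (h_SAM C) (h_SMT C) (h_FRA C)
  | exact p_KPT C (h_LIM C) (h_SAM C) (h_SMT C) (h_FRA C)
theorem h_LIN : Stmt_LIN C := by
  first
  | exact p_LIN (h_BDS C)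
  | exact p_LIN C (h_BDS C)
theorem h_SPR : Stmt_SPR C := by
  first
  | exact p_SPR (h_LIN C)
  | exact p_SPR C (h_LIN C)
theorem h_KFO : Stmt_KFO C := by
  first
  | exact p_KFO (h_OPE C) (h_KPA C) (h_KPT C) (h_SPR C)
  | exact p_KFO C (h_OPE C) (h_KPA C) (h_KPT C) (h_SPR C)
theorem h_TOB : Stmt_TOB C := by
  first
  | exact p_TOB (h_SMT C) (h_KFO C)
  | exact p_TOB C (h_SMT C) (h_KFO C)
theorem h_UNQ : Stmt_UNQ C := by
  first
  | exact p_UNQ (h_FRA C) (h_TOB C)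
  | exact p_UNQ C (h_FRA C) (h_TOB C)
theorem h_SPX : Stmt_SPX C := by
  first
  | exact p_SPX h_SPE h_LBL h_HOM
  | exact p_SPX C h_SPE h_LBL h_HOM
theorem h_FIA : Stmt_FIA C := by
  first
  | exact p_FIA h_REF h_SRY h_SIM h_COR h_LBL (h_PER C) (h_WLK C) (h_ALN C) (h_PTH C) (h_UNQ C) h_HOM
  | exact p_FIA C h_REF h_SRY h_SIM h_COR h_LBL (h_PER C) (h_WLK C) (h_ALN C) (h_PTH C) (h_UNQ C) h_HOM
theorem h_SEM : Stmt_SEM C := by
  first
  | exact p_SEM
  | exact p_SEM C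
theorem h_TUP : Stmt_TUP C := by
  first
  | exact p_TUP (h_LFT C) (h_OPE C)
  | exact p_TUP C (h_LFT C) (h_OPE C)

/-- What is missing for path connectedness: `Stmt_SEP C` and `Stmt_HLF C`. -/
theorem h_END (hS : Stmt_SEP C) (hH : Stmt_HLF C) : Stmt_END C := by
  have hC : Stmt_CLO C := by
    first
    | exact p_CLO (h_TUP C) hS
    | exact p_CLO C (h_TUP C) hS
  have hA : Stmt_AMP C := by
    first
    | exact p_AMP hC hH
    | exact p_AMP C hC hH
  first
  | exact p_END (h_SPX C) (h_FIA C) (h_SEM C) hA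
  | exact p_END C (h_SPX C) (h_FIA C) (h_SEM C) hA

end Pool.Align
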