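import Pool.Agent.Work.MP_841263_al.Interface
import Pool.Agent.Work.MP_841263_al.B_REF

/-!
# Block NDE: the number of negative classes drops when a wall is crossed (helper72)
-/

open CategoryTheory CategoryTheory.Limits CategoryTheory.Pretriangulated
open scoped ZeroObject Topology
open Filter

namespace Pool.Align

open Pool.Stab Pool.Tube

universe v u

/-- Two combinations with the same value modulo `δ` have the same coefficients. -/
theorem NDE_inj {K : Type u} [AddCommGroup K] {B : K →+ K →+ ℤ} {im : K →+ ℝ} {δ : K}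
    {n : ℕ} {α : Fin n → K} (S : SimpleRoots B im δ α) (k : ℤ) (c d : Fin n → ℤ)
    (h : ∑ i, c i • α i = k • δ + ∑ i, d i • α i) : k = 0 ∧ ∀ i, c i = d i := by
  have h1 : k • δ + ∑ i, (d i - c i) • α i = 0 := by
    have h2 : ∑ i, (d i - c i) • α i = ∑ i, d i • α i - ∑ i, c i • α i := by
      rw [← Finset.sum_sub_distrib]
      exact Finset.sum_congr rfl fun i _ => sub_smul _ _ _
    rw [h2, h]
    abel
  obtain ⟨h3, h4⟩ := S.indep _ _ h1
  exact ⟨h3, fun i => by have := h4 i; omega⟩

theorem p_NDE : Stmt_NDE.{u} := by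
  classical
  intro K _ _ _ B im δ H n α S y hy hfin j hj
  have hb : B (α j) (α j) = 2 := S.norm j
  have hδ : B δ (α j) = 0 := mem_radical.1 H.rad (α j)
  -- the element of a coefficient vector
  let V : (Fin n → ℕ) → K := fun c => ∑ i, (c i : ℤ) • α i
  let X : (Fin n → ℕ) → K := fun c => ∑ i, (c i : ℤ) • refl B α j i
  have hXV : ∀ c, X c = REF_s B (α j) (V c) := by
    intro c
    have h := REF_comb B δ α j hδ 0 (fun i => (c i : ℤ))
    rw [zero_smul, zero_add, zero_add] at h
    exact h.symm
  have hVX : ∀ c, V c = REF_s B (α j) (X c) := fun c => by rw [hXV, REF_ss hb]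
  let g : (Fin n → ℕ) → Fin n → ℤ := fun c i => (c i : ℤ) - (if i = j then B (V c) (α j) else 0)
  have hXg : ∀ c, X c = ∑ i, g c i • α i := by
    intro c
    rw [hXV, REF_s_apply]
    have h1 : ∑ i, g c i • α i = ∑ i, (c i : ℤ) • α i -
        ∑ i, (if i = j then B (V c) (α j) else 0) • α i := by
      rw [← Finset.sum_sub_distrib]
      exact Finset.sum_congr rfl fun i _ => sub_smul _ _ _
    rw [h1]
    congr 1
    simp
  let f : (Fin n → ℕ) → Fin n → ℕ := fun c i => (g c i).toNat
  have hinj : ∀ c d, V c = V d → c = d := by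
    intro c d h
    have h1 : ∑ i, (c i : ℤ) • α i = (0 : ℤ) • δ + ∑ i, (d i : ℤ) • α i := by
      rw [zero_smul, zero_add]; exact h
    funext i
    exact_mod_cast (NDE_inj S 0 _ _ h1).2 i
  have key : ∀ c ∈ Neg B y (refl B α j), V (f c) = X c := by
    rintro c ⟨hc1, hc2⟩
    have hX2 : B (X c) (X c) ≤ 2 := le_of_eq hc1
    rcases REF_coh H S hX2 with ⟨k, d, hd⟩ | ⟨k, d, hd⟩
    · rw [hXg c] at hd
      obtain ⟨_, h2⟩ := NDE_inj S k _ _ hd
      rw [hXg c]
      refine Finset.sum_congr rfl fun i _ => ?_
      have h3 : ((f c i : ℕ) : ℤ) = g c i := by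
        have := h2 i
        simp only [f]
        omega
      rw [h3]
    · exfalso
      rw [hXg c] at hd
      obtain ⟨_, h2⟩ := NDE_inj S k _ _ hd
      have h3 : ∀ i, i ≠ j → c i = 0 := by
        intro i hi
        have := h2 i
        simp only [g, if_neg hi] at this
        omega
      have hV : V c = (c j : ℤ) • α j := by
        simp only [V]
        rw [Finset.sum_eq_single j]
        · intro i _ hi
          rw [h3 i hi]; simp
        · intro h; exact absurd (Finset.mem_univ j) h
      have hVV : B (V c) (V c) = 2 := by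
        have h4 : B (X c) (X c) = 2 := hc1
        rw [hXV, REF_B H.psd hb] at h4
        exact h4
      rw [hV] at hVV
      simp only [map_zsmul, AddMonoidHom.coe_smul, Pi.smul_apply, smul_eq_mul, hb] at hVV
      have hcj : c j = 1 := by
        have h5 : (c j : ℤ) * (c j : ℤ) = 1 := by nlinarith
        have h6 : c j * c j = 1 := by exact_mod_cast h5
        exact Nat.eq_one_of_mul_eq_one_left h6
      have hXx : X c = - α j := by
        rw [hXV, hV, hcj, REF_s_apply]
        simp only [Nat.cast_one, one_smul, hb]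
        rw [two_smul]
        abel
      have h7 : y (X c) < 0 := hc2
      rw [hXx, map_neg] at h7
      linarith
  have hmaps : ∀ c ∈ Neg B y (refl B α j), f c ∈ Neg B y α := by
    intro c hc
    have h1 := key c hc
    obtain ⟨hc1, hc2⟩ := hc
    refine ⟨?_, ?_⟩
    · show B (V (f c)) (V (f c)) = 2
      rw [h1]; exact hc1
    · show y (V (f c)) < 0
      rw [h1]; exact hc2
  have hfinj : Set.InjOn f (Neg B y (refl B α j)) := by
    intro c hc d hd hcd
    apply hinj
    rw [hVX c, hVX d, ← key c hc, ← key d hd, hcd]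
  have hne : ∀ c ∈ Neg B y (refl B α j), f c ≠ Pi.single j 1 := by
    intro c hc hcon
    have h1 := key c hc
    have h2 : V (f c) = α j := by
      rw [hcon]
      simp only [V]
      rw [Finset.sum_eq_single j]
      · simp
      · intro i _ hi
        rw [Pi.single_eq_of_ne hi]; simp
      · intro h; exact absurd (Finset.mem_univ j) h
    have h3 : V c = - α j := by
      rw [hVX c, ← h1, h2, REF_s_apply, hb, two_smul]
      abel
    have h4 : ∑ i, (c i : ℤ) • α i = (0 : ℤ) • δ + ∑ i, (if i = j then (-1 : ℤ) else 0) • α i := by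
      have h5 : ∑ i, (c i : ℤ) • α i = - α j := h3
      rw [h5]
      simp
    have h6 := (NDE_inj S 0 _ _ h4).2 j
    rw [if_pos rfl] at h6
    omega
  have hsub : f '' (Neg B y (refl B α j)) ⊂ Neg B y α := by
    refine ⟨?_, ?_⟩
    · rintro _ ⟨c, hc, rfl⟩
      exact hmaps c hc
    · intro hcon
      have hej : (Pi.single j 1 : Fin n → ℕ) ∈ Neg B y α := by
        have h2 : V (Pi.single j 1) = α j := by
          simp only [V]
          rw [Finset.sum_eq_single j]
          · simp
          · intro i _ hi
            rw [Pi.single_eq_of_ne hi]; simp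
          · intro h; exact absurd (Finset.mem_univ j) h
        refine ⟨?_, ?_⟩
        · show B (V (Pi.single j 1)) (V (Pi.single j 1)) = 2
          rw [h2]; exact hb
        · show y (V (Pi.single j 1)) < 0
          rw [h2]; exact hj
      obtain ⟨c, hc, hce⟩ := hcon hej
      exact hne c hc hce
  refine ⟨?_, ?_⟩
  · exact Set.Finite.of_finite_image (hfin.subset hsub.1) hfinj
  · rw [← hfinj.ncard_image]
    exact Set.ncard_lt_ncard hsub hfin

end Pool.Align
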