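import Pool.Agent.Work.MP_841263_al.Interface

set_option autoImplicit false
set_option linter.unusedSectionVars false

/-! # MP_841263, alignment, block SPR: spreading orthogonality over the fibre -/

open CategoryTheory CategoryTheory.Limits CategoryTheory.Pretriangulated
open scoped ZeroObject Topology
open Filter

namespace Pool.Align

open Pool.Stab Pool.Tube

universe v u

/-- The diagram of simple roots is connected. -/
theorem SPR_conn {K : Type u} [AddCommGroup K] {B : K →+ K →+ ℤ} {im : K →+ ℝ} {δ : K}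
    (hB : ∀ x y, B x y = B y x) (hδ : δ ∈ radical B)
    (irred : ∀ P Q : AddSubgroup K, P ⊔ Q = ⊤ → (∀ x ∈ P, ∀ y ∈ Q, B x y = 0) →
      (∀ x ∈ P, x ∈ radical B) ∨ (∀ x ∈ Q, x ∈ radical B))
    {n : ℕ} {α : Fin n → K} (hR : SimpleRoots B im δ α) (I : Set (Fin n))
    (hI : ∀ i ∈ I, ∀ j, B (α i) (α j) = -1 → j ∈ I) (i₀ : Fin n) (hi₀ : i₀ ∈ I) :
    ∀ j, j ∈ I := by
  classical
  intro j
  by_contra hj
  have hnr : ∀ i, α i ∉ radical B := by
    intro i hi
    have h1 : B (α i) (α i) = 0 := hi (α i)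
    have h2 := hR.norm i
    omega
  obtain ⟨P, hP⟩ : ∃ P : AddSubgroup K, P = AddSubgroup.closure ({δ} ∪ α '' I) := ⟨_, rfl⟩
  obtain ⟨Q, hQ⟩ : ∃ Q : AddSubgroup K, Q = AddSubgroup.closure ({δ} ∪ α '' Iᶜ) := ⟨_, rfl⟩
  have hδP : δ ∈ P := by
    rw [hP]
    exact AddSubgroup.subset_closure (Or.inl rfl)
  have hαP : ∀ i ∈ I, α i ∈ P := by
    intro i hi
    rw [hP]
    exact AddSubgroup.subset_closure (Or.inr ⟨i, hi, rfl⟩)
  have hαQ : ∀ i ∉ I, α i ∈ Q := by
    intro i hi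
    rw [hQ]
    exact AddSubgroup.subset_closure (Or.inr ⟨i, hi, rfl⟩)
  have htop : P ⊔ Q = ⊤ := by
    rw [eq_top_iff]
    intro x _
    obtain ⟨k, c, rfl⟩ := hR.span x
    refine add_mem ?_ (sum_mem fun i _ => ?_)
    · exact zsmul_mem (AddSubgroup.mem_sup_left hδP) k
    · refine zsmul_mem ?_ (c i)
      by_cases hi : i ∈ I
      · exact AddSubgroup.mem_sup_left (hαP i hi)
      · exact AddSubgroup.mem_sup_right (hαQ i hi)
  have hδ0 : ∀ y, B δ y = 0 := hδ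
  have horth : ∀ x ∈ P, ∀ y ∈ Q, B x y = 0 := by
    intro x hx y hy
    rw [hP] at hx
    rw [hQ] at hy
    refine AddSubgroup.closure_induction (p := fun x _ => B x y = 0) ?_ (by simp) ?_ ?_ hx
    · rintro x (hx | ⟨i, hi, rfl⟩)
      · rw [Set.mem_singleton_iff.1 hx]
        exact hδ0 y
      · refine AddSubgroup.closure_induction (p := fun y _ => B (α i) y = 0) ?_ (by simp)
          ?_ ?_ hy
        · rintro y (hy | ⟨j', hj', rfl⟩)
          · rw [Set.mem_singleton_iff.1 hy, hB]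
            exact hδ0 _
          · have hne : i ≠ j' := fun h0 => hj' (h0 ▸ hi)
            rcases hR.off i j' hne with h1 | h1
            · exact h1
            · exact absurd (hI i hi j' h1) hj'
        · intro a b _ _ ha hb
          rw [map_add, ha, hb, add_zero]
        · intro a _ ha
          rw [map_neg, ha, neg_zero]
    · intro a b _ _ ha hb
      rw [map_add, AddMonoidHom.add_apply, ha, hb, add_zero]
    · intro a _ ha
      rw [map_neg, AddMonoidHom.neg_apply, ha, neg_zero]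
  rcases irred P Q htop horth with h1 | h1
  · exact hnr i₀ (h1 _ (hαP i₀ hi₀))
  · exact hnr j (h1 _ (hαQ j hj))

variable {C : Type u} [Category.{v} C] [Preadditive C] [HasZeroObject C] [HasShift C ℤ]
  [∀ n : ℤ, (shiftFunctor C n).Additive] [Pretriangulated C] [IsTriangulated C] [Linear ℂ C]
  [∀ n : ℤ, (shiftFunctor C n).Linear ℂ]

/-- Orthogonality of a cone. -/
theorem SPR_cone {W X Q A : C} {f : W ⟶ X} {p : X ⟶ Q} {q : Q ⟶ W⟦(1 : ℤ)⟧}
    (hT : Triangle.mk f p q ∈ distTriang C) (hW : Orth W A) (hX : Orth X A) : Orth Q A := by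
  intro n a
  exact hom_zero_of_ext₁ (rot_mk hT) (fun b => hX n b) (fun b => orth_shift hW 1 n b) a

theorem p_SPR : Stmt_LIN C → Stmt_SPR C := by
  intro hLIN h σ t δ n α hF A hA hAr Q hQ hQA
  obtain ⟨-, i₀, hi₀⟩ := c_PTL C h σ t δ n α hF Q hQ
  have hstart : ∀ (k : ℤ) (X : C), IsS σ t δ α i₀ k X → Orth X A := by
    obtain ⟨X, hX, -⟩ := c_EXI C h σ t δ n α hF i₀ 0
    obtain ⟨g, hg⟩ := hi₀ 0 X hX
    exact hLIN h σ t δ n α hF A hA hAr i₀ Q hQ ⟨0, X, g, hX, hg⟩ hQA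
  have hstep : ∀ i ∈ {i : Fin n | ∀ (k : ℤ) (X : C), IsS σ t δ α i k X → Orth X A}, ∀ j,
      eulerForm h.k3 (α i) (α j) = -1 →
      j ∈ {i : Fin n | ∀ (k : ℤ) (X : C), IsS σ t δ α i k X → Orth X A} := by
    intro i hi j hij
    obtain ⟨X, hX, -⟩ := c_EXI C h σ t δ n α hF i 0
    obtain ⟨Y, hY, -⟩ := c_EXI C h σ t δ n α hF i (0 + 1)
    obtain ⟨Z, hZ, -⟩ := c_EXI C h σ t δ n α hF j 0
    obtain ⟨Q', hQ', hY', ⟨g, hg⟩, -⟩ :=
      c_ADJ C h σ t δ n α hF i j (0 + 1) 0 Y Z hij hY hZ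
    obtain ⟨f, p, q, -, hT⟩ := c_PEN C h σ t δ n α hF i 0 X Y Q' hX hY hQ' hY'
    have hQ'A : Orth Q' A := SPR_cone hT (hi 0 X hX) (hi (0 + 1) Y hY)
    exact hLIN h σ t δ n α hF A hA hAr j Q' hQ' ⟨0, Z, g, hZ, hg⟩ hQ'A
  have hall := SPR_conn (fun x y => eulerForm_symm h.k3 x y) hF.rad h.irred
    hF.toSimpleRoots _ hstep i₀ hstart
  exact hA.2.1 (c_ORT C h σ t δ n α hF A (fun i k X hX => hall i k X hX))

end Pool.Align
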