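import Pool.Agent.Work.MP_841263_al.Interface

/-! # Alignment, block WAL (helper36): torsion free objects on the wall -/

set_option autoImplicit false

open CategoryTheory CategoryTheory.Limits CategoryTheory.Pretriangulated
open scoped ZeroObject Topology
open Filter

namespace Pool.Align

open Pool.Stab Pool.Tube

universe v u

section

variable {C : Type u} [Category.{v} C] [Preadditive C] [HasZeroObject C] [HasShift C ℤ]
  [∀ n : ℤ, (shiftFunctor C n).Additive] [Pretriangulated C] [IsTriangulated C]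

/-- Removing the two end points of the interval of phases. -/
theorem WAL_ends {S : Slicing C} {t : ℝ} {X : C} (hX : S.In (Set.Icc t (t + 1)) X)
    (hup : ∀ T, S.P (t + 1) T → ∀ f : T ⟶ X, f = 0)
    (hlow : ∀ B, S.P t B → ∀ f : X ⟶ B, f = 0) : S.In (Set.Ioo t (t + 1)) X := by
  classical
  obtain ⟨l, hl, hI⟩ := hX
  obtain ⟨X', X'', f, g, h, hT, hX', hX''⟩ := hl.trunc (Set.Ici (t + 1)) (isUpperSet_Ici _)
  have hU : S.In (Set.Ici (t + 1)) X' :=
    ⟨_, hX', fun φ hφ => by simpa using (List.mem_filter.1 hφ).2⟩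
  have hL : S.In (Set.Ici (t + 1))ᶜ X'' :=
    ⟨_, hX'', fun φ hφ => by simpa using (List.mem_filter.1 hφ).2⟩
  have hP' : S.P (t + 1) X' := by
    refine Slicing.In.P_of_singleton ⟨_, hX', ?_⟩
    intro φ hφ
    obtain ⟨h1, h2⟩ := List.mem_filter.1 hφ
    have h3 : t + 1 ≤ φ := by simpa using h2
    exact le_antisymm (hI φ h1).2 h3
  have hz : IsZero X' := isZero₁_of_mor₁ hT (hup X' hP' f)
    (fun r => (hU.shift_upper (isUpperSet_Ici _)).hom_zero hL
      (IsUpperSet.sep (isUpperSet_Ici _)) r)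
  have hiso := iso_of_isZero₁ hT hz
  have hX2 : HN S.P X (l.filter (· ∉ Set.Ici (t + 1))) := hX''.iso (asIso g).symm
  obtain ⟨Y', Y'', a, b, c, hT2, hY', hY''⟩ := hX2.trunc (Set.Ioi t) (isUpperSet_Ioi _)
  have hU2 : S.In (Set.Ioi t) Y' :=
    ⟨_, hY', fun φ hφ => by simpa using (List.mem_filter.1 hφ).2⟩
  have hL2 : S.In (Set.Ioi t)ᶜ Y'' :=
    ⟨_, hY'', fun φ hφ => by simpa using (List.mem_filter.1 hφ).2⟩
  have hP'' : S.P t Y'' := by
    refine Slicing.In.P_of_singleton ⟨_, hY'', ?_⟩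
    intro φ hφ
    obtain ⟨h1, h2⟩ := List.mem_filter.1 hφ
    have h3 : φ ≤ t := by simpa using h2
    exact le_antisymm h3 (hI φ (List.mem_filter.1 h1).1).1
  have hz2 : IsZero Y'' := isZero₃_of_mor₂ hT2 (hlow Y'' hP'' b)
    (fun r => (hU2.shift_upper (isUpperSet_Ioi _)).hom_zero hL2
      (IsUpperSet.sep (isUpperSet_Ioi _)) r)
  have hiso2 := iso_of_isZero₃ hT2 hz2
  have hfin : HN S.P X ((l.filter (· ∉ Set.Ici (t + 1))).filter (· ∈ Set.Ioi t)) :=
    hY'.iso (asIso a)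
  refine ⟨_, hfin, ?_⟩
  intro φ hφ
  obtain ⟨h1, h2⟩ := List.mem_filter.1 hφ
  obtain ⟨h3, h4⟩ := List.mem_filter.1 h1
  exact ⟨by simpa using h2, by simpa using h4⟩

end

section

variable {C : Type u} [Category.{v} C] [Preadditive C] [HasZeroObject C] [HasShift C ℤ]
  [∀ n : ℤ, (shiftFunctor C n).Additive] [Pretriangulated C] [IsTriangulated C] [Linear ℂ C]
  [∀ n : ℤ, (shiftFunctor C n).Linear ℂ]

theorem p_WAL : Stmt_LIM C → Stmt_SAM C → Stmt_HRT C → Stmt_DIC C → Stmt_WAL C := by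
  intro hLIM hSAM hHRT hDIC h t δ n α j m W hW Γ hΓ hF0 w hw X hX hge hlt
  have := h.finite
  have := h.free
  have h00 : ((0 : unitInterval) : ℝ) = 0 := rfl
  have hcell : ∀ s : unitInterval, (s : ℝ) < 1 / 2 → Frame h (Γ s) t δ α := fun s hs =>
    (c_XRG C h (Γ 0) t δ n α hF0 (W s) (hW.left s ⟨s.2.1, hs⟩)).2 (Γ s) (hΓ s)
  have hsame : ∀ s : unitInterval, (s : ℝ) < 1 / 2 →
      ∀ Y, ((Γ 0).sl.Heart t Y ↔ (Γ s).sl.Heart t Y) := by
    intro s hs Y
    have hJ : ({s | (s : ℝ) < 1 / 2} : Set unitInterval).OrdConnected := by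
      refine ⟨fun a _ b hb c hc => ?_⟩
      have hb' : (b : ℝ) < 1 / 2 := hb
      have hc' : (c : ℝ) ≤ b := hc.2
      exact lt_of_le_of_lt hc' hb'
    have h0 : ((0 : unitInterval) : ℝ) < 1 / 2 := by
      rw [h00]; norm_num
    exact (hHRT h (Γ 0) (Γ s) t δ n α hF0 (hcell s hs)
      (fun i k Z hZ => hSAM h Γ t δ n α {s | (s : ℝ) < 1 / 2} hJ (fun s hs => hcell s hs)
        0 h0 s hs i k Z hZ) Y).1
  -- the limit
  have hIcc : (Γ w).sl.In (Set.Icc t (t + 1)) X := by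
    refine hLIM h Γ w X t (t + 1) ?_
    intro η hη
    have hex : ∃ b : unitInterval, b < w := ⟨0, by
      rw [← Subtype.coe_lt_coe, hw, h00]; norm_num⟩
    have : (𝓝[<] w).NeBot := nhdsLT_neBot_of_exists_lt hex
    refine (frequently_lt_nhds w).mono ?_
    intro s hs
    have hs' : (s : ℝ) < 1 / 2 := by
      rw [← hw]; exact hs
    have h1 := (hsame s hs' X).1 hX.1
    exact h1.mono (fun φ hφ => ⟨by linarith [hφ.1], by linarith [hφ.2]⟩)
  have hstab := hDIC h t δ n α j m W hW Γ hΓ hF0 w hw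
  refine WAL_ends hIcc ?_ ?_
  · intro T hT f
    refine Gen.hom_zero (G := (Γ w).Stable (t + 1)) (G' := fun Y => Y = X) ?_
      ((Γ w).gen_stable hT) (Gen.of rfl) f
    rintro E _ hE rfl f
    rcases hstab E hE with ⟨-, hP | ⟨k, hk, hS⟩⟩ | ⟨U, ⟨e⟩, k, hk, hS⟩
    · exact hX.2.2 E hP f
    · exact hge k hk E hS f
    · have h1 := (Γ 0).hom_shift_zero hS.1.1 hX.1 (e.inv ≫ f)
      rw [← Category.id_comp f, ← e.hom_inv_id, Category.assoc, h1, comp_zero]
  · intro B hB f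
    have hB1 : (Γ w).sl.P (t + 1) (B⟦(1 : ℤ)⟧) := ((Γ w).sl.shift_mem t B).1 hB
    have key : ∀ g : X⟦(1 : ℤ)⟧ ⟶ B⟦(1 : ℤ)⟧, g = 0 := by
      intro g
      refine Gen.hom_zero (G := fun Y => Y = X⟦(1 : ℤ)⟧) (G' := (Γ w).Stable (t + 1)) ?_
        (Gen.of rfl) ((Γ w).gen_stable hB1) g
      rintro _ E rfl hE f
      rcases hstab E hE with ⟨hH, -⟩ | ⟨U, ⟨e⟩, k, hk, hS⟩
      · exact (Γ 0).hom_shift_zero hX.1 hH f
      · obtain ⟨f', hf'⟩ : ∃ f' : X ⟶ U, f'⟦(1 : ℤ)⟧' = f ≫ e.hom :=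
          ⟨(shiftFunctor C (1 : ℤ)).preimage (f ≫ e.hom), Functor.map_preimage _ _⟩
        have h1 := hlt k hk U hS f'
        rw [h1, Functor.map_zero] at hf'
        rw [← Category.comp_id f, ← e.hom_inv_id, ← Category.assoc, ← hf', zero_comp]
    apply (shiftFunctor C (1 : ℤ)).map_injective
    rw [Functor.map_zero]
    exact key _

end

end Pool.Align
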